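import Pool.Agent.Work.MP_d717ad_an.Quot

open scoped ContDiff Topology Polynomial
open MeasureTheory Set

noncomputable section

namespace KaSch

variable {N : ℕ}

/-- `κ = 2⟨k⟩ + N + a - 2`. -/
def kap (D : RootData N) (a : ℝ) : ℝ := 2 * kSum D + N + a - 2

/-- `b = 2⟨k⟩ + N - 2`. -/
def bb (D : RootData N) : ℝ := 2 * kSum D + N - 2

theorem kSum_nonneg (D : RootData N) : 0 ≤ kSum D :=
  Finset.sum_nonneg fun _ h => pos_k_nonneg D h

theorem bb_nonneg (hN : 2 ≤ N) (D : RootData N) : 0 ≤ bb D := by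
  have h := kSum_nonneg D
  have h2 : (2 : ℝ) ≤ N := by exact_mod_cast hN
  unfold bb; linarith

theorem kap_eq (D : RootData N) (a : ℝ) : kap D a = a + bb D := by unfold kap bb; ring

theorem kap_pos (hN : 2 ≤ N) (D : RootData N) {a : ℝ} (ha : 0 < a) : 0 < kap D a := by
  rw [kap_eq]; have := bb_nonneg hN D; linarith

/-- The space `V` of functions smooth on `ℝ^N ∖ {0}`, normalised by `f 0 = 0`. -/
def V (N : ℕ) : Submodule ℂ (E N → ℂ) where
  carrier := {f | ContDiffOn ℝ ∞ f {0}ᶜ ∧ f 0 = 0}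
  add_mem' := by
    rintro f g ⟨hf, hf0⟩ ⟨hg, hg0⟩
    exact ⟨hf.add hg, by simp [hf0, hg0]⟩
  zero_mem' := ⟨contDiffOn_const, rfl⟩
  smul_mem' := by
    rintro c f ⟨hf, hf0⟩
    exact ⟨hf.const_smul c, by simp [hf0]⟩

/-- set the value at `0` to `0` -/
def cut (f : E N → ℂ) (x : E N) : ℂ := if x = 0 then 0 else f x

theorem cut_eqOn (f : E N → ℂ) : EqOn (cut f) f {0}ᶜ := fun x hx => by
  simp only [mem_compl_iff, mem_singleton_iff] at hx
  simp [cut, hx]

@[simp] theorem cut_zero (f : E N → ℂ) : cut f 0 = 0 := by simp [cut]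

theorem cut_apply (f : E N → ℂ) {x : E N} (hx : x ≠ 0) : cut f x = f x := by simp [cut, hx]

theorem cut_mem {f : E N → ℂ} (hf : ContDiffOn ℝ ∞ f {0}ᶜ) : cut f ∈ V N :=
  ⟨hf.congr (cut_eqOn f), cut_zero f⟩

theorem vsmooth (f : V N) : ContDiffOn ℝ ∞ f.1 {0}ᶜ := f.2.1

theorem vdiffAt (f : V N) {x : E N} (hx : x ≠ 0) : DifferentiableAt ℝ f.1 x :=
  (f.2.1.contDiffAt (isOpen_compl_singleton.mem_nhds hx)).differentiableAt (by simp)

theorem vzero (f : V N) : f.1 0 = 0 := f.2.2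

theorem vext {f g : V N} (h : ∀ x, x ≠ 0 → f.1 x = g.1 x) : f = g := by
  apply Subtype.ext
  funext x
  by_cases hx : x = 0
  · subst hx; rw [vzero f, vzero g]
  · exact h x hx

theorem norm_rpow_contDiffOn (s : ℝ) : ContDiffOn ℝ ∞ (fun x : E N => ‖x‖ ^ s) {0}ᶜ := by
  intro x hx
  have hx' : x ≠ 0 := hx
  exact ((contDiffAt_norm ℝ hx').rpow_const_of_ne (norm_ne_zero_iff.mpr hx')).contDiffWithinAt

theorem norm_rpow_contDiffOn' (s : ℝ) :
    ContDiffOn ℝ ∞ (fun x : E N => ((‖x‖ ^ s : ℝ) : ℂ)) {0}ᶜ :=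
  Complex.ofRealCLM.contDiff.comp_contDiffOn (norm_rpow_contDiffOn s)

theorem fderiv_self_contDiffOn {f : E N → ℂ} (hf : ContDiffOn ℝ ∞ f {0}ᶜ) :
    ContDiffOn ℝ ∞ (fun x => fderiv ℝ f x x) {0}ᶜ := by
  have h1 : ContDiffOn ℝ ∞ (fderiv ℝ f) {0}ᶜ :=
    hf.fderiv_of_isOpen isOpen_compl_singleton (by simp)
  exact h1.clm_apply contDiffOn_id

/-- Multiplication by `‖x‖^a` on `V`. -/
def opA (N : ℕ) (a : ℝ) : V N →ₗ[ℂ] V N where
  toFun f := ⟨fun x => ((‖x‖ ^ a : ℝ) : ℂ) * f.1 x,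
    (norm_rpow_contDiffOn' a).mul f.2.1, by simp [f.2.2]⟩
  map_add' f g := by apply Subtype.ext; funext x; simp [mul_add]
  map_smul' c f := by apply Subtype.ext; funext x; simp [mul_left_comm]

@[simp] theorem opA_apply (a : ℝ) (f : V N) (x : E N) :
    (opA N a f).1 x = ((‖x‖ ^ a : ℝ) : ℂ) * f.1 x := rfl

/-- The Euler operator `Θ = x · ∇` on `V`. -/
def opT (N : ℕ) : V N →ₗ[ℂ] V N where
  toFun f := ⟨fun x => fderiv ℝ f.1 x x, fderiv_self_contDiffOn f.2.1, by simp⟩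
  map_add' f g := vext fun x hx => by
    have := fderiv_add (vdiffAt f hx) (vdiffAt g hx)
    simp only [Submodule.coe_add]
    rw [this]; rfl
  map_smul' c f := vext fun x hx => by
    have := fderiv_const_smul (vdiffAt f hx) c
    simp only [Submodule.coe_smul]
    rw [this]; rfl

@[simp] theorem opT_apply (f : V N) (x : E N) : (opT N f).1 x = fderiv ℝ f.1 x x := rfl

/-- The operator `‖x‖^{2-a} Δ_k` on `V`. -/
def opB (D : RootData N) (a : ℝ) : V N →ₗ[ℂ] V N where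
  toFun f := ⟨cut (BF D a f.1), cut_mem (BF_contDiffOn D a f.2.1)⟩
  map_add' f g := vext fun x hx => by
    simp only [Submodule.coe_add, Pi.add_apply, cut_apply _ hx]
    unfold BF
    have := Lap_add D (vsmooth f) (vsmooth g) hx
    rw [← mul_add, ← this]; rfl
  map_smul' c f := vext fun x hx => by
    simp only [Submodule.coe_smul, Pi.smul_apply, cut_apply _ hx, RingHom.id_apply, smul_eq_mul]
    unfold BF
    have := Lap_const_mul D (vsmooth f) c hx
    rw [mul_left_comm, ← this]; rfl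

theorem opB_apply (D : RootData N) (a : ℝ) (f : V N) {x : E N} (hx : x ≠ 0) :
    (opB D a f).1 x = BF D a f.1 x := cut_apply _ hx

/-- The operator `Δ_{k,a}` on `V`. -/
def opL (D : RootData N) (a : ℝ) : V N →ₗ[ℂ] V N := opB D a - opA N a

/-- `k`-harmonic homogeneous polynomials of degree `m`. -/
def Harm (D : RootData N) (m : ℕ) : Set (E N → ℂ) := {p | p ∈ Hom N m ∧ ∀ x, Lap D p x = 0}

/-- The function `p(x) q(‖x‖^a) exp(-‖x‖^a/a)` on `ℝ^N ∖ {0}`, `q` a real polynomial. -/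
def PF (a : ℝ) (p : E N → ℂ) (q : ℝ[X]) (x : E N) : ℂ :=
  p x * ((q.eval (‖x‖ ^ a) * Real.exp (-(‖x‖ ^ a) / a) : ℝ) : ℂ)

/-- Action of `Θ` on the radial polynomial, in degree `m`. -/
def Tm (a : ℝ) (m : ℕ) (q : ℝ[X]) : ℝ[X] :=
  Polynomial.C (m : ℝ) * q + Polynomial.C a * (Polynomial.X * Polynomial.derivative q)
    - Polynomial.X * q

/-- Action of `‖x‖^{2-a}Δ_k` on the radial polynomial, in degree `m`; here `b = 2⟨k⟩+N-2`. -/
def Bm (a b : ℝ) (m : ℕ) (q : ℝ[X]) : ℝ[X] :=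
  Polynomial.X * q - Polynomial.C (2 * a) * (Polynomial.X * Polynomial.derivative q)
    - Polynomial.C (a + b + 2 * m) * q
    + Polynomial.C (a ^ 2) * (Polynomial.X * Polynomial.derivative (Polynomial.derivative q))
    + Polynomial.C (a * (a + b + 2 * m)) * Polynomial.derivative q

/-- The raising operator `A + B - (2Θ + κ)` on radial polynomials. -/
def Rm (a b : ℝ) (m : ℕ) (q : ℝ[X]) : ℝ[X] :=
  Polynomial.X * q + Bm a b m q - (Polynomial.C 2 * Tm a m q + Polynomial.C (a + b) * q)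

/-- The radial polynomials `q_{m,l} = R_m^l 1` (multiples of Laguerre polynomials). -/
def qq (a b : ℝ) (m l : ℕ) : ℝ[X] := (Rm a b m)^[l] 1

/-- The eigenvalue `μ_{m,l} = κ + 2m + 2al` of `-Δ_{k,a}`. -/
def ev (a b : ℝ) (m l : ℕ) : ℝ := (a + b) + 2 * m + 2 * a * l

/-- The squared norm of `r^m q(r^a) e^{-r^a/a}` in `L²((0,∞), r^{κ-1} dr)`, `κ = a + b`. -/
def nsq (a b : ℝ) (m : ℕ) (q : ℝ[X]) : ℝ :=
  ∫ r in Ioi (0 : ℝ), (r ^ m * (q.eval (r ^ a) * Real.exp (-(r ^ a) / a))) ^ 2 * r ^ (a + b - 1)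

/-- The weighted surface measure on the unit sphere. -/
def sig (D : RootData N) : Measure (Metric.sphere (0 : E N) 1) :=
  ((volume : Measure (E N)).toSphere).withDensity (fun w => ENNReal.ofReal (wt D (w : E N)))

/-- The measure `r^{κ-1} dr` on `(0,∞)`. -/
def rad (κ : ℝ) : Measure ℝ :=
  (volume.restrict (Ioi (0 : ℝ))).withDensity (fun r => ENNReal.ofReal (r ^ (κ - 1)))

/-- Letters for words in the three operators. -/
inductive Lt : Type
  | A | B | T
  deriving DecidableEq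

/-- action of a letter on `V` -/
def lv (D : RootData N) (a : ℝ) : Lt → V N →ₗ[ℂ] V N
  | Lt.A => opA N a
  | Lt.B => opB D a
  | Lt.T => opT N

/-- action of a word on `V` -/
def wv (D : RootData N) (a : ℝ) : List Lt → V N →ₗ[ℂ] V N
  | [] => LinearMap.id
  | c :: w => (lv D a c).comp (wv D a w)

/-- action of a letter on radial polynomials in degree `m` -/
def lr (a b : ℝ) (m : ℕ) : Lt → ℝ[X] → ℝ[X]
  | Lt.A => fun q => Polynomial.X * q
  | Lt.B => Bm a b m
  | Lt.T => Tm a m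

/-- action of a word on radial polynomials in degree `m` -/
def wr (a b : ℝ) (m : ℕ) : List Lt → ℝ[X] → ℝ[X]
  | [] => id
  | c :: w => fun q => lr a b m c (wr a b m w q)

/-- Infinitesimal rotation `x_i ∂_j - x_j ∂_i`. -/
def rot (i j : Fin N) (f : E N → ℂ) (x : E N) : ℂ :=
  fderiv ℝ f x (x i • ee j - x j • ee i)

/-- Letters for words in `Θ` (`none`) and the rotations; action on functions. -/
def zl (c : Option (Fin N × Fin N)) (f : E N → ℂ) (x : E N) : ℂ :=
  match c with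
  | none => fderiv ℝ f x x
  | some (i, j) => rot i j f x

/-- words in `Θ` and the rotations -/
def zw : List (Option (Fin N × Fin N)) → (E N → ℂ) → (E N → ℂ)
  | [], f => f
  | c :: w, f => zl c (zw w f)

/-- `f` is bounded on `ℝ^N` together with all its multiples by powers of `‖x‖^a`. -/
def Decay (a : ℝ) (f : E N → ℂ) : Prop :=
  ∀ n : ℕ, ∃ C : ℝ, ∀ x : E N, x ≠ 0 → (‖x‖ ^ a) ^ n * ‖f x‖ ≤ C

end KaSch
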