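import Pool.Agent.Work.MP_d717ad_an.Base

open scoped ContDiff Topology Polynomial
open MeasureTheory Set

noncomputable section

namespace KaSch

namespace Comp1Aux

/-- local step of the moment lemma -/
theorem step {X : Type*} [MeasurableSpace X] (ν : Measure X) {G : X → ℂ} {T : X → ℝ}
    (hT : Measurable T) (hG : AEStronglyMeasurable G ν) {δ : ℝ} (hδ : 0 < δ)
    (hint : Integrable (fun x => Real.exp (δ * |T x|) * ‖G x‖) ν)
    (h0 : ∀ j : ℕ, ∫ x, ((T x : ℂ)) ^ j * G x ∂ν = 0) {s : ℝ} (hs : |s| ≤ δ / 2) (j : ℕ) :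
    ∫ x, (T x : ℂ) ^ j * (Complex.exp (Complex.I * s * T x) * G x) ∂ν = 0 := by
  set F : ℕ → X → ℂ := fun n x =>
    ((Complex.I * s) ^ n / (n.factorial : ℂ)) * ((T x : ℂ) ^ (j + n) * G x) with hF
  set bd : ℕ → X → ℝ := fun n x =>
    (|s| * |T x|) ^ n / (n.factorial : ℝ) * (|T x| ^ j * ‖G x‖) with hbd
  have hTc : Measurable fun x => (T x : ℂ) := Complex.measurable_ofReal.comp hT
  have hbound : ∀ n x, ‖F n x‖ = bd n x := by
    intro n x
    simp only [hF, hbd, norm_mul, norm_div, norm_pow, Complex.norm_I, Complex.norm_real,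
      Real.norm_eq_abs, one_mul, Complex.norm_natCast]
    rw [mul_pow, pow_add]
    ring
  have hsumbd : ∀ x, HasSum (fun n => bd n x) (Real.exp (|s| * |T x|) * (|T x| ^ j * ‖G x‖)) := by
    intro x
    have h1 : HasSum (fun n : ℕ => (|s| * |T x|) ^ n / (n.factorial : ℝ))
        (Real.exp (|s| * |T x|)) := by
      rw [Real.exp_eq_exp_ℝ]
      exact NormedSpace.expSeries_div_hasSum_exp (|s| * |T x|)
    exact h1.mul_right _
  have hsumF : ∀ x, HasSum (fun n => F n x)
      ((T x : ℂ) ^ j * (Complex.exp (Complex.I * s * T x) * G x)) := by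
    intro x
    have h1 : HasSum (fun n : ℕ => (Complex.I * s * T x) ^ n / (n.factorial : ℂ))
        (Complex.exp (Complex.I * s * T x)) := by
      rw [Complex.exp_eq_exp_ℂ]
      exact NormedSpace.expSeries_div_hasSum_exp (Complex.I * s * T x)
    have h2 := h1.mul_right ((T x : ℂ) ^ j * G x)
    have e1 : (fun n => F n x) = fun n : ℕ => (Complex.I * s * T x) ^ n / (n.factorial : ℂ) *
        ((T x : ℂ) ^ j * G x) := by
      funext n
      simp only [hF]
      rw [mul_pow (Complex.I * s) (T x : ℂ), pow_add]
      ring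
    rw [e1]
    have e2 : (T x : ℂ) ^ j * (Complex.exp (Complex.I * s * T x) * G x) =
        Complex.exp (Complex.I * s * T x) * ((T x : ℂ) ^ j * G x) := by ring
    rw [e2]
    exact h2
  have hkey : Integrable (fun x => ∑' n, bd n x) ν := by
    have e : (fun x => ∑' n, bd n x) =
        fun x => Real.exp (|s| * |T x|) * (|T x| ^ j * ‖G x‖) := by
      funext x; exact (hsumbd x).tsum_eq
    rw [e]
    have hc : ∀ u : ℝ, 0 ≤ u → u ^ j ≤ (j.factorial : ℝ) * (2 / δ) ^ j * Real.exp (δ / 2 * u) := by
      intro u hu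
      have h3 : (δ / 2 * u) ^ j / (j.factorial : ℝ) ≤ Real.exp (δ / 2 * u) :=
        Real.pow_div_factorial_le_exp _ (by positivity) j
      have hfac : (0 : ℝ) < j.factorial := by exact_mod_cast j.factorial_pos
      have h4 : (δ / 2 * u) ^ j ≤ (j.factorial : ℝ) * Real.exp (δ / 2 * u) := by
        rw [div_le_iff₀ hfac] at h3; linarith
      have h5 : u ^ j = (2 / δ) ^ j * (δ / 2 * u) ^ j := by
        rw [← mul_pow]; congr 1; field_simp
      rw [h5]
      calc (2 / δ) ^ j * (δ / 2 * u) ^ j
          ≤ (2 / δ) ^ j * ((j.factorial : ℝ) * Real.exp (δ / 2 * u)) := by gcongr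
        _ = _ := by ring
    refine Integrable.mono' (hint.const_mul ((j.factorial : ℝ) * (2 / δ) ^ j)) ?_ ?_
    · refine AEStronglyMeasurable.mul ?_ (AEStronglyMeasurable.mul ?_ hG.norm)
      · exact (Real.measurable_exp.comp (measurable_const.mul hT.abs)).aestronglyMeasurable
      · exact (hT.abs.pow_const j).aestronglyMeasurable
    · refine Filter.Eventually.of_forall fun x => ?_
      have h6 := hc |T x| (abs_nonneg _)
      rw [Real.norm_of_nonneg (by positivity)]
      have h7 : Real.exp (|s| * |T x|) ≤ Real.exp (δ / 2 * |T x|) := by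
        apply Real.exp_le_exp.mpr
        exact mul_le_mul_of_nonneg_right hs (abs_nonneg _)
      have h8 : Real.exp (δ / 2 * |T x|) * Real.exp (δ / 2 * |T x|) = Real.exp (δ * |T x|) := by
        rw [← Real.exp_add]; congr 1; ring
      calc Real.exp (|s| * |T x|) * (|T x| ^ j * ‖G x‖)
          ≤ Real.exp (δ / 2 * |T x|) *
            (((j.factorial : ℝ) * (2 / δ) ^ j * Real.exp (δ / 2 * |T x|)) * ‖G x‖) := by
              gcongr
        _ = (j.factorial : ℝ) * (2 / δ) ^ j *
            ((Real.exp (δ / 2 * |T x|) * Real.exp (δ / 2 * |T x|)) * ‖G x‖) := by ring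
        _ = _ := by rw [h8]
  have hmain := hasSum_integral_of_dominated_convergence (μ := ν) (F := F)
    (f := fun x => (T x : ℂ) ^ j * (Complex.exp (Complex.I * s * T x) * G x)) bd
    (fun n => ((hTc.pow_const (j + n)).aestronglyMeasurable.mul hG).const_mul _)
    (fun n => Filter.Eventually.of_forall fun x => (hbound n x).le)
    (Filter.Eventually.of_forall fun x => (hsumbd x).summable) hkey
    (Filter.Eventually.of_forall hsumF)
  have hz : ∀ n, ∫ x, F n x ∂ν = 0 := by
    intro n
    simp only [hF]
    rw [integral_const_mul, h0 (j + n), mul_zero]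
  have : HasSum (fun _ : ℕ => (0 : ℂ))
      (∫ x, (T x : ℂ) ^ j * (Complex.exp (Complex.I * s * T x) * G x) ∂ν) := by
    have := hmain
    simp only [hz] at this
    exact this
  exact this.unique hasSum_zero

end Comp1Aux

/-- moment lemma: a finite complex measure `G ν` with exponential moments in `T` all of whose
`T`-moments vanish has vanishing `T`-characteristic function -/
theorem moment_zero {X : Type*} [MeasurableSpace X] (ν : Measure X) {G : X → ℂ} {T : X → ℝ}
    (hT : Measurable T) (hG : AEStronglyMeasurable G ν) {δ : ℝ} (hδ : 0 < δ)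
    (hint : Integrable (fun x => Real.exp (δ * |T x|) * ‖G x‖) ν)
    (h0 : ∀ j : ℕ, ∫ x, ((T x : ℂ)) ^ j * G x ∂ν = 0) (s : ℝ) :
    ∫ x, Complex.exp (Complex.I * s * T x) * G x ∂ν = 0 := by
  have hTc : Measurable fun x => (T x : ℂ) := Complex.measurable_ofReal.comp hT
  -- all multiples
  have key : ∀ (t : ℝ), |t| ≤ δ / 2 → ∀ n j : ℕ,
      ∫ x, (T x : ℂ) ^ j * (Complex.exp (Complex.I * ((n : ℝ) * t : ℝ) * T x) * G x) ∂ν = 0 := by
    intro t ht n
    induction n with
    | zero =>
      intro j
      simpa using h0 j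
    | succ n ih =>
      intro j
      have hm : AEStronglyMeasurable
          (fun x => Complex.exp (Complex.I * ((n : ℝ) * t : ℝ) * T x) * G x) ν := by
        refine AEStronglyMeasurable.mul ?_ hG
        exact (Complex.measurable_exp.comp (measurable_const.mul hTc)).aestronglyMeasurable
      have hn : ∀ x, ‖Complex.exp (Complex.I * ((n : ℝ) * t : ℝ) * T x) * G x‖ = ‖G x‖ := by
        intro x
        rw [norm_mul, Complex.norm_exp]
        have : (Complex.I * ((n : ℝ) * t : ℝ) * (T x : ℂ)).re = 0 := by
          simp [Complex.mul_re]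
        rw [this, Real.exp_zero, one_mul]
      have hst := Comp1Aux.step ν hT hm hδ (by simpa only [hn] using hint) ih ht j
      convert hst using 1
      refine integral_congr_ae (Filter.Eventually.of_forall fun x => ?_)
      simp only
      rw [← mul_assoc (Complex.exp _) (Complex.exp _) (G x), ← Complex.exp_add]
      congr 3
      push_cast
      ring
  obtain ⟨n, hn⟩ : ∃ n : ℕ, |s| / (δ / 2) < n := exists_nat_gt _
  have hn0 : 0 < (n : ℝ) := lt_of_le_of_lt (by positivity) hn
  have ht : |s / n| ≤ δ / 2 := by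
    rw [abs_div, abs_of_pos hn0, div_le_iff₀ hn0]
    rw [div_lt_iff₀ (by positivity)] at hn
    linarith
  have := key (s / n) ht n 0
  have e : ((n : ℝ) * (s / n) : ℝ) = s := by field_simp
  rw [e] at this
  simpa using this

namespace Comp1Aux

/-- a real integrable function with vanishing `T`-characteristic function is zero, `T` injective -/
theorem charZero_real {X : Type*} [MeasurableSpace X] (ν : Measure X) {G T : X → ℝ}
    (hT : Measurable T) (hG : Integrable G ν)
    (hinj : ∀ B : Set X, MeasurableSet B → ∃ A : Set ℝ, MeasurableSet A ∧ T ⁻¹' A =ᵐ[ν] B)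
    (hz : ∀ s : ℝ, ∫ x, Complex.exp (Complex.I * s * T x) * (G x : ℂ) ∂ν = 0) :
    G =ᵐ[ν] 0 := by
  set P : X → ENNReal := fun x => ENNReal.ofReal (G x) with hP
  set Q : X → ENNReal := fun x => ENNReal.ofReal (-G x) with hQ
  have hPm : AEMeasurable P ν := hG.1.aemeasurable.ennreal_ofReal
  have hQm : AEMeasurable Q ν := hG.1.aemeasurable.neg.ennreal_ofReal
  have hPf : ∫⁻ x, P x ∂ν ≠ ⊤ := by
    exact hG.lintegral_lt_top.ne
  have hQf : ∫⁻ x, Q x ∂ν ≠ ⊤ := by
    exact hG.neg.lintegral_lt_top.ne
  have : IsFiniteMeasure (ν.withDensity P) := isFiniteMeasure_withDensity hPf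
  have : IsFiniteMeasure (ν.withDensity Q) := isFiniteMeasure_withDensity hQf
  have hem : ∀ s : ℝ, Measurable fun y : ℝ => Complex.exp (s * y * Complex.I) := by
    intro s; fun_prop
  have hmap : (ν.withDensity P).map T = (ν.withDensity Q).map T := by
    apply Measure.ext_of_charFun
    funext s
    rw [charFun_apply_real, charFun_apply_real,
      integral_map hT.aemeasurable (hem s).aestronglyMeasurable,
      integral_map hT.aemeasurable (hem s).aestronglyMeasurable,
      integral_withDensity_eq_integral_toReal_smul₀ hPm (Filter.Eventually.of_forall fun x => by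
        simp [hP]),
      integral_withDensity_eq_integral_toReal_smul₀ hQm (Filter.Eventually.of_forall fun x => by
        simp [hQ])]
    have hbd : ∀ x, ‖Complex.exp (s * T x * Complex.I)‖ = 1 := by
      intro x
      rw [show (s : ℂ) * T x * Complex.I = ((s * T x : ℝ) : ℂ) * Complex.I by push_cast; ring]
      exact Complex.norm_exp_ofReal_mul_I _
    have i1 : Integrable (fun x => (P x).toReal • Complex.exp (s * T x * Complex.I)) ν := by
      refine Integrable.mono' hG.norm ?_ ?_
      · exact hPm.ennreal_toReal.aestronglyMeasurable.smul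
          ((hem s).comp hT).aestronglyMeasurable
      · refine Filter.Eventually.of_forall fun x => ?_
        rw [norm_smul, hbd, mul_one]
        simp only [hP, ENNReal.toReal_ofReal']
        rw [Real.norm_eq_abs, Real.norm_eq_abs, abs_of_nonneg (le_max_right _ _)]
        exact max_le (le_abs_self _) (abs_nonneg _)
    have i2 : Integrable (fun x => (Q x).toReal • Complex.exp (s * T x * Complex.I)) ν := by
      refine Integrable.mono' hG.norm ?_ ?_
      · exact hQm.ennreal_toReal.aestronglyMeasurable.smul
          ((hem s).comp hT).aestronglyMeasurable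
      · refine Filter.Eventually.of_forall fun x => ?_
        rw [norm_smul, hbd, mul_one]
        simp only [hQ, ENNReal.toReal_ofReal']
        rw [Real.norm_eq_abs, Real.norm_eq_abs, abs_of_nonneg (le_max_right _ _)]
        exact max_le (neg_le_abs _) (abs_nonneg _)
    rw [← sub_eq_zero, ← integral_sub i1 i2, ← hz s]
    refine integral_congr_ae (Filter.Eventually.of_forall fun x => ?_)
    simp only [hP, hQ, ENNReal.toReal_ofReal']
    have : max (G x) 0 - max (-G x) 0 = G x := by
      rcases le_total 0 (G x) with h | h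
      · rw [max_eq_left h, max_eq_right (by linarith)]; ring
      · rw [max_eq_right h, max_eq_left (by linarith)]; ring
    rw [← sub_smul, this, Complex.real_smul, mul_comm]
    congr 2
    ring
  have hmeas : ν.withDensity P = ν.withDensity Q := by
    ext B hB
    obtain ⟨A, hA, hAB⟩ := hinj B hB
    have e1 : (ν.withDensity P) B = (ν.withDensity P) (T ⁻¹' A) :=
      measure_congr ((withDensity_absolutelyContinuous ν P).ae_eq hAB.symm)
    have e2 : (ν.withDensity Q) B = (ν.withDensity Q) (T ⁻¹' A) :=
      measure_congr ((withDensity_absolutelyContinuous ν Q).ae_eq hAB.symm)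
    rw [e1, e2, ← Measure.map_apply hT hA, ← Measure.map_apply hT hA, hmap]
  have hae := (withDensity_eq_iff hPm hQm hPf).mp hmeas
  filter_upwards [hae] with x hx
  simp only [hP, hQ] at hx
  by_contra hne
  rcases lt_or_gt_of_ne (show G x ≠ 0 from hne) with h | h
  · rw [ENNReal.ofReal_of_nonpos h.le] at hx
    have : 0 < ENNReal.ofReal (-G x) := ENNReal.ofReal_pos.mpr (by linarith)
    exact absurd hx this.ne
  · rw [ENNReal.ofReal_of_nonpos (show -G x ≤ 0 by linarith)] at hx
    have : 0 < ENNReal.ofReal (G x) := ENNReal.ofReal_pos.mpr h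
    exact absurd hx this.ne'

theorem charZero {X : Type*} [MeasurableSpace X] (ν : Measure X) {G : X → ℂ} {T : X → ℝ}
    (hT : Measurable T) (hG : Integrable G ν)
    (hinj : ∀ B : Set X, MeasurableSet B → ∃ A : Set ℝ, MeasurableSet A ∧ T ⁻¹' A =ᵐ[ν] B)
    (hz : ∀ s : ℝ, ∫ x, Complex.exp (Complex.I * s * T x) * G x ∂ν = 0) :
    G =ᵐ[ν] 0 := by
  have hem : ∀ s : ℝ, Measurable fun x : X => Complex.exp (Complex.I * s * T x) := by
    intro s
    exact Complex.measurable_exp.comp
      (measurable_const.mul (Complex.measurable_ofReal.comp hT))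
  have hbd : ∀ (s : ℝ) x, ‖Complex.exp (Complex.I * s * T x)‖ = 1 := by
    intro s x
    rw [show Complex.I * s * T x = ((s * T x : ℝ) : ℂ) * Complex.I by push_cast; ring]
    exact Complex.norm_exp_ofReal_mul_I _
  have hz' : ∀ s : ℝ, ∫ x, Complex.exp (Complex.I * s * T x) * (starRingEnd ℂ) (G x) ∂ν = 0 := by
    intro s
    have h1 := congrArg (starRingEnd ℂ) (hz (-s))
    rw [← integral_conj, map_zero] at h1
    rw [← h1]
    refine integral_congr_ae (Filter.Eventually.of_forall fun x => ?_)
    simp only [map_mul, ← Complex.exp_conj, Complex.conj_I, Complex.conj_ofReal]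
    congr 2
    push_cast
    ring
  have hint : ∀ s : ℝ, Integrable (fun x => Complex.exp (Complex.I * s * T x) * G x) ν := by
    intro s
    refine hG.bdd_mul (c := 1) (hem s).aestronglyMeasurable
      (Filter.Eventually.of_forall fun x => (hbd s x).le)
  have hGc : Integrable (fun x => (starRingEnd ℂ) (G x)) ν := by
    refine Integrable.mono' hG.norm (Complex.continuous_conj.comp_aestronglyMeasurable hG.1) ?_
    exact Filter.Eventually.of_forall fun x => by simp
  have hint' : ∀ s : ℝ,
      Integrable (fun x => Complex.exp (Complex.I * s * T x) * (starRingEnd ℂ) (G x)) ν := by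
    intro s
    refine hGc.bdd_mul (c := 1) (hem s).aestronglyMeasurable
      (Filter.Eventually.of_forall fun x => (hbd s x).le)
  have hre : (fun x => (G x).re) =ᵐ[ν] 0 := by
    refine charZero_real ν hT hG.re hinj fun s => ?_
    have : ∫ x, Complex.exp (Complex.I * s * T x) * ((G x).re : ℂ) ∂ν =
        (2 : ℂ)⁻¹ * (∫ x, Complex.exp (Complex.I * s * T x) * G x ∂ν +
          ∫ x, Complex.exp (Complex.I * s * T x) * (starRingEnd ℂ) (G x) ∂ν) := by
      rw [← integral_add (hint s) (hint' s), ← integral_const_mul]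
      refine integral_congr_ae (Filter.Eventually.of_forall fun x => ?_)
      simp only
      rw [Complex.re_eq_add_conj]
      ring
    rw [this, hz, hz']; simp
  have him : (fun x => (G x).im) =ᵐ[ν] 0 := by
    refine charZero_real ν hT hG.im hinj fun s => ?_
    have : ∫ x, Complex.exp (Complex.I * s * T x) * ((G x).im : ℂ) ∂ν =
        (2 * Complex.I : ℂ)⁻¹ * (∫ x, Complex.exp (Complex.I * s * T x) * G x ∂ν -
          ∫ x, Complex.exp (Complex.I * s * T x) * (starRingEnd ℂ) (G x) ∂ν) := by
      rw [← integral_sub (hint s) (hint' s), ← integral_const_mul]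
      refine integral_congr_ae (Filter.Eventually.of_forall fun x => ?_)
      simp only
      rw [Complex.im_eq_sub_conj]
      field_simp
    rw [this, hz, hz']; simp
  filter_upwards [hre, him] with x h1 h2
  exact Complex.ext h1 h2

theorem rad_pos (κ : ℝ) : ∀ᵐ r ∂(rad κ), (0 : ℝ) < r := by
  have h : ∀ᵐ r ∂((volume : Measure ℝ).restrict (Ioi (0 : ℝ))), (0 : ℝ) < r :=
    ae_restrict_mem measurableSet_Ioi
  exact (withDensity_absolutelyContinuous _ _).ae_le h

theorem rad_int {κ : ℝ} {f : ℝ → ℝ} (h : IntegrableOn (fun r => r ^ (κ - 1) * f r) (Ioi 0)) :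
    Integrable f (rad κ) := by
  unfold rad
  rw [integrable_withDensity_iff_integrable_smul' (by fun_prop)
    (Filter.Eventually.of_forall fun x => ENNReal.ofReal_lt_top)]
  refine h.congr ?_
  filter_upwards [ae_restrict_mem (measurableSet_Ioi (a := (0:ℝ)))] with r hr
  have hr' : (0 : ℝ) < r := hr
  rw [ENNReal.toReal_ofReal (by positivity), smul_eq_mul]

end Comp1Aux

open Comp1Aux in
/-- radial completeness -/
theorem compR {a κ : ℝ} (ha : 0 < a) (hκ : 0 < κ) (m : ℕ) {h : ℝ → ℂ} (hh : MemLp h 2 (rad κ))
    (h0 : ∀ q : ℝ[X], ∫ r, ((r ^ m * (q.eval (r ^ a) * Real.exp (-(r ^ a) / a)) : ℝ) : ℂ) * h r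
      ∂(rad κ) = 0) : h =ᵐ[rad κ] 0 := by
  set T : ℝ → ℝ := fun r => r ^ a with hTd
  have hT : Measurable T := by simp only [hTd]; fun_prop
  set u : ℝ → ℝ := fun r => r ^ m * Real.exp (-(r ^ a) / a) with hu
  set G : ℝ → ℂ := fun r => (u r : ℂ) * h r with hGd
  have hum : Measurable u := by simp only [hu]; fun_prop
  have hGm : AEStronglyMeasurable G (rad κ) :=
    (Complex.measurable_ofReal.comp hum).aestronglyMeasurable.mul hh.1
  -- exponential moments
  have hδ : (0 : ℝ) < 1 / (2 * a) := by positivity
  set w : ℝ → ℝ := fun r => r ^ m * Real.exp (-(r ^ a) / (2 * a)) with hw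
  have hwm : Measurable w := by simp only [hw]; fun_prop
  have hw2 : MemLp w 2 (rad κ) := by
    rw [memLp_two_iff_integrable_sq hwm.aestronglyMeasurable]
    apply rad_int
    have hi := integrableOn_rpow_mul_exp_neg_mul_rpow (p := a) (s := κ - 1 + 2 * m) (b := 1 / a)
      (by have : (0 : ℝ) ≤ m := Nat.cast_nonneg m
          linarith) ha (by positivity)
    refine hi.congr_fun ?_ measurableSet_Ioi
    intro r hr
    have hr' : (0 : ℝ) < r := hr
    simp only [hw]
    rw [mul_pow, ← Real.exp_nat_mul, Real.rpow_add hr', ← Real.rpow_natCast r m,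
      ← Real.rpow_mul_natCast hr'.le, mul_assoc]
    congr 1
    congr 1
    · congr 1
      push_cast
      ring
    · congr 1
      push_cast
      field_simp
  have hint : Integrable (fun r => Real.exp (1 / (2 * a) * |T r|) * ‖G r‖) (rad κ) := by
    have hprod : Integrable (fun r => w r * ‖h r‖) (rad κ) := by
      have := hw2.integrable_mul hh.norm
      exact this
    refine hprod.congr ?_
    filter_upwards [rad_pos κ] with r hr
    have hT0 : 0 < T r := Real.rpow_pos_of_pos hr a
    simp only [hGd, norm_mul, Complex.norm_real, Real.norm_eq_abs]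
    have hu0 : 0 < u r := by simp only [hu]; positivity
    rw [abs_of_pos hu0, abs_of_pos hT0, ← mul_assoc]
    congr 1
    simp only [hw, hu, hTd]
    rw [mul_left_comm, ← Real.exp_add]
    congr 2
    field_simp
    ring
  have hmom : ∀ j : ℕ, ∫ r, ((T r : ℂ)) ^ j * G r ∂(rad κ) = 0 := by
    intro j
    rw [← h0 (Polynomial.X ^ j)]
    refine integral_congr_ae (Filter.Eventually.of_forall fun r => ?_)
    simp only [hGd, hu, hTd, Polynomial.eval_pow, Polynomial.eval_X]
    push_cast
    ring
  have hchar := fun s => moment_zero (rad κ) hT hGm hδ hint hmom s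
  have hGi : Integrable G (rad κ) := by
    refine Integrable.mono' hint hGm (Filter.Eventually.of_forall fun r => ?_)
    have : 1 ≤ Real.exp (1 / (2 * a) * |T r|) := Real.one_le_exp (by positivity)
    nlinarith [norm_nonneg (G r)]
  have hinj : ∀ B : Set ℝ, MeasurableSet B →
      ∃ A : Set ℝ, MeasurableSet A ∧ T ⁻¹' A =ᵐ[rad κ] B := by
    intro B hB
    refine ⟨(fun t : ℝ => t ^ (1 / a)) ⁻¹' B ∩ Ioi 0, ?_, ?_⟩
    · refine MeasurableSet.inter ?_ measurableSet_Ioi
      have : Measurable (fun t : ℝ => t ^ (1 / a)) := by fun_prop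
      exact this hB
    · filter_upwards [rad_pos κ] with r hr
      have hT0 : 0 < T r := Real.rpow_pos_of_pos hr a
      have hinv : (T r) ^ (1 / a) = r := by
        simp only [hTd]
        rw [← Real.rpow_mul hr.le, mul_one_div_cancel ha.ne', Real.rpow_one]
      apply propext
      constructor
      · rintro ⟨h1, _⟩
        have : (T r) ^ (1 / a) ∈ B := h1
        rwa [hinv] at this
      · intro h1
        have h1' : r ∈ B := h1
        refine ⟨?_, hT0⟩
        show (T r) ^ (1 / a) ∈ B
        rwa [hinv]
  have hG0 := charZero (rad κ) hT hGi hinj hchar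
  filter_upwards [hG0, rad_pos κ] with r h1 hr
  have hu0 : 0 < u r := by simp only [hu]; positivity
  have h2 : (u r : ℂ) * h r = 0 := h1
  rcases mul_eq_zero.mp h2 with h3 | h3
  · exact absurd (by exact_mod_cast h3) hu0.ne'
  · exact h3

end KaSch
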