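import Pool.Agent.Work.MP_d717ad_an.Base

/-!
# Module HOM1: homogeneous polynomial functions
-/

open scoped ContDiff Topology Polynomial
open MeasureTheory Set

noncomputable section

namespace KaSch

variable {N : ℕ}

/-- evaluation of a complex polynomial at a point of `ℝ^N` -/
def ev1 (P : MvPolynomial (Fin N) ℂ) (x : E N) : ℂ :=
  MvPolynomial.eval (fun i => ((x i : ℝ) : ℂ)) P

theorem mem_hom_iff {m : ℕ} {p : E N → ℂ} :
    p ∈ Hom N m ↔ ∃ P : MvPolynomial (Fin N) ℂ, P.IsHomogeneous m ∧ p = ev1 P := by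
  constructor
  · rintro ⟨P, hP, h⟩
    exact ⟨P, hP, funext h⟩
  · rintro ⟨P, hP, h⟩
    exact ⟨P, hP, fun x => by rw [h]; rfl⟩

theorem ev1_mem {m : ℕ} {P : MvPolynomial (Fin N) ℂ} (hP : P.IsHomogeneous m) :
    ev1 P ∈ Hom N m := mem_hom_iff.mpr ⟨P, hP, rfl⟩

/-- the `i`-th real coordinate as a complex valued linear form -/
def crd (i : Fin N) : E N →L[ℝ] ℂ :=
  Complex.ofRealCLM.comp (EuclideanSpace.proj i : E N →L[ℝ] ℝ)

@[simp] theorem crd_apply (i : Fin N) (x : E N) : crd i x = ((x i : ℝ) : ℂ) := rfl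

theorem ev1_hasFDerivAt (P : MvPolynomial (Fin N) ℂ) (x : E N) :
    HasFDerivAt (ev1 P) (∑ i, ev1 (MvPolynomial.pderiv i P) x • crd i) x := by
  induction P using MvPolynomial.induction_on with
  | C a =>
    have h1 : ev1 (MvPolynomial.C a : MvPolynomial (Fin N) ℂ) = fun _ => a := by
      funext y; simp [ev1]
    rw [h1]
    have h2 : (∑ i, ev1 (MvPolynomial.pderiv i (MvPolynomial.C a)) x • crd i : E N →L[ℝ] ℂ)
        = 0 := by
      refine Finset.sum_eq_zero fun i _ => ?_
      ext v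
      rw [_root_.smul_apply, MvPolynomial.pderiv_C,
        show ev1 (0 : MvPolynomial (Fin N) ℂ) x = 0 by simp [ev1]]
      simp
    rw [h2]
    exact hasFDerivAt_const a x
  | add P Q hP hQ =>
    have h1 : ev1 (P + Q) = fun y => ev1 P y + ev1 Q y := by
      funext y; simp [ev1]
    rw [h1]
    refine (hP.add hQ).congr_fderiv ?_
    rw [← Finset.sum_add_distrib]
    refine Finset.sum_congr rfl fun i _ => ?_
    rw [← add_smul]
    simp [ev1]
  | mul_X P j hP =>
    have h1 : ev1 (P * MvPolynomial.X j) = fun y => ev1 P y * crd j y := by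
      funext y; simp [ev1]
    rw [h1]
    refine (hP.mul (crd j).hasFDerivAt).congr_fderiv ?_
    ext v
    simp only [_root_.add_apply, _root_.smul_apply, smul_eq_mul, _root_.sum_apply,
      Finset.mul_sum]
    have h2 : ∀ i, ev1 (MvPolynomial.pderiv i (P * MvPolynomial.X j)) x * crd i v =
        crd j x * (ev1 (MvPolynomial.pderiv i P) x * crd i v) +
          (if i = j then ev1 P x * crd i v else 0) := by
      intro i
      rw [MvPolynomial.pderiv_mul]
      by_cases hij : i = j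
      · subst hij
        simp [ev1]
        ring
      · rw [MvPolynomial.pderiv_X_of_ne (Ne.symm hij)]
        simp [ev1, hij]
        ring
    simp only [h2, Finset.sum_add_distrib, Finset.sum_ite_eq', Finset.mem_univ, if_true]
    ring

theorem ev1_contDiff (P : MvPolynomial (Fin N) ℂ) : ContDiff ℝ ∞ (ev1 P) := by
  induction P using MvPolynomial.induction_on with
  | C a =>
    have h1 : ev1 (MvPolynomial.C a : MvPolynomial (Fin N) ℂ) = fun _ => a := by
      funext y; simp [ev1]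
    rw [h1]
    exact contDiff_const
  | add P Q hP hQ =>
    have h1 : ev1 (P + Q) = fun y => ev1 P y + ev1 Q y := by
      funext y; simp [ev1]
    rw [h1]
    exact hP.add hQ
  | mul_X P j hP =>
    have h1 : ev1 (P * MvPolynomial.X j) = fun y => ev1 P y * crd j y := by
      funext y; simp [ev1]
    rw [h1]
    exact hP.mul (crd j).contDiff

theorem hom_contDiff {m : ℕ} {p : E N → ℂ} (hp : p ∈ Hom N m) : ContDiff ℝ ∞ p := by
  obtain ⟨P, _, rfl⟩ := mem_hom_iff.mp hp
  exact ev1_contDiff P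

theorem hom_smul {m : ℕ} {p : E N → ℂ} (hp : p ∈ Hom N m) (t : ℝ) (x : E N) :
    p (t • x) = ((t ^ m : ℝ) : ℂ) * p x := by
  obtain ⟨P, hP, rfl⟩ := mem_hom_iff.mp hp
  unfold ev1
  rw [MvPolynomial.eval_eq', MvPolynomial.eval_eq', Finset.mul_sum]
  refine Finset.sum_congr rfl fun d hd => ?_
  have hdeg : ∑ i, d i = m := by
    have := hP.degree_eq_sum_deg_support hd
    rw [this]
    exact (Finset.sum_subset (Finset.subset_univ _) fun i _ hi => by
      simpa using hi).symm
  have h1 : (∏ i, (((t • x) i : ℝ) : ℂ) ^ d i) = ((t ^ m : ℝ) : ℂ) * ∏ i, ((x i : ℝ) : ℂ) ^ d i := by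
    rw [← hdeg]
    push_cast
    rw [← Finset.prod_pow_eq_pow_sum, ← Finset.prod_mul_distrib]
    refine Finset.prod_congr rfl fun i _ => ?_
    simp [mul_pow]
  rw [h1]
  ring

theorem hom_euler {m : ℕ} {p : E N → ℂ} (hp : p ∈ Hom N m) (x : E N) :
    fderiv ℝ p x x = (m : ℂ) * p x := by
  obtain ⟨P, hP, rfl⟩ := mem_hom_iff.mp hp
  rw [(ev1_hasFDerivAt P x).fderiv]
  have h := hP.sum_X_mul_pderiv
  have h2 := congrArg (fun Q => ev1 Q x) h
  simp only [ev1, map_sum, map_mul, MvPolynomial.eval_X, nsmul_eq_mul, map_natCast] at h2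
  simp only [_root_.sum_apply, _root_.smul_apply, smul_eq_mul, crd_apply]
  rw [show ((m : ℂ) * ev1 P x) = (m : ℂ) * MvPolynomial.eval (fun i => ((x i : ℝ) : ℂ)) P from rfl,
    ← h2]
  exact Finset.sum_congr rfl fun i _ => by unfold ev1; ring

theorem hom_conj {m : ℕ} {p : E N → ℂ} (hp : p ∈ Hom N m) :
    (fun x => (starRingEnd ℂ) (p x)) ∈ Hom N m := by
  obtain ⟨P, hP, rfl⟩ := mem_hom_iff.mp hp
  refine ⟨MvPolynomial.map (starRingEnd ℂ) P, hP.map _, fun x => ?_⟩
  unfold ev1
  rw [MvPolynomial.eval_map]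
  have h := MvPolynomial.eval₂_comp_left (starRingEnd ℂ) (RingHom.id ℂ)
    (fun i => ((x i : ℝ) : ℂ)) P
  rw [MvPolynomial.eval₂_id] at h
  show (starRingEnd ℂ) (MvPolynomial.eval (fun i => ((x i : ℝ) : ℂ)) P) = _
  rw [h, RingHom.comp_id]
  congr 1
  funext i
  simp

theorem hom_mul {m n : ℕ} {p q : E N → ℂ} (hp : p ∈ Hom N m) (hq : q ∈ Hom N n) :
    (fun x => p x * q x) ∈ Hom N (m + n) := by
  obtain ⟨P, hP, rfl⟩ := mem_hom_iff.mp hp
  obtain ⟨Q, hQ, rfl⟩ := mem_hom_iff.mp hq
  exact ⟨P * Q, hP.mul hQ, fun x => by simp [ev1]⟩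

theorem hom_coord (i : Fin N) : (fun x : E N => ((x i : ℝ) : ℂ)) ∈ Hom N 1 :=
  ⟨MvPolynomial.X i, MvPolynomial.isHomogeneous_X _ i, fun x => by simp⟩

theorem hom_const (c : ℂ) : (fun _ : E N => c) ∈ Hom N 0 :=
  ⟨MvPolynomial.C c, MvPolynomial.isHomogeneous_C _ c, fun x => by simp⟩

theorem hom_add {m : ℕ} {p q : E N → ℂ} (hp : p ∈ Hom N m) (hq : q ∈ Hom N m) :
    (fun x => p x + q x) ∈ Hom N m := (Hom N m).add_mem hp hq

theorem hom_cmul {m : ℕ} {p : E N → ℂ} (hp : p ∈ Hom N m) (c : ℂ) :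
    (fun x => c * p x) ∈ Hom N m := (Hom N m).smul_mem c hp

theorem hom_sum {m : ℕ} {ι : Type*} (s : Finset ι) {p : ι → E N → ℂ}
    (hp : ∀ i ∈ s, p i ∈ Hom N m) : (fun x => ∑ i ∈ s, p i x) ∈ Hom N m := by
  have h := (Hom N m).sum_mem hp
  rwa [show (∑ i ∈ s, p i) = fun x => ∑ i ∈ s, p i x from funext fun x => by
    rw [Finset.sum_apply]] at h

/-- the derivative in direction `ξ` of a homogeneous polynomial -/
theorem hom_fderiv {m : ℕ} {p : E N → ℂ} (hp : p ∈ Hom N (m + 1)) (ξ : E N) :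
    (fun x => fderiv ℝ p x ξ) ∈ Hom N m := by
  obtain ⟨P, hP, rfl⟩ := mem_hom_iff.mp hp
  have h1 : (fun x => fderiv ℝ (ev1 P) x ξ) =
      fun x => ∑ i, ((ξ i : ℝ) : ℂ) * ev1 (MvPolynomial.pderiv i P) x := by
    funext x
    rw [(ev1_hasFDerivAt P x).fderiv]
    simp only [_root_.sum_apply, _root_.smul_apply, smul_eq_mul, crd_apply]
    exact Finset.sum_congr rfl fun i _ => by ring
  rw [h1]
  refine hom_sum _ fun i _ => hom_cmul (ev1_mem ?_) _
  have h2 := hP.pderiv (i := i)
  simpa using h2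

theorem hom_zero_const {p : E N → ℂ} (hp : p ∈ Hom N 0) : ∃ c : ℂ, p = fun _ => c := by
  refine ⟨p 0, funext fun x => ?_⟩
  have h := hom_smul hp 0 x
  simp at h
  exact h.symm

/-- a homogeneous polynomial of degree `m + 1` in terms of its partial derivatives -/
theorem hom_succ_eq {m : ℕ} {p : E N → ℂ} (hp : p ∈ Hom N (m + 1)) :
    p = fun x => ((m + 1 : ℝ) : ℂ)⁻¹ * ∑ i, ((x i : ℝ) : ℂ) * fderiv ℝ p x (ee i) := by
  funext x
  have h := hom_euler hp x
  have hx : x = ∑ i, x i • ee i := by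
    ext j
    simp [ee, Finset.sum_apply, Pi.single_apply]
  have h1 : fderiv ℝ p x x = ∑ i, ((x i : ℝ) : ℂ) * fderiv ℝ p x (ee i) := by
    conv_lhs => rw [show fderiv ℝ p x x = fderiv ℝ p x (∑ i, x i • ee i) by rw [← hx]]
    rw [map_sum]
    exact Finset.sum_congr rfl fun i _ => by rw [map_smul]; simp
  rw [← h1, h]
  have : ((m : ℂ) + 1) ≠ 0 := by exact_mod_cast Nat.succ_ne_zero m
  push_cast
  field_simp

theorem hom_rot {m : ℕ} {p : E N → ℂ} (hp : p ∈ Hom N m) (i j : Fin N) :
    rot i j p ∈ Hom N m := by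
  cases m with
  | zero =>
    obtain ⟨c, rfl⟩ := hom_zero_const hp
    have : rot i j (fun _ : E N => c) = fun _ => 0 := by
      funext x; simp [rot]
    rw [this]
    exact hom_const 0
  | succ m =>
    have h1 : rot i j p = fun x => ((x i : ℝ) : ℂ) * fderiv ℝ p x (ee j) +
        (-1 : ℂ) * (((x j : ℝ) : ℂ) * fderiv ℝ p x (ee i)) := by
      funext x
      unfold rot
      rw [map_sub, map_smul, map_smul]
      simp only [Complex.real_smul]
      ring
    rw [h1]
    have e : 1 + m = m + 1 := by ring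
    refine hom_add ?_ (hom_cmul ?_ _)
    · exact e ▸ hom_mul (hom_coord i) (hom_fderiv hp (ee j))
    · exact e ▸ hom_mul (hom_coord j) (hom_fderiv hp (ee i))

theorem hom_finite (N m : ℕ) : FiniteDimensional ℂ (Hom N m) := by
  have hfg := MvPolynomial.homogeneousSubmodule_fg (σ := Fin N) (R := ℂ) m
  let L : MvPolynomial (Fin N) ℂ →ₗ[ℂ] (E N → ℂ) :=
    { toFun := fun P => ev1 P
      map_add' := fun P Q => by funext x; simp [ev1]
      map_smul' := fun c P => by funext x; simp [ev1] }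
  have h1 : Hom N m = (MvPolynomial.homogeneousSubmodule (Fin N) ℂ m).map L := by
    ext p
    rw [mem_hom_iff, Submodule.mem_map]
    constructor
    · rintro ⟨P, hP, rfl⟩
      exact ⟨P, hP, rfl⟩
    · rintro ⟨P, hP, rfl⟩
      exact ⟨P, hP, rfl⟩
  rw [h1]
  exact Module.Finite.iff_fg.mpr (hfg.map L)

theorem refl_coord_mem (α : E N) (i : Fin N) :
    (fun x : E N => (((refl α x) i : ℝ) : ℂ)) ∈ Hom N 1 := by
  have h1 : (fun x : E N => (((refl α x) i : ℝ) : ℂ)) = fun x =>
      ((x i : ℝ) : ℂ) + (-(2 / (inner ℝ α α : ℝ) * α i : ℝ) : ℂ) *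
        ∑ j, ((α j : ℝ) : ℂ) * ((x j : ℝ) : ℂ) := by
    funext x
    have h2 : (inner ℝ α x : ℝ) = ∑ j, α j * x j := by
      rw [PiLp.inner_apply]
      exact Finset.sum_congr rfl fun j _ => by simp [mul_comm]
    have h3 : (refl α x) i = x i - 2 * inner ℝ α x / inner ℝ α α * α i := by
      unfold refl; simp
    rw [h3, h2]
    push_cast
    ring
  rw [h1]
  exact hom_add (hom_coord i) (hom_cmul (hom_sum _ fun j _ => hom_cmul (hom_coord j) _) _)

/-- composition with a reflection -/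
theorem hom_refl (α : E N) : ∀ (m : ℕ) {p : E N → ℂ}, p ∈ Hom N m →
    (fun x => p (refl α x)) ∈ Hom N m := by
  intro m
  induction m with
  | zero =>
    intro p hp
    obtain ⟨c, rfl⟩ := hom_zero_const hp
    exact hom_const c
  | succ m ih =>
    intro p hp
    have h1 : (fun x => p (refl α x)) = fun x => ((m + 1 : ℝ) : ℂ)⁻¹ *
        ∑ i, (((refl α x) i : ℝ) : ℂ) * fderiv ℝ p (refl α x) (ee i) := by
      funext x
      exact congrFun (hom_succ_eq hp) (refl α x)
    rw [h1]
    have e : 1 + m = m + 1 := by ring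
    refine hom_cmul (hom_sum _ fun i _ => ?_) _
    have h2 := hom_mul (refl_coord_mem α i) (ih (hom_fderiv hp (ee i)))
    exact e ▸ h2

theorem quot_zero_fn (α : E N) (x : E N) (c : ℂ) : quot α (fun _ => c) x = 0 := by
  unfold quot
  split_ifs <;> simp

theorem quot_sum {α : E N} {ι : Type*} (s : Finset ι) {f : ι → E N → ℂ}
    (hf : ∀ i ∈ s, Differentiable ℝ (f i)) (x : E N) :
    quot α (fun y => ∑ i ∈ s, f i y) x = ∑ i ∈ s, quot α (f i) x := by
  classical
  induction s using Finset.induction_on with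
  | empty => simpa using quot_zero_fn α x 0
  | insert a s ha ih =>
    have h1 : (fun y => ∑ i ∈ insert a s, f i y) = fun y => f a y + ∑ i ∈ s, f i y := by
      funext y; rw [Finset.sum_insert ha]
    have hs : ∀ i ∈ s, Differentiable ℝ (f i) := fun i hi => hf i (Finset.mem_insert_of_mem hi)
    have hd : Differentiable ℝ (fun y => ∑ i ∈ s, f i y) := Differentiable.fun_sum hs
    rw [h1, quot_add (hf a (Finset.mem_insert_self a s) x) (hd x), ih hs, Finset.sum_insert ha]

theorem quot_hom {α : E N} (hα : α ≠ 0) : ∀ (m : ℕ) {p : E N → ℂ}, p ∈ Hom N (m + 1) →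
    quot α p ∈ Hom N m := by
  intro m
  induction m with
  | zero =>
    intro p hp
    have hd : ∀ i, ∃ c : ℂ, (fun x => fderiv ℝ p x (ee i)) = fun _ => c :=
      fun i => hom_zero_const (hom_fderiv hp (ee i))
    choose c hc using hd
    have h1 : p = fun x => ((0 + 1 : ℝ) : ℂ)⁻¹ * ∑ i, ((x i : ℝ) : ℂ) * c i := by
      have := hom_succ_eq hp
      rw [this]
      funext x
      congr 1
      · simp
      · refine Finset.sum_congr rfl fun i _ => ?_
        have := congrFun (hc i) x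
        rw [this]
    have h2 : quot α p = fun x => ((0 + 1 : ℝ) : ℂ)⁻¹ *
        ∑ i, (((2 * α i / inner ℝ α α : ℝ) : ℂ) * c i) := by
      funext x
      conv_lhs => rw [h1]
      have hdiff : ∀ i, Differentiable ℝ fun y : E N => ((y i : ℝ) : ℂ) * c i := fun i =>
        (crd i).differentiable.mul_const (c i)
      rw [quot_const_mul (Differentiable.fun_sum (fun i _ => hdiff i) x),
        quot_sum _ (fun i _ => hdiff i)]
      congr 1
      refine Finset.sum_congr rfl fun i _ => ?_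
      rw [quot_coord_mul hα (differentiableAt_const _) i, quot_zero_fn]
      ring
    rw [h2]
    exact hom_const _
  | succ m ih =>
    intro p hp
    have hdm : ∀ i, (fun x => fderiv ℝ p x (ee i)) ∈ Hom N (m + 1) :=
      fun i => hom_fderiv hp (ee i)
    have hdd : ∀ i, Differentiable ℝ (fun x => fderiv ℝ p x (ee i)) :=
      fun i => (hom_contDiff (hdm i)).differentiable (by simp)
    have h2 : quot α p = fun x => (((m + 1 : ℕ) + 1 : ℝ) : ℂ)⁻¹ *
        ∑ i, (((2 * α i / inner ℝ α α : ℝ) : ℂ) * fderiv ℝ p (refl α x) (ee i) +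
          ((x i : ℝ) : ℂ) * quot α (fun y => fderiv ℝ p y (ee i)) x) := by
      funext x
      conv_lhs => rw [hom_succ_eq hp]
      have hdiff : ∀ i, Differentiable ℝ fun y : E N => ((y i : ℝ) : ℂ) * fderiv ℝ p y (ee i) :=
        fun i => (crd i).differentiable.mul (hdd i)
      rw [quot_const_mul (Differentiable.fun_sum (fun i _ => hdiff i) x),
        quot_sum _ (fun i _ => hdiff i)]
      congr 1
      refine Finset.sum_congr rfl fun i _ => ?_
      rw [quot_coord_mul hα (hdd i x) i]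
    rw [h2]
    refine hom_cmul (hom_sum _ fun i _ => hom_add (hom_cmul (hom_refl α _ (hdm i)) _) ?_) _
    have e : 1 + m = m + 1 := by ring
    exact e ▸ hom_mul (hom_coord i) (ih (hdm i))

theorem T_hom (D : RootData N) (ξ : E N) {m : ℕ} {p : E N → ℂ} (hp : p ∈ Hom N (m + 1)) :
    T D ξ p ∈ Hom N m := by
  have h : T D ξ p = fun x => fderiv ℝ p x ξ +
      ∑ α ∈ D.pos, ((D.k α * inner ℝ α ξ : ℝ) : ℂ) * quot α p x := rfl
  rw [h]
  exact hom_add (hom_fderiv hp ξ) (hom_sum _ fun α hα => hom_cmul (quot_hom (pos_ne_zero D hα) m hp) _)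

theorem Lap_hom (D : RootData N) {m : ℕ} {p : E N → ℂ} (hp : p ∈ Hom N (m + 2)) :
    Lap D p ∈ Hom N m := by
  have h : Lap D p = fun x => ∑ j : Fin N, T D (ee j) (T D (ee j) p) x := rfl
  rw [h]
  exact hom_sum _ fun j _ => T_hom D _ (T_hom D _ hp)

theorem T_const (D : RootData N) (ξ : E N) (c : ℂ) (x : E N) : T D ξ (fun _ => c) x = 0 := by
  unfold T
  simp [quot_zero_fn]

theorem Lap_hom_le_one (D : RootData N) {m : ℕ} (hm : m ≤ 1) {p : E N → ℂ} (hp : p ∈ Hom N m) :
    ∀ x, Lap D p x = 0 := by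
  intro x
  unfold Lap
  refine Finset.sum_eq_zero fun j _ => ?_
  have hT : ∃ c : ℂ, T D (ee j) p = fun _ => c := by
    interval_cases m
    · obtain ⟨c, rfl⟩ := hom_zero_const hp
      exact ⟨0, funext fun y => T_const D _ c y⟩
    · exact hom_zero_const (T_hom D _ hp)
  obtain ⟨c, hc⟩ := hT
  rw [hc]
  exact T_const D _ c x

theorem harm_conj (D : RootData N) {m : ℕ} {p : E N → ℂ} (hp : p ∈ Harm D m) :
    (fun x => (starRingEnd ℂ) (p x)) ∈ Harm D m := by
  obtain ⟨h1, h2⟩ := hp
  have hc : Continuous (Lap D (fun x => (starRingEnd ℂ) (p x))) := by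
    unfold Lap
    refine continuous_finsetSum _ fun j _ => ?_
    exact (T_contDiff D _ (T_contDiff D _ (hom_contDiff (hom_conj h1)))).continuous
  refine ⟨hom_conj h1, fun x => ?_⟩
  by_cases hx : x = 0
  · subst hx
    rcases Nat.lt_or_ge m 2 with hm | hm
    · exact Lap_hom_le_one D (by omega) (hom_conj h1) 0
    · obtain ⟨n, rfl⟩ : ∃ n, m = n + 2 := ⟨m - 2, by omega⟩
      have h3 := Lap_hom D (hom_conj h1)
      cases n with
      | zero =>
        obtain ⟨c, hc0⟩ := hom_zero_const h3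
        by_cases hN : ∃ y : E N, y ≠ 0
        · obtain ⟨y, hy⟩ := hN
          have h4 := Lap_conj D (hom_contDiff h1).contDiffOn hy
          rw [h2 y, map_zero, hc0] at h4
          rw [hc0]; exact h4
        · push Not at hN
          have : ∀ f : E N → ℂ, Lap D f 0 = Lap D f 0 := fun _ => rfl
          -- the space is trivial: every derivative vanishes
          have hz : ∀ v : E N, v = 0 := hN
          unfold Lap
          refine Finset.sum_eq_zero fun j _ => ?_
          unfold T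
          have hα : ∀ α ∈ D.pos, False := fun α hα => pos_ne_zero D hα (hz α)
          rw [Finset.sum_eq_zero fun α h => (hα α h).elim]
          rw [hz (ee j)]
          simp
      | succ n =>
        have h4 := hom_smul h3 0 0
        simpa using h4
  · rw [Lap_conj D (hom_contDiff h1).contDiffOn hx, h2 x, map_zero]

end KaSch
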