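import Pool.Agent.Work.MP_d717ad_an.Base

open scoped ContDiff Topology Polynomial
open MeasureTheory Set

noncomputable section

namespace KaSch

variable {N : ℕ}

/-! ### Module REL1: `Δ_k` of a radial function times a function -/

theorem inner_ee (α : E N) (j : Fin N) : (inner ℝ α (ee j) : ℝ) = α j := by
  unfold ee
  rw [EuclideanSpace.inner_single_right]
  simp

theorem sum_coord_ee (x : E N) : ∑ j : Fin N, (x j) • (ee j : E N) = x := by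
  ext i
  simp [ee, Finset.sum_apply, Pi.single_apply]

theorem sum_mul_coord (x y : E N) : ∑ j : Fin N, x j * y j = (inner ℝ x y : ℝ) := by
  rw [PiLp.inner_apply]
  apply Finset.sum_congr rfl
  intro j _
  simp [mul_comm]

theorem sum_coord_fderiv (f : E N → ℂ) (x : E N) :
    ∑ j : Fin N, ((x j : ℝ) : ℂ) * fderiv ℝ f x (ee j) = fderiv ℝ f x x := by
  have h : fderiv ℝ f x (∑ j : Fin N, (x j) • (ee j : E N)) =
      ∑ j : Fin N, ((x j : ℝ) : ℂ) * fderiv ℝ f x (ee j) := by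
    rw [map_sum]
    apply Finset.sum_congr rfl
    intro j _
    rw [map_smul, Complex.real_smul]
  rw [← h, sum_coord_ee]

theorem add_smul_aux {M : Type*} [AddCommGroup M] [Module ℝ M] (v : M) :
    (2 : ℝ) • v = v + v := two_smul ℝ v

/-- the derivative of a radial function -/
theorem hasFDerivAt_radial {χ : ℝ → ℝ} {x : E N} (hx : x ≠ 0) (hχ : DifferentiableAt ℝ χ ‖x‖) :
    HasFDerivAt (fun y : E N => ((χ ‖y‖ : ℝ) : ℂ))
      (Complex.ofRealCLM.comp ((deriv χ ‖x‖ / ‖x‖) • innerSL ℝ x)) x := by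
  have h1 : HasFDerivAt (fun y : E N => ‖y‖) ((‖x‖⁻¹ : ℝ) • innerSL ℝ x) x := by
    have h2 : HasStrictFDerivAt (fun y : E N => ‖y‖ ^ 2) (2 • innerSL ℝ x) x :=
      hasStrictFDerivAt_norm_sq x
    have h3 := h2.hasFDerivAt.sqrt (by positivity)
    have h4 : (fun y : E N => √(‖y‖ ^ 2)) = fun y => ‖y‖ := by
      funext y; exact Real.sqrt_sq (norm_nonneg y)
    rw [h4, Real.sqrt_sq (norm_nonneg x)] at h3
    refine h3.congr_fderiv ?_
    have : ‖x‖ ≠ 0 := norm_ne_zero_iff.mpr hx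
    rw [two_smul, ← add_smul_aux, smul_smul]
    congr 1
    field_simp
  have h5 := hχ.hasDerivAt.comp_hasFDerivAt x h1
  have h6 := (Complex.ofRealCLM.hasFDerivAt (x := χ ‖x‖)).comp x h5
  refine h6.congr_fderiv ?_
  rw [smul_smul, div_eq_mul_inv]

theorem fderiv_radial {χ : ℝ → ℝ} {x : E N} (hx : x ≠ 0) (hχ : DifferentiableAt ℝ χ ‖x‖)
    (v : E N) : fderiv ℝ (fun y : E N => ((χ ‖y‖ : ℝ) : ℂ)) x v =
      ((deriv χ ‖x‖ / ‖x‖ * inner ℝ x v : ℝ) : ℂ) := by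
  rw [(hasFDerivAt_radial hx hχ).fderiv]
  simp

theorem T_radial_mul (D : RootData N) (ξ : E N) {χ : ℝ → ℝ} {f : E N → ℂ} {x : E N} (hx : x ≠ 0)
    (hχ : DifferentiableAt ℝ χ ‖x‖) (hf : DifferentiableAt ℝ f x) :
    T D ξ (fun y => ((χ ‖y‖ : ℝ) : ℂ) * f y) x =
      ((deriv χ ‖x‖ / ‖x‖ : ℝ) : ℂ) * (((inner ℝ x ξ : ℝ) : ℂ) * f x)
      + ((χ ‖x‖ : ℝ) : ℂ) * T D ξ f x := by
  unfold T
  have hg := (hasFDerivAt_radial hx hχ).differentiableAt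
  rw [fderiv_fun_mul hg hf]
  simp only [_root_.add_apply, _root_.smul_apply, smul_eq_mul, fderiv_radial hx hχ]
  have h1 : ∀ α ∈ D.pos, ((D.k α * inner ℝ α ξ : ℝ) : ℂ) *
      quot α (fun y => ((χ ‖y‖ : ℝ) : ℂ) * f y) x =
      ((χ ‖x‖ : ℝ) : ℂ) * (((D.k α * inner ℝ α ξ : ℝ) : ℂ) * quot α f x) := by
    intro α hα
    have hα0 := pos_ne_zero D hα
    rw [quot_mul_of_inv hα0 hf hg (fun y => by rw [norm_refl hα0])]
    ring
  rw [Finset.sum_congr rfl h1, ← Finset.mul_sum]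
  push_cast
  ring

theorem T_coord_mul (D : RootData N) (j : Fin N) {f : E N → ℂ} {x : E N}
    (hf : DifferentiableAt ℝ f x) :
    T D (ee j) (fun y => ((y j : ℝ) : ℂ) * f y) x =
      f x + ((x j : ℝ) : ℂ) * T D (ee j) f x
      + ∑ α ∈ D.pos, ((D.k α * 2 / inner ℝ α α * (α j * α j) : ℝ) : ℂ) * f (refl α x) := by
  unfold T
  rw [fderiv_fun_mul (coord_diffAt j x) hf]
  simp only [_root_.add_apply, _root_.smul_apply, smul_eq_mul, fderiv_coord]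
  have h0 : (ee j : E N) j = 1 := by simp [ee]
  rw [h0]
  have h1 : ∀ α ∈ D.pos, ((D.k α * inner ℝ α (ee j) : ℝ) : ℂ) *
      quot α (fun y => ((y j : ℝ) : ℂ) * f y) x =
      ((x j : ℝ) : ℂ) * (((D.k α * inner ℝ α (ee j) : ℝ) : ℂ) * quot α f x) +
      ((D.k α * 2 / inner ℝ α α * (α j * α j) : ℝ) : ℂ) * f (refl α x) := by
    intro α hα
    have hα0 := pos_ne_zero D hα
    rw [quot_coord_mul hα0 hf j, inner_ee]
    push_cast
    ring
  rw [Finset.sum_congr rfl h1, Finset.sum_add_distrib, ← Finset.mul_sum]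
  push_cast
  ring

theorem inner_mul_quot {α : E N} (f : E N → ℂ) (x : E N) :
    ((inner ℝ α x : ℝ) : ℂ) * quot α f x = f x - f (refl α x) := by
  unfold quot
  split_ifs with h
  · rw [refl_eq_self h, h]; simp
  · have : ((inner ℝ α x : ℝ) : ℂ) ≠ 0 := by exact_mod_cast h
    field_simp

/-- `∑_j x_j T_j = Θ + ∑_α k_α (f(x) - f(σ_α x))` -/
theorem sum_coord_T (D : RootData N) (f : E N → ℂ) (x : E N) :
    ∑ j : Fin N, ((x j : ℝ) : ℂ) * T D (ee j) f x =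
      fderiv ℝ f x x + ∑ α ∈ D.pos, ((D.k α : ℝ) : ℂ) * (f x - f (refl α x)) := by
  unfold T
  simp only [mul_add, Finset.sum_add_distrib, sum_coord_fderiv, Finset.mul_sum]
  congr 1
  rw [Finset.sum_comm]
  apply Finset.sum_congr rfl
  intro α hα
  rw [← inner_mul_quot (α := α) f x, ← sum_mul_coord, Complex.ofReal_sum, Finset.sum_mul,
    Finset.mul_sum]
  apply Finset.sum_congr rfl
  intro j _
  rw [inner_ee]
  push_cast
  ring

/-- the key identity `∑_j (T_j x_j + x_j T_j) = N + 2⟨k⟩ + 2Θ` -/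
theorem sum_T_coord (D : RootData N) {f : E N → ℂ} {x : E N} (hf : DifferentiableAt ℝ f x) :
    ∑ j : Fin N, (T D (ee j) (fun y => ((y j : ℝ) : ℂ) * f y) x
        + ((x j : ℝ) : ℂ) * T D (ee j) f x) =
      ((N + 2 * kSum D : ℝ) : ℂ) * f x + 2 * fderiv ℝ f x x := by
  have h1 : ∀ j : Fin N, T D (ee j) (fun y => ((y j : ℝ) : ℂ) * f y) x
        + ((x j : ℝ) : ℂ) * T D (ee j) f x =
      f x + 2 * (((x j : ℝ) : ℂ) * T D (ee j) f x)
      + ∑ α ∈ D.pos, ((D.k α * 2 / inner ℝ α α * (α j * α j) : ℝ) : ℂ) * f (refl α x) := by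
    intro j
    rw [T_coord_mul D j hf]; ring
  rw [Finset.sum_congr rfl (fun j _ => h1 j), Finset.sum_add_distrib, Finset.sum_add_distrib,
    ← Finset.mul_sum, sum_coord_T, Finset.sum_const, Finset.card_univ, Fintype.card_fin,
    Finset.sum_comm]
  have h2 : ∀ α ∈ D.pos, ∑ j : Fin N, ((D.k α * 2 / inner ℝ α α * (α j * α j) : ℝ) : ℂ) *
      f (refl α x) = ((D.k α : ℝ) : ℂ) * (2 * f (refl α x)) := by
    intro α hα
    have h3 := (inner_self_pos' (pos_ne_zero D hα)).ne'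
    rw [← Finset.sum_mul, ← Complex.ofReal_sum, ← Finset.mul_sum, sum_mul_coord]
    have h4 : (D.k α * 2 / inner ℝ α α * inner ℝ α α : ℝ) = D.k α * 2 := by field_simp
    rw [h4]; push_cast; ring
  rw [Finset.sum_congr rfl h2]
  unfold kSum
  push_cast
  simp only [mul_sub, Finset.sum_sub_distrib, mul_add, nsmul_eq_mul, add_mul, Finset.sum_mul,
    Finset.mul_sum]
  have h5 : ∀ α ∈ D.pos, ((D.k α : ℝ) : ℂ) * (2 * f (refl α x)) =
      2 * (((D.k α : ℝ) : ℂ) * f (refl α x)) := fun α _ => by ring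
  rw [Finset.sum_congr rfl h5]
  have h6 : ∀ α ∈ D.pos, 2 * ((D.k α : ℝ) : ℂ) * f x = 2 * (((D.k α : ℝ) : ℂ) * f x) :=
    fun α _ => by ring
  rw [Finset.sum_congr rfl h6]
  ring

/-- the key identity: `∑_j (T_j x_j + x_j T_j) = N + 2⟨k⟩ + 2Θ`, in the form of the formula for
`Δ_k (χ(‖x‖) f)` -/
theorem Lap_radial_mul (D : RootData N) {χ : ℝ → ℝ} (hχ : ContDiffOn ℝ ∞ χ (Ioi 0)) {f : E N → ℂ}
    (hf : ContDiffOn ℝ ∞ f {0}ᶜ) {x : E N} (hx : x ≠ 0) :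
    Lap D (fun y => ((χ ‖y‖ : ℝ) : ℂ) * f y) x =
      ((χ ‖x‖ : ℝ) : ℂ) * Lap D f x
      + ((deriv (deriv χ) ‖x‖ + (bb D + 1) * (deriv χ ‖x‖ / ‖x‖) : ℝ) : ℂ) * f x
      + ((2 * (deriv χ ‖x‖ / ‖x‖) : ℝ) : ℂ) * fderiv ℝ f x x := by
  have hχd : ∀ y : E N, y ≠ 0 → DifferentiableAt ℝ χ ‖y‖ := fun y hy =>
    (hχ.contDiffAt (isOpen_Ioi.mem_nhds (norm_pos_iff.mpr hy))).differentiableAt (by simp)
  have hχ' : ContDiffOn ℝ ∞ (deriv χ) (Ioi 0) := hχ.deriv_of_isOpen isOpen_Ioi (by simp)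
  have hχ'd : DifferentiableAt ℝ (deriv χ) ‖x‖ :=
    (hχ'.contDiffAt (isOpen_Ioi.mem_nhds (norm_pos_iff.mpr hx))).differentiableAt (by simp)
  have hr : ‖x‖ ≠ 0 := norm_ne_zero_iff.mpr hx
  set χ1 : ℝ → ℝ := fun r => deriv χ r / r with hχ1
  have hχ1c : ContDiffOn ℝ ∞ χ1 (Ioi 0) := hχ'.div contDiffOn_id (fun r hr => ne_of_gt hr)
  have hχ1d : DifferentiableAt ℝ χ1 ‖x‖ :=
    (hχ1c.contDiffAt (isOpen_Ioi.mem_nhds (norm_pos_iff.mpr hx))).differentiableAt (by simp)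
  have hχ1' : deriv χ1 ‖x‖ = (deriv (deriv χ) ‖x‖ - deriv χ ‖x‖ / ‖x‖) / ‖x‖ := by
    have h1 : HasDerivAt χ1 ((deriv (deriv χ) ‖x‖ * ‖x‖ - deriv χ ‖x‖ * 1) / ‖x‖ ^ 2) ‖x‖ :=
      hχ'd.hasDerivAt.div (hasDerivAt_id _) hr
    rw [h1.deriv]; field_simp
  have hcoordf : ∀ j : Fin N, ContDiffOn ℝ ∞ (fun y : E N => ((y j : ℝ) : ℂ) * f y) {0}ᶜ := by
    intro j
    apply ContDiffOn.mul _ hf
    have h1 : (fun y : E N => ((y j : ℝ) : ℂ)) =
        fun y => (Complex.ofRealCLM.comp (EuclideanSpace.proj j : E N →L[ℝ] ℝ)) y := by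
      funext y; simp
    rw [h1]
    exact (ContinuousLinearMap.contDiff _).contDiffOn
  have hrad : ∀ {ψ : ℝ → ℝ}, ContDiffOn ℝ ∞ ψ (Ioi 0) →
      ContDiffOn ℝ ∞ (fun y : E N => ((ψ ‖y‖ : ℝ) : ℂ)) {0}ᶜ := by
    intro ψ hψ
    apply Complex.ofRealCLM.contDiff.comp_contDiffOn
    intro y hy
    have hy' : y ≠ 0 := hy
    exact ((hψ.contDiffAt (isOpen_Ioi.mem_nhds (norm_pos_iff.mpr hy'))).comp y
      (contDiffAt_norm ℝ hy')).contDiffWithinAt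
  have hstep : ∀ j : Fin N, T D (ee j) (T D (ee j) (fun y => ((χ ‖y‖ : ℝ) : ℂ) * f y)) x =
      ((deriv χ1 ‖x‖ / ‖x‖ : ℝ) : ℂ) * (((x j * x j : ℝ) : ℂ) * f x)
      + ((χ1 ‖x‖ : ℝ) : ℂ) * (T D (ee j) (fun y => ((y j : ℝ) : ℂ) * f y) x
        + ((x j : ℝ) : ℂ) * T D (ee j) f x)
      + ((χ ‖x‖ : ℝ) : ℂ) * T D (ee j) (T D (ee j) f) x := by
    intro j
    have hTj : ContDiffOn ℝ ∞ (T D (ee j) f) {0}ᶜ := T_contDiffOn D _ hf
    have h1 : EqOn (T D (ee j) (fun y => ((χ ‖y‖ : ℝ) : ℂ) * f y))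
        (fun y => ((χ1 ‖y‖ : ℝ) : ℂ) * (((y j : ℝ) : ℂ) * f y)
          + ((χ ‖y‖ : ℝ) : ℂ) * T D (ee j) f y) {0}ᶜ := by
      intro y hy
      have hy' : y ≠ 0 := hy
      have := T_radial_mul D (ee j) hy' (hχd y hy') (smooth_diffAt hf hy')
      rw [this, inner_ee]
    rw [T_congr D (ee j) h1 hx, T_add D (ee j)
      (smooth_diffAt ((hrad hχ1c).mul (hcoordf j)) hx)
      (smooth_diffAt ((hrad hχ).mul hTj) hx),
      T_radial_mul D (ee j) hx hχ1d (smooth_diffAt (hcoordf j) hx),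
      T_radial_mul D (ee j) hx (hχd x hx) (smooth_diffAt hTj hx), inner_ee]
    simp only [hχ1]
    push_cast
    ring
  unfold Lap
  rw [Finset.sum_congr rfl (fun j _ => hstep j), Finset.sum_add_distrib, Finset.sum_add_distrib,
    ← Finset.mul_sum, ← Finset.mul_sum, ← Finset.mul_sum, sum_T_coord D (smooth_diffAt hf hx),
    ← Finset.sum_mul, ← Complex.ofReal_sum, sum_mul_coord, real_inner_self_eq_norm_sq, hχ1']
  have hrC : ((‖x‖ : ℝ) : ℂ) ≠ 0 := by exact_mod_cast hr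
  simp only [hχ1, bb]
  push_cast
  field_simp
  ring

theorem opB_opA (D : RootData N) (a : ℝ) (f : V N) :
    opB D a (opA N a f) = opA N a (opB D a f)
      + ((a * kap D a : ℝ) : ℂ) • f + ((2 * a : ℝ) : ℂ) • opT N f := by
  apply vext
  intro x hx
  have hr : 0 < ‖x‖ := norm_pos_iff.mpr hx
  have hχ : ContDiffOn ℝ ∞ (fun r : ℝ => r ^ a) (Ioi 0) := fun r hr =>
    (Real.contDiffAt_rpow_const_of_ne (ne_of_gt hr)).contDiffWithinAt
  have hd1 : ∀ r : ℝ, 0 < r → deriv (fun r : ℝ => r ^ a) r = a * r ^ (a - 1) := fun r hr =>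
    (Real.hasDerivAt_rpow_const (Or.inl hr.ne')).deriv
  have hd2 : deriv (deriv (fun r : ℝ => r ^ a)) ‖x‖ = a * ((a - 1) * ‖x‖ ^ (a - 1 - 1)) := by
    have h1 : deriv (fun r : ℝ => r ^ a) =ᶠ[𝓝 ‖x‖] fun r => a * r ^ (a - 1) := by
      filter_upwards [isOpen_Ioi.mem_nhds hr] with r hr using hd1 r hr
    rw [h1.deriv_eq]
    exact ((Real.hasDerivAt_rpow_const (Or.inl hr.ne')).const_mul a).deriv
  have hmain := Lap_radial_mul D hχ (vsmooth f) hx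
  rw [opB_apply D a _ hx]
  simp only [Submodule.coe_add, Submodule.coe_smul, Pi.add_apply, Pi.smul_apply, smul_eq_mul,
    opA_apply, opB_apply D a f hx, opT_apply]
  unfold BF
  have hfun : (opA N a f).1 = fun y => ((‖y‖ ^ a : ℝ) : ℂ) * f.1 y := rfl
  rw [hfun, hmain, hd2, hd1 _ hr]
  have e1 : ‖x‖ ^ (a - 1 - 1) = ‖x‖ ^ a / ‖x‖ ^ 2 := by
    rw [Real.rpow_sub hr, Real.rpow_sub hr, Real.rpow_one]; field_simp
  have e2 : ‖x‖ ^ (a - 1) = ‖x‖ ^ a / ‖x‖ := by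
    rw [Real.rpow_sub hr, Real.rpow_one]
  have e3 : ‖x‖ ^ (2 - a) = ‖x‖ ^ 2 / ‖x‖ ^ a := by
    rw [Real.rpow_sub hr, Real.rpow_two]
  rw [e1, e2, e3, kap_eq]
  have hrC : ((‖x‖ : ℝ) : ℂ) ≠ 0 := by exact_mod_cast hr.ne'
  have hsC : ((‖x‖ ^ a : ℝ) : ℂ) ≠ 0 := by
    have : 0 < ‖x‖ ^ a := Real.rpow_pos_of_pos hr a
    exact_mod_cast this.ne'
  push_cast
  field_simp
  ring

end KaSch
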