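import Pool.Agent.Work.MP_d717ad_an.Base
import Pool.Agent.Work.MP_d717ad_an.Hom1
import Pool.Agent.Work.MP_d717ad_an.Rel1

open scoped ContDiff Topology Polynomial
open MeasureTheory Set

noncomputable section

namespace KaSch

variable {N : ℕ}

/-! ### Module HOM2: Fischer decomposition -/

/-- two continuous functions which agree off `0` agree -/
theorem eq_of_eq_off_zero (hN : 1 ≤ N) {f g : E N → ℂ} (hf : Continuous f) (hg : Continuous g)
    (h : ∀ x, x ≠ 0 → f x = g x) : f = g := by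
  have : Nontrivial (E N) := by
    have : Nonempty (Fin N) := ⟨⟨0, by omega⟩⟩
    infer_instance
  have hd : Dense ({0}ᶜ : Set (E N)) := dense_compl_singleton 0
  exact hf.ext_on hd hg fun x hx => h x hx

theorem Lap_contDiff (D : RootData N) {f : E N → ℂ} (hf : ContDiff ℝ ∞ f) :
    ContDiff ℝ ∞ (Lap D f) := by
  unfold Lap
  exact ContDiff.sum fun j _ => T_contDiff D _ (T_contDiff D _ hf)

theorem normsq_hom (N : ℕ) : (fun x : E N => ((‖x‖ ^ 2 : ℝ) : ℂ)) ∈ Hom N 2 := by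
  have h : (fun x : E N => ((‖x‖ ^ 2 : ℝ) : ℂ)) =
      ∑ i : Fin N, (fun x : E N => ((x i : ℝ) : ℂ) * ((x i : ℝ) : ℂ)) := by
    funext x
    rw [EuclideanSpace.norm_sq_eq, Finset.sum_apply]
    push_cast
    refine Finset.sum_congr rfl fun i _ => ?_
    rw [Real.norm_eq_abs, ← Complex.ofReal_pow, sq_abs]
    push_cast
    ring
  rw [h]
  exact Submodule.sum_mem _ fun i _ => hom_mul (hom_coord i) (hom_coord i)

theorem normpow_contDiff (s : ℕ) : ContDiff ℝ ∞ (fun x : E N => ((‖x‖ ^ (2 * s) : ℝ) : ℂ)) := by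
  have h : (fun x : E N => ((‖x‖ ^ (2 * s) : ℝ) : ℂ)) = fun x => (((‖x‖ ^ 2 : ℝ)) : ℂ) ^ s := by
    funext x
    rw [pow_mul]
    push_cast
    rfl
  rw [h]
  exact (hom_contDiff (normsq_hom N)).pow s

theorem Lap_normsq_mul (hN : 1 ≤ N) (D : RootData N) {n : ℕ} {Q : E N → ℂ} (hQ : Q ∈ Hom N n)
    (s : ℕ) (x : E N) :
    Lap D (fun y => ((‖y‖ ^ (2 * (s + 1)) : ℝ) : ℂ) * Q y) x =
      ((‖x‖ ^ (2 * (s + 1)) : ℝ) : ℂ) * Lap D Q x
      + ((2 * (s + 1) * (2 * s + N + 2 * kSum D + 2 * n) * ‖x‖ ^ (2 * s) : ℝ) : ℂ) * Q x := by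
  have hQs := hom_contDiff hQ
  have h1 : Continuous (Lap D (fun y => ((‖y‖ ^ (2 * (s + 1)) : ℝ) : ℂ) * Q y)) :=
    (Lap_contDiff D ((normpow_contDiff (s + 1)).mul hQs)).continuous
  have h2 : Continuous (fun x => ((‖x‖ ^ (2 * (s + 1)) : ℝ) : ℂ) * Lap D Q x
      + ((2 * (s + 1) * (2 * s + N + 2 * kSum D + 2 * n) * ‖x‖ ^ (2 * s) : ℝ) : ℂ) * Q x) := by
    refine ((normpow_contDiff (s + 1)).continuous.mul (Lap_contDiff D hQs).continuous).add ?_
    refine Continuous.mul ?_ hQs.continuous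
    exact Complex.continuous_ofReal.comp (by fun_prop)
  refine congrFun (eq_of_eq_off_zero hN h1 h2 fun x hx => ?_) x
  have hr : ‖x‖ ≠ 0 := norm_ne_zero_iff.mpr hx
  have h3 := Lap_radial_mul D (χ := fun r => r ^ (2 * (s + 1))) (by fun_prop) hQs.contDiffOn hx
  rw [h3, hom_euler hQ]
  have hd : deriv (fun r : ℝ => r ^ (2 * (s + 1))) =
      fun r : ℝ => (2 * ((s : ℝ) + 1)) * r ^ (2 * s + 1) := by
    funext r
    have := (hasDerivAt_pow (2 * (s + 1)) r).deriv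
    rw [this]
    push_cast
    congr 2
  have hd2 : deriv (fun r : ℝ => (2 * ((s : ℝ) + 1)) * r ^ (2 * s + 1)) ‖x‖ =
      (2 * (s + 1)) * ((2 * s + 1) * ‖x‖ ^ (2 * s)) := by
    have := ((hasDerivAt_pow (2 * s + 1) ‖x‖).const_mul (2 * ((s : ℝ) + 1))).deriv
    rw [this]
    push_cast
    congr 2
  rw [hd, hd2]
  have hk : (bb D : ℝ) = 2 * kSum D + N - 2 := rfl
  beta_reduce
  rw [hk, pow_succ ‖x‖ (2 * s)]
  have hr' : (‖x‖ : ℂ) ≠ 0 := by exact_mod_cast hr
  push_cast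
  field_simp
  ring

/-- injectivity of `Q ↦ Δ_k (‖x‖^{2(s+1)} Q)` on homogeneous polynomials -/
theorem Lap_normsq_inj (hN : 1 ≤ N) (D : RootData N) : ∀ (n s : ℕ) {Q : E N → ℂ}, Q ∈ Hom N n →
    (∀ x, Lap D (fun y => ((‖y‖ ^ (2 * (s + 1)) : ℝ) : ℂ) * Q y) x = 0) → Q = 0 := by
  intro n
  induction n using Nat.strong_induction_on with
  | _ n ih =>
  intro s Q hQ h0
  have hQs := hom_contDiff hQ
  set c : ℝ := 2 * (s + 1) * (2 * s + N + 2 * kSum D + 2 * n) with hc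
  have hN' : (1 : ℝ) ≤ N := by exact_mod_cast hN
  have hk := kSum_nonneg D
  have hcpos : 0 < c := by
    rw [hc]
    have : (0 : ℝ) < 2 * s + N + 2 * kSum D + 2 * n := by positivity
    positivity
  have hcc : (c : ℂ) ≠ 0 := by exact_mod_cast hcpos.ne'
  -- the relation `Q = -c⁻¹ ‖x‖² Δ Q`
  have hrel : ∀ x : E N, x ≠ 0 → Q x = ((‖x‖ ^ 2 : ℝ) : ℂ) * (-(c : ℂ)⁻¹ * Lap D Q x) := by
    intro x hx
    have hr : (‖x‖ : ℂ) ≠ 0 := by exact_mod_cast (norm_ne_zero_iff.mpr hx)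
    have h1 := h0 x
    rw [Lap_normsq_mul hN D hQ, ← hc] at h1
    have h2 : (‖x‖ : ℂ) ^ (2 * s) * ((‖x‖ : ℂ) ^ 2 * Lap D Q x + c * Q x) = 0 := by
      rw [← h1]
      push_cast
      ring
    have h3 : (‖x‖ : ℂ) ^ 2 * Lap D Q x + c * Q x = 0 := by
      rcases mul_eq_zero.mp h2 with h | h
      · exact absurd h (pow_ne_zero _ hr)
      · exact h
    push_cast
    field_simp
    linear_combination h3
  by_cases hn : n ≤ 1
  · have hL := Lap_hom_le_one D hn hQ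
    refine eq_of_eq_off_zero hN hQs.continuous continuous_const fun x hx => ?_
    rw [hrel x hx, hL x]
    simp
  · obtain ⟨n', rfl⟩ : ∃ n', n = n' + 2 := ⟨n - 2, by omega⟩
    have hL : Lap D Q ∈ Hom N n' := Lap_hom D hQ
    set Q1 : E N → ℂ := (-(c : ℂ)⁻¹) • Lap D Q with hQ1
    have hQ1' : Q1 ∈ Hom N n' := (Hom N n').smul_mem _ hL
    have hQQ : Q = fun x => ((‖x‖ ^ 2 : ℝ) : ℂ) * Q1 x := by
      refine eq_of_eq_off_zero hN hQs.continuous
        ((hom_contDiff (normsq_hom N)).continuous.mul (hom_contDiff hQ1').continuous) fun x hx => ?_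
      rw [hrel x hx]; rfl
    have h2 : Q1 = 0 := by
      refine ih n' (by omega) (s + 1) hQ1' fun x => ?_
      have h3 : (fun y : E N => ((‖y‖ ^ (2 * (s + 1 + 1)) : ℝ) : ℂ) * Q1 y) =
          fun y => ((‖y‖ ^ (2 * (s + 1)) : ℝ) : ℂ) * Q y := by
        funext y
        rw [show Q y = ((‖y‖ ^ 2 : ℝ) : ℂ) * Q1 y from congrFun hQQ y]
        push_cast
        ring
      rw [h3]
      exact h0 x
    rw [hQQ, h2]
    funext x
    simp

theorem Lap_add_smooth (D : RootData N) {f g : E N → ℂ} (hf : ContDiff ℝ ∞ f)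
    (hg : ContDiff ℝ ∞ g) : Lap D (f + g) = Lap D f + Lap D g := by
  have hT : ∀ {f g : E N → ℂ} (ξ : E N), ContDiff ℝ ∞ f → ContDiff ℝ ∞ g →
      T D ξ (f + g) = T D ξ f + T D ξ g := fun ξ hf hg => by
    funext x
    exact T_add D ξ (hf.differentiable (by simp) x) (hg.differentiable (by simp) x)
  funext x
  unfold Lap
  rw [Pi.add_apply, ← Finset.sum_add_distrib]
  refine Finset.sum_congr rfl fun j _ => ?_
  rw [hT _ hf hg, hT _ (T_contDiff D _ hf) (T_contDiff D _ hg)]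
  rfl

theorem Lap_smul_smooth (D : RootData N) {f : E N → ℂ} (hf : ContDiff ℝ ∞ f) (c : ℂ) :
    Lap D (c • f) = c • Lap D f := by
  have hT : ∀ {f : E N → ℂ} (ξ : E N), ContDiff ℝ ∞ f → T D ξ (c • f) = c • T D ξ f :=
    fun ξ hf => by
    funext x
    exact T_const_mul D ξ (hf.differentiable (by simp) x) c
  funext x
  unfold Lap
  rw [Pi.smul_apply, smul_eq_mul, Finset.mul_sum]
  refine Finset.sum_congr rfl fun j _ => ?_
  rw [hT _ hf, hT _ (T_contDiff D _ hf)]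
  rfl

/-- `Q ↦ Δ_k (‖x‖² Q)` as an endomorphism of `Hom N n` -/
def LapN (D : RootData N) (n : ℕ) : Hom N n →ₗ[ℂ] Hom N n where
  toFun Q := ⟨Lap D (fun y => ((‖y‖ ^ 2 : ℝ) : ℂ) * Q.1 y), Lap_hom D (by
    have := hom_mul (normsq_hom N) Q.2
    rwa [add_comm 2 n] at this)⟩
  map_add' Q Q' := by
    apply Subtype.ext
    have h1 : ContDiff ℝ ∞ (fun y => ((‖y‖ ^ 2 : ℝ) : ℂ) * Q.1 y) :=
      (hom_contDiff (normsq_hom N)).mul (hom_contDiff Q.2)
    have h2 : ContDiff ℝ ∞ (fun y => ((‖y‖ ^ 2 : ℝ) : ℂ) * Q'.1 y) :=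
      (hom_contDiff (normsq_hom N)).mul (hom_contDiff Q'.2)
    have := Lap_add_smooth D h1 h2
    change Lap D (fun y => ((‖y‖ ^ 2 : ℝ) : ℂ) * (Q + Q').1 y) = _
    refine Eq.trans ?_ this
    congr 1
    funext y
    simp [mul_add]
  map_smul' c Q := by
    apply Subtype.ext
    have h1 : ContDiff ℝ ∞ (fun y => ((‖y‖ ^ 2 : ℝ) : ℂ) * Q.1 y) :=
      (hom_contDiff (normsq_hom N)).mul (hom_contDiff Q.2)
    have := Lap_smul_smooth D h1 c
    change Lap D (fun y => ((‖y‖ ^ 2 : ℝ) : ℂ) * (c • Q).1 y) = _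
    refine Eq.trans ?_ this
    congr 1
    funext y
    simp [mul_left_comm]

theorem LapN_surj (hN : 1 ≤ N) (D : RootData N) (n : ℕ) : Function.Surjective (LapN D n) := by
  have := hom_finite N n
  apply LinearMap.surjective_of_injective
  rw [← LinearMap.ker_eq_bot, LinearMap.ker_eq_bot']
  intro Q hQ
  apply Subtype.ext
  refine Lap_normsq_inj hN D n 0 Q.2 fun x => ?_
  have := congrFun (congrArg Subtype.val hQ) x
  rw [show 2 * (0 + 1) = 2 from rfl]
  exact this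

theorem fischer (hN : 1 ≤ N) (D : RootData N) {n : ℕ} {p : E N → ℂ} (hp : p ∈ Hom N n) :
    ∃ h : ℕ → (E N → ℂ), (∀ j, 2 * j ≤ n → h j ∈ Harm D (n - 2 * j)) ∧
      ∀ x, p x = ∑ j ∈ Finset.range (n / 2 + 1), ((‖x‖ ^ (2 * j) : ℝ) : ℂ) * h j x := by
  induction n using Nat.strong_induction_on generalizing p with
  | _ n ih =>
  by_cases hn : n ≤ 1
  · refine ⟨fun _ => p, fun j hj => ?_, fun x => ?_⟩
    · have : j = 0 := by omega
      subst this
      exact ⟨hp, Lap_hom_le_one D hn hp⟩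
    · have : n / 2 = 0 := by omega
      rw [this]
      simp
  · obtain ⟨n', rfl⟩ : ∃ n', n = n' + 2 := ⟨n - 2, by omega⟩
    obtain ⟨Q, hQ⟩ := LapN_surj hN D n' ⟨Lap D p, Lap_hom D hp⟩
    have hQ' : Lap D (fun y => ((‖y‖ ^ 2 : ℝ) : ℂ) * Q.1 y) = Lap D p := congrArg Subtype.val hQ
    obtain ⟨h, hh, hsum⟩ := ih n' (by omega) Q.2
    have hmem : (fun y => ((‖y‖ ^ 2 : ℝ) : ℂ) * Q.1 y) ∈ Hom N (n' + 2) := by
      have := hom_mul (normsq_hom N) Q.2
      rwa [add_comm 2 n'] at this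
    set h0 : E N → ℂ := p + (-1 : ℂ) • (fun y => ((‖y‖ ^ 2 : ℝ) : ℂ) * Q.1 y) with hh0
    refine ⟨fun j => if j = 0 then h0 else h (j - 1), fun j hj => ?_, fun x => ?_⟩
    · by_cases hj0 : j = 0
      · subst hj0
        simp only [if_true]
        refine ⟨(Hom N _).add_mem hp ((Hom N _).smul_mem _ hmem), fun x => ?_⟩
        have e1 := Lap_add_smooth D (hom_contDiff hp)
          (hom_contDiff ((Hom N (n' + 2)).smul_mem (-1 : ℂ) hmem))
        rw [hh0, e1, Lap_smul_smooth D (hom_contDiff hmem), hQ']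
        simp
      · simp only [hj0, if_false]
        have := hh (j - 1) (by omega)
        have e : n' - 2 * (j - 1) = n' + 2 - 2 * j := by omega
        rwa [e] at this
    · have e : (n' + 2) / 2 + 1 = (n' / 2 + 1) + 1 := by omega
      rw [e, Finset.sum_range_succ']
      simp only [Nat.add_eq_zero_iff, one_ne_zero, and_false, if_false, if_true,
        Nat.add_sub_cancel]
      have h1 : ∑ j ∈ Finset.range (n' / 2 + 1), ((‖x‖ ^ (2 * (j + 1)) : ℝ) : ℂ) * h j x =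
          ((‖x‖ ^ 2 : ℝ) : ℂ) * Q.1 x := by
        rw [hsum x, Finset.mul_sum]
        refine Finset.sum_congr rfl fun j _ => ?_
        push_cast
        ring
      rw [h1, hh0]
      simp

end KaSch
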