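import Pool.Agent.Work.MP_d717ad_an.Base

open scoped ContDiff Topology Polynomial
open MeasureTheory Set

noncomputable section

namespace KaSch

variable {N : ℕ}

/-! ### Module POLAR1: polar coordinates for the weighted measure -/

theorem pol_wt_nonneg (D : RootData N) (x : E N) : 0 ≤ wt D x :=
  Finset.prod_nonneg fun _ _ => Real.rpow_nonneg (abs_nonneg _) _

theorem pol_wt_measurable (D : RootData N) : Measurable (wt D) := by
  unfold wt
  refine Finset.measurable_fun_prod _ fun α _ => ?_
  have h : Measurable fun x : E N => |inner ℝ α x| := by fun_prop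
  exact h.pow_const _

theorem pol_theta_nonneg (D : RootData N) (a : ℝ) (x : E N) : 0 ≤ theta D a x :=
  mul_nonneg (Real.rpow_nonneg (norm_nonneg _) _) (pol_wt_nonneg D x)

theorem pol_theta_measurable (D : RootData N) (a : ℝ) : Measurable (theta D a) := by
  unfold theta
  exact (measurable_norm.pow_const _).mul (pol_wt_measurable D)

theorem wt_smul (D : RootData N) (r : ℝ) (hr : 0 < r) (x : E N) :
    wt D (r • x) = r ^ (2 * kSum D) * wt D x := by
  unfold wt kSum
  rw [Finset.mul_sum, Real.rpow_sum_of_pos hr, ← Finset.prod_mul_distrib]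
  refine Finset.prod_congr rfl fun α _ => ?_
  rw [inner_smul_right, abs_mul, abs_of_pos hr, Real.mul_rpow hr.le (abs_nonneg _)]

theorem pol_wt_le (D : RootData N) (x : E N) (hx : ‖x‖ = 1) :
    wt D x ≤ ∏ α ∈ D.pos, ‖α‖ ^ (2 * D.k α) := by
  unfold wt
  refine Finset.prod_le_prod (fun _ _ => Real.rpow_nonneg (abs_nonneg _) _) fun α hα => ?_
  refine Real.rpow_le_rpow (abs_nonneg _) ?_ (by have := pos_k_nonneg D hα; positivity)
  have := abs_real_inner_le_norm α x
  rwa [hx, mul_one] at this

theorem sig_finite (D : RootData N) : IsFiniteMeasure (sig D) := by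
  unfold sig
  refine isFiniteMeasure_withDensity ?_
  have h1 : ∀ w : Metric.sphere (0 : E N) 1, ENNReal.ofReal (wt D (w : E N)) ≤
      ENNReal.ofReal (∏ α ∈ D.pos, ‖α‖ ^ (2 * D.k α)) := fun w =>
    ENNReal.ofReal_le_ofReal (pol_wt_le D w (by simp))
  refine ne_of_lt (lt_of_le_of_lt (lintegral_mono h1) ?_)
  rw [lintegral_const]
  exact ENNReal.mul_lt_top ENNReal.ofReal_lt_top (measure_lt_top _ _)

theorem rad_sfinite (κ : ℝ) : SigmaFinite (rad κ) := by
  unfold rad
  infer_instance

theorem mu_sigmaFinite (hN : 2 ≤ N) (D : RootData N) {a : ℝ} (ha : 0 < a) :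
    SigmaFinite (mu D a) := by
  unfold mu
  infer_instance

/-- polar coordinates for Lebesgue measure -/
theorem pol_polar0 (hN : 2 ≤ N) :
    MeasurePreserving (fun z : Metric.sphere (0 : E N) 1 × ℝ => z.2 • (z.1 : E N))
      (((volume : Measure (E N)).toSphere).prod
        ((volume.restrict (Ioi (0 : ℝ))).withDensity (fun r => ENNReal.ofReal (r ^ (N - 1)))))
      (volume : Measure (E N)) := by
  have hcont : Measurable (fun z : Metric.sphere (0 : E N) 1 × ℝ => z.2 • (z.1 : E N)) := by
    have : Continuous (fun z : Metric.sphere (0 : E N) 1 × ℝ => z.2 • (z.1 : E N)) := by fun_prop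
    exact this.measurable
  have hfr : Module.finrank ℝ (E N) = N := by simp
  have hnt : Nontrivial (E N) := by
    have : 0 < Module.finrank ℝ (E N) := by omega
    exact Module.finrank_pos_iff.mp this
  have h1 := (Measure.measurePreserving_homeomorphUnitSphereProd (volume : Measure (E N)))
  have h2 : MeasurePreserving (Subtype.val : Ioi (0 : ℝ) → ℝ) (Measure.volumeIoiPow (N - 1))
      ((volume.restrict (Ioi (0 : ℝ))).withDensity (fun r => ENNReal.ofReal (r ^ (N - 1)))) := by
    refine ⟨measurable_subtype_coe, ?_⟩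
    ext1 s hs
    rw [Measure.map_apply measurable_subtype_coe hs, Measure.volumeIoiPow,
      withDensity_apply _ (measurable_subtype_coe hs), withDensity_apply _ hs,
      setLIntegral_subtype measurableSet_Ioi _ fun a : ℝ ↦ ENNReal.ofReal (a ^ (N - 1)),
      Measure.restrict_restrict hs, Subtype.image_preimage_coe, inter_comm]
  have h3 : MeasurePreserving (Subtype.val : ({(0 : E N)}ᶜ : Set (E N)) → E N)
      ((volume : Measure (E N)).comap (↑)) (volume : Measure (E N)) := by
    refine ⟨measurable_subtype_coe, ?_⟩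
    rw [map_comap_subtype_coe (measurableSet_singleton _).compl]
    exact restrict_compl_singleton _
  rw [hfr] at h1
  have h1' := h1.symm (homeomorphUnitSphereProd (E N)).toMeasurableEquiv
  have h4 := h3.comp h1'
  have h5 : MeasurePreserving (Prod.map id Subtype.val : Metric.sphere (0 : E N) 1 × Ioi (0 : ℝ) →
      Metric.sphere (0 : E N) 1 × ℝ)
      (((volume : Measure (E N)).toSphere).prod (Measure.volumeIoiPow (N - 1)))
      (((volume : Measure (E N)).toSphere).prod
        ((volume.restrict (Ioi (0 : ℝ))).withDensity (fun r => ENNReal.ofReal (r ^ (N - 1))))) :=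
    (MeasurePreserving.id _).prod h2
  refine ⟨hcont, ?_⟩
  rw [← h5.map_eq, Measure.map_map hcont h5.measurable]
  have h6 : ((fun z : Metric.sphere (0 : E N) 1 × ℝ => z.2 • (z.1 : E N)) ∘
      (Prod.map id Subtype.val : Metric.sphere (0 : E N) 1 × Ioi (0 : ℝ) →
      Metric.sphere (0 : E N) 1 × ℝ)) =
      (Subtype.val ∘ ((homeomorphUnitSphereProd (E N)).toMeasurableEquiv).symm) := by
    funext z
    simp [homeomorphUnitSphereProd]
  rw [h6]
  exact h4.map_eq

theorem polar (hN : 2 ≤ N) (D : RootData N) {a : ℝ} (ha : 0 < a) :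
    MeasurePreserving (fun z : Metric.sphere (0 : E N) 1 × ℝ => z.2 • (z.1 : E N))
      ((sig D).prod (rad (kap D a))) (mu D a) := by
  have h0 := pol_polar0 hN
  refine ⟨h0.measurable, ?_⟩
  have hκ := kap_pos hN D ha
  set Φ := (fun z : Metric.sphere (0 : E N) 1 × ℝ => z.2 • (z.1 : E N)) with hΦ
  have hw1 : Measurable fun w : Metric.sphere (0 : E N) 1 => ENNReal.ofReal (wt D (w : E N)) :=
    ((pol_wt_measurable D).comp measurable_subtype_coe).ennreal_ofReal
  have hr1 : Measurable fun r : ℝ => ENNReal.ofReal (r ^ (kap D a - 1)) :=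
    (measurable_id.pow_const _).ennreal_ofReal
  have hr2 : Measurable fun r : ℝ => ENNReal.ofReal (r ^ (N - 1)) :=
    (measurable_id.pow_const _).ennreal_ofReal
  have hθ : Measurable fun x : E N => ENNReal.ofReal (theta D a x) :=
    (pol_theta_measurable D a).ennreal_ofReal
  have key : (sig D).prod (rad (kap D a)) =
      ((((volume : Measure (E N)).toSphere).prod
        ((volume.restrict (Ioi (0 : ℝ))).withDensity (fun r => ENNReal.ofReal (r ^ (N - 1)))))).withDensity
        (fun z => ENNReal.ofReal (theta D a (Φ z))) := by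
    unfold sig rad
    rw [prod_withDensity hw1 hr1, prod_withDensity_right hr2]
    refine Eq.trans ?_ (withDensity_mul _ (f := fun z : Metric.sphere (0 : E N) 1 × ℝ =>
      ENNReal.ofReal (z.2 ^ (N - 1))) (g := fun z => ENNReal.ofReal (theta D a (Φ z)))
      (hr2.comp measurable_snd) (hθ.comp h0.measurable))
    apply withDensity_congr_ae
    have hae : ∀ᵐ z ∂(((volume : Measure (E N)).toSphere).prod (volume.restrict (Ioi (0 : ℝ)))),
        z.2 ∈ Ioi (0 : ℝ) := by
      have := (Measure.quasiMeasurePreserving_snd (μ := (volume : Measure (E N)).toSphere)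
        (ν := volume.restrict (Ioi (0 : ℝ)))).ae (ae_restrict_mem measurableSet_Ioi)
      exact this
    filter_upwards [hae] with z hz
    have hz' : 0 < z.2 := hz
    have hn : ‖(z.1 : E N)‖ = 1 := by simp
    simp only [Pi.mul_apply]
    rw [← ENNReal.ofReal_mul (pol_wt_nonneg D _), ← ENNReal.ofReal_mul (by positivity)]
    congr 1
    unfold theta
    rw [hΦ]
    simp only
    rw [wt_smul D _ hz', norm_smul, hn, mul_one, Real.norm_eq_abs, abs_of_pos hz',
      ← Real.rpow_natCast z.2 (N - 1), Nat.cast_sub (by omega : 1 ≤ N)]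
    have : z.2 ^ (kap D a - 1) = z.2 ^ ((N : ℝ) - ((1 : ℕ) : ℝ)) * (z.2 ^ (a - 2) * z.2 ^ (2 * kSum D)) := by
      rw [← Real.rpow_add hz', ← Real.rpow_add hz']
      congr 1
      unfold kap
      push_cast
      ring
    rw [this]
    ring
  rw [key]
  unfold mu
  ext1 s hs
  rw [Measure.map_apply h0.measurable hs, withDensity_apply _ (h0.measurable hs),
    withDensity_apply _ hs, ← h0.setLIntegral_comp_preimage hs hθ]

theorem pol_theta_ae_pos (hN : 2 ≤ N) (D : RootData N) (a : ℝ) :
    ∀ᵐ x ∂(volume : Measure (E N)), 0 < theta D a x := by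
  have hfr : Module.finrank ℝ (E N) = N := by simp
  have hnt : Nontrivial (E N) := by
    have : 0 < Module.finrank ℝ (E N) := by omega
    exact Module.finrank_pos_iff.mp this
  have h1 : ∀ᵐ x ∂(volume : Measure (E N)), x ≠ 0 := by
    have : (volume : Measure (E N)) {0} = 0 := measure_singleton _
    rw [ae_iff]; simp
  have h2 : ∀ α ∈ D.pos, ∀ᵐ x ∂(volume : Measure (E N)), inner ℝ α x ≠ 0 := by
    intro α hα
    have hα0 := pos_ne_zero D hα
    have hs : LinearMap.ker (innerSL ℝ α).toLinearMap ≠ ⊤ := by
      intro h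
      have : α ∈ LinearMap.ker (innerSL ℝ α).toLinearMap := by rw [h]; trivial
      have h' : inner ℝ α α = 0 := by simpa using this
      exact hα0 (inner_self_eq_zero.mp h')
    have := Measure.addHaar_submodule (volume : Measure (E N)) _ hs
    rw [ae_iff]
    have he : {x : E N | ¬ (inner ℝ α x : ℝ) ≠ 0} = (LinearMap.ker (innerSL ℝ α).toLinearMap : Set (E N)) := by
      ext x; simp
    rw [he]; exact this
  have h3 : ∀ᵐ x ∂(volume : Measure (E N)), ∀ α ∈ D.pos, inner ℝ α x ≠ 0 :=
    (Finset.eventually_all D.pos).mpr h2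
  filter_upwards [h1, h3] with x hx hx3
  unfold theta wt
  have : 0 < ‖x‖ := norm_pos_iff.mpr hx
  refine mul_pos (Real.rpow_pos_of_pos this _) (Finset.prod_pos fun α hα => ?_)
  exact Real.rpow_pos_of_pos (abs_pos.mpr (hx3 α hα)) _

/-- null sets: `mu` and Lebesgue measure have the same null sets -/
theorem mu_ac (D : RootData N) (a : ℝ) (hN : 2 ≤ N) :
    (mu D a) ≪ (volume : Measure (E N)) ∧ (volume : Measure (E N)) ≪ mu D a := by
  refine ⟨withDensity_absolutelyContinuous _ _, ?_⟩
  refine withDensity_absolutelyContinuous' (pol_theta_measurable D a).ennreal_ofReal.aemeasurable ?_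
  filter_upwards [pol_theta_ae_pos hN D a] with x hx
  simpa using hx

/-- pushforward under the norm -/
theorem pol_map_norm_mu (hN : 2 ≤ N) (D : RootData N) {a : ℝ} (ha : 0 < a) :
    Measure.map (fun x : E N => ‖x‖) (mu D a) = (sig D univ) • rad (kap D a) := by
  have hp := polar hN D ha
  have := sig_finite D
  have := rad_sfinite (kap D a)
  rw [← hp.map_eq, Measure.map_map measurable_norm hp.measurable]
  have h1 : Measure.map ((fun x : E N => ‖x‖) ∘
      (fun z : Metric.sphere (0 : E N) 1 × ℝ => z.2 • (z.1 : E N))) ((sig D).prod (rad (kap D a))) =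
      Measure.map Prod.snd ((sig D).prod (rad (kap D a))) := by
    apply Measure.map_congr
    have hae : ∀ᵐ z ∂((sig D).prod (rad (kap D a))), z.2 ∈ Ioi (0 : ℝ) := by
      have h0 : ∀ᵐ r ∂(rad (kap D a)), r ∈ Ioi (0 : ℝ) :=
        (withDensity_absolutelyContinuous _ _).ae_le (ae_restrict_mem measurableSet_Ioi)
      exact (Measure.quasiMeasurePreserving_snd (μ := sig D) (ν := rad (kap D a))).ae h0
    filter_upwards [hae] with z hz
    have hz' : 0 < z.2 := hz
    have hn : ‖(z.1 : E N)‖ = 1 := by simp
    simp [norm_smul, hn, abs_of_pos hz']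
  rw [h1]
  exact Measure.map_snd_prod

/-- radial functions -/
theorem integrable_radial (hN : 2 ≤ N) (D : RootData N) {a : ℝ} (ha : 0 < a) {F : ℝ → ℝ}
    (hF : IntegrableOn (fun r => r ^ (kap D a - 1) * F r) (Ioi 0)) :
    Integrable (fun x : E N => F ‖x‖) (mu D a) := by
  have := sig_finite D
  have h1 : Integrable F (rad (kap D a)) := by
    unfold rad
    have hr1 : Measurable fun r : ℝ => ENNReal.ofReal (r ^ (kap D a - 1)) :=
      (measurable_id.pow_const _).ennreal_ofReal
    rw [integrable_withDensity_iff_integrable_smul' hr1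
      (ae_of_all _ fun _ => ENNReal.ofReal_lt_top)]
    refine hF.congr ?_
    filter_upwards [ae_restrict_mem measurableSet_Ioi] with r hr
    have hr' : 0 < r := hr
    simp only [smul_eq_mul]
    rw [ENNReal.toReal_ofReal (by positivity)]
  have h2 : Integrable F (Measure.map (fun x : E N => ‖x‖) (mu D a)) := by
    rw [pol_map_norm_mu hN D ha]
    exact h1.smul_measure (measure_ne_top _ _)
  exact h2.comp_measurable measurable_norm

end KaSch
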