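import Pool.Agent.Work.MP_d717ad_an.Base
import Pool.Agent.Work.MP_d717ad_an.Rel1
import Pool.Agent.Work.MP_d717ad_an.Hom1

open scoped ContDiff Topology Polynomial
open MeasureTheory Set

noncomputable section

namespace KaSch

variable {N : ℕ}

namespace Rel2Aux

theorem norm_pos_smul {t : ℝ} (ht : 0 < t) (x : E N) : ‖t • x‖ = t * ‖x‖ := by
  rw [norm_smul, Real.norm_of_nonneg ht.le]

/-- Euler derivative as a one-variable derivative -/
theorem euler_hasDerivAt {f : E N → ℂ} {x : E N} (hf : DifferentiableAt ℝ f x) :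
    HasDerivAt (fun t : ℝ => f (t • x)) (fderiv ℝ f x x) 1 := by
  have h1 : HasDerivAt (fun t : ℝ => t • x) x 1 := by
    have := (hasDerivAt_id (1 : ℝ)).smul_const x
    simpa using this
  have h2 : HasFDerivAt f (fderiv ℝ f x) ((1 : ℝ) • x) := by
    rw [one_smul]; exact hf.hasFDerivAt
  exact h2.comp_hasDerivAt (1 : ℝ) h1

theorem euler_eq {f : E N → ℂ} {x : E N} (hf : DifferentiableAt ℝ f x) {v : ℂ}
    (h : HasDerivAt (fun t : ℝ => f (t • x)) v 1) : fderiv ℝ f x x = v :=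
  (euler_hasDerivAt hf).unique h

theorem diffAt_of_smooth {f : E N → ℂ} (hf : ContDiffOn ℝ ∞ f {0}ᶜ) {x : E N} (hx : x ≠ 0) :
    DifferentiableAt ℝ f x :=
  (hf.contDiffAt (isOpen_compl_singleton.mem_nhds hx)).differentiableAt (by simp)

theorem hasDerivAt_rpow_one (s : ℝ) : HasDerivAt (fun t : ℝ => t ^ s) s 1 := by
  have := Real.hasDerivAt_rpow_const (x := 1) (p := s) (Or.inl one_ne_zero)
  simpa using this

/-- `∂_ξ Θ f = Θ ∂_ξ f + ∂_ξ f` -/
theorem fderiv_euler {f : E N → ℂ} (hf : ContDiffOn ℝ ∞ f {0}ᶜ) {x : E N} (hx : x ≠ 0)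
    (ξ : E N) :
    fderiv ℝ (fun y => fderiv ℝ f y y) x ξ =
      fderiv ℝ (fun y => fderiv ℝ f y ξ) x x + fderiv ℝ f x ξ := by
  have hc : ContDiffAt ℝ ∞ f x := hf.contDiffAt (isOpen_compl_singleton.mem_nhds hx)
  have hd : DifferentiableAt ℝ (fderiv ℝ f) x :=
    (hc.fderiv_right (m := 1) (by norm_cast)).differentiableAt (by simp)
  have h1 : HasFDerivAt (fun y => fderiv ℝ f y y)
      ((fderiv ℝ f x).comp (ContinuousLinearMap.id ℝ (E N)) +
        (fderiv ℝ (fderiv ℝ f) x).flip x) x :=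
    hd.hasFDerivAt.clm_apply (hasFDerivAt_id x)
  have h2 : HasFDerivAt (fun y => fderiv ℝ f y ξ)
      ((fderiv ℝ f x).comp (0 : E N →L[ℝ] E N) +
        (fderiv ℝ (fderiv ℝ f) x).flip ξ) x :=
    hd.hasFDerivAt.clm_apply (hasFDerivAt_const ξ x)
  have hsymm : fderiv ℝ (fderiv ℝ f) x ξ x = fderiv ℝ (fderiv ℝ f) x x ξ := by
    have h3 : minSmoothness ℝ 2 ≤ (∞ : WithTop ℕ∞) := by
      rw [minSmoothness_of_isRCLikeNormedField]
      exact WithTop.coe_le_coe.2 le_top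
    exact (hc.isSymmSndFDerivAt h3).eq ξ x
  rw [h1.fderiv, h2.fderiv]
  simp [hsymm, add_comm]

theorem quot_euler {α : E N} (hα : α ≠ 0) {f : E N → ℂ} (hf : ContDiffOn ℝ ∞ f {0}ᶜ) {x : E N}
    (hx : x ≠ 0) :
    quot α (fun y => fderiv ℝ f y y) x =
      fderiv ℝ (quot α f) x x + quot α f x := by
  have hq : DifferentiableAt ℝ (quot α f) x := diffAt_of_smooth (quot_contDiffOn hα hf) hx
  by_cases h : (inner ℝ α x : ℝ) = 0
  · have h1 : fderiv ℝ (quot α f) x x =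
        ((2 / inner ℝ α α : ℝ) : ℂ) * fderiv ℝ (fun y => fderiv ℝ f y α) x x := by
      apply euler_eq hq
      have hd : DifferentiableAt ℝ (fun y => fderiv ℝ f y α) x := by
        have h1 : ContDiffOn ℝ ∞ (fderiv ℝ f) {0}ᶜ :=
          hf.fderiv_of_isOpen isOpen_compl_singleton (by simp)
        exact diffAt_of_smooth (h1.clm_apply contDiffOn_const) hx
      have h2 := (euler_hasDerivAt hd).const_mul ((2 / inner ℝ α α : ℝ) : ℂ)
      refine h2.congr_of_eventuallyEq (Filter.Eventually.of_forall fun t => ?_)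
      simp [quot, inner_smul_right, h]
    rw [h1]
    simp only [quot, h, if_true]
    rw [fderiv_euler hf hx]
    ring
  · have hσ : refl α x ≠ 0 := refl_ne_zero hα hx
    have h1 : fderiv ℝ (quot α f) x x =
        (fderiv ℝ f x x - fderiv ℝ f (refl α x) (refl α x)) / ((inner ℝ α x : ℝ) : ℂ)
          - quot α f x := by
      apply euler_eq hq
      have ha := euler_hasDerivAt (diffAt_of_smooth hf hx)
      have hb := euler_hasDerivAt (diffAt_of_smooth hf hσ)
      have hc : HasDerivAt (fun t : ℝ => ((t : ℝ) : ℂ)⁻¹) (-1) 1 := by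
        have h3 : HasDerivAt (fun t : ℝ => (t⁻¹ : ℝ)) (-1) 1 := by
          simpa using hasDerivAt_inv (one_ne_zero (α := ℝ))
        have := h3.ofReal_comp
        refine (this.congr_of_eventuallyEq (Filter.Eventually.of_forall fun t => ?_)).congr_deriv ?_
        · simp
        · simp
      have hd := ((ha.sub hb).mul hc).div_const ((inner ℝ α x : ℝ) : ℂ)
      refine (hd.congr_of_eventuallyEq ?_).congr_deriv ?_
      · filter_upwards [lt_mem_nhds (zero_lt_one' ℝ)] with t ht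
        have hr : refl α (t • x) = t • refl α x := by
          unfold refl
          rw [inner_smul_right, smul_sub, smul_smul]
          congr 2
          ring
        have hne : ¬ (t * inner ℝ α x : ℝ) = 0 := mul_ne_zero ht.ne' h
        simp only [quot, inner_smul_right, hne, if_false, hr]
        have ht' : ((t : ℝ) : ℂ) ≠ 0 := by exact_mod_cast ht.ne'
        have hi' : ((inner ℝ α x : ℝ) : ℂ) ≠ 0 := by exact_mod_cast h
        push_cast
        simp only [Pi.sub_apply, Pi.mul_apply]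
        field_simp
      · simp only [quot, h, if_false, Pi.sub_apply, one_smul, Complex.ofReal_one, inv_one]
        ring
    rw [h1]
    simp only [quot, h, if_false]
    ring

theorem T_euler (D : RootData N) (ξ : E N) {f : E N → ℂ} (hf : ContDiffOn ℝ ∞ f {0}ᶜ) {x : E N}
    (hx : x ≠ 0) :
    T D ξ (fun y => fderiv ℝ f y y) x = fderiv ℝ (T D ξ f) x x + T D ξ f x := by
  have hT : DifferentiableAt ℝ (T D ξ f) x := diffAt_of_smooth (T_contDiffOn D ξ hf) hx
  have hd : DifferentiableAt ℝ (fun y => fderiv ℝ f y ξ) x := by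
    have h1 : ContDiffOn ℝ ∞ (fderiv ℝ f) {0}ᶜ :=
      hf.fderiv_of_isOpen isOpen_compl_singleton (by simp)
    exact diffAt_of_smooth (h1.clm_apply contDiffOn_const) hx
  have h1 : fderiv ℝ (T D ξ f) x x = fderiv ℝ (fun y => fderiv ℝ f y ξ) x x +
      ∑ α ∈ D.pos, ((D.k α * inner ℝ α ξ : ℝ) : ℂ) * fderiv ℝ (quot α f) x x := by
    apply euler_eq hT
    have h2 : HasDerivAt (fun t : ℝ => ∑ α ∈ D.pos, ((D.k α * inner ℝ α ξ : ℝ) : ℂ) *
        quot α f (t • x))
        (∑ α ∈ D.pos, ((D.k α * inner ℝ α ξ : ℝ) : ℂ) * fderiv ℝ (quot α f) x x) 1 := by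
      refine HasDerivAt.fun_sum fun α hα => ?_
      exact (euler_hasDerivAt
        (diffAt_of_smooth (quot_contDiffOn (pos_ne_zero D hα) hf) hx)).const_mul _
    exact (euler_hasDerivAt hd).add h2
  rw [h1]
  unfold T
  rw [fderiv_euler hf hx]
  have h3 : ∑ α ∈ D.pos, ((D.k α * inner ℝ α ξ : ℝ) : ℂ) * quot α (fun y => fderiv ℝ f y y) x =
      ∑ α ∈ D.pos, ((D.k α * inner ℝ α ξ : ℝ) : ℂ) * fderiv ℝ (quot α f) x x +
      ∑ α ∈ D.pos, ((D.k α * inner ℝ α ξ : ℝ) : ℂ) * quot α f x := by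
    rw [← Finset.sum_add_distrib]
    refine Finset.sum_congr rfl fun α hα => ?_
    rw [quot_euler (pos_ne_zero D hα) hf hx, mul_add]
  rw [h3]
  ring

theorem Lap_euler (D : RootData N) {f : E N → ℂ} (hf : ContDiffOn ℝ ∞ f {0}ᶜ) {x : E N}
    (hx : x ≠ 0) :
    Lap D (fun y => fderiv ℝ f y y) x = fderiv ℝ (Lap D f) x x + 2 * Lap D f x := by
  have hL : fderiv ℝ (Lap D f) x x = ∑ j : Fin N, fderiv ℝ (T D (ee j) (T D (ee j) f)) x x := by
    apply euler_eq (diffAt_of_smooth (Lap_contDiffOn D hf) hx)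
    refine HasDerivAt.fun_sum fun j _ => ?_
    exact euler_hasDerivAt (diffAt_of_smooth (T_contDiffOn D _ (T_contDiffOn D _ hf)) hx)
  rw [hL]
  unfold Lap
  rw [Finset.mul_sum, ← Finset.sum_add_distrib]
  refine Finset.sum_congr rfl fun j _ => ?_
  have hTf := T_contDiffOn D (ee j) hf
  have h1 : EqOn (T D (ee j) (fun y => fderiv ℝ f y y))
      (fun y => fderiv ℝ (T D (ee j) f) y y + T D (ee j) f y) {0}ᶜ :=
    fun y hy => T_euler D (ee j) hf hy
  rw [T_congr D (ee j) h1 hx, T_add D (ee j)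
    (diffAt_of_smooth (fderiv_self_contDiffOn hTf) hx) (diffAt_of_smooth hTf hx),
    T_euler D (ee j) hTf hx]
  ring

end Rel2Aux

open Rel2Aux

theorem opT_opA (a : ℝ) (f : V N) :
    opT N (opA N a f) = opA N a (opT N f) + (a : ℂ) • opA N a f := by
  apply vext
  intro x hx
  have hx0 : 0 < ‖x‖ := norm_pos_iff.mpr hx
  simp only [opT_apply, Submodule.coe_add, Submodule.coe_smul, Pi.add_apply, Pi.smul_apply,
    opA_apply, smul_eq_mul]
  apply euler_eq (vdiffAt (opA N a f) hx)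
  have h1 : HasDerivAt (fun t : ℝ => ((t ^ a : ℝ) : ℂ)) (a : ℂ) 1 :=
    (hasDerivAt_rpow_one a).ofReal_comp
  have h2 := (h1.mul (euler_hasDerivAt (vdiffAt f hx))).const_mul ((‖x‖ ^ a : ℝ) : ℂ)
  refine (h2.congr_of_eventuallyEq ?_).congr_deriv ?_
  · filter_upwards [lt_mem_nhds (zero_lt_one' ℝ)] with t ht
    simp only [opA_apply, Pi.mul_apply]
    rw [norm_pos_smul ht, Real.mul_rpow ht.le hx0.le]
    push_cast
    ring
  · simp only [one_smul, Real.one_rpow, Complex.ofReal_one]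
    ring

theorem opT_opB (D : RootData N) (a : ℝ) (f : V N) :
    opT N (opB D a f) = opB D a (opT N f) - (a : ℂ) • opB D a f := by
  apply vext
  intro x hx
  have hx0 : 0 < ‖x‖ := norm_pos_iff.mpr hx
  simp only [opT_apply, Submodule.coe_sub, Submodule.coe_smul, Pi.sub_apply, Pi.smul_apply,
    smul_eq_mul]
  rw [opB_apply D a f hx, opB_apply D a (opT N f) hx]
  have hL : DifferentiableAt ℝ (Lap D f.1) x := diffAt_of_smooth (Lap_contDiffOn D f.2.1) hx
  have h3 : fderiv ℝ (opB D a f).1 x x =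
      ((‖x‖ ^ (2 - a) : ℝ) : ℂ) * (fderiv ℝ (Lap D f.1) x x + ((2 - a : ℝ) : ℂ) * Lap D f.1 x) := by
    apply euler_eq (vdiffAt (opB D a f) hx)
    have h1 : HasDerivAt (fun t : ℝ => ((t ^ (2 - a) : ℝ) : ℂ)) (((2 - a : ℝ)) : ℂ) 1 :=
      (hasDerivAt_rpow_one (2 - a)).ofReal_comp
    have h2 := (h1.mul (euler_hasDerivAt hL)).const_mul ((‖x‖ ^ (2 - a) : ℝ) : ℂ)
    refine (h2.congr_of_eventuallyEq ?_).congr_deriv ?_
    · filter_upwards [lt_mem_nhds (zero_lt_one' ℝ)] with t ht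
      have htx : t • x ≠ 0 := smul_ne_zero ht.ne' hx
      simp only [Pi.mul_apply]
      rw [opB_apply D a f htx]
      unfold BF
      rw [norm_pos_smul ht, Real.mul_rpow ht.le hx0.le]
      push_cast
      ring
    · simp only [one_smul, Real.one_rpow, Complex.ofReal_one]
      ring
  rw [h3]
  unfold BF
  have h4 : Lap D (opT N f).1 x = fderiv ℝ (Lap D f.1) x x + 2 * Lap D f.1 x :=
    Lap_euler D f.2.1 hx
  rw [h4]
  push_cast
  ring

theorem PF_contDiffOn (a : ℝ) {m : ℕ} {p : E N → ℂ} (hp : p ∈ Hom N m) (q : ℝ[X]) :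
    ContDiffOn ℝ ∞ (PF a p q) {0}ᶜ := by
  unfold PF
  refine (hom_contDiff hp).contDiffOn.mul ?_
  refine Complex.ofRealCLM.contDiff.comp_contDiffOn ?_
  have h1 := norm_rpow_contDiffOn (N := N) a
  refine ContDiffOn.mul ?_ ?_
  · have h2 : ContDiff ℝ ∞ (fun r : ℝ => q.eval r) := by
      simpa [Polynomial.coe_aeval_eq_eval] using Polynomial.contDiff_aeval (𝕜 := ℝ) q ∞
    exact h2.comp_contDiffOn h1
  · exact Real.contDiff_exp.comp_contDiffOn (h1.neg.div_const a)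

/-- the element of `V` given by `PF` -/
def PV (a : ℝ) {m : ℕ} {p : E N → ℂ} (hp : p ∈ Hom N m) (q : ℝ[X]) : V N :=
  ⟨cut (PF a p q), cut_mem (PF_contDiffOn a hp q)⟩

theorem PV_apply (a : ℝ) {m : ℕ} {p : E N → ℂ} (hp : p ∈ Hom N m) (q : ℝ[X]) {x : E N}
    (hx : x ≠ 0) : (PV a hp q).1 x = PF a p q x := cut_apply _ hx

theorem opA_PV (a : ℝ) {m : ℕ} {p : E N → ℂ} (hp : p ∈ Hom N m) (q : ℝ[X]) :
    opA N a (PV a hp q) = PV a hp (Polynomial.X * q) := by
  apply vext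
  intro x hx
  rw [opA_apply, PV_apply a hp _ hx, PV_apply a hp _ hx]
  unfold PF
  rw [Polynomial.eval_mul, Polynomial.eval_X]
  push_cast
  ring

theorem opT_PV (a : ℝ) (ha : 0 < a) {m : ℕ} {p : E N → ℂ} (hp : p ∈ Hom N m) (q : ℝ[X]) :
    opT N (PV a hp q) = PV a hp (Tm a m q) := by
  apply vext
  intro x hx
  have hx0 : 0 < ‖x‖ := norm_pos_iff.mpr hx
  rw [opT_apply, PV_apply a hp _ hx]
  apply euler_eq (vdiffAt _ hx)
  set s : ℝ := ‖x‖ ^ a with hs
  have h1 : HasDerivAt (fun t : ℝ => t ^ a * s) (a * s) 1 := (hasDerivAt_rpow_one a).mul_const s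
  have h2 : HasDerivAt (fun t : ℝ => q.eval (t ^ a * s)) (q.derivative.eval s * (a * s)) 1 := by
    have := (q.hasDerivAt ((1:ℝ) ^ a * s)).comp (1:ℝ) h1
    rw [Real.one_rpow, one_mul] at this
    exact this
  have h3 : HasDerivAt (fun t : ℝ => Real.exp (-(t ^ a * s) / a))
      (Real.exp (-s / a) * (-(a * s) / a)) 1 := by
    have := (h1.neg.div_const a).exp
    simpa using this
  have h4 : HasDerivAt (fun t : ℝ => t ^ m) (m : ℝ) 1 := by
    have := hasDerivAt_pow m (1:ℝ)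
    simpa using this
  have h5 := ((h4.mul (h2.mul h3)).ofReal_comp).const_mul (p x)
  refine (h5.congr_of_eventuallyEq ?_).congr_deriv ?_
  · filter_upwards [lt_mem_nhds (zero_lt_one' ℝ)] with t ht
    have htx : t • x ≠ 0 := smul_ne_zero ht.ne' hx
    rw [PV_apply a hp _ htx]
    unfold PF
    rw [hom_smul hp, norm_pos_smul ht, Real.mul_rpow ht.le hx0.le]
    simp only [Pi.mul_apply]
    push_cast
    ring
  · unfold PF Tm
    simp only [one_pow, Real.one_rpow, one_mul, Pi.mul_apply, Polynomial.eval_sub,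
      Polynomial.eval_add, Polynomial.eval_mul, Polynomial.eval_C, Polynomial.eval_X]
    rw [← hs]
    have ha' : (a : ℂ) ≠ 0 := by exact_mod_cast ha.ne'
    push_cast
    field_simp
    ring

namespace Rel2Aux

/-- the radial function `Q(r^a) e^{-r^a/a}` -/
def phi (a : ℝ) (Q : ℝ[X]) (r : ℝ) : ℝ := Q.eval (r ^ a) * Real.exp (-(r ^ a) / a)

theorem phi_contDiffOn (a : ℝ) (Q : ℝ[X]) : ContDiffOn ℝ ∞ (phi a Q) (Ioi 0) := by
  have h0 : ContDiffOn ℝ ∞ (fun r : ℝ => r ^ a) (Ioi 0) := fun r hr =>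
    (contDiffAt_id.rpow_const_of_ne (ne_of_gt hr)).contDiffWithinAt
  refine ContDiffOn.mul ?_ ?_
  · have h2 : ContDiff ℝ ∞ (fun r : ℝ => Q.eval r) := by
      simpa [Polynomial.coe_aeval_eq_eval] using Polynomial.contDiff_aeval (𝕜 := ℝ) Q ∞
    exact h2.comp_contDiffOn h0
  · exact Real.contDiff_exp.comp_contDiffOn (h0.neg.div_const a)

theorem phi_hasDerivAt {a : ℝ} (ha : 0 < a) (Q : ℝ[X]) {r : ℝ} (hr : 0 < r) :
    HasDerivAt (phi a Q) (r⁻¹ * phi a (Tm a 0 Q) r) r := by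
  have h1 : HasDerivAt (fun t : ℝ => t ^ a) (a * r ^ (a - 1)) r :=
    Real.hasDerivAt_rpow_const (Or.inl hr.ne')
  have h2 := (Q.hasDerivAt (r ^ a)).comp r h1
  have h3 := (h1.neg.div_const a).exp
  refine (h2.mul h3).congr_deriv ?_
  unfold phi Tm
  simp only [Function.comp, Pi.neg_apply, Polynomial.eval_sub, Polynomial.eval_add,
    Polynomial.eval_mul, Polynomial.eval_C, Polynomial.eval_X]
  rw [Real.rpow_sub_one hr.ne']
  field_simp
  push_cast
  ring

theorem phi_add (a : ℝ) (P Q : ℝ[X]) (r : ℝ) : phi a (P + Q) r = phi a P r + phi a Q r := by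
  unfold phi; rw [Polynomial.eval_add]; ring

theorem phi_C_mul (a c : ℝ) (Q : ℝ[X]) (r : ℝ) : phi a (Polynomial.C c * Q) r = c * phi a Q r := by
  unfold phi; rw [Polynomial.eval_mul, Polynomial.eval_C]; ring

theorem phi_X_mul (a : ℝ) (Q : ℝ[X]) (r : ℝ) : phi a (Polynomial.X * Q) r = r ^ a * phi a Q r := by
  unfold phi; rw [Polynomial.eval_mul, Polynomial.eval_X]; ring

theorem X_mul_Bm (a b : ℝ) (m : ℕ) (Q : ℝ[X]) :
    Polynomial.X * Bm a b m Q =
      Tm a 0 (Tm a 0 Q) + Polynomial.C (b + 2 * m) * Tm a 0 Q := by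
  unfold Bm Tm
  simp only [Nat.cast_zero, map_zero, zero_mul, zero_add, Polynomial.derivative_sub,
    Polynomial.derivative_mul, Polynomial.derivative_C, Polynomial.derivative_X, map_add, map_mul,
    map_pow]
  have h2 : Polynomial.C (2 : ℝ) = 2 := map_ofNat _ 2
  rw [h2]
  ring

theorem radial_Bm {a : ℝ} (ha : 0 < a) (b : ℝ) (m : ℕ) (Q : ℝ[X]) {r : ℝ} (hr : 0 < r) :
    r ^ (2 - a) * ((deriv (deriv (phi a Q)) r + (b + 1) * (deriv (phi a Q) r / r))
      + 2 * (deriv (phi a Q) r / r) * m) = phi a (Bm a b m Q) r := by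
  have h1 : ∀ t : ℝ, 0 < t → deriv (phi a Q) t = t⁻¹ * phi a (Tm a 0 Q) t := fun t ht =>
    (phi_hasDerivAt ha Q ht).deriv
  have h2 : deriv (deriv (phi a Q)) r =
      -(r ^ 2)⁻¹ * phi a (Tm a 0 Q) r + r⁻¹ * (r⁻¹ * phi a (Tm a 0 (Tm a 0 Q)) r) := by
    have h3 : deriv (phi a Q) =ᶠ[𝓝 r] fun t => t⁻¹ * phi a (Tm a 0 Q) t := by
      filter_upwards [lt_mem_nhds hr] with t ht using h1 t ht
    rw [h3.deriv_eq]
    exact ((hasDerivAt_inv hr.ne').mul (phi_hasDerivAt ha (Tm a 0 Q) hr)).deriv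
  have h4 := congrArg (fun P => phi a P r) (X_mul_Bm a b m Q)
  simp only [phi_X_mul, phi_add, phi_C_mul] at h4
  have h5 : r ^ (2 - a) * r ^ a = r ^ 2 := by
    rw [← Real.rpow_add hr, sub_add_cancel]; norm_num
  have h6 : (0 : ℝ) < r ^ a := Real.rpow_pos_of_pos hr a
  rw [h2, h1 r hr]
  have h7 : r ^ (2 - a) = r ^ 2 / r ^ a := by
    rw [eq_div_iff h6.ne', h5]
  rw [h7]
  have h8 : phi a (Bm a b m Q) r = (phi a (Tm a 0 (Tm a 0 Q)) r +
      (b + 2 * m) * phi a (Tm a 0 Q) r) / r ^ a := by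
    rw [eq_div_iff h6.ne', ← h4]; ring
  rw [h8]
  field_simp
  ring

end Rel2Aux

theorem opB_PV (D : RootData N) (a : ℝ) (ha : 0 < a) {m : ℕ} {p : E N → ℂ} (hp : p ∈ Hom N m)
    (hp' : ∀ x, Lap D p x = 0) (q : ℝ[X]) :
    opB D a (PV a hp q) = PV a hp (Bm a (bb D) m q) := by
  apply vext
  intro x hx
  have hx0 : 0 < ‖x‖ := norm_pos_iff.mpr hx
  rw [opB_apply D a _ hx, PV_apply a hp _ hx]
  unfold BF
  have h1 : EqOn (PV a hp q).1 (fun y => ((phi a q ‖y‖ : ℝ) : ℂ) * p y) {0}ᶜ := by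
    intro y hy
    rw [PV_apply a hp _ hy]
    unfold PF phi
    ring
  rw [Lap_congr D h1 hx, Lap_radial_mul D (phi_contDiffOn a q) (hom_contDiff hp).contDiffOn hx,
    hp' x, hom_euler hp]
  have h2 := radial_Bm ha (bb D) m q hx0
  have h3 : PF a p (Bm a (bb D) m q) x = p x * ((phi a (Bm a (bb D) m q) ‖x‖ : ℝ) : ℂ) := rfl
  rw [h3, ← h2]
  push_cast
  ring

theorem wv_PV (D : RootData N) (a : ℝ) (ha : 0 < a) {m : ℕ} {p : E N → ℂ} (hp : p ∈ Hom N m)
    (hp' : ∀ x, Lap D p x = 0) (w : List Lt) (q : ℝ[X]) :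
    wv D a w (PV a hp q) = PV a hp (wr a (bb D) m w q) := by
  induction w with
  | nil => rfl
  | cons c w ih =>
    show (lv D a c) (wv D a w (PV a hp q)) = PV a hp (lr a (bb D) m c (wr a (bb D) m w q))
    rw [ih]
    cases c with
    | A => exact opA_PV a hp _
    | B => exact opB_PV D a ha hp hp' _
    | T => exact opT_PV a ha hp _

end KaSch
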