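import Pool.Agent.Work.MP_d717ad_an.Base
import Pool.Agent.Work.MP_d717ad_an.Polar1
import Pool.Agent.Work.MP_d717ad_an.Hom1
import Pool.Agent.Work.MP_d717ad_an.Rel2

open scoped ContDiff Topology Polynomial
open MeasureTheory Set

noncomputable section

namespace KaSch

variable {N : ℕ}


namespace Polar2Aux

theorem v_measurable (f : V N) : Measurable f.1 :=
  measurable_of_continuousOn_compl_singleton 0 f.2.1.continuousOn

/-- `r^{κ-1}/(1+r^s)` is integrable for `0 < κ < s` -/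
theorem radial_integrable {κ s C : ℝ} (hκ : 0 < κ) (hs : κ < s) :
    IntegrableOn (fun r : ℝ => r ^ (κ - 1) * (C / (1 + r ^ s))) (Ioi 0) := by
  have hmeas : Measurable (fun r : ℝ => r ^ (κ - 1) * (C / (1 + r ^ s))) := by fun_prop
  rw [← Ioc_union_Ioi_eq_Ioi (zero_le_one' ℝ)]
  refine IntegrableOn.union ?_ ?_
  · have h1 : IntegrableOn (fun r : ℝ => |C| * r ^ (κ - 1)) (Ioc 0 1) := by
      refine Integrable.const_mul ?_ _
      exact (intervalIntegrable_iff_integrableOn_Ioc_of_le zero_le_one).1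
        (intervalIntegral.intervalIntegrable_rpow' (by linarith))
    refine Integrable.mono' h1 hmeas.aestronglyMeasurable ?_
    refine (ae_restrict_iff' measurableSet_Ioc).2 (Filter.Eventually.of_forall fun r hr => ?_)
    have h2 : 0 ≤ r ^ s := Real.rpow_nonneg hr.1.le _
    have h3 : 0 ≤ r ^ (κ - 1) := Real.rpow_nonneg hr.1.le _
    rw [norm_mul, Real.norm_of_nonneg h3, norm_div, Real.norm_eq_abs, mul_comm]
    refine mul_le_mul_of_nonneg_right ?_ h3
    rw [Real.norm_of_nonneg (by linarith : (0:ℝ) ≤ 1 + r ^ s)]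
    exact div_le_self (abs_nonneg _) (by linarith)
  · have h1 : IntegrableOn (fun r : ℝ => |C| * r ^ (κ - 1 - s)) (Ioi 1) := by
      refine Integrable.const_mul ?_ _
      exact integrableOn_Ioi_rpow_of_lt (by linarith) zero_lt_one
    refine Integrable.mono' h1 hmeas.aestronglyMeasurable ?_
    refine (ae_restrict_iff' measurableSet_Ioi).2 (Filter.Eventually.of_forall fun r hr => ?_)
    have hr0 : (0:ℝ) < r := lt_trans zero_lt_one hr
    have h2 : 0 < r ^ s := Real.rpow_pos_of_pos hr0 _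
    have h3 : 0 ≤ r ^ (κ - 1) := Real.rpow_nonneg hr0.le _
    rw [norm_mul, Real.norm_of_nonneg h3, norm_div, Real.norm_eq_abs,
      Real.rpow_sub hr0 (κ - 1) s, Real.norm_of_nonneg (by linarith : (0:ℝ) ≤ 1 + r ^ s)]
    rw [mul_div_assoc', div_eq_mul_inv, div_eq_mul_inv, ← mul_assoc, mul_comm (r ^ (κ - 1)) |C|]
    refine mul_le_mul_of_nonneg_left ?_ (mul_nonneg (abs_nonneg _) h3)
    exact inv_anti₀ h2 (by linarith)

theorem decay_bound (f : V N) {a : ℝ} (hf : Decay a f.1) (n : ℕ) :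
    ∃ C : ℝ, 0 ≤ C ∧ ∀ x : E N, ‖f.1 x‖ ≤ C / (1 + ‖x‖ ^ (a * n)) := by
  obtain ⟨C0, h0⟩ := hf 0
  obtain ⟨C1, h1⟩ := hf n
  refine ⟨|C0| + |C1|, by positivity, fun x => ?_⟩
  have hpos : 0 < 1 + ‖x‖ ^ (a * n) := by
    have := Real.rpow_nonneg (norm_nonneg x) (a * n); linarith
  rw [le_div_iff₀ hpos]
  by_cases hx : x = 0
  · subst hx
    rw [vzero f, norm_zero, zero_mul]
    positivity
  · have h2 := h0 x hx
    have h3 := h1 x hx
    rw [pow_zero, one_mul] at h2
    rw [← Real.rpow_natCast (‖x‖ ^ a) n, ← Real.rpow_mul (norm_nonneg x)] at h3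
    have := le_abs_self C0
    have := le_abs_self C1
    nlinarith

theorem poly_exp_bdd {a : ℝ} (ha : 0 < a) (Q : ℝ[X]) :
    ∃ C : ℝ, ∀ s : ℝ, 0 ≤ s → |Q.eval s| * Real.exp (-s / a) ≤ C := by
  induction Q using Polynomial.induction_on' with
  | add p q hp hq =>
    obtain ⟨C, hC⟩ := hp
    obtain ⟨C', hC'⟩ := hq
    refine ⟨C + C', fun s hs => ?_⟩
    rw [Polynomial.eval_add]
    have := abs_add_le (p.eval s) (q.eval s)
    have h1 := hC s hs
    have h2 := hC' s hs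
    have h3 := Real.exp_pos (-s / a)
    nlinarith
  | monomial n c =>
    refine ⟨|c| * (n.factorial * a ^ n), fun s hs => ?_⟩
    rw [Polynomial.eval_monomial, abs_mul, abs_of_nonneg (pow_nonneg hs n), mul_assoc]
    refine mul_le_mul_of_nonneg_left ?_ (abs_nonneg _)
    have h1 := Real.pow_div_factorial_le_exp (s / a) (div_nonneg hs ha.le) n
    have h2 : (0 : ℝ) < n.factorial := by exact_mod_cast n.factorial_pos
    rw [div_le_iff₀ h2, div_pow, div_le_iff₀ (by positivity)] at h1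
    rw [neg_div, Real.exp_neg, ← div_eq_mul_inv, div_le_iff₀ (Real.exp_pos _)]
    linarith

theorem p_bound {m : ℕ} {p : E N → ℂ} (hp : p ∈ Hom N m) :
    ∃ M : ℝ, 0 ≤ M ∧ ∀ x : E N, x ≠ 0 → ‖p x‖ ≤ M * ‖x‖ ^ m := by
  have hc : Continuous p := (hom_contDiff hp).continuous
  obtain ⟨M, hM⟩ := (isCompact_sphere (0 : E N) 1).exists_bound_of_continuousOn hc.continuousOn
  refine ⟨|M|, abs_nonneg _, fun x hx => ?_⟩
  have hx' : ‖x‖ ≠ 0 := norm_ne_zero_iff.mpr hx
  have h1 : x = ‖x‖ • (‖x‖⁻¹ • x) := by rw [smul_smul, mul_inv_cancel₀ hx', one_smul]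
  have h2 : ‖p (‖x‖⁻¹ • x)‖ ≤ M := hM _ (by
    rw [mem_sphere_zero_iff_norm, norm_smul, norm_inv, norm_norm, inv_mul_cancel₀ hx'])
  have h3 := hom_smul hp ‖x‖ (‖x‖⁻¹ • x)
  rw [← h1] at h3
  rw [h3, norm_mul, Complex.norm_real, Real.norm_of_nonneg (by positivity), mul_comm]
  exact mul_le_mul_of_nonneg_right (h2.trans (le_abs_self M)) (by positivity)

end Polar2Aux

open Polar2Aux

/-- `Decay` functions are integrable, and even after division by `‖x‖^s`, `s < κ` -/
theorem decay_integrable (hN : 2 ≤ N) (D : RootData N) {a : ℝ} (ha : 0 < a) (f : V N)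
    (hf : Decay a f.1) : Integrable f.1 (mu D a) := by
  obtain ⟨n, hn⟩ := exists_nat_gt (kap D a / a)
  obtain ⟨C, hC0, hC⟩ := decay_bound f hf n
  have hlt : kap D a < a * n := by
    rw [div_lt_iff₀ ha] at hn; linarith
  have h1 : Integrable (fun x : E N => C / (1 + ‖x‖ ^ (a * n))) (mu D a) :=
    integrable_radial hN D ha (F := fun r => C / (1 + r ^ (a * n)))
      (radial_integrable (kap_pos hN D ha) hlt)
  exact Integrable.mono' h1 (v_measurable f).aestronglyMeasurable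
    (Filter.Eventually.of_forall hC)

theorem decay_memLp (hN : 2 ≤ N) (D : RootData N) {a : ℝ} (ha : 0 < a) (f : V N)
    (hf : Decay a f.1) : MemLp f.1 2 (mu D a) := by
  rw [memLp_two_iff_integrable_sq_norm (v_measurable f).aestronglyMeasurable]
  have h1 := (decay_integrable hN D ha f hf).norm
  obtain ⟨C, hC0, hC⟩ := decay_bound f hf 0
  refine Integrable.mono' (h1.const_mul C) ((v_measurable f).norm.pow_const 2).aestronglyMeasurable
    (Filter.Eventually.of_forall fun x => ?_)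
  have h2 := hC x
  simp only [Nat.cast_zero, mul_zero, Real.rpow_zero] at h2
  have h3 : ‖f.1 x‖ ≤ C := by linarith
  rw [norm_pow, norm_norm, sq]
  exact mul_le_mul_of_nonneg_right h3 (norm_nonneg _)

theorem PV_decay (hN : 2 ≤ N) {a : ℝ} (ha : 0 < a) {m : ℕ} {p : E N → ℂ} (hp : p ∈ Hom N m)
    (q : ℝ[X]) : Decay a (PV a hp q).1 := by
  intro n
  obtain ⟨M, hM0, hM⟩ := p_bound hp
  obtain ⟨k, hk⟩ := exists_nat_ge ((m : ℝ) / a)
  obtain ⟨C, hC⟩ := poly_exp_bdd ha (Polynomial.X ^ n * (1 + Polynomial.X ^ k) * q)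
  refine ⟨M * C, fun x hx => ?_⟩
  have hx0 : 0 < ‖x‖ := norm_pos_iff.mpr hx
  set s : ℝ := ‖x‖ ^ a with hs
  have hs0 : 0 < s := Real.rpow_pos_of_pos hx0 a
  have h1 : ‖x‖ ^ m ≤ 1 + s ^ k := by
    have h2 : ‖x‖ ^ m = s ^ ((m : ℝ) / a) := by
      rw [hs, ← Real.rpow_mul hx0.le, mul_div_cancel₀ _ ha.ne', Real.rpow_natCast]
    rw [h2]
    rcases le_total s 1 with h3 | h3
    · have := Real.rpow_le_one hs0.le h3 (div_nonneg (Nat.cast_nonneg m) ha.le)
      have := pow_nonneg hs0.le k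
      linarith
    · have := Real.rpow_le_rpow_of_exponent_le h3 hk
      rw [Real.rpow_natCast] at this
      linarith
  have h4 : (PV a hp q).1 x = PF a p q x := cut_apply _ hx
  rw [h4]
  unfold PF
  rw [norm_mul, Complex.norm_real, norm_mul, Real.norm_eq_abs, Real.norm_of_nonneg (Real.exp_pos _).le]
  have h5 := hM x hx
  have h6 := hC s hs0.le
  rw [Polynomial.eval_mul, Polynomial.eval_mul, Polynomial.eval_add, Polynomial.eval_pow,
    Polynomial.eval_X, Polynomial.eval_one, Polynomial.eval_pow, Polynomial.eval_X, abs_mul,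
    abs_of_nonneg (by positivity : (0:ℝ) ≤ s ^ n * (1 + s ^ k))] at h6
  have h7 : 0 ≤ |q.eval s| * Real.exp (-s / a) := by positivity
  calc s ^ n * (‖p x‖ * (|q.eval s| * Real.exp (-s / a)))
      ≤ s ^ n * ((M * (1 + s ^ k)) * (|q.eval s| * Real.exp (-s / a))) := by
        refine mul_le_mul_of_nonneg_left (mul_le_mul_of_nonneg_right ?_ h7) (by positivity)
        exact h5.trans (mul_le_mul_of_nonneg_left h1 hM0)
    _ = M * (s ^ n * (1 + s ^ k) * |q.eval s| * Real.exp (-s / a)) := by ring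
    _ ≤ M * C := mul_le_mul_of_nonneg_left h6 hM0

/-- `∫ conj(PF p q) PF p' q' dμ` in polar coordinates -/
theorem inner_PF (hN : 2 ≤ N) (D : RootData N) {a : ℝ} (ha : 0 < a) {m m' : ℕ} {p p' : E N → ℂ}
    (hp : p ∈ Hom N m) (hp' : p' ∈ Hom N m') (q q' : ℝ[X]) :
    ∫ x, (starRingEnd ℂ) ((PV a hp q).1 x) * (PV a hp' q').1 x ∂(mu D a) =
      (∫ w : Metric.sphere (0 : E N) 1, (starRingEnd ℂ) (p w) * p' w ∂(sig D)) *
      ((∫ r in Ioi (0 : ℝ), (r ^ m * (q.eval (r ^ a) * Real.exp (-(r ^ a) / a))) *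
        (r ^ m' * (q'.eval (r ^ a) * Real.exp (-(r ^ a) / a))) * r ^ (kap D a - 1) : ℝ) : ℂ) := by
  have hpol := polar hN D ha
  have := sig_finite D
  have := rad_sfinite (kap D a)
  have hmeas : Measurable (fun x : E N => (starRingEnd ℂ) ((PV a hp q).1 x) * (PV a hp' q').1 x) :=
    (Complex.continuous_conj.measurable.comp (v_measurable _)).mul (v_measurable _)
  rw [← hpol.map_eq, integral_map hpol.measurable.aemeasurable hmeas.aestronglyMeasurable]
  have hae : ∀ᵐ z ∂((sig D).prod (rad (kap D a))), 0 < z.2 := by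
    have h1 : ∀ᵐ r ∂(rad (kap D a)), 0 < r := by
      unfold rad
      exact (withDensity_absolutelyContinuous _ _).ae_le (ae_restrict_mem measurableSet_Ioi)
    exact Measure.quasiMeasurePreserving_snd.ae h1
  set G : ℝ → ℝ := fun r => (r ^ m * (q.eval (r ^ a) * Real.exp (-(r ^ a) / a))) *
        (r ^ m' * (q'.eval (r ^ a) * Real.exp (-(r ^ a) / a))) with hG
  have hstep : ∫ z : Metric.sphere (0 : E N) 1 × ℝ,
      (starRingEnd ℂ) ((PV a hp q).1 (z.2 • (z.1 : E N))) * (PV a hp' q').1 (z.2 • (z.1 : E N))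
        ∂((sig D).prod (rad (kap D a))) =
      ∫ z : Metric.sphere (0 : E N) 1 × ℝ, ((starRingEnd ℂ) (p z.1) * p' z.1) * ((G z.2 : ℝ) : ℂ)
        ∂((sig D).prod (rad (kap D a))) := by
    refine integral_congr_ae ?_
    filter_upwards [hae] with z hz
    have hw : ‖(z.1 : E N)‖ = 1 := mem_sphere_zero_iff_norm.1 z.1.2
    have hw0 : (z.1 : E N) ≠ 0 := by
      intro h; rw [h, norm_zero] at hw; exact zero_ne_one hw
    have hx : z.2 • (z.1 : E N) ≠ 0 := smul_ne_zero hz.ne' hw0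
    have hn : ‖z.2 • (z.1 : E N)‖ = z.2 := by
      rw [norm_smul, hw, mul_one, Real.norm_of_nonneg hz.le]
    have e1 : (PV a hp q).1 (z.2 • (z.1 : E N)) = PF a p q (z.2 • (z.1 : E N)) := cut_apply _ hx
    have e2 : (PV a hp' q').1 (z.2 • (z.1 : E N)) = PF a p' q' (z.2 • (z.1 : E N)) :=
      cut_apply _ hx
    rw [e1, e2]
    unfold PF
    rw [hn, hom_smul hp, hom_smul hp', hG]
    simp only [map_mul, map_pow, Complex.conj_ofReal, Complex.ofReal_mul, Complex.ofReal_pow]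
    ring
  rw [hstep, integral_prod_mul (μ := sig D) (ν := rad (kap D a))
    (fun w : Metric.sphere (0 : E N) 1 => (starRingEnd ℂ) (p w) * p' w)
    (fun r : ℝ => ((G r : ℝ) : ℂ)), integral_complex_ofReal]
  congr 2
  unfold rad
  rw [integral_withDensity_eq_integral_toReal_smul]
  · refine setIntegral_congr_fun measurableSet_Ioi fun r hr => ?_
    have : (0:ℝ) ≤ r ^ (kap D a - 1) := Real.rpow_nonneg (le_of_lt hr) _
    simp only [smul_eq_mul]
    rw [ENNReal.toReal_ofReal this, mul_comm]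
  · fun_prop
  · exact Filter.Eventually.of_forall fun r => ENNReal.ofReal_lt_top

theorem normsq_PF (hN : 2 ≤ N) (D : RootData N) {a : ℝ} (ha : 0 < a) {m : ℕ} {p : E N → ℂ}
    (hp : p ∈ Hom N m) (q : ℝ[X]) :
    ∫ x, ‖(PV a hp q).1 x‖ ^ 2 ∂(mu D a) =
      (∫ w : Metric.sphere (0 : E N) 1, ‖p w‖ ^ 2 ∂(sig D)) * nsq a (bb D) m q := by
  have h := inner_PF hN D ha hp hp q q
  have h1 : ∫ x, (starRingEnd ℂ) ((PV a hp q).1 x) * (PV a hp q).1 x ∂(mu D a) =
      ((∫ x, ‖(PV a hp q).1 x‖ ^ 2 ∂(mu D a) : ℝ) : ℂ) := by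
    rw [← integral_complex_ofReal]
    refine integral_congr_ae (Filter.Eventually.of_forall fun x => ?_)
    simp only [Complex.ofReal_pow]
    rw [Complex.conj_mul']
  have h2 : ∫ w : Metric.sphere (0 : E N) 1, (starRingEnd ℂ) (p w) * p w ∂(sig D) =
      ((∫ w : Metric.sphere (0 : E N) 1, ‖p w‖ ^ 2 ∂(sig D) : ℝ) : ℂ) := by
    rw [← integral_complex_ofReal]
    refine integral_congr_ae (Filter.Eventually.of_forall fun x => ?_)
    simp only [Complex.ofReal_pow]
    rw [Complex.conj_mul']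
  rw [h1, h2] at h
  have h3 : (∫ x, ‖(PV a hp q).1 x‖ ^ 2 ∂(mu D a)) =
      (∫ w : Metric.sphere (0 : E N) 1, ‖p w‖ ^ 2 ∂(sig D)) *
      (∫ r in Ioi (0 : ℝ), (r ^ m * (q.eval (r ^ a) * Real.exp (-(r ^ a) / a))) *
        (r ^ m * (q.eval (r ^ a) * Real.exp (-(r ^ a) / a))) * r ^ (kap D a - 1)) := by
    exact_mod_cast h
  rw [h3]
  congr 1
  unfold nsq
  rw [← kap_eq]
  refine setIntegral_congr_fun measurableSet_Ioi fun r _ => ?_
  simp only [sq]

end KaSch
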