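import Pool.Agent.Work.MP_d717ad_an.Base
import Pool.Agent.Work.MP_d717ad_an.Hom2
import Pool.Agent.Work.MP_d717ad_an.Rel2
import Pool.Agent.Work.MP_d717ad_an.Polar2
import Pool.Agent.Work.MP_d717ad_an.Comp1

open scoped ContDiff Topology Polynomial
open MeasureTheory Set

noncomputable section

namespace KaSch

variable {N : ℕ}

/-! ### Module COMP2: spherical completeness and completeness -/

theorem sph_integrable (D : RootData N) {F g : Metric.sphere (0 : E N) 1 → ℂ}
    (hF : Continuous F) (hg : MemLp g 2 (sig D)) :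
    Integrable (fun w => F w * g w) (sig D) := by
  have := sig_finite D
  have hgi : Integrable g (sig D) := hg.integrable (by norm_num)
  obtain ⟨C, hC⟩ := isCompact_univ.exists_bound_of_continuousOn (f := F) hF.continuousOn
  exact hgi.bdd_mul hF.aestronglyMeasurable (c := C) (ae_of_all _ fun w => hC w (mem_univ _))

theorem hom_eval {n : ℕ} {P : MvPolynomial (Fin N) ℂ} (hP : P.IsHomogeneous n) :
    (fun x : E N => MvPolynomial.eval (fun i => ((x i : ℝ) : ℂ)) P) ∈ Hom N n :=
  ⟨P, hP, fun _ => rfl⟩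

/-- all homogeneous polynomials integrate to zero against `g` -/
theorem sph_hom_zero (hN : 2 ≤ N) (D : RootData N) {g : Metric.sphere (0 : E N) 1 → ℂ}
    (hg : MemLp g 2 (sig D))
    (h0 : ∀ (m : ℕ) (p : E N → ℂ), p ∈ Harm D m →
      ∫ w : Metric.sphere (0 : E N) 1, p w * g w ∂(sig D) = 0)
    {n : ℕ} {p : E N → ℂ} (hp : p ∈ Hom N n) :
    ∫ w : Metric.sphere (0 : E N) 1, p w * g w ∂(sig D) = 0 := by
  obtain ⟨h, hh, hsum⟩ := fischer (by omega) D hp
  have h1 : ∀ w : Metric.sphere (0 : E N) 1, p w * g w =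
      ∑ j ∈ Finset.range (n / 2 + 1), h j w * g w := by
    intro w
    rw [hsum, Finset.sum_mul]
    refine Finset.sum_congr rfl fun j _ => ?_
    have : ‖(w : E N)‖ = 1 := by simp
    rw [this]
    simp
  simp_rw [h1]
  rw [integral_finsetSum]
  · refine Finset.sum_eq_zero fun j hj => ?_
    have hj' : 2 * j ≤ n := by
      have := Finset.mem_range.mp hj
      omega
    exact h0 _ _ (hh j hj')
  · intro j hj
    have hj' : 2 * j ≤ n := by
      have := Finset.mem_range.mp hj
      omega
    exact sph_integrable D ((hom_contDiff (hh j hj').1).continuous.comp continuous_subtype_val) hg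

/-- polynomials integrate to zero against `g` -/
theorem sph_poly_zero (hN : 2 ≤ N) (D : RootData N) {g : Metric.sphere (0 : E N) 1 → ℂ}
    (hg : MemLp g 2 (sig D))
    (h0 : ∀ (m : ℕ) (p : E N → ℂ), p ∈ Harm D m →
      ∫ w : Metric.sphere (0 : E N) 1, p w * g w ∂(sig D) = 0) (P : MvPolynomial (Fin N) ℂ) :
    ∫ w : Metric.sphere (0 : E N) 1,
      MvPolynomial.eval (fun i => (((w : E N) i : ℝ) : ℂ)) P * g w ∂(sig D) = 0 := by
  have h1 : ∀ w : Metric.sphere (0 : E N) 1,
      MvPolynomial.eval (fun i => (((w : E N) i : ℝ) : ℂ)) P * g w =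
      ∑ i ∈ Finset.range (P.totalDegree + 1),
        MvPolynomial.eval (fun i => (((w : E N) i : ℝ) : ℂ)) (P.homogeneousComponent i) * g w := by
    intro w
    conv_lhs => rw [← MvPolynomial.sum_homogeneousComponent P]
    rw [map_sum, Finset.sum_mul]
  simp_rw [h1]
  rw [integral_finsetSum]
  · refine Finset.sum_eq_zero fun i _ => ?_
    exact sph_hom_zero hN D hg h0 (hom_eval (P.homogeneousComponent_isHomogeneous i))
  · intro i _
    exact sph_integrable D ((hom_contDiff (hom_eval
      (P.homogeneousComponent_isHomogeneous i))).continuous.comp continuous_subtype_val) hg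

/-- the star-algebra of polynomial functions on the sphere -/
def polyAlg (N : ℕ) : StarSubalgebra ℂ C(Metric.sphere (0 : E N) 1, ℂ) where
  carrier := {F | ∃ P : MvPolynomial (Fin N) ℂ, ∀ w : Metric.sphere (0 : E N) 1,
    F w = MvPolynomial.eval (fun i => (((w : E N) i : ℝ) : ℂ)) P}
  mul_mem' := by
    rintro F G ⟨P, hP⟩ ⟨Q, hQ⟩
    exact ⟨P * Q, fun w => by simp [hP w, hQ w]⟩
  add_mem' := by
    rintro F G ⟨P, hP⟩ ⟨Q, hQ⟩
    exact ⟨P + Q, fun w => by simp [hP w, hQ w]⟩
  algebraMap_mem' := by
    intro c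
    exact ⟨MvPolynomial.C c, fun w => by simp⟩
  star_mem' := by
    rintro F ⟨P, hP⟩
    refine ⟨P.map (starRingEnd ℂ), fun w => ?_⟩
    rw [ContinuousMap.star_apply, hP w, MvPolynomial.eval_map]
    have h := MvPolynomial.eval₂_comp_left (starRingEnd ℂ) (RingHom.id ℂ)
      (fun i => (((w : E N) i : ℝ) : ℂ)) P
    rw [MvPolynomial.eval₂_id] at h
    rw [← starRingEnd_apply, h]
    congr 1
    funext i
    simp

theorem polyAlg_sep (N : ℕ) : (polyAlg N).SeparatesPoints := by
  intro v w hvw
  have hvw' : (v : E N) ≠ w := fun h => hvw (Subtype.ext h)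
  obtain ⟨i, hi⟩ : ∃ i, (v : E N) i ≠ (w : E N) i := by
    by_contra hcon
    push Not at hcon
    exact hvw' (PiLp.ext hcon)
  let F : C(Metric.sphere (0 : E N) 1, ℂ) :=
    ⟨fun w => (((w : E N) i : ℝ) : ℂ), by fun_prop⟩
  refine ⟨F, ⟨F, ⟨MvPolynomial.X i, fun w => by simp [F]⟩, rfl⟩, ?_⟩
  simpa [F] using hi

/-- continuous functions integrate to zero against `g` -/
theorem sph_cont_zero (hN : 2 ≤ N) (D : RootData N) {g : Metric.sphere (0 : E N) 1 → ℂ}
    (hg : MemLp g 2 (sig D))
    (h0 : ∀ (m : ℕ) (p : E N → ℂ), p ∈ Harm D m →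
      ∫ w : Metric.sphere (0 : E N) 1, p w * g w ∂(sig D) = 0)
    (F : C(Metric.sphere (0 : E N) 1, ℂ)) : ∫ w, F w * g w ∂(sig D) = 0 := by
  have hfin := sig_finite D
  have hgi : Integrable g (sig D) := hg.integrable (by norm_num)
  have hcl : F ∈ (polyAlg N).topologicalClosure := by
    rw [ContinuousMap.starSubalgebra_topologicalClosure_eq_top_of_separatesPoints _
      (polyAlg_sep N)]
    trivial
  have hclosed : IsClosed {F : C(Metric.sphere (0 : E N) 1, ℂ) | ∫ w, F w * g w ∂(sig D) = 0} := by
    refine isClosed_eq ?_ continuous_const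
    have hL : LipschitzWith (Real.toNNReal (∫ w, ‖g w‖ ∂(sig D)))
        (fun F : C(Metric.sphere (0 : E N) 1, ℂ) => ∫ w, F w * g w ∂(sig D)) := by
      refine LipschitzWith.of_dist_le_mul fun F G => ?_
      rw [dist_eq_norm, dist_eq_norm, ← integral_sub (sph_integrable D F.continuous hg)
        (sph_integrable D G.continuous hg),
        Real.coe_toNNReal _ (integral_nonneg fun _ => norm_nonneg _), mul_comm]
      rw [← integral_const_mul]
      refine norm_integral_le_of_norm_le (hgi.norm.const_mul _) (ae_of_all _ fun w => ?_)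
      rw [← sub_mul, norm_mul]
      refine mul_le_mul_of_nonneg_right ?_ (norm_nonneg _)
      exact (F - G).norm_coe_le_norm w
    exact hL.continuous
  have hsub : ((polyAlg N : StarSubalgebra ℂ C(Metric.sphere (0 : E N) 1, ℂ)) :
      Set C(Metric.sphere (0 : E N) 1, ℂ)) ⊆ {F | ∫ w, F w * g w ∂(sig D) = 0} := by
    rintro G ⟨P, hP⟩
    have := sph_poly_zero hN D hg h0 P
    simp only [mem_ofPred_eq]
    rw [← this]
    exact integral_congr_ae (ae_of_all _ fun w => by simp only [hP w])
  have := closure_minimal hsub hclosed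
  exact this hcl

/-- spherical completeness: `fischer` and Stone–Weierstrass -/
theorem compS (hN : 2 ≤ N) (D : RootData N) {g : Metric.sphere (0 : E N) 1 → ℂ}
    (hg : MemLp g 2 (sig D))
    (h0 : ∀ (m : ℕ) (p : E N → ℂ), p ∈ Harm D m →
      ∫ w : Metric.sphere (0 : E N) 1, p w * g w ∂(sig D) = 0) : g =ᵐ[sig D] 0 := by
  have hfin := sig_finite D
  have hgc : MemLp (fun w => (starRingEnd ℂ) (g w)) 2 (sig D) := hg.star
  have hv : hgc.toLp = 0 := by
    refine (ContinuousMap.toLp_denseRange (α := Metric.sphere (0 : E N) 1) ℂ (sig D) ℂ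
      (p := 2) (by norm_num)).eq_zero_of_inner_left ℂ fun F => ?_
    rw [L2.inner_def]
    have h1 := sph_cont_zero hN D hg h0 F
    rw [← h1]
    refine integral_congr_ae ?_
    filter_upwards [hgc.coeFn_toLp, ContinuousMap.coeFn_toLp (sig D) (p := 2) (𝕜 := ℂ) F]
      with w hw1 hw2
    rw [hw1, hw2]
    simp
  have h2 : (fun w => (starRingEnd ℂ) (g w)) =ᵐ[sig D] 0 := by
    have := hgc.coeFn_toLp
    rw [hv] at this
    exact this.symm.trans (Lp.coeFn_zero _ _ _)
  filter_upwards [h2] with w hw
  simpa using hw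

/-- Cauchy–Schwarz against the constant `1` -/
theorem sq_integral_le_mul {X : Type*} [MeasurableSpace X] {μ : Measure X} [IsFiniteMeasure μ]
    {f : X → ℝ} (hf : Integrable f μ) (hf2 : Integrable (fun x => f x ^ 2) μ) :
    (∫ x, f x ∂μ) ^ 2 ≤ μ.real univ * ∫ x, f x ^ 2 ∂μ := by
  have h1 : 0 ≤ ∫ x, (μ.real univ * f x - ∫ y, f y ∂μ) ^ 2 ∂μ :=
    integral_nonneg fun _ => sq_nonneg _
  have h2 : ∀ x, (μ.real univ * f x - ∫ y, f y ∂μ) ^ 2 = (μ.real univ) ^ 2 * f x ^ 2
      - (2 * μ.real univ * ∫ y, f y ∂μ) * f x + (∫ y, f y ∂μ) ^ 2 := fun x => by ring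
  simp_rw [h2] at h1
  have i1 : Integrable (fun x => (μ.real univ) ^ 2 * f x ^ 2) μ := hf2.const_mul _
  have i2 : Integrable (fun x => (2 * μ.real univ * ∫ y, f y ∂μ) * f x) μ := hf.const_mul _
  have i3 : Integrable (fun x => (μ.real univ) ^ 2 * f x ^ 2
      - (2 * μ.real univ * ∫ y, f y ∂μ) * f x) μ := i1.sub i2
  rw [integral_add i3 (integrable_const _), integral_sub i1 i2, integral_const_mul,
    integral_const_mul, integral_const, smul_eq_mul] at h1
  have h3 : 0 ≤ μ.real univ * (μ.real univ * (∫ x, f x ^ 2 ∂μ) - (∫ x, f x ∂μ) ^ 2) := by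
    nlinarith [h1]
  rcases eq_or_lt_of_le (measureReal_nonneg (μ := μ) (s := univ)) with h | h
  · have h4 : μ = 0 := by
      rw [measureReal_def] at h
      have := (ENNReal.toReal_eq_zero_iff _).mp h.symm
      rcases this with h5 | h5
      · exact Measure.measure_univ_eq_zero.mp h5
      · exact absurd h5 (measure_ne_top _ _)
    rw [h4]; simp
  · have := (mul_nonneg_iff_of_pos_left h).mp h3
    linarith

/-- completeness of the `PF` functions in `L²(μ)` -/
theorem complete (hN : 2 ≤ N) (D : RootData N) {a : ℝ} (ha : 0 < a) {g : E N → ℂ}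
    (hg : MemLp g 2 (mu D a))
    (h0 : ∀ (m : ℕ) (p : E N → ℂ), p ∈ Harm D m → ∀ q : ℝ[X],
      ∫ x, PF a p q x * g x ∂(mu D a) = 0) : g =ᵐ[mu D a] 0 := by
  have hfin := sig_finite D
  have hsf := rad_sfinite (kap D a)
  have hκ := kap_pos hN D ha
  have hpol := polar hN D ha
  set Φ : Metric.sphere (0 : E N) 1 × ℝ → E N := fun z => z.2 • (z.1 : E N) with hΦ
  -- a strongly measurable representative
  obtain ⟨g', hg'm, hgg'⟩ := hg.1
  have hg'2 : MemLp g' 2 (mu D a) := (memLp_congr_ae hgg').mp hg
  have h0' : ∀ (m : ℕ) (p : E N → ℂ), p ∈ Harm D m → ∀ q : ℝ[X],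
      ∫ x, PF a p q x * g' x ∂(mu D a) = 0 := by
    intro m p hp q
    rw [← h0 m p hp q]
    refine integral_congr_ae ?_
    filter_upwards [hgg'] with x hx
    rw [hx]
  suffices hmain : g' =ᵐ[mu D a] 0 from hgg'.trans hmain
  set G : Metric.sphere (0 : E N) 1 × ℝ → ℂ := fun z => g' (Φ z) with hG
  have hGm : StronglyMeasurable G := hg'm.comp_measurable hpol.measurable
  have hG2 : MemLp G 2 ((sig D).prod (rad (kap D a))) := hg'2.comp_measurePreserving hpol
  have hGsq : Integrable (fun z => ‖G z‖ ^ 2) ((sig D).prod (rad (kap D a))) :=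
    (memLp_two_iff_integrable_sq_norm hGm.aestronglyMeasurable).mp hG2
  have hsl : ∀ᵐ r ∂(rad (kap D a)), Integrable (fun w => ‖G (w, r)‖ ^ 2) (sig D) :=
    hGsq.prod_left_ae
  have hsl2 : ∀ᵐ r ∂(rad (kap D a)), MemLp (fun w => G (w, r)) 2 (sig D) := by
    filter_upwards [hsl] with r hr
    have hm : StronglyMeasurable (fun w => G (w, r)) := hGm.comp_measurable (by fun_prop)
    exact (memLp_two_iff_integrable_sq_norm hm.aestronglyMeasurable).mpr hr
  -- each harmonic coefficient vanishes
  have hcoef : ∀ (m : ℕ) (p : E N → ℂ), p ∈ Harm D m →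
      ∀ᵐ r ∂(rad (kap D a)), ∫ w, p w * G (w, r) ∂(sig D) = 0 := by
    intro m p hp
    have hpc : Continuous fun w : Metric.sphere (0 : E N) 1 => p w :=
      (hom_contDiff hp.1).continuous.comp continuous_subtype_val
    obtain ⟨C, hC⟩ := isCompact_univ.exists_bound_of_continuousOn
      (f := fun w : Metric.sphere (0 : E N) 1 => p w) hpc.continuousOn
    have hm1 : StronglyMeasurable fun z : Metric.sphere (0 : E N) 1 × ℝ => p z.1 * G z :=
      (hpc.comp continuous_fst).stronglyMeasurable.mul hGm
    have hm2 : StronglyMeasurable fun r => ∫ w, p w * G (w, r) ∂(sig D) :=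
      hm1.integral_prod_left'
    have hh : MemLp (fun r => ∫ w, p w * G (w, r) ∂(sig D)) 2 (rad (kap D a)) := by
      rw [memLp_two_iff_integrable_sq_norm hm2.aestronglyMeasurable]
      refine Integrable.mono' ((hGsq.integral_prod_right).const_mul (C ^ 2 * (sig D).real univ))
        (hm2.norm.aestronglyMeasurable.pow 2) ?_
      filter_upwards [hsl, hsl2] with r hr hr2
      rw [Real.norm_eq_abs, abs_of_nonneg (sq_nonneg _)]
      have hri : Integrable (fun w => G (w, r)) (sig D) := hr2.integrable (by norm_num)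
      have e1 : ‖∫ w, p w * G (w, r) ∂(sig D)‖ ≤ ∫ w, |C| * ‖G (w, r)‖ ∂(sig D) := by
        refine norm_integral_le_of_norm_le (hri.norm.const_mul _) (ae_of_all _ fun w => ?_)
        rw [norm_mul]
        exact mul_le_mul_of_nonneg_right ((hC w (mem_univ _)).trans (le_abs_self _))
          (norm_nonneg _)
      rw [integral_const_mul] at e1
      have e2 := sq_integral_le_mul hri.norm hr
      calc ‖∫ w, p w * G (w, r) ∂(sig D)‖ ^ 2 ≤ (|C| * ∫ w, ‖G (w, r)‖ ∂(sig D)) ^ 2 :=
            pow_le_pow_left₀ (norm_nonneg _) e1 2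
        _ = C ^ 2 * (∫ w, ‖G (w, r)‖ ∂(sig D)) ^ 2 := by rw [mul_pow, sq_abs]
        _ ≤ C ^ 2 * ((sig D).real univ * ∫ w, ‖G (w, r)‖ ^ 2 ∂(sig D)) := by gcongr
        _ = C ^ 2 * (sig D).real univ * ∫ w, ‖G (w, r)‖ ^ 2 ∂(sig D) := by ring
    have hz := compR ha hκ m hh ?_
    · filter_upwards [hz] with r hr
      exact hr
    intro q
    have hint : Integrable (fun x => PF a p q x * g' x) (mu D a) := by
      have hPV := decay_memLp hN D ha (PV a hp.1 q) (PV_decay hN ha hp.1 q)
      have h1 : Integrable (fun x => (PV a hp.1 q).1 x * g' x) (mu D a) := by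
        have := hPV.integrable_mul hg'2
        exact this
      refine h1.congr ?_
      have hne : ∀ᵐ x ∂(mu D a), x ≠ 0 := by
        refine (mu_ac D a hN).1.ae_le ?_
        have hnt : Nontrivial (E N) := by
          have : 0 < Module.finrank ℝ (E N) := by simp; omega
          exact Module.finrank_pos_iff.mp this
        have : ({(0 : E N)}ᶜ : Set (E N)) ∈ ae (volume : Measure (E N)) := by
          rw [mem_ae_iff, compl_compl]; exact measure_singleton _
        exact this
      filter_upwards [hne] with x hx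
      show cut (PF a p q) x * g' x = _
      rw [cut_apply _ hx]
    have e1 : ∫ x, PF a p q x * g' x ∂(mu D a) =
        ∫ z, PF a p q (Φ z) * G z ∂((sig D).prod (rad (kap D a))) := by
      rw [← hpol.map_eq, integral_map hpol.measurable.aemeasurable]
      rw [hpol.map_eq]
      exact hint.aestronglyMeasurable
    have hint2 : Integrable (fun z => PF a p q (Φ z) * G z) ((sig D).prod (rad (kap D a))) := by
      have := (hpol.integrable_comp hint.aestronglyMeasurable).mpr hint
      exact this
    rw [h0' m p hp q] at e1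
    rw [integral_prod_symm _ hint2] at e1
    rw [e1]
    have hpos : ∀ᵐ r ∂(rad (kap D a)), r ∈ Ioi (0 : ℝ) :=
      (withDensity_absolutelyContinuous _ _).ae_le (ae_restrict_mem measurableSet_Ioi)
    refine integral_congr_ae ?_
    filter_upwards [hpos] with r hr
    have hr' : 0 < r := hr
    rw [← integral_const_mul]
    refine integral_congr_ae (ae_of_all _ fun w => ?_)
    have hn : ‖(w : E N)‖ = 1 := by simp
    simp only [hΦ, PF, norm_smul, hn, mul_one, Real.norm_eq_abs, abs_of_pos hr',
      hom_smul hp.1]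
    push_cast
    ring
  -- simultaneous vanishing for a.e. r
  have hspan : ∀ m : ℕ, ∃ s : Finset (E N → ℂ), (s : Set (E N → ℂ)) ⊆ Harm D m ∧
      Submodule.span ℂ (Harm D m) = Submodule.span ℂ (s : Set (E N → ℂ)) := by
    intro m
    have := hom_finite N m
    have hle : Submodule.span ℂ (Harm D m) ≤ Hom N m :=
      Submodule.span_le.mpr fun p hp => hp.1
    have hfd : FiniteDimensional ℂ (Submodule.span ℂ (Harm D m)) :=
      Submodule.finiteDimensional_of_le hle
    exact (Submodule.fg_span_iff_fg_span_finset_subset _).mp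
      ((Submodule.fg_iff_finiteDimensional _).mpr hfd)
  choose s hs1 hs2 using hspan
  have hall : ∀ᵐ r ∂(rad (kap D a)), ∀ m, ∀ p ∈ s m, ∫ w, p w * G (w, r) ∂(sig D) = 0 := by
    rw [ae_all_iff]
    intro m
    exact (Finset.eventually_all (s m)).mpr fun p hp => hcoef m p (hs1 m hp)
  have hzero : ∀ᵐ r ∂(rad (kap D a)), ∀ᵐ w ∂(sig D), G (w, r) = 0 := by
    filter_upwards [hall, hsl2] with r hr hr2
    have := compS hN D hr2 ?_
    · filter_upwards [this] with w hw
      exact hw
    intro m p hp
    have hp' : p ∈ Submodule.span ℂ (s m : Set (E N → ℂ)) := by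
      rw [← hs2 m]; exact Submodule.subset_span hp
    have key : p ∈ Hom N m ∧ ∫ w, p w * G (w, r) ∂(sig D) = 0 := by
      clear hp
      induction hp' using Submodule.span_induction with
      | mem x hx => exact ⟨(hs1 m hx).1, hr m x hx⟩
      | zero => exact ⟨Submodule.zero_mem _, by simp⟩
      | add x y hx hy ihx ihy =>
        refine ⟨Submodule.add_mem _ ihx.1 ihy.1, ?_⟩
        have hx' := sph_integrable D (F := fun w => x w)
          ((hom_contDiff ihx.1).continuous.comp continuous_subtype_val) hr2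
        have hy' := sph_integrable D (F := fun w => y w)
          ((hom_contDiff ihy.1).continuous.comp continuous_subtype_val) hr2
        have := integral_add hx' hy'
        rw [ihx.2, ihy.2, add_zero] at this
        rw [← this]
        refine integral_congr_ae (ae_of_all _ fun w => ?_)
        simp only [Pi.add_apply]
        ring
      | smul c x hx ihx =>
        refine ⟨Submodule.smul_mem _ _ ihx.1, ?_⟩
        have := integral_const_mul (μ := sig D) c
          (fun w : Metric.sphere (0 : E N) 1 => x w * G (w, r))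
        rw [ihx.2, mul_zero] at this
        rw [← this]
        refine integral_congr_ae (ae_of_all _ fun w => ?_)
        simp only [Pi.smul_apply, smul_eq_mul]
        ring
    exact key.2
  have hGz : ∀ᵐ z ∂((sig D).prod (rad (kap D a))), G z = 0 := by
    have e1 : ∫ z, ‖G z‖ ^ 2 ∂((sig D).prod (rad (kap D a))) = 0 := by
      rw [integral_prod_symm _ hGsq]
      rw [integral_eq_zero_of_ae]
      filter_upwards [hzero] with r hr
      rw [integral_eq_zero_of_ae]
      · rfl
      filter_upwards [hr] with w hw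
      simp [hw]
    have e2 := (integral_eq_zero_iff_of_nonneg (fun z => sq_nonneg _) hGsq).mp e1
    filter_upwards [e2] with z hz
    simpa using hz
  have hms : MeasurableSet {x : E N | g' x = 0} :=
    hg'm.measurable (measurableSet_singleton (0 : ℂ))
  have := (ae_map_iff hpol.measurable.aemeasurable hms).mpr hGz
  rw [hpol.map_eq] at this
  exact this

end KaSch
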