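import Mathlib

/-!
# (k,a)-generalized Fourier transform and the (k,a)-Schwartz-type space: definitions
-/

open scoped ContDiff Topology
open MeasureTheory

noncomputable section

namespace KaSch

/-- Euclidean space `ℝ^N`. -/
abbrev E (N : ℕ) := EuclideanSpace ℝ (Fin N)

variable {N : ℕ}

/-- The reflection `σ_α` in the hyperplane orthogonal to `α`. -/
def refl (α x : E N) : E N := x - (2 * inner ℝ α x / inner ℝ α α) • α

/-- A (reduced) root system `roots` in `ℝ^N`, a positive subsystem `pos` and a non-negative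
multiplicity function `k`, invariant under the reflection group. -/
structure RootData (N : ℕ) where
  /-- the root system -/
  roots : Finset (E N)
  /-- the positive subsystem -/
  pos : Finset (E N)
  /-- the multiplicity function -/
  k : E N → ℝ
  ne_zero : ∀ α ∈ roots, α ≠ 0
  refl_mem : ∀ α ∈ roots, ∀ β ∈ roots, refl α β ∈ roots
  reduced : ∀ α ∈ roots, ∀ c : ℝ, c • α ∈ roots → c = 1 ∨ c = -1
  pos_spec : ∃ v : E N, (∀ α ∈ roots, inner ℝ α v ≠ 0) ∧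
    ∀ α, α ∈ pos ↔ (α ∈ roots ∧ 0 < inner ℝ α v)
  k_nonneg : ∀ α ∈ roots, 0 ≤ k α
  k_inv : ∀ α ∈ roots, ∀ β ∈ roots, k (refl α β) = k β

/-- `⟨k⟩ = ∑_{α ∈ R_+} k(α)`. -/
def kSum (D : RootData N) : ℝ := ∑ α ∈ D.pos, D.k α

/-- The difference quotient `(f(x) - f(σ_α x)) / ⟨α, x⟩`, with its limit value
`2 ∂_α f(x) / ⟨α, α⟩` on the hyperplane `⟨α, x⟩ = 0`. -/
def quot (α : E N) (f : E N → ℂ) (x : E N) : ℂ :=
  if inner ℝ α x = 0 then ((2 / inner ℝ α α : ℝ) : ℂ) * fderiv ℝ f x α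
  else (f x - f (refl α x)) / ((inner ℝ α x : ℝ) : ℂ)

/-- The Dunkl operator `T_ξ`. -/
def T (D : RootData N) (ξ : E N) (f : E N → ℂ) (x : E N) : ℂ :=
  fderiv ℝ f x ξ + ∑ α ∈ D.pos, ((D.k α * inner ℝ α ξ : ℝ) : ℂ) * quot α f x

/-- The `j`-th standard unit vector. -/
def ee (j : Fin N) : E N := EuclideanSpace.single j 1

/-- The Dunkl Laplacian `Δ_k = ∑_j T_{e_j}^2`. -/
def Lap (D : RootData N) (f : E N → ℂ) (x : E N) : ℂ := ∑ j : Fin N, T D (ee j) (T D (ee j) f) x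

/-- The operator `‖x‖^{2-a} Δ_k`. -/
def BF (D : RootData N) (a : ℝ) (f : E N → ℂ) (x : E N) : ℂ := ((‖x‖ ^ (2 - a) : ℝ) : ℂ) * Lap D f x

/-- The operator `Δ_{k,a} = ‖x‖^{2-a} Δ_k - ‖x‖^a`. -/
def Lka (D : RootData N) (a : ℝ) (f : E N → ℂ) (x : E N) : ℂ :=
  BF D a f x - ((‖x‖ ^ a : ℝ) : ℂ) * f x

/-- The weight `∏_{α ∈ R_+} |⟨α, x⟩|^{2k(α)}`. -/
def wt (D : RootData N) (x : E N) : ℝ := ∏ α ∈ D.pos, |inner ℝ α x| ^ (2 * D.k α)

/-- The weight `ϑ_{k,a}(x) = ‖x‖^{a-2} ∏_{α ∈ R_+} |⟨α, x⟩|^{2k(α)}`. -/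
def theta (D : RootData N) (a : ℝ) (x : E N) : ℝ := ‖x‖ ^ (a - 2) * wt D x

/-- The measure `ϑ_{k,a}(x) dx`. -/
def mu (D : RootData N) (a : ℝ) : Measure (E N) :=
  volume.withDensity (fun x => ENNReal.ofReal (theta D a x))

/-- The Hilbert space `L²(ℝ^N, ϑ_{k,a}(x) dx)`. -/
def L2 (D : RootData N) (a : ℝ) : Type := Lp ℂ 2 (mu D a)

instance instL2Group (D : RootData N) (a : ℝ) : NormedAddCommGroup (L2 D a) :=
  Lp.instNormedAddCommGroup (E := ℂ) (p := 2) (μ := mu D a)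

instance instL2Space (D : RootData N) (a : ℝ) : NormedSpace ℂ (L2 D a) :=
  Lp.instNormedSpace (E := ℂ) (p := 2) (μ := mu D a)

/-- The element `g` of `L²(ϑ_{k,a} dx)` is the class of the function `f`. -/
def Rep (D : RootData N) (a : ℝ) (g : L2 D a) (f : E N → ℂ) : Prop :=
  Filter.EventuallyEq (ae (mu D a)) (AEEqFun.cast (Subtype.val g)) f

/-- The radial derivative `∂^ℓ f / ∂‖x‖^ℓ (x) = (d/dr)^ℓ f(r ω) at r = ‖x‖, ω = x / ‖x‖`. -/
def radD (l : ℕ) (f : E N → ℂ) (x : E N) : ℂ :=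
  iteratedDeriv l (fun r : ℝ => f (r • (‖x‖⁻¹ • x))) ‖x‖

/-- Membership in the space `S_{k,a}(ℝ^N)`; only the values of `f` on `ℝ^N ∖ {0}` matter. -/
structure MemS (D : RootData N) (a : ℝ) (f : E N → ℂ) : Prop where
  smooth : ContDiffOn ℝ ∞ f {0}ᶜ
  bdd : ∀ α β l : ℕ, ∃ C : ℝ, ∀ x : E N, x ≠ 0 →
    ‖(((‖x‖ ^ a) ^ α : ℝ) : ℂ) *
      ((BF D a)^[β] (fun y => ((‖y‖ ^ l : ℝ) : ℂ) * radD l f y)) x‖ ≤ C

/-- The subset of `L²(ϑ_{k,a} dx)` given by the classes of the functions in `S_{k,a}(ℝ^N)`. -/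
def SClass (D : RootData N) (a : ℝ) : Set (L2 D a) :=
  {g | ∃ f : E N → ℂ, MemS D a f ∧ Rep D a g f}

/-- Homogeneous polynomial functions of degree `m` on `ℝ^N` (with complex coefficients). -/
def Hom (N m : ℕ) : Submodule ℂ (E N → ℂ) where
  carrier := {f | ∃ P : MvPolynomial (Fin N) ℂ, P.IsHomogeneous m ∧
    ∀ x : E N, f x = MvPolynomial.eval (fun i => ((x i : ℝ) : ℂ)) P}
  add_mem' := by
    rintro f g ⟨P, hP, hf⟩ ⟨Q, hQ, hg⟩
    exact ⟨P + Q, hP.add hQ, fun x => by simp [hf x, hg x]⟩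
  zero_mem' := ⟨0, MvPolynomial.isHomogeneous_zero _ _ _, fun x => by simp⟩
  smul_mem' := by
    rintro c f ⟨P, hP, hf⟩
    refine ⟨MvPolynomial.C c * P, ?_, fun x => by simp [hf x]⟩
    simpa using (MvPolynomial.isHomogeneous_C _ c).mul hP

/-- The function `p(x) ‖x‖^{aj} exp(-‖x‖^a / a)`. -/
def core (a : ℝ) (j : ℕ) (p : E N → ℂ) (x : E N) : ℂ :=
  p x * (((‖x‖ ^ a) ^ j : ℝ) : ℂ) * ((Real.exp (-(‖x‖ ^ a) / a) : ℝ) : ℂ)

/-- The generator condition: `d/dt U_t u |_{t=0} = i Δ_{k,a} u` for the functions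
`u = p(x) ‖x‖^{aj} exp(-‖x‖^a / a)`, `p` a `k`-harmonic homogeneous polynomial.  The span of these
functions is the usual domain `W_{k,a}` on which `Δ_{k,a}` is essentially self-adjoint. -/
def IsGenerator (D : RootData N) (a : ℝ) (U : ℝ → L2 D a → L2 D a) : Prop :=
  ∀ (m j : ℕ) (p : E N → ℂ), p ∈ Hom N m → (∀ x, Lap D p x = 0) →
    ∀ u v : L2 D a, Rep D a u (core a j p) → Rep D a v (Lka D a (core a j p)) →
      HasDerivAt (fun t : ℝ => U t u) (Complex.I • v) 0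

/-- `U` is the one-parameter unitary group `exp(i t Δ_{k,a})`: a strongly continuous group of
linear isometries of `L²(ϑ_{k,a} dx)` with generator `i Δ_{k,a}`. -/
structure IsPropagator (D : RootData N) (a : ℝ) (U : ℝ → L2 D a → L2 D a) : Prop where
  map_zero : ∀ g : L2 D a, U 0 g = g
  map_add : ∀ (s t : ℝ) (g : L2 D a), U (s + t) g = U s (U t g)
  linear : ∀ (t : ℝ) (c : ℂ) (g h : L2 D a), U t (c • g + h) = c • U t g + U t h
  isometry : ∀ (t : ℝ) (g : L2 D a), ‖U t g‖ = ‖g‖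
  continuous : ∀ g : L2 D a, Continuous fun t => U t g
  generator : IsGenerator D a U

/-- The `(k,a)`-generalized Fourier transform
`exp(iπ(2⟨k⟩+N+a-2)/(2a)) exp(iπ/(2a) Δ_{k,a})`, for the group `U t = exp(i t Δ_{k,a})`. -/
def transform (D : RootData N) (a : ℝ) (U : ℝ → L2 D a → L2 D a) (g : L2 D a) : L2 D a :=
  Complex.exp (Complex.I * (Real.pi / (2 * a) * (2 * kSum D + N + a - 2) : ℝ)) •
    U (Real.pi / (2 * a)) g

end KaSch
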