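import Mathlib

open scoped ContDiff Topology InnerProductSpace
open MeasureTheory Set

noncomputable section

namespace KaSch

/-! ### Module HSP: abstract Hilbert space part -/

variable {H : Type*} [NormedAddCommGroup H] [InnerProductSpace ℂ H] [CompleteSpace H]

namespace HspAux

omit [CompleteSpace H] in
theorem ortho {ι : Type} (W : ι → Submodule ℂ H)
    (horth : ∀ i j, i ≠ j → ∀ u ∈ W i, ∀ v ∈ W j, ⟪u, v⟫_ℂ = 0) :
    OrthogonalFamily ℂ (fun i => W i) fun i => (W i).subtypeₗᵢ :=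
  fun i j hij v w => horth i j hij v v.2 w w.2

omit [CompleteSpace H] in
theorem perp {ι : Type} (W : ι → Submodule ℂ H)
    (htot : ∀ g : H, (∀ i, ∀ u ∈ W i, ⟪u, g⟫_ℂ = 0) → g = 0) : (⨆ i, W i)ᗮ = ⊥ := by
  rw [Submodule.eq_bot_iff]
  intro g hg
  exact htot g fun i u hu => (Submodule.mem_orthogonal _ _).1 hg u (Submodule.mem_iSup_of_mem i hu)

theorem dense {ι : Type} (W : ι → Submodule ℂ H)
    (htot : ∀ g : H, (∀ i, ∀ u ∈ W i, ⟪u, g⟫_ℂ = 0) → g = 0) :
    Dense ((⨆ i, W i : Submodule ℂ H) : Set H) := by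
  have h := Submodule.topologicalClosure_eq_top_iff.2 (perp W htot)
  rw [dense_iff_closure_eq, ← Submodule.topologicalClosure_coe, h, Submodule.top_coe]

theorem hilb {ι : Type} (W : ι → Submodule ℂ H) [∀ i, FiniteDimensional ℂ (W i)]
    (horth : ∀ i j, i ≠ j → ∀ u ∈ W i, ∀ v ∈ W j, ⟪u, v⟫_ℂ = 0)
    (htot : ∀ g : H, (∀ i, ∀ u ∈ W i, ⟪u, g⟫_ℂ = 0) → g = 0) :
    IsHilbertSum ℂ (fun i => W i) fun i => (W i).subtypeₗᵢ := by
  have : ∀ i, CompleteSpace (W i) := fun i => FiniteDimensional.complete ℂ (W i)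
  exact IsHilbertSum.mkInternal W (ortho W horth)
    (Submodule.topologicalClosure_eq_top_iff.2 (perp W htot)).ge

/-- the inclusion multiplied by a unit scalar -/
def tw {ι : Type} (W : ι → Submodule ℂ H) (lam : ι → ℝ) (t : ℝ) (i : ι) : W i →ₗᵢ[ℂ] H where
  toLinearMap := Complex.exp (-(Complex.I * lam i * t)) • (W i).subtype
  norm_map' u := by
    have h1 : -(Complex.I * lam i * t) = ((-(lam i * t) : ℝ) : ℂ) * Complex.I := by
      push_cast; ring
    simp only [LinearMap.smul_apply, Submodule.subtype_apply, norm_smul, h1,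
      Complex.norm_exp_ofReal_mul_I, one_mul]
    rfl

omit [CompleteSpace H] in
theorem tw_apply {ι : Type} (W : ι → Submodule ℂ H) (lam : ι → ℝ) (t : ℝ) (i : ι) (u : W i) :
    tw W lam t i u = Complex.exp (-(Complex.I * lam i * t)) • (u : H) := rfl

omit [CompleteSpace H] in
theorem tw_ortho {ι : Type} (W : ι → Submodule ℂ H)
    (horth : ∀ i j, i ≠ j → ∀ u ∈ W i, ∀ v ∈ W j, ⟪u, v⟫_ℂ = 0) (lam : ι → ℝ) (t : ℝ) :
    OrthogonalFamily ℂ (fun i => W i) (tw W lam t) := by
  intro i j hij v w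
  rw [tw_apply, tw_apply, inner_smul_left, inner_smul_right, horth i j hij v v.2 w w.2]
  simp

end HspAux

open HspAux

/-- two bounded operators which agree on all `W i` agree -/
theorem hsp_ext {ι : Type} (W : ι → Submodule ℂ H) [∀ i, FiniteDimensional ℂ (W i)]
    (horth : ∀ i j, i ≠ j → ∀ u ∈ W i, ∀ v ∈ W j, ⟪u, v⟫_ℂ = 0)
    (htot : ∀ g : H, (∀ i, ∀ u ∈ W i, ⟪u, g⟫_ℂ = 0) → g = 0) {S T : H →L[ℂ] H}
    (h : ∀ i, ∀ u ∈ W i, S u = T u) : S = T := by
  have _ := horth
  refine DFunLike.ext' (Continuous.ext_on (dense W htot) S.continuous T.continuous ?_)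
  intro x hx
  refine Submodule.iSup_induction W (motive := fun x => S x = T x) hx (fun i u hu => h i u hu)
    (by simp) (fun x y hx hy => by simp [hx, hy])

/-- If `⟪w, u⟫ = ...` -/
theorem hsp_exists {ι : Type} [Countable ι] (W : ι → Submodule ℂ H)
    [∀ i, FiniteDimensional ℂ (W i)]
    (horth : ∀ i j, i ≠ j → ∀ u ∈ W i, ∀ v ∈ W j, ⟪u, v⟫_ℂ = 0)
    (htot : ∀ g : H, (∀ i, ∀ u ∈ W i, ⟪u, g⟫_ℂ = 0) → g = 0) (lam : ι → ℝ) :
    ∃ U : ℝ → (H →L[ℂ] H), U 0 = ContinuousLinearMap.id ℂ H ∧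
      (∀ s t : ℝ, U (s + t) = (U s).comp (U t)) ∧ (∀ (t : ℝ) (g : H), ‖U t g‖ = ‖g‖) ∧
      (∀ g : H, Continuous fun t => U t g) ∧
      ∀ (t : ℝ) (i : ι), ∀ u ∈ W i, U t u = Complex.exp (-(Complex.I * lam i * t)) • u := by
  classical
  have hH := hilb W horth htot
  set J : H ≃ₗᵢ[ℂ] lp (fun i => W i) 2 := hH.linearIsometryEquiv with hJ
  set K : ℝ → (lp (fun i => W i) 2 →ₗᵢ[ℂ] H) := fun t =>
    (tw_ortho W horth lam t).linearIsometry with hK
  set U : ℝ → (H →L[ℂ] H) := fun t =>
    (K t).toContinuousLinearMap.comp (J.toContinuousLinearEquiv : H →L[ℂ] _) with hU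
  have hUa : ∀ t g, U t g = K t (J g) := fun t g => rfl
  have hUu : ∀ (t : ℝ) (i : ι), ∀ u ∈ W i,
      U t u = Complex.exp (-(Complex.I * lam i * t)) • u := by
    intro t i u hu
    have h1 : J u = lp.single 2 i (⟨u, hu⟩ : W i) := by
      rw [hJ]
      apply hH.linearIsometryEquiv.symm.injective
      rw [LinearIsometryEquiv.symm_apply_apply, hH.linearIsometryEquiv_symm_apply_single]
      rfl
    rw [hUa, h1, hK]
    simp only
    rw [(tw_ortho W horth lam t).linearIsometry_apply_single, tw_apply]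
  have hnorm : ∀ (t : ℝ) (g : H), ‖U t g‖ = ‖g‖ := fun t g => by
    rw [hUa, LinearIsometry.norm_map, LinearIsometryEquiv.norm_map]
  refine ⟨U, ?_, ?_, hnorm, ?_, hUu⟩
  · refine hsp_ext W horth htot fun i u hu => ?_
    rw [hUu 0 i u hu]; simp
  · intro s t
    refine hsp_ext W horth htot fun i u hu => ?_
    have e1 : ((U s).comp (U t)) u = U s (U t u) := rfl
    rw [e1, hUu t i u hu, map_smul, hUu s i u hu, hUu (s + t) i u hu, smul_smul,
      ← Complex.exp_add]
    congr 2
    push_cast; ring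
  · intro g
    refine continuous_of_uniform_approx_of_continuous fun V hV => ?_
    obtain ⟨ε, hε, hεV⟩ := Metric.mem_uniformity_dist.1 hV
    obtain ⟨g', hg', hgg⟩ := Metric.dense_iff.1 (dense W htot) g ε hε
    refine ⟨fun t => U t g', ?_, fun t => hεV ?_⟩
    · refine Submodule.iSup_induction W (motive := fun x => Continuous fun t => U t x) hgg
        (fun i u hu => ?_) ?_ fun x y hx hy => ?_
      · have : (fun t : ℝ => U t u) = fun t : ℝ => Complex.exp (-(Complex.I * lam i * t)) • u := by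
          funext t; exact hUu t i u hu
        rw [this]
        fun_prop
      · simp only [map_zero]; exact continuous_const
      · simp only [map_add]; exact hx.add hy
    · rw [dist_eq_norm, ← map_sub, hnorm, ← dist_eq_norm, dist_comm]
      exact Metric.mem_ball.1 hg'

/-- a group whose generator has eigenvector `u`: `d/dt U_t u |_{0} = -i λ u` implies
`U_t u = e^{-iλt} u` -/
theorem hsp_eigen {U : ℝ → (H →L[ℂ] H)} (h0 : U 0 = ContinuousLinearMap.id ℂ H)
    (hadd : ∀ s t : ℝ, U (s + t) = (U s).comp (U t)) {u : H} {lam : ℝ}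
    (hd : HasDerivAt (fun t => U t u) (-(Complex.I * lam) • u) 0) (t : ℝ) :
    U t u = Complex.exp (-(Complex.I * lam * t)) • u := by
  have hder : ∀ t : ℝ, HasDerivAt (fun s => U s u) (-(Complex.I * lam) • U t u) t := by
    intro t
    have h1 : (fun s : ℝ => U s u) = fun s : ℝ => U t (U (s - t) u) := by
      funext s
      have := hadd t (s - t)
      rw [add_sub_cancel] at this
      rw [this]; rfl
    rw [h1]
    have h2 : HasDerivAt (fun s : ℝ => U (s - t) u) (-(Complex.I * lam) • u) t := by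
      have h3 : HasDerivAt (fun s : ℝ => s - t) 1 t := (hasDerivAt_id t).sub_const t
      have h4 : HasDerivAt (fun r : ℝ => U r u) (-(Complex.I * lam) • u) (t - t) := by
        rw [sub_self]; exact hd
      have := HasDerivAt.scomp (g₁ := fun r : ℝ => U r u) (h := fun s : ℝ => s - t) t h4 h3
      rw [one_smul] at this
      exact this
    have h5 := ((U t).restrictScalars ℝ).hasFDerivAt.comp_hasDerivAt t h2
    have h6 : ((U t).restrictScalars ℝ) (-(Complex.I * lam) • u) =
        -(Complex.I * lam) • U t u := by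
      simp
    rw [h6] at h5
    exact h5
  have hexp : ∀ t : ℝ, HasDerivAt (fun s : ℝ => Complex.exp (Complex.I * lam * s))
      (Complex.I * lam * Complex.exp (Complex.I * lam * t)) t := by
    intro t
    have h1 : HasDerivAt (fun s : ℝ => Complex.I * lam * (s : ℂ)) (Complex.I * lam) t := by
      have := (Complex.ofRealCLM.hasDerivAt (x := t)).const_mul (Complex.I * (lam : ℂ))
      simpa using this
    have := h1.cexp
    convert this using 1
    ring
  have hconst : ∀ t : ℝ, HasDerivAt (fun s : ℝ => Complex.exp (Complex.I * lam * s) • U s u) 0 t := by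
    intro t
    have h7 := (hexp t).smul (hder t)
    have h8 : Complex.exp (Complex.I * lam * t) • (-(Complex.I * lam) • U t u) +
        (Complex.I * lam * Complex.exp (Complex.I * lam * t)) • U t u = 0 := by
      rw [smul_smul, ← add_smul]
      have : Complex.exp (Complex.I * lam * t) * -(Complex.I * lam) +
          Complex.I * lam * Complex.exp (Complex.I * lam * t) = 0 := by ring
      rw [this, zero_smul]
    rw [h8] at h7
    exact h7
  have heq := is_const_of_deriv_eq_zero (fun t => (hconst t).differentiableAt)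
    (fun t => (hconst t).deriv) t 0
  simp only [Complex.ofReal_zero, mul_zero, Complex.exp_zero, one_smul, h0,
    ContinuousLinearMap.id_apply] at heq
  conv_rhs => rw [← heq]
  rw [smul_smul, ← Complex.exp_add]
  simp

/-- expansion: `g = ∑ P_i g`, and `P_i g` are the only elements with the right inner products -/
theorem hsp_expand {ι : Type} (W : ι → Submodule ℂ H) [∀ i, FiniteDimensional ℂ (W i)]
    (horth : ∀ i j, i ≠ j → ∀ u ∈ W i, ∀ v ∈ W j, ⟪u, v⟫_ℂ = 0)
    (htot : ∀ g : H, (∀ i, ∀ u ∈ W i, ⟪u, g⟫_ℂ = 0) → g = 0) (g : H) :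
    HasSum (fun i => (W i).starProjection g) g := by
  have hH := hilb W horth htot
  have h1 := hH.hasSum_linearIsometryEquiv_symm (hH.linearIsometryEquiv g)
  rw [LinearIsometryEquiv.symm_apply_apply] at h1
  convert h1 using 2 with i
  set w := hH.linearIsometryEquiv g with hw
  refine Submodule.eq_starProjection_of_mem_of_inner_eq_zero (w i).2 fun v hv => ?_
  have h2 := (innerSL ℂ v).hasSum h1
  have h3 : HasSum (fun j => ⟪v, ((w j : W j) : H)⟫_ℂ) ⟪v, ((w i : W i) : H)⟫_ℂ := by
    refine hasSum_single i fun j hj => ?_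
    exact horth i j (Ne.symm hj) v hv _ (w j).2
  have h4 : ⟪v, g⟫_ℂ = ⟪v, ((w i : W i) : H)⟫_ℂ := h2.unique h3
  rw [inner_eq_zero_symm, inner_sub_right]
  rw [h4]
  exact sub_self _

omit [CompleteSpace H] in
/-- if `⟪u, g'⟫ = -λ_i ⟪u, g⟫` for all `u ∈ W i` then `P_i g' = -λ_i P_i g` and
`λ_i ‖P_i g‖ ≤ ‖g'‖` -/
theorem hsp_proj (W : Submodule ℂ H) [FiniteDimensional ℂ W] {g g' : H} {lam : ℝ}
    (h : ∀ u ∈ W, ⟪u, g'⟫_ℂ = -(lam : ℂ) * ⟪u, g⟫_ℂ) :
    W.starProjection g' = -(lam : ℂ) • W.starProjection g := by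
  refine Submodule.eq_starProjection_of_mem_of_inner_eq_zero
    (W.smul_mem _ (Submodule.starProjection_apply_mem W g)) fun w hw => ?_
  rw [inner_eq_zero_symm, inner_sub_right, inner_smul_right, h w hw]
  have h1 : ⟪w, g - W.starProjection g⟫_ℂ = 0 :=
    (Submodule.mem_orthogonal _ _).1 (Submodule.sub_starProjection_mem_orthogonal g) w hw
  rw [inner_sub_right, sub_eq_zero] at h1
  rw [h1, sub_self]

end KaSch
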