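import Pool.Agent.Work.MP_d717ad_an.Base

open scoped ContDiff Topology Polynomial
open MeasureTheory Set

noncomputable section

namespace KaSch

variable {N : ℕ}

/-! ### Module IBP1: the weight -/

/-! #### invariance of the weight -/

theorem inner_refl (α β x : E N) : (inner ℝ β (refl α x) : ℝ) = inner ℝ (refl α β) x := by
  unfold refl
  rw [inner_sub_right, inner_sub_left, real_inner_smul_right, real_inner_smul_left,
    real_inner_comm β α]
  ring

theorem refl_self_ibp {α : E N} (h : α ≠ 0) : refl α α = -α := by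
  have h1 : (inner ℝ α α : ℝ) ≠ 0 := (inner_self_pos' h).ne'
  unfold refl
  rw [mul_div_assoc, div_self h1, mul_one, two_smul]
  abel

theorem refl_neg (α β : E N) : refl α (-β) = -refl α β := by
  unfold refl
  rw [inner_neg_right, mul_neg, neg_div, neg_smul]
  abel

theorem neg_mem_roots (D : RootData N) {γ : E N} (h : γ ∈ D.roots) : -γ ∈ D.roots := by
  have := D.refl_mem γ h γ h
  rwa [refl_self_ibp (D.ne_zero γ h)] at this

theorem k_neg (D : RootData N) {γ : E N} (h : γ ∈ D.roots) : D.k (-γ) = D.k γ := by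
  have := D.k_inv γ h γ h
  rwa [refl_self_ibp (D.ne_zero γ h)] at this

open Classical in
/-- the permutation of the positive roots induced by a reflection -/
def posMap (D : RootData N) (α β : E N) : E N :=
  if refl α β ∈ D.pos then refl α β else -refl α β

theorem pos_or_neg (D : RootData N) {γ : E N} (h : γ ∈ D.roots) :
    (γ ∈ D.pos ∧ -γ ∉ D.pos) ∨ (γ ∉ D.pos ∧ -γ ∈ D.pos) := by
  obtain ⟨v, hv, hp⟩ := D.pos_spec
  have hγ := hv γ h
  have hn := neg_mem_roots D h
  rcases lt_or_gt_of_ne hγ with h1 | h1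
  · right
    refine ⟨fun h2 => ?_, (hp _).2 ⟨hn, by rw [inner_neg_left]; linarith⟩⟩
    have := ((hp _).1 h2).2
    linarith
  · left
    refine ⟨(hp _).2 ⟨h, h1⟩, fun h2 => ?_⟩
    have := ((hp _).1 h2).2
    rw [inner_neg_left] at this
    linarith

theorem posMap_mem (D : RootData N) {α β : E N} (hα : α ∈ D.roots) (hβ : β ∈ D.pos) :
    posMap D α β ∈ D.pos := by
  have hr := D.refl_mem α hα β (pos_mem_roots D hβ)
  unfold posMap
  split_ifs with h
  · exact h
  · rcases pos_or_neg D hr with h1 | h1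
    · exact absurd h1.1 h
    · exact h1.2

theorem posMap_posMap (D : RootData N) {α β : E N} (hα : α ∈ D.roots) (hβ : β ∈ D.pos) :
    posMap D α (posMap D α β) = β := by
  have h0 := D.ne_zero α hα
  have hβ' : -β ∉ D.pos := by
    rcases pos_or_neg D (pos_mem_roots D hβ) with h1 | h1
    · exact h1.2
    · exact absurd hβ h1.1
  by_cases h : refl α β ∈ D.pos
  · have h1 : posMap D α β = refl α β := by unfold posMap; rw [if_pos h]
    rw [h1]
    unfold posMap
    rw [refl_refl h0, if_pos hβ]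
  · have h1 : posMap D α β = -refl α β := by unfold posMap; rw [if_neg h]
    rw [h1]
    unfold posMap
    rw [refl_neg, refl_refl h0, if_neg hβ', neg_neg]

theorem wt_refl (D : RootData N) {α : E N} (hα : α ∈ D.roots) (x : E N) :
    wt D (refl α x) = wt D x := by
  unfold wt
  apply Finset.prod_nbij' (posMap D α) (posMap D α)
  · intro β hβ; exact posMap_mem D hα hβ
  · intro β hβ; exact posMap_mem D hα hβ
  · intro β hβ; exact posMap_posMap D hα hβ
  · intro β hβ; exact posMap_posMap D hα hβ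
  · intro β hβ
    have hβr := pos_mem_roots D hβ
    have hr := D.refl_mem α hα β hβr
    rw [inner_refl]
    unfold posMap
    split_ifs with h
    · rw [D.k_inv α hα β hβr]
    · rw [k_neg D hr, D.k_inv α hα β hβr, inner_neg_left, abs_neg]

theorem wt_continuous (D : RootData N) : Continuous (wt D) := by
  unfold wt
  apply continuous_finsetProd
  intro α hα
  apply Continuous.rpow_const
  · exact (continuous_const.inner continuous_id).abs
  · intro x
    right
    have := pos_k_nonneg D hα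
    positivity

/-! #### integrability of powers of a linear form -/

theorem integrable_abs_rpow {s : ℝ} (hs : -1 < s) (R : ℝ) :
    Integrable (fun t : ℝ => (Icc (-R) R).indicator (fun t => |t| ^ s) t) := by
  rw [integrable_indicator_iff measurableSet_Icc]
  rcases lt_or_ge R 0 with hR | hR
  · rw [Icc_eq_empty (by linarith)]
    exact integrableOn_empty
  have h1 : IntegrableOn (fun t : ℝ => |t| ^ s) (Ioc 0 R) volume := by
    have h0 := (intervalIntegral.intervalIntegrable_rpow' (a := 0) (b := R) hs)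
    rw [intervalIntegrable_iff_integrableOn_Ioc_of_le hR] at h0
    refine h0.congr_fun (fun t ht => ?_) measurableSet_Ioc
    simp only [abs_of_pos ht.1]
  have h2 : IntegrableOn (fun t : ℝ => |t| ^ s) (Ico (-R) 0) volume := by
    have h3 := ((Measure.measurePreserving_neg (volume : Measure ℝ)).integrableOn_comp_preimage
      (Homeomorph.neg ℝ).measurableEmbedding (f := fun t : ℝ => |t| ^ s) (s := Ioc 0 R)).2 h1
    have h4 : (Neg.neg : ℝ → ℝ) ⁻¹' Ioc 0 R = Ico (-R) 0 := by
      ext t; simp only [mem_preimage, mem_Ioc, mem_Ico]; constructor <;> rintro ⟨a, b⟩ <;>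
        constructor <;> linarith
    rw [h4] at h3
    refine h3.congr_fun (fun t _ => ?_) measurableSet_Ico
    simp only [Function.comp_apply, abs_neg]
  have h5 : Icc (-R) R = Ico (-R) 0 ∪ ({0} ∪ Ioc 0 R) := by
    ext t
    simp only [mem_Icc, mem_union, mem_Ico, mem_singleton_iff, mem_Ioc]
    constructor
    · rintro ⟨a, b⟩
      rcases lt_trichotomy t 0 with h | h | h
      · left; exact ⟨a, h⟩
      · right; left; exact h
      · right; right; exact ⟨h, b⟩
    · rintro (⟨a, b⟩ | h | ⟨a, b⟩)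
      · constructor <;> linarith
      · subst h; constructor <;> linarith
      · constructor <;> linarith
  rw [h5]
  refine h2.union ((integrableOn_singleton (by simp)
    (by rw [Real.volume_singleton]; exact ENNReal.zero_lt_top)).union h1)

/-- powers of a coordinate -/
theorem integrable_coord {s : ℝ} (hs : -1 < s) (i0 : Fin N) {g : E N → ℝ} (hg : Continuous g)
    (hc : HasCompactSupport g) : Integrable (fun x : E N => g x * |x i0| ^ s) := by
  obtain ⟨R, hR⟩ := hc.isBounded.subset_closedBall 0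
  obtain ⟨C, hC⟩ := hc.exists_bound_of_continuous hg
  have hC0 : 0 ≤ C := (norm_nonneg _).trans (hC 0)
  let f : Fin N → ℝ → ℝ := fun i t =>
    if i = i0 then (Icc (-R) R).indicator (fun t => |t| ^ s) t
    else (Icc (-R) R).indicator (fun _ => (1 : ℝ)) t
  have hf : ∀ i, Integrable (f i) := by
    intro i
    by_cases h : i = i0
    · simp only [f, h, if_true]
      exact integrable_abs_rpow hs R
    · simp only [f, h, if_false]
      rw [integrable_indicator_iff measurableSet_Icc]
      exact continuous_const.integrableOn_Icc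
  have h1 : Integrable (fun x : Fin N → ℝ => ∏ i, f i (x i)) := Integrable.fintype_prod hf
  have h2 : Integrable (fun x : E N => ∏ i, f i (x i)) :=
    ((PiLp.volume_preserving_ofLp (Fin N)).integrable_comp_emb
      (MeasurableEquiv.toLp 2 (Fin N → ℝ)).symm.measurableEmbedding).2 h1
  have hm : AEStronglyMeasurable (fun x : E N => g x * |x i0| ^ s) volume := by
    apply AEStronglyMeasurable.mul hg.aestronglyMeasurable
    have : Measurable (fun x : E N => |x i0| ^ s) := by
      have h3 : Measurable (fun x : E N => x i0) :=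
        (EuclideanSpace.proj i0 : E N →L[ℝ] ℝ).continuous.measurable
      exact (h3.abs).pow_const s
    exact this.aestronglyMeasurable
  refine (h2.const_mul C).mono' hm (Filter.Eventually.of_forall fun x => ?_)
  by_cases hx : g x = 0
  · rw [hx, zero_mul, norm_zero]
    apply mul_nonneg hC0
    apply Finset.prod_nonneg
    intro i _
    simp only [f]
    split_ifs
    · apply indicator_nonneg; intro t _; positivity
    · apply indicator_nonneg; intro t _; norm_num
  · have hxR : ‖x‖ ≤ R := by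
      have := hR (subset_tsupport g (Function.mem_support.2 hx))
      simpa using this
    have hxi : ∀ i, x i ∈ Icc (-R) R := by
      intro i
      have h4 : |x i| ≤ ‖x‖ := by
        have := EuclideanSpace.norm_eq x
        have h5 := PiLp.norm_apply_le x i
        simpa using h5
      exact abs_le.1 (h4.trans hxR)
    have h6 : ∏ i, f i (x i) = |x i0| ^ s := by
      rw [Finset.prod_eq_single i0]
      · simp only [f, if_true, indicator_of_mem (hxi i0)]
      · intro i _ hi
        simp only [f, hi, if_false, indicator_of_mem (hxi i)]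
      · intro h; exact absurd (Finset.mem_univ _) h
    rw [h6, norm_mul, Real.norm_of_nonneg (by positivity : (0 : ℝ) ≤ |x i0| ^ s)]
    exact mul_le_mul_of_nonneg_right (hC x) (by positivity)

theorem integrable_inner {s : ℝ} (hs : -1 < s) {α : E N} (hα : α ≠ 0) {g : E N → ℝ}
    (hg : Continuous g) (hc : HasCompactSupport g) :
    Integrable (fun x : E N => g x * |(inner ℝ α x : ℝ)| ^ s) := by
  have hN : 0 < N := by
    rcases Nat.eq_zero_or_pos N with h | h
    · subst h; exact absurd (Subsingleton.elim _ _) hα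
    · exact h
  let i0 : Fin N := ⟨0, hN⟩
  have hn : 0 < ‖α‖ := norm_pos_iff.2 hα
  obtain ⟨b, hb⟩ := Orthonormal.exists_orthonormalBasis_extension_of_card_eq (𝕜 := ℝ) (E := E N)
    (ι := Fin N) (by simp) (v := fun _ => ‖α‖⁻¹ • α) (s := {i0}) (by
      constructor
      · rintro ⟨i, hi⟩
        simp only [domRestrict_apply]
        rw [norm_smul, norm_inv, norm_norm, inv_mul_cancel₀ hn.ne']
      · rintro ⟨i, hi⟩ ⟨j, hj⟩ hij
        exact absurd (by rw [mem_singleton_iff] at hi hj; subst hi; subst hj; rfl) hij)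
  have hb0 : b i0 = ‖α‖⁻¹ • α := hb i0 rfl
  have h1 : ∀ x, (inner ℝ α x : ℝ) = ‖α‖ * (b.repr x) i0 := by
    intro x
    rw [OrthonormalBasis.repr_apply_apply, hb0, real_inner_smul_left]
    field_simp
  have h2 := integrable_coord hs i0 (g := g ∘ b.repr.symm) (hg.comp b.repr.symm.continuous)
    (hc.comp_homeomorph b.repr.symm.toHomeomorph)
  have h3 := (b.measurePreserving_repr.integrable_comp_emb
    b.repr.toHomeomorph.measurableEmbedding).2 h2
  refine (h3.const_mul (‖α‖ ^ s)).congr (Filter.Eventually.of_forall fun x => ?_)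
  simp only [Function.comp_apply, LinearIsometryEquiv.symm_apply_apply]
  rw [h1, abs_mul, abs_of_pos hn, Real.mul_rpow hn.le (abs_nonneg _)]
  ring

/-! #### regularised weight -/

/-- `∏ (⟨α,x⟩² + ε)^{k(α)}` -/
def wte (D : RootData N) (ε : ℝ) (x : E N) : ℝ :=
  ∏ α ∈ D.pos, ((inner ℝ α x : ℝ) ^ 2 + ε) ^ D.k α

theorem wte_zero (D : RootData N) (x : E N) : wte D 0 x = wt D x := by
  unfold wte wt
  apply Finset.prod_congr rfl
  intro α _
  rw [add_zero, ← sq_abs, ← Real.rpow_natCast, ← Real.rpow_mul (abs_nonneg _)]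
  norm_num

theorem wte_nonneg (D : RootData N) {ε : ℝ} (hε : 0 ≤ ε) (x : E N) : 0 ≤ wte D ε x := by
  unfold wte
  apply Finset.prod_nonneg
  intro α _
  positivity

/-- the weight without one factor -/
theorem wte_erase (D : RootData N) (ε : ℝ) {α : E N} (hα : α ∈ D.pos) (x : E N) :
    wte D ε x = ((inner ℝ α x : ℝ) ^ 2 + ε) ^ D.k α *
      ∏ β ∈ D.pos.erase α, ((inner ℝ β x : ℝ) ^ 2 + ε) ^ D.k β := by
  unfold wte
  exact (Finset.mul_prod_erase D.pos _ hα).symm

theorem erase_le (D : RootData N) {ε : ℝ} (hε : 0 ≤ ε) (hε1 : ε ≤ 1) (α x : E N) :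
    ∏ β ∈ D.pos.erase α, ((inner ℝ β x : ℝ) ^ 2 + ε) ^ D.k β ≤
      ∏ β ∈ D.pos.erase α, ((inner ℝ β x : ℝ) ^ 2 + 1) ^ D.k β := by
  apply Finset.prod_le_prod
  · intro β _; positivity
  · intro β hβ
    apply Real.rpow_le_rpow (by positivity) (by linarith)
    exact pos_k_nonneg D (Finset.mem_of_mem_erase hβ)

theorem erase_continuous (D : RootData N) (α : E N) :
    Continuous fun x : E N => ∏ β ∈ D.pos.erase α, ((inner ℝ β x : ℝ) ^ 2 + 1) ^ D.k β := by
  apply continuous_finsetProd
  intro β _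
  apply Continuous.rpow_const
  · exact ((continuous_const.inner continuous_id).pow 2).add continuous_const
  · intro x; left; positivity

/-- the elementary bound for one factor -/
theorem factor_le {k ε s : ℝ} (hk : 0 ≤ k) (hε : 0 ≤ ε) (hε1 : ε ≤ 1) (hs : s ≠ 0) :
    |s| / (s ^ 2 + ε) * (s ^ 2 + ε) ^ k ≤ |s| ^ (2 * k - 1) + |s| * (s ^ 2 + 1) ^ k := by
  have hs0 : 0 < |s| := abs_pos.2 hs
  have hs2 : 0 < s ^ 2 := by positivity
  have h1 : |s| / (s ^ 2 + ε) * (s ^ 2 + ε) ^ k = |s| * (s ^ 2 + ε) ^ (k - 1) := by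
    rw [Real.rpow_sub_one (by positivity)]
    ring
  rw [h1]
  rcases le_total k 1 with h | h
  · have h2 : (s ^ 2 + ε) ^ (k - 1) ≤ (s ^ 2) ^ (k - 1) :=
      Real.rpow_le_rpow_of_nonpos hs2 (by linarith) (by linarith)
    have h3 : |s| * (s ^ 2) ^ (k - 1) = |s| ^ (2 * k - 1) := by
      rw [← sq_abs, ← Real.rpow_natCast, ← Real.rpow_mul (abs_nonneg _)]
      nth_rewrite 1 [← Real.rpow_one |s|]
      rw [← Real.rpow_add hs0]
      congr 1
      push_cast
      ring
    calc |s| * (s ^ 2 + ε) ^ (k - 1) ≤ |s| * (s ^ 2) ^ (k - 1) :=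
          mul_le_mul_of_nonneg_left h2 hs0.le
      _ = |s| ^ (2 * k - 1) := h3
      _ ≤ _ := by
        have : 0 ≤ |s| * (s ^ 2 + 1) ^ k := by positivity
        linarith
  · have h2 : (s ^ 2 + ε) ^ (k - 1) ≤ (s ^ 2 + 1) ^ (k - 1) :=
      Real.rpow_le_rpow (by positivity) (by linarith) (by linarith)
    have h3 : (s ^ 2 + 1) ^ (k - 1) ≤ (s ^ 2 + 1) ^ k :=
      Real.rpow_le_rpow_of_exponent_le (by nlinarith) (by linarith)
    calc |s| * (s ^ 2 + ε) ^ (k - 1) ≤ |s| * (s ^ 2 + 1) ^ k :=
          mul_le_mul_of_nonneg_left (h2.trans h3) hs0.le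
      _ ≤ _ := by
        have : 0 ≤ |s| ^ (2 * k - 1) := by positivity
        linarith

/-- the dominating function -/
def dom (D : RootData N) (α : E N) (h : E N → ℂ) (x : E N) : ℝ :=
  (‖h x‖ * ∏ β ∈ D.pos.erase α, ((inner ℝ β x : ℝ) ^ 2 + 1) ^ D.k β) *
      |(inner ℝ α x : ℝ)| ^ (2 * D.k α - 1) +
    (‖h x‖ * ∏ β ∈ D.pos.erase α, ((inner ℝ β x : ℝ) ^ 2 + 1) ^ D.k β) *
      (|(inner ℝ α x : ℝ)| * ((inner ℝ α x : ℝ) ^ 2 + 1) ^ D.k α)

theorem dom_integrable (D : RootData N) {α : E N} (hα : α ∈ D.pos) (hk : 0 < D.k α)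
    {h : E N → ℂ} (hh : Continuous h) (hc : HasCompactSupport h) :
    Integrable (dom D α h) := by
  have hg : Continuous fun x => ‖h x‖ *
      ∏ β ∈ D.pos.erase α, ((inner ℝ β x : ℝ) ^ 2 + 1) ^ D.k β :=
    hh.norm.mul (erase_continuous D α)
  have hgc : HasCompactSupport fun x => ‖h x‖ *
      ∏ β ∈ D.pos.erase α, ((inner ℝ β x : ℝ) ^ 2 + 1) ^ D.k β :=
    (hc.norm).mul_right
  apply Integrable.add
  · exact integrable_inner (by linarith) (pos_ne_zero D hα) hg hgc
  · apply Continuous.integrable_of_hasCompactSupport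
    · apply hg.mul
      apply ((continuous_const.inner continuous_id).abs).mul
      apply Continuous.rpow_const
      · exact ((continuous_const.inner continuous_id).pow 2).add continuous_const
      · intro x; left; positivity
    · exact hgc.mul_right

theorem le_dom (D : RootData N) {α : E N} (hα : α ∈ D.pos) {h : E N → ℂ} {ε : ℝ} (hε : 0 ≤ ε)
    (hε1 : ε ≤ 1) (x : E N) :
    ‖h x * (((inner ℝ α x : ℝ) / ((inner ℝ α x : ℝ) ^ 2 + ε) * wte D ε x : ℝ) : ℂ)‖ ≤
      dom D α h x := by
  by_cases hs : (inner ℝ α x : ℝ) = 0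
  · rw [hs]
    simp only [zero_div, zero_mul, Complex.ofReal_zero, mul_zero, norm_zero]
    unfold dom
    positivity
  rw [norm_mul, Complex.norm_real, norm_mul, norm_div, Real.norm_eq_abs, Real.norm_eq_abs,
    Real.norm_eq_abs, abs_of_nonneg (wte_nonneg D hε x),
    abs_of_nonneg (by positivity : 0 ≤ (inner ℝ α x : ℝ) ^ 2 + ε), wte_erase D ε hα]
  have h1 := factor_le (pos_k_nonneg D hα) hε hε1 hs
  have h2 := erase_le D hε hε1 α x
  have h3 : 0 ≤ ∏ β ∈ D.pos.erase α, ((inner ℝ β x : ℝ) ^ 2 + ε) ^ D.k β := by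
    apply Finset.prod_nonneg; intro β _; positivity
  unfold dom
  calc _ = ‖h x‖ * ((|(inner ℝ α x : ℝ)| / ((inner ℝ α x : ℝ) ^ 2 + ε) *
          ((inner ℝ α x : ℝ) ^ 2 + ε) ^ D.k α) *
          ∏ β ∈ D.pos.erase α, ((inner ℝ β x : ℝ) ^ 2 + ε) ^ D.k β) := by ring
    _ ≤ ‖h x‖ * ((|(inner ℝ α x : ℝ)| ^ (2 * D.k α - 1) +
          |(inner ℝ α x : ℝ)| * ((inner ℝ α x : ℝ) ^ 2 + 1) ^ D.k α) *
          ∏ β ∈ D.pos.erase α, ((inner ℝ β x : ℝ) ^ 2 + 1) ^ D.k β) := by
        apply mul_le_mul_of_nonneg_left _ (norm_nonneg _)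
        exact mul_le_mul h1 h2 h3 (by positivity)
    _ = _ := by ring

theorem wte_continuous (D : RootData N) {ε : ℝ} (hε : 0 ≤ ε) : Continuous (wte D ε) := by
  unfold wte
  apply continuous_finsetProd
  intro α hα
  apply Continuous.rpow_const
  · exact ((continuous_const.inner continuous_id).pow 2).add continuous_const
  · intro x; right; exact pos_k_nonneg D hα

theorem term_aesm (D : RootData N) (α : E N) {h : E N → ℂ} (hh : Continuous h) {ε : ℝ}
    (hε : 0 ≤ ε) : AEStronglyMeasurable (fun x => h x *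
      (((inner ℝ α x : ℝ) / ((inner ℝ α x : ℝ) ^ 2 + ε) * wte D ε x : ℝ) : ℂ)) volume := by
  have h1 : Measurable fun x : E N => (inner ℝ α x : ℝ) :=
    (continuous_const.inner continuous_id).measurable
  have h2 : Measurable fun x : E N =>
      (inner ℝ α x : ℝ) / ((inner ℝ α x : ℝ) ^ 2 + ε) * wte D ε x :=
    (h1.div ((h1.pow_const 2).add_const ε)).mul (wte_continuous D hε).measurable
  exact (hh.measurable.mul (Complex.measurable_ofReal.comp h2)).aestronglyMeasurable

theorem div_zero_eq (D : RootData N) (α x : E N) :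
    (inner ℝ α x : ℝ) / ((inner ℝ α x : ℝ) ^ 2 + 0) * wte D 0 x = wt D x / inner ℝ α x := by
  rw [wte_zero, add_zero]
  by_cases hs : (inner ℝ α x : ℝ) = 0
  · rw [hs]; simp
  · field_simp

/-- for `k(α) > 0` the function `h w / ⟨α,x⟩` is integrable, `h` continuous with compact support -/
theorem integrable_wt_div (D : RootData N) {α : E N} (hα : α ∈ D.pos) (hk : 0 < D.k α)
    {h : E N → ℂ} (hh : Continuous h) (hc : HasCompactSupport h) :
    Integrable (fun x => h x * ((wt D x / inner ℝ α x : ℝ) : ℂ)) := by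
  have h1 := term_aesm D α hh (le_refl (0 : ℝ))
  have h2 := (dom_integrable D hα hk hh hc).mono' h1
    (Filter.Eventually.of_forall fun x => le_dom D hα le_rfl zero_le_one x)
  simpa only [div_zero_eq] using h2

/-- limit of the regularised terms -/
theorem term_tendsto (D : RootData N) {α : E N} (hα : α ∈ D.pos) (hk : 0 < D.k α)
    {h : E N → ℂ} (hh : Continuous h) (hc : HasCompactSupport h) :
    Filter.Tendsto (fun n : ℕ => ∫ x, h x * (((inner ℝ α x : ℝ) /
        ((inner ℝ α x : ℝ) ^ 2 + 1 / ((n : ℝ) + 1)) * wte D (1 / ((n : ℝ) + 1)) x : ℝ) : ℂ))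
      Filter.atTop (𝓝 (∫ x, h x * ((wt D x / inner ℝ α x : ℝ) : ℂ))) := by
  apply tendsto_integral_of_dominated_convergence (dom D α h)
  · intro n; exact term_aesm D α hh (by positivity)
  · exact dom_integrable D hα hk hh hc
  · intro n
    refine Filter.Eventually.of_forall fun x => le_dom D hα (by positivity) ?_ x
    rw [div_le_one (by positivity)]; linarith [(Nat.cast_nonneg n : (0 : ℝ) ≤ n)]
  · refine Filter.Eventually.of_forall fun x => ?_
    apply Filter.Tendsto.const_mul
    apply (Complex.continuous_ofReal.tendsto _).comp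
    have hlim : Filter.Tendsto (fun n : ℕ => 1 / ((n : ℝ) + 1)) Filter.atTop (𝓝 0) :=
      tendsto_one_div_add_atTop_nhds_zero_nat
    by_cases hs : (inner ℝ α x : ℝ) = 0
    · rw [hs]; simp
    rw [← div_zero_eq]
    apply Filter.Tendsto.mul
    · apply Filter.Tendsto.div tendsto_const_nhds (tendsto_const_nhds.add hlim)
      positivity
    · unfold wte
      apply tendsto_finsetProd
      intro β hβ
      have h1 : Filter.Tendsto (fun n : ℕ => (inner ℝ β x : ℝ) ^ 2 + 1 / ((n : ℝ) + 1))
          Filter.atTop (𝓝 ((inner ℝ β x : ℝ) ^ 2 + 0)) := tendsto_const_nhds.add hlim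
      exact h1.rpow_const (Or.inr (pos_k_nonneg D hβ))

/-- the other side -/
theorem main_tendsto (D : RootData N) {h : E N → ℂ} (hh : Continuous h)
    (hc : HasCompactSupport h) :
    Filter.Tendsto (fun n : ℕ => ∫ x, h x * ((wte D (1 / ((n : ℝ) + 1)) x : ℝ) : ℂ))
      Filter.atTop (𝓝 (∫ x, h x * ((wt D x : ℝ) : ℂ))) := by
  apply tendsto_integral_of_dominated_convergence
    (fun x => ‖h x‖ * wte D 1 x)
  · intro n
    exact (hh.mul (Complex.continuous_ofReal.comp
      (wte_continuous D (by positivity)))).aestronglyMeasurable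
  · apply Continuous.integrable_of_hasCompactSupport
    · exact hh.norm.mul (wte_continuous D zero_le_one)
    · exact hc.norm.mul_right
  · intro n
    refine Filter.Eventually.of_forall fun x => ?_
    rw [norm_mul, Complex.norm_real, Real.norm_of_nonneg (wte_nonneg D (by positivity) x)]
    apply mul_le_mul_of_nonneg_left _ (norm_nonneg _)
    unfold wte
    apply Finset.prod_le_prod
    · intro β _; positivity
    · intro β hβ
      apply Real.rpow_le_rpow (by positivity) _ (pos_k_nonneg D hβ)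
      have : 1 / ((n : ℝ) + 1) ≤ 1 := by
        rw [div_le_one (by positivity)]; linarith [(Nat.cast_nonneg n : (0 : ℝ) ≤ n)]
      linarith
  · refine Filter.Eventually.of_forall fun x => ?_
    apply Filter.Tendsto.const_mul
    apply (Complex.continuous_ofReal.tendsto _).comp
    have hlim : Filter.Tendsto (fun n : ℕ => 1 / ((n : ℝ) + 1)) Filter.atTop (𝓝 0) :=
      tendsto_one_div_add_atTop_nhds_zero_nat
    rw [← wte_zero]
    unfold wte
    apply tendsto_finsetProd
    intro β hβ
    have h1 : Filter.Tendsto (fun n : ℕ => (inner ℝ β x : ℝ) ^ 2 + 1 / ((n : ℝ) + 1))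
        Filter.atTop (𝓝 ((inner ℝ β x : ℝ) ^ 2 + 0)) := tendsto_const_nhds.add hlim
    exact h1.rpow_const (Or.inr (pos_k_nonneg D hβ))

/-- derivative of the regularised weight -/
theorem wte_hasFDerivAt (D : RootData N) {ε : ℝ} (hε : 0 < ε) (ξ x : E N) :
    DifferentiableAt ℝ (wte D ε) x ∧ fderiv ℝ (wte D ε) x ξ =
      ∑ α ∈ D.pos, (2 * D.k α * inner ℝ α ξ) *
        ((inner ℝ α x : ℝ) / ((inner ℝ α x : ℝ) ^ 2 + ε) * wte D ε x) := by
  classical
  have h1 : ∀ α ∈ D.pos, HasFDerivAt (fun x : E N => ((inner ℝ α x : ℝ) ^ 2 + ε) ^ D.k α)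
      ((D.k α * ((inner ℝ α x : ℝ) ^ 2 + ε) ^ (D.k α - 1)) •
        ((2 • (inner ℝ α x : ℝ) ^ (2 - 1)) • innerSL ℝ α)) x := by
    intro α _
    have h2 : HasFDerivAt (fun x : E N => (inner ℝ α x : ℝ)) (innerSL ℝ α) x :=
      (innerSL ℝ α).hasFDerivAt
    have h3 := (h2.pow 2).add_const ε
    have h4 := h3.rpow_const (p := D.k α) (Or.inl (by positivity))
    exact h4
  have h5 : HasFDerivAt (wte D ε) _ x :=
    HasFDerivAt.finsetProd (u := D.pos) (fun α hα => h1 α hα)
  refine ⟨h5.differentiableAt, ?_⟩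
  rw [h5.fderiv]
  simp only [sum_apply, smul_apply, innerSL_apply_apply, smul_eq_mul, nsmul_eq_mul,
    Nat.cast_ofNat, Nat.add_one_sub_one, pow_one]
  apply Finset.sum_congr rfl
  intro α hα
  rw [wte_erase D ε hα, Real.rpow_sub_one (by positivity)]
  ring

/-- integration by parts for the regularised weight -/
theorem ibp_wte (D : RootData N) {ε : ℝ} (hε : 0 < ε) (ξ : E N) {h : E N → ℂ}
    (hh : ContDiff ℝ ∞ h) (hc : HasCompactSupport h) :
    ∫ x, fderiv ℝ h x ξ * ((wte D ε x : ℝ) : ℂ) =
      - ∑ α ∈ D.pos, ((2 * D.k α * inner ℝ α ξ : ℝ) : ℂ) *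
        ∫ x, h x * (((inner ℝ α x : ℝ) / ((inner ℝ α x : ℝ) ^ 2 + ε) * wte D ε x : ℝ) : ℂ) := by
  have hdiff : Differentiable ℝ h := hh.differentiable (by simp)
  have hwc : Continuous (wte D ε) := wte_continuous D hε.le
  have hq : ∀ α : E N, Continuous fun x : E N =>
      (inner ℝ α x : ℝ) / ((inner ℝ α x : ℝ) ^ 2 + ε) * wte D ε x := by
    intro α
    apply Continuous.mul _ hwc
    apply Continuous.div (continuous_const.inner continuous_id)
    · exact ((continuous_const.inner continuous_id).pow 2).add continuous_const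
    · intro x; positivity
  have hwd : ∀ x, HasFDerivAt (fun x => ((wte D ε x : ℝ) : ℂ))
      (Complex.ofRealCLM.comp (fderiv ℝ (wte D ε) x)) x := by
    intro x
    exact Complex.ofRealCLM.hasFDerivAt.comp x (wte_hasFDerivAt D hε ξ x).1.hasFDerivAt
  have hder : ∀ x, fderiv ℝ (fun x => ((wte D ε x : ℝ) : ℂ)) x ξ =
      ∑ α ∈ D.pos, ((2 * D.k α * inner ℝ α ξ : ℝ) : ℂ) *
        (((inner ℝ α x : ℝ) / ((inner ℝ α x : ℝ) ^ 2 + ε) * wte D ε x : ℝ) : ℂ) := by
    intro x
    rw [(hwd x).fderiv]
    simp only [ContinuousLinearMap.comp_apply, Complex.ofRealCLM_apply]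
    rw [(wte_hasFDerivAt D hε ξ x).2, Complex.ofReal_sum]
    apply Finset.sum_congr rfl
    intro α _
    push_cast
    ring
  have hfc : Continuous fun x => fderiv ℝ h x ξ :=
    (hh.continuous_fderiv (by simp)).clm_apply continuous_const
  have hfcs : HasCompactSupport fun x => fderiv ℝ h x ξ := hc.fderiv_apply ℝ ξ
  have hwcC : Continuous fun x => ((wte D ε x : ℝ) : ℂ) := Complex.continuous_ofReal.comp hwc
  have hint : ∀ α : E N, Integrable fun x => h x *
      (((inner ℝ α x : ℝ) / ((inner ℝ α x : ℝ) ^ 2 + ε) * wte D ε x : ℝ) : ℂ) := by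
    intro α
    apply Continuous.integrable_of_hasCompactSupport
    · exact hh.continuous.mul (Complex.continuous_ofReal.comp (hq α))
    · exact hc.mul_right
  have key := integral_mul_fderiv_eq_neg_fderiv_mul_of_integrable (μ := (volume : Measure (E N)))
    (f := h) (g := fun x => ((wte D ε x : ℝ) : ℂ)) (v := ξ)
    ((hfc.mul hwcC).integrable_of_hasCompactSupport hfcs.mul_right)
    (by
      simp only [hder, Finset.mul_sum]
      apply integrable_finsetSum
      intro α _
      have := (hint α).const_mul ((2 * D.k α * inner ℝ α ξ : ℝ) : ℂ)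
      refine this.congr (Filter.Eventually.of_forall fun x => ?_)
      simp only
      ring)
    ((hh.continuous.mul hwcC).integrable_of_hasCompactSupport hc.mul_right)
    (fun x _ => hdiff x) (fun x _ => (hwd x).differentiableAt)
  rw [← neg_eq_iff_eq_neg, ← key]
  simp only [hder, Finset.mul_sum]
  rw [integral_finsetSum]
  · apply Finset.sum_congr rfl
    intro α _
    rw [← integral_const_mul]
    congr 1
    funext x
    ring
  · intro α _
    have := (hint α).const_mul ((2 * D.k α * inner ℝ α ξ : ℝ) : ℂ)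
    refine this.congr (Filter.Eventually.of_forall fun x => ?_)
    simp only
    ring

/-- `∫ (∂_ξ h) w = - ∑_α 2 k_α ⟨α,ξ⟩ ∫ h w / ⟨α,x⟩`; regularise `|⟨α,x⟩|^{2k}` by
`(⟨α,x⟩² + ε)^k` -/
theorem ibp_wt (D : RootData N) (ξ : E N) {h : E N → ℂ} (hh : ContDiff ℝ ∞ h)
    (hc : HasCompactSupport h) :
    ∫ x, fderiv ℝ h x ξ * ((wt D x : ℝ) : ℂ) =
      - ∑ α ∈ D.pos, ((2 * D.k α * inner ℝ α ξ : ℝ) : ℂ) *
        ∫ x, h x * ((wt D x / inner ℝ α x : ℝ) : ℂ) := by
  have hfc : Continuous fun x => fderiv ℝ h x ξ :=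
    (hh.continuous_fderiv (by simp)).clm_apply continuous_const
  have hfcs : HasCompactSupport fun x => fderiv ℝ h x ξ := hc.fderiv_apply ℝ ξ
  have h1 := main_tendsto D hfc hfcs
  have h2 : Filter.Tendsto (fun n : ℕ => - ∑ α ∈ D.pos, ((2 * D.k α * inner ℝ α ξ : ℝ) : ℂ) *
      ∫ x, h x * (((inner ℝ α x : ℝ) / ((inner ℝ α x : ℝ) ^ 2 + 1 / ((n : ℝ) + 1)) *
        wte D (1 / ((n : ℝ) + 1)) x : ℝ) : ℂ)) Filter.atTop
      (𝓝 (- ∑ α ∈ D.pos, ((2 * D.k α * inner ℝ α ξ : ℝ) : ℂ) *
        ∫ x, h x * ((wt D x / inner ℝ α x : ℝ) : ℂ))) := by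
    apply Filter.Tendsto.neg
    apply tendsto_finsetSum
    intro α hα
    by_cases hk : D.k α = 0
    · simp [hk]
    · exact (term_tendsto D hα (lt_of_le_of_ne (pos_k_nonneg D hα) (Ne.symm hk)) hh.continuous
        hc).const_mul _
  refine tendsto_nhds_unique h1 (h2.congr fun n => ?_)
  exact (ibp_wte D (by positivity) ξ hh hc).symm

end KaSch
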