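import Pool.Agent.Work.MP_d717ad_an.Ibp1

open scoped ContDiff Topology Polynomial
open MeasureTheory Set

noncomputable section

namespace KaSch

variable {N : ℕ}

/-! ### Module IBP2: integration by parts for Dunkl operators -/

theorem refl_continuous (α : E N) : Continuous (refl α) := by
  have h : Continuous fun x : E N => (inner ℝ α x : ℝ) := continuous_const.inner continuous_id
  change Continuous fun x : E N => x - (2 * inner ℝ α x / inner ℝ α α) • α
  fun_prop

theorem refl_zero (α : E N) : refl α 0 = 0 := by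
  unfold refl; simp

/-- product of a function continuous away from `0` and a function supported away from `0` -/
theorem mul_continuous {f g : E N → ℂ} (hf : ContinuousOn f {0}ᶜ) (hg : Continuous g)
    (h0 : (0 : E N) ∉ tsupport g) : Continuous fun x => f x * g x := by
  rw [continuous_iff_continuousAt]
  intro x
  by_cases hx : x = 0
  · subst hx
    have h1 : (fun x => f x * g x) =ᶠ[𝓝 0] fun _ => 0 := by
      filter_upwards [(isClosed_tsupport g).isOpen_compl.mem_nhds h0] with y hy
      rw [image_eq_zero_of_notMem_tsupport hy, mul_zero]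
    exact (continuousAt_const).congr h1.symm
  · exact (hf.continuousAt (isOpen_compl_singleton.mem_nhds hx)).mul hg.continuousAt

theorem mul_contDiff {f g : E N → ℂ} (hf : ContDiffOn ℝ ∞ f {0}ᶜ) (hg : ContDiff ℝ ∞ g)
    (h0 : (0 : E N) ∉ tsupport g) : ContDiff ℝ ∞ fun x => f x * g x := by
  rw [contDiff_iff_contDiffAt]
  intro x
  by_cases hx : x = 0
  · subst hx
    have h1 : (fun x => f x * g x) =ᶠ[𝓝 0] fun _ => 0 := by
      filter_upwards [(isClosed_tsupport g).isOpen_compl.mem_nhds h0] with y hy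
      rw [image_eq_zero_of_notMem_tsupport hy, mul_zero]
    exact contDiffAt_const.congr_of_eventuallyEq h1
  · exact (hf.contDiffAt (isOpen_compl_singleton.mem_nhds hx)).mul hg.contDiffAt

/-- the support of the difference quotient -/
theorem quot_support {α : E N} (hα : α ≠ 0) {g : E N → ℂ} :
    Function.support (quot α g) ⊆ tsupport g ∪ refl α '' tsupport g := by
  intro x hx
  by_contra hn
  rw [mem_union, not_or] at hn
  apply hx
  have h1 : g x = 0 := image_eq_zero_of_notMem_tsupport hn.1
  have h2 : g (refl α x) = 0 := by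
    apply image_eq_zero_of_notMem_tsupport
    intro h
    exact hn.2 ⟨_, h, refl_refl hα x⟩
  have h3 : fderiv ℝ g x = 0 := by
    have : g =ᶠ[𝓝 x] fun _ => 0 := by
      filter_upwards [(isClosed_tsupport g).isOpen_compl.mem_nhds hn.1] with y hy
      exact image_eq_zero_of_notMem_tsupport hy
    rw [this.fderiv_eq]
    simp
  unfold quot
  rw [h1, h2, h3]
  simp

/-- a compact set containing the support of `T_ξ g` -/
def bigK (D : RootData N) (K : Set (E N)) : Set (E N) := K ∪ ⋃ α ∈ D.pos, (K ∪ refl α '' K)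

theorem bigK_compact (D : RootData N) {K : Set (E N)} (hK : IsCompact K) :
    IsCompact (bigK D K) := by
  unfold bigK
  apply hK.union
  exact D.pos.finite_toSet.isCompact_biUnion
    fun α _ => hK.union (hK.image (refl_continuous α))

theorem zero_notMem_bigK (D : RootData N) {K : Set (E N)} (hK : (0 : E N) ∉ K) :
    (0 : E N) ∉ bigK D K := by
  unfold bigK
  intro h
  rcases h with h | h
  · exact hK h
  · simp only [mem_iUnion, exists_prop] at h
    obtain ⟨α, hα, h | ⟨y, hy, hy2⟩⟩ := h
    · exact hK h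
    · apply hK
      have h0 := pos_ne_zero D hα
      have : y = 0 := by rw [← refl_refl h0 y, hy2, refl_zero]
      rwa [← this]

theorem T_support (D : RootData N) (ξ : E N) {g : E N → ℂ} :
    Function.support (T D ξ g) ⊆ bigK D (tsupport g) := by
  intro x hx
  by_contra hn
  apply hx
  unfold bigK at hn
  rw [mem_union, not_or] at hn
  simp only [mem_iUnion, exists_prop, not_exists, not_and] at hn
  have h3 : fderiv ℝ g x = 0 := by
    have : g =ᶠ[𝓝 x] fun _ => 0 := by
      filter_upwards [(isClosed_tsupport g).isOpen_compl.mem_nhds hn.1] with y hy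
      exact image_eq_zero_of_notMem_tsupport hy
    rw [this.fderiv_eq]
    simp
  unfold T
  rw [h3]
  have h4 : ∑ α ∈ D.pos, ((D.k α * inner ℝ α ξ : ℝ) : ℂ) * quot α g x = 0 := by
    apply Finset.sum_eq_zero
    intro α hα
    have h5 : quot α g x = 0 := by
      by_contra h6
      exact hn.2 α hα (quot_support (pos_ne_zero D hα) h6)
    rw [h5, mul_zero]
  rw [h4]
  simp

theorem T_hasCompactSupport (D : RootData N) (ξ : E N) {g : E N → ℂ} (hc : HasCompactSupport g) :
    HasCompactSupport (T D ξ g) :=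
  HasCompactSupport.of_support_subset_isCompact (bigK_compact D hc) (T_support D ξ)

theorem T_zero_notMem (D : RootData N) (ξ : E N) {g : E N → ℂ} (hc : HasCompactSupport g)
    (h0 : (0 : E N) ∉ tsupport g) : (0 : E N) ∉ tsupport (T D ξ g) := by
  intro h
  have h1 : tsupport (T D ξ g) ⊆ bigK D (tsupport g) :=
    closure_minimal (T_support D ξ) (bigK_compact D hc).isClosed
  exact zero_notMem_bigK D h0 (h1 h)

/-- reflections preserve the measure -/
theorem refl_isometry {α : E N} (hα : α ≠ 0) : Isometry (refl α) := by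
  apply Isometry.of_dist_eq
  intro x y
  rw [dist_eq_norm, dist_eq_norm]
  have : refl α x - refl α y = refl α (x - y) := by
    unfold refl
    rw [inner_sub_right, mul_sub, sub_div, sub_smul]
    abel
  rw [this, norm_refl hα]

/-- the reflection as a linear isometry equivalence -/
def reflEquiv {α : E N} (hα : α ≠ 0) : E N ≃ₗᵢ[ℝ] E N where
  toFun := refl α
  invFun := refl α
  left_inv := refl_refl hα
  right_inv := refl_refl hα
  map_add' x y := by
    unfold refl
    rw [inner_add_right, mul_add, add_div, add_smul]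
    abel
  map_smul' c x := by
    unfold refl
    simp only [RingHom.id_apply]
    rw [real_inner_smul_right, smul_sub, smul_smul]
    congr 2
    ring
  norm_map' x := norm_refl hα x

theorem integral_refl {α : E N} (hα : α ≠ 0) (F : E N → ℂ) :
    ∫ x, F (refl α x) = ∫ x, F x := by
  have := (reflEquiv hα).measurePreserving.integral_comp
    (reflEquiv hα).toHomeomorph.measurableEmbedding F
  exact this


theorem wt_eq_zero (D : RootData N) {α : E N} (hα : α ∈ D.pos) (hk : 0 < D.k α) {x : E N}
    (hx : (inner ℝ α x : ℝ) = 0) : wt D x = 0 := by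
  unfold wt
  apply Finset.prod_eq_zero hα
  rw [hx, abs_zero, Real.zero_rpow (by linarith)]

/-- the difference quotient times the weight -/
theorem quot_mul_wt (D : RootData N) {α : E N} (hα : α ∈ D.pos) (hk : 0 < D.k α) (f : E N → ℂ)
    (x : E N) : quot α f x * ((wt D x : ℝ) : ℂ) =
      (f x - f (refl α x)) * ((wt D x / inner ℝ α x : ℝ) : ℂ) := by
  by_cases hx : (inner ℝ α x : ℝ) = 0
  · rw [wt_eq_zero D hα hk hx]; simp
  · unfold quot
    rw [if_neg hx]
    have : ((inner ℝ α x : ℝ) : ℂ) ≠ 0 := by exact_mod_cast hx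
    push_cast
    field_simp

section good

variable {f g : E N → ℂ}

theorem fg_refl_right {α : E N} (hα : α ≠ 0) (hf : ContinuousOn f {0}ᶜ) (hg : Continuous g)
    (hc : HasCompactSupport g) (h0 : (0 : E N) ∉ tsupport g) :
    Continuous (fun x => f x * g (refl α x)) ∧
      HasCompactSupport (fun x => f x * g (refl α x)) := by
  have h1 : tsupport (fun x => g (refl α x)) ⊆ refl α '' tsupport g := by
    apply closure_minimal
    · intro x hx
      exact ⟨refl α x, subset_tsupport g hx, refl_refl hα x⟩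
    · exact (hc.image (refl_continuous α)).isClosed
  have h2 : (0 : E N) ∉ tsupport (fun x => g (refl α x)) := by
    intro h
    obtain ⟨y, hy, hy2⟩ := h1 h
    apply h0
    have : y = 0 := by rw [← refl_refl hα y, hy2, refl_zero]
    rwa [← this]
  have h3 : HasCompactSupport (fun x => g (refl α x)) :=
    HasCompactSupport.of_support_subset_isCompact (hc.image (refl_continuous α))
      ((subset_tsupport _).trans h1)
  exact ⟨mul_continuous hf (hg.comp (refl_continuous α)) h2, h3.mul_left⟩

theorem fg_refl_left {α : E N} (hα : α ≠ 0) (hf : ContinuousOn f {0}ᶜ) (hg : Continuous g)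
    (hc : HasCompactSupport g) (h0 : (0 : E N) ∉ tsupport g) :
    Continuous (fun x => f (refl α x) * g x) ∧
      HasCompactSupport (fun x => f (refl α x) * g x) := by
  refine ⟨mul_continuous ?_ hg h0, hc.mul_left⟩
  apply hf.comp (refl_continuous α).continuousOn
  intro x hx
  exact refl_ne_zero hα hx

/-- the contribution of one root -/
theorem ibp_quot (D : RootData N) {α : E N} (hα : α ∈ D.pos) (hk : 0 < D.k α)
    (hf : ContinuousOn f {0}ᶜ) (hg : Continuous g)
    (hc : HasCompactSupport g) (h0 : (0 : E N) ∉ tsupport g) :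
    Integrable (fun x => quot α f x * g x * ((wt D x : ℝ) : ℂ)) ∧
    Integrable (fun x => f x * quot α g x * ((wt D x : ℝ) : ℂ)) ∧
    (∫ x, quot α f x * g x * ((wt D x : ℝ) : ℂ)) + (∫ x, f x * quot α g x * ((wt D x : ℝ) : ℂ)) =
      2 * ∫ x, f x * g x * ((wt D x / inner ℝ α x : ℝ) : ℂ) := by
  have hα0 := pos_ne_zero D hα
  have hαr := pos_mem_roots D hα
  have i0 : Integrable fun x => f x * g x * ((wt D x / inner ℝ α x : ℝ) : ℂ) :=
    integrable_wt_div D hα hk (mul_continuous hf hg h0) hc.mul_left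
  obtain ⟨c1, s1⟩ := fg_refl_left hα0 hf hg hc h0
  obtain ⟨c2, s2⟩ := fg_refl_right hα0 hf hg hc h0
  have i1 := integrable_wt_div D hα hk c1 s1
  have i2 := integrable_wt_div D hα hk c2 s2
  have e1 : (fun x => quot α f x * g x * ((wt D x : ℝ) : ℂ)) = fun x =>
      f x * g x * ((wt D x / inner ℝ α x : ℝ) : ℂ) -
        f (refl α x) * g x * ((wt D x / inner ℝ α x : ℝ) : ℂ) := by
    funext x
    have := quot_mul_wt D hα hk f x
    calc _ = (quot α f x * ((wt D x : ℝ) : ℂ)) * g x := by ring
      _ = _ := by rw [this]; ring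
  have e2 : (fun x => f x * quot α g x * ((wt D x : ℝ) : ℂ)) = fun x =>
      f x * g x * ((wt D x / inner ℝ α x : ℝ) : ℂ) -
        f x * g (refl α x) * ((wt D x / inner ℝ α x : ℝ) : ℂ) := by
    funext x
    have := quot_mul_wt D hα hk g x
    calc _ = f x * (quot α g x * ((wt D x : ℝ) : ℂ)) := by ring
      _ = _ := by rw [this]; ring
  refine ⟨by rw [e1]; exact i0.sub i1, by rw [e2]; exact i0.sub i2, ?_⟩
  rw [e1, e2, integral_sub i0 i1, integral_sub i0 i2]
  have e3 : ∫ x, f (refl α x) * g x * ((wt D x / inner ℝ α x : ℝ) : ℂ) =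
      - ∫ x, f x * g (refl α x) * ((wt D x / inner ℝ α x : ℝ) : ℂ) := by
    rw [← integral_refl hα0, ← integral_neg]
    congr 1
    funext x
    rw [refl_refl hα0, wt_refl D hαr, inner_refl_self hα0]
    push_cast
    rw [div_neg]
    ring
  rw [e3]
  ring

/-- `T_ξ` is antisymmetric for the weight `w` -/
theorem ibp_T' (D : RootData N) (ξ : E N) (hf : ContDiffOn ℝ ∞ f {0}ᶜ)
    (hg : ContDiff ℝ ∞ g) (hc : HasCompactSupport g) (h0 : (0 : E N) ∉ tsupport g) :
    Integrable (fun x => T D ξ f x * g x * ((wt D x : ℝ) : ℂ)) ∧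
    Integrable (fun x => f x * T D ξ g x * ((wt D x : ℝ) : ℂ)) ∧
    ∫ x, T D ξ f x * g x * ((wt D x : ℝ) : ℂ) = - ∫ x, f x * T D ξ g x * ((wt D x : ℝ) : ℂ) := by
  have hwC : Continuous fun x => ((wt D x : ℝ) : ℂ) :=
    Complex.continuous_ofReal.comp (wt_continuous D)
  have hfc : ContinuousOn f {0}ᶜ := hf.continuousOn
  have hf1 : ContinuousOn (fun x => fderiv ℝ f x ξ) {0}ᶜ :=
    ((hf.fderiv_of_isOpen (m := 0) isOpen_compl_singleton (by simp)).continuousOn).clm_apply
      continuousOn_const
  have hg1 : Continuous fun x => fderiv ℝ g x ξ :=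
    (hg.continuous_fderiv (by simp)).clm_apply continuous_const
  have hg1c : HasCompactSupport fun x => fderiv ℝ g x ξ := hc.fderiv_apply ℝ ξ
  have hg10 : (0 : E N) ∉ tsupport fun x => fderiv ℝ g x ξ := by
    intro h
    apply h0
    have h1 : tsupport (fun x => fderiv ℝ g x ξ) ⊆ tsupport (fderiv ℝ g) := by
      apply closure_mono
      intro x hx
      rw [Function.mem_support] at hx ⊢
      intro h2
      apply hx
      rw [h2]; rfl
    exact tsupport_fderiv_subset ℝ (h1 h)
  have hi1 : Integrable fun x => fderiv ℝ f x ξ * g x * ((wt D x : ℝ) : ℂ) :=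
    ((mul_continuous hf1 hg.continuous h0).mul hwC).integrable_of_hasCompactSupport
      (hc.mul_left.mul_right)
  have hi2 : Integrable fun x => f x * fderiv ℝ g x ξ * ((wt D x : ℝ) : ℂ) :=
    ((mul_continuous hfc hg1 hg10).mul hwC).integrable_of_hasCompactSupport
      (hg1c.mul_left.mul_right)
  have hq1 : ∀ α ∈ D.pos, Integrable fun x =>
      ((D.k α * inner ℝ α ξ : ℝ) : ℂ) * (quot α f x * g x * ((wt D x : ℝ) : ℂ)) := by
    intro α hα
    by_cases hk : D.k α = 0
    · simp [hk]
    · exact ((ibp_quot D hα (lt_of_le_of_ne (pos_k_nonneg D hα) (Ne.symm hk)) hfc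
        hg.continuous hc h0).1).const_mul _
  have hq2 : ∀ α ∈ D.pos, Integrable fun x =>
      ((D.k α * inner ℝ α ξ : ℝ) : ℂ) * (f x * quot α g x * ((wt D x : ℝ) : ℂ)) := by
    intro α hα
    by_cases hk : D.k α = 0
    · simp [hk]
    · exact ((ibp_quot D hα (lt_of_le_of_ne (pos_k_nonneg D hα) (Ne.symm hk)) hfc
        hg.continuous hc h0).2.1).const_mul _
  have e1 : (fun x => T D ξ f x * g x * ((wt D x : ℝ) : ℂ)) = fun x =>
      fderiv ℝ f x ξ * g x * ((wt D x : ℝ) : ℂ) + ∑ α ∈ D.pos,
        ((D.k α * inner ℝ α ξ : ℝ) : ℂ) * (quot α f x * g x * ((wt D x : ℝ) : ℂ)) := by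
    funext x
    unfold T
    rw [add_mul, add_mul, Finset.sum_mul, Finset.sum_mul]
    congr 1
    apply Finset.sum_congr rfl
    intro α _
    ring
  have e2 : (fun x => f x * T D ξ g x * ((wt D x : ℝ) : ℂ)) = fun x =>
      f x * fderiv ℝ g x ξ * ((wt D x : ℝ) : ℂ) + ∑ α ∈ D.pos,
        ((D.k α * inner ℝ α ξ : ℝ) : ℂ) * (f x * quot α g x * ((wt D x : ℝ) : ℂ)) := by
    funext x
    unfold T
    rw [mul_add, add_mul, Finset.mul_sum, Finset.sum_mul]
    congr 1
    apply Finset.sum_congr rfl
    intro α _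
    ring
  have iq1 := integrable_finsetSum D.pos hq1
  have iq2 := integrable_finsetSum D.pos hq2
  refine ⟨by rw [e1]; exact hi1.add iq1, by rw [e2]; exact hi2.add iq2, ?_⟩
  rw [e1, e2, integral_add hi1 iq1, integral_add hi2 iq2, integral_finsetSum _ hq1,
    integral_finsetSum _ hq2]
  have hh := mul_contDiff hf hg h0
  have key := ibp_wt D ξ hh hc.mul_left
  have hder : ∀ x, fderiv ℝ (fun x => f x * g x) x ξ =
      fderiv ℝ f x ξ * g x + f x * fderiv ℝ g x ξ := by
    intro x
    by_cases hx : x = 0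
    · subst hx
      have hn : (tsupport g)ᶜ ∈ 𝓝 (0 : E N) := (isClosed_tsupport g).isOpen_compl.mem_nhds h0
      have h1 : (fun x => f x * g x) =ᶠ[𝓝 0] fun _ => 0 := by
        filter_upwards [hn] with y hy
        rw [image_eq_zero_of_notMem_tsupport hy, mul_zero]
      have h2 : g =ᶠ[𝓝 0] fun _ => 0 := by
        filter_upwards [hn] with y hy
        rw [image_eq_zero_of_notMem_tsupport hy]
      rw [h1.fderiv_eq, h2.fderiv_eq, image_eq_zero_of_notMem_tsupport h0]
      simp
    · have hfd : DifferentiableAt ℝ f x :=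
        (hf.contDiffAt (isOpen_compl_singleton.mem_nhds hx)).differentiableAt (by simp)
      have hgd : DifferentiableAt ℝ g x := hg.contDiffAt.differentiableAt (by simp)
      have h3 : fderiv ℝ (fun x => f x * g x) x = f x • fderiv ℝ g x + g x • fderiv ℝ f x :=
        (hfd.hasFDerivAt.mul hgd.hasFDerivAt).fderiv
      rw [h3]
      simp only [add_apply, smul_apply, smul_eq_mul]
      ring
  have e3 : ∫ x, fderiv ℝ (fun x => f x * g x) x ξ * ((wt D x : ℝ) : ℂ) =
      (∫ x, fderiv ℝ f x ξ * g x * ((wt D x : ℝ) : ℂ)) +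
        ∫ x, f x * fderiv ℝ g x ξ * ((wt D x : ℝ) : ℂ) := by
    rw [← integral_add hi1 hi2]
    congr 1
    funext x
    rw [hder]; ring
  rw [e3] at key
  have e4 : (∑ α ∈ D.pos, ∫ x, ((D.k α * inner ℝ α ξ : ℝ) : ℂ) *
        (quot α f x * g x * ((wt D x : ℝ) : ℂ))) +
      (∑ α ∈ D.pos, ∫ x, ((D.k α * inner ℝ α ξ : ℝ) : ℂ) *
        (f x * quot α g x * ((wt D x : ℝ) : ℂ))) =
      ∑ α ∈ D.pos, ((2 * D.k α * inner ℝ α ξ : ℝ) : ℂ) *
        ∫ x, f x * g x * ((wt D x / inner ℝ α x : ℝ) : ℂ) := by
    rw [← Finset.sum_add_distrib]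
    apply Finset.sum_congr rfl
    intro α hα
    by_cases hk : D.k α = 0
    · simp [hk]
    · have h5 := (ibp_quot D hα (lt_of_le_of_ne (pos_k_nonneg D hα) (Ne.symm hk)) hfc
        hg.continuous hc h0).2.2
      rw [integral_const_mul, integral_const_mul, ← mul_add, h5]
      push_cast
      ring
  linear_combination key + e4

end good

/-- `T_ξ` is antisymmetric for the weight `w` -/
theorem ibp_T (D : RootData N) (ξ : E N) {f g : E N → ℂ} (hf : ContDiffOn ℝ ∞ f {0}ᶜ)
    (hg : ContDiff ℝ ∞ g) (hc : HasCompactSupport g) (h0 : (0 : E N) ∉ tsupport g) :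
    ∫ x, T D ξ f x * g x * ((wt D x : ℝ) : ℂ) = - ∫ x, f x * T D ξ g x * ((wt D x : ℝ) : ℂ) :=
  (ibp_T' D ξ hf hg hc h0).2.2

theorem integral_mu (D : RootData N) (a : ℝ) (F : E N → ℂ) :
    ∫ x, F x ∂(mu D a) = ∫ x, ((theta D a x : ℝ) : ℂ) * F x := by
  have hm : Measurable (theta D a) := by
    unfold theta
    exact (measurable_norm.pow_const _).mul (wt_continuous D).measurable
  have hnn : ∀ x, 0 ≤ theta D a x := by
    intro x
    unfold theta wt
    apply mul_nonneg (by positivity)
    apply Finset.prod_nonneg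
    intro α _
    positivity
  unfold mu
  rw [integral_withDensity_eq_integral_toReal_smul hm.ennreal_ofReal
    (Filter.Eventually.of_forall fun x => ENNReal.ofReal_lt_top)]
  congr 1
  funext x
  rw [ENNReal.toReal_ofReal (hnn x), Complex.real_smul]

/-- symmetry of `‖x‖^{2-a} Δ_k` for `ϑ_{k,a} dx` against test functions on `ℝ^N ∖ {0}` -/
theorem ibp (D : RootData N) (a : ℝ) {f g : E N → ℂ} (hf : ContDiffOn ℝ ∞ f {0}ᶜ)
    (hg : ContDiff ℝ ∞ g) (hc : HasCompactSupport g) (h0 : (0 : E N) ∉ tsupport g) :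
    ∫ x, BF D a f x * g x ∂(mu D a) = ∫ x, f x * BF D a g x ∂(mu D a) := by
  rw [integral_mu, integral_mu]
  have hg0 : g 0 = 0 := image_eq_zero_of_notMem_tsupport h0
  have hL : Lap D g 0 = 0 := by
    unfold Lap
    apply Finset.sum_eq_zero
    intro j _
    exact image_eq_zero_of_notMem_tsupport (T_zero_notMem D _ (T_hasCompactSupport D _ hc)
      (T_zero_notMem D _ hc h0))
  have hcan : ∀ x : E N, x ≠ 0 → ((theta D a x : ℝ) : ℂ) * ((‖x‖ ^ (2 - a) : ℝ) : ℂ) =
      ((wt D x : ℝ) : ℂ) := by
    intro x hx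
    have hx0 : 0 < ‖x‖ := norm_pos_iff.2 hx
    rw [← Complex.ofReal_mul]
    congr 1
    unfold theta
    have : ‖x‖ ^ (a - 2) * ‖x‖ ^ (2 - a) = 1 := by
      rw [← Real.rpow_add hx0]; simp
    calc _ = (‖x‖ ^ (a - 2) * ‖x‖ ^ (2 - a)) * wt D x := by ring
      _ = wt D x := by rw [this, one_mul]
  have e1 : (fun x => ((theta D a x : ℝ) : ℂ) * (BF D a f x * g x)) = fun x =>
      ∑ j : Fin N, T D (ee j) (T D (ee j) f) x * g x * ((wt D x : ℝ) : ℂ) := by
    funext x
    by_cases hx : x = 0
    · subst hx; simp [hg0]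
    · rw [← Finset.sum_mul, ← Finset.sum_mul]
      unfold BF Lap
      rw [← hcan x hx]
      ring
  have e2 : (fun x => ((theta D a x : ℝ) : ℂ) * (f x * BF D a g x)) = fun x =>
      ∑ j : Fin N, f x * T D (ee j) (T D (ee j) g) x * ((wt D x : ℝ) : ℂ) := by
    funext x
    by_cases hx : x = 0
    · subst hx
      rw [← Finset.sum_mul, ← Finset.mul_sum]
      have hL' := hL
      unfold Lap at hL'
      rw [hL']
      unfold BF
      rw [hL]
      simp
    · rw [← Finset.sum_mul, ← Finset.mul_sum]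
      unfold BF Lap
      rw [← hcan x hx]
      ring
  rw [e1, e2]
  have a1 : ∀ j : Fin N, _ := fun j => ibp_T' D (ee j) (T_contDiffOn D (ee j) hf) hg hc h0
  have a2 : ∀ j : Fin N, _ := fun j => ibp_T' D (ee j) hf (T_contDiff D (ee j) hg)
    (T_hasCompactSupport D (ee j) hc) (T_zero_notMem D (ee j) hc h0)
  rw [integral_finsetSum _ fun j _ => (a1 j).1, integral_finsetSum _ fun j _ => (a2 j).2.1]
  apply Finset.sum_congr rfl
  intro j _
  rw [(a1 j).2.2, (a2 j).2.2, neg_neg]

end KaSch
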