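import Pool.Agent.Work.MP_d717ad_an.Base

open scoped ContDiff Topology
open MeasureTheory

noncomputable section

namespace KaSch

variable {N : ℕ}

/-- `L²` as Mathlib's `Lp` -/
abbrev L2c (D : RootData N) (a : ℝ) := Lp ℂ 2 (mu D a)

/-- classes of functions in `S_{k,a}`, in `Lp` -/
def SClassC (D : RootData N) (a : ℝ) : Set (L2c D a) :=
  {g | ∃ f : E N → ℂ, MemS D a f ∧ g =ᵐ[mu D a] f}

/-- the propagator as a family of continuous linear maps -/
structure IsPropC (D : RootData N) (a : ℝ) (U : ℝ → (L2c D a →L[ℂ] L2c D a)) : Prop where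
  map_zero : U 0 = ContinuousLinearMap.id ℂ (L2c D a)
  map_add : ∀ s t : ℝ, U (s + t) = (U s).comp (U t)
  isometry : ∀ (t : ℝ) (g : L2c D a), ‖U t g‖ = ‖g‖
  continuous : ∀ g : L2c D a, Continuous fun t => U t g
  generator : ∀ (m j : ℕ) (p : E N → ℂ), p ∈ Hom N m → (∀ x, Lap D p x = 0) →
    ∀ u v : L2c D a, u =ᵐ[mu D a] core a j p → v =ᵐ[mu D a] Lka D a (core a j p) →
      HasDerivAt (fun t => U t u) (Complex.I • v) 0

/-- the transform, in `Lp` -/
def transformC (D : RootData N) (a : ℝ) (U : ℝ → (L2c D a →L[ℂ] L2c D a)) : L2c D a →L[ℂ] L2c D a :=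
  Complex.exp (Complex.I * (Real.pi / (2 * a) * (2 * kSum D + N + a - 2) : ℝ)) •
    U (Real.pi / (2 * a))

end KaSch
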