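import Pool.Agent.Work.MP_d717ad_an.Base
import Pool.Agent.Work.MP_d717ad_an.Rel2

open scoped ContDiff Topology Polynomial
open MeasureTheory Set

noncomputable section

namespace KaSch

variable {N : ℕ}

/-! ### Module PBW: the definition of `S_{k,a}` in terms of words -/

namespace PbwAux

/-- `Θ` as an endomorphism -/
def eT (N : ℕ) : Module.End ℂ (V N) := opT N

/-- `A` as an endomorphism -/
def eA (N : ℕ) (a : ℝ) : Module.End ℂ (V N) := opA N a

/-- `B` as an endomorphism -/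
def eB (D : RootData N) (a : ℝ) : Module.End ℂ (V N) := opB D a

/-- `Θ (Θ - 1) ⋯ (Θ - l + 1)` -/
def tl (N : ℕ) : ℕ → Module.End ℂ (V N)
  | 0 => 1
  | l + 1 => (eT N + (-(l : ℂ)) • (1 : Module.End ℂ (V N))) * tl N l

theorem tl_succ_apply (l : ℕ) (f : V N) (x : E N) :
    (tl N (l + 1) f).1 x = fderiv ℝ (tl N l f).1 x x - (l : ℂ) * (tl N l f).1 x := by
  have : (tl N (l + 1) f).1 x = fderiv ℝ (tl N l f).1 x x + (-(l : ℂ)) * (tl N l f).1 x := rfl
  rw [this]
  ring

theorem vray_hasDerivAt (g : V N) (u : E N) {r : ℝ} (h : r • u ≠ 0) :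
    HasDerivAt (fun s : ℝ => g.1 (s • u)) (fderiv ℝ g.1 (r • u) u) r := by
  have h1 : HasFDerivAt g.1 (fderiv ℝ g.1 (r • u)) (r • u) := (vdiffAt g h).hasFDerivAt
  have h2 : HasDerivAt (fun s : ℝ => s • u) u r := by
    simpa using (hasDerivAt_id r).smul_const u
  exact h1.comp_hasDerivAt r h2

theorem ray (f : V N) {u : E N} (hu : u ≠ 0) (l : ℕ) : ∀ {r : ℝ}, 0 < r →
    ((r ^ l : ℝ) : ℂ) * iteratedDeriv l (fun s : ℝ => f.1 (s • u)) r = (tl N l f).1 (r • u) := by
  induction l with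
  | zero => intro r hr; simp [tl]
  | succ l ih =>
    intro r hr
    rw [tl_succ_apply, iteratedDeriv_succ]
    have hne : r • u ≠ 0 := smul_ne_zero hr.ne' hu
    have heq : iteratedDeriv l (fun s : ℝ => f.1 (s • u)) =ᶠ[𝓝 r]
        fun s => ((s : ℂ) ^ l)⁻¹ * (tl N l f).1 (s • u) := by
      filter_upwards [isOpen_Ioi.mem_nhds (show r ∈ Ioi (0 : ℝ) from hr)] with s hs
      have hs' : (0 : ℝ) < s := hs
      have hsc : ((s : ℂ) ^ l) ≠ 0 := pow_ne_zero _ (by exact_mod_cast hs'.ne')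
      have := ih hs'
      push_cast at this
      rw [← this]
      field_simp
    have hrc : (r : ℂ) ≠ 0 := by exact_mod_cast hr.ne'
    have hd1 : HasDerivAt (fun s : ℝ => ((s : ℂ) ^ l)⁻¹)
        (-((l : ℂ) * (r : ℂ) ^ (l - 1)) / ((r : ℂ) ^ l) ^ 2) r := by
      have h0 : HasDerivAt (fun s : ℝ => (s : ℂ)) 1 r := Complex.ofRealCLM.hasDerivAt
      have h1 : HasDerivAt (fun s : ℝ => (s : ℂ) ^ l) ((l : ℂ) * (r : ℂ) ^ (l - 1) * 1) r :=
        h0.pow l
      rw [mul_one] at h1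
      exact h1.inv (pow_ne_zero _ hrc)
    have hd2 := vray_hasDerivAt (tl N l f) u hne
    have hd := hd1.mul hd2
    have hd' : deriv (fun s : ℝ => ((s : ℂ) ^ l)⁻¹ * (tl N l f).1 (s • u)) r = _ := hd.deriv
    rw [heq.deriv_eq, hd']
    rw [map_smul]
    push_cast
    rw [Complex.real_smul]
    rcases l with _ | l
    · simp
    · simp only [Nat.add_sub_cancel]
      push_cast
      field_simp
      ring

theorem key (l : ℕ) (f : V N) {x : E N} (hx : x ≠ 0) :
    ((‖x‖ ^ l : ℝ) : ℂ) * radD l f.1 x = (tl N l f).1 x := by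
  have hn : 0 < ‖x‖ := norm_pos_iff.mpr hx
  have hu : ‖x‖⁻¹ • x ≠ 0 := smul_ne_zero (inv_ne_zero hn.ne') hx
  have := ray f hu l hn
  rw [smul_smul, mul_inv_cancel₀ hn.ne', one_smul] at this
  exact this

theorem keyOn (l : ℕ) (f : V N) :
    EqOn (fun y => ((‖y‖ ^ l : ℝ) : ℂ) * radD l f.1 y) (tl N l f).1 {0}ᶜ :=
  fun _ hx => key l f hx

theorem iterB (D : RootData N) (a : ℝ) (g : V N) {h : E N → ℂ} (hh : EqOn h g.1 {0}ᶜ) (β : ℕ) :
    EqOn ((BF D a)^[β] h) ((eB D a ^ β) g).1 {0}ᶜ := by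
  induction β with
  | zero => simpa using hh
  | succ n ih =>
    rw [Function.iterate_succ_apply', pow_succ']
    intro x hx
    rw [BF_congr D a ih hx]
    exact (opB_apply D a ((eB D a ^ n) g) hx).symm

theorem powA_apply (a : ℝ) (α : ℕ) (g : V N) (x : E N) :
    ((eA N a ^ α) g).1 x = (((‖x‖ ^ a) ^ α : ℝ) : ℂ) * g.1 x := by
  induction α with
  | zero => simp
  | succ n ih =>
    rw [pow_succ']
    show (opA N a ((eA N a ^ n) g)).1 x = _
    rw [opA_apply, ih]
    push_cast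
    ring

/-- the ordered monomial `A^α B^β Θ(Θ-1)⋯(Θ-l+1)` -/
def mono (D : RootData N) (a : ℝ) (α β l : ℕ) : Module.End ℂ (V N) :=
  eA N a ^ α * (eB D a ^ β * tl N l)

theorem mono_apply (D : RootData N) (a : ℝ) (α β l : ℕ) (f : V N) {x : E N} (hx : x ≠ 0) :
    (((‖x‖ ^ a) ^ α : ℝ) : ℂ) *
      ((BF D a)^[β] (fun y => ((‖y‖ ^ l : ℝ) : ℂ) * radD l f.1 y)) x = (mono D a α β l f).1 x := by
  rw [iterB D a (tl N l f) (keyOn l f) β hx]
  exact (powA_apply a α ((eB D a ^ β) (tl N l f)) x).symm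

/-- the operators `L` with `L f` bounded -/
def Bd (f : V N) : Submodule ℂ (Module.End ℂ (V N)) where
  carrier := {L | ∃ C : ℝ, ∀ x : E N, ‖(L f).1 x‖ ≤ C}
  add_mem' := by
    rintro L M ⟨C, hC⟩ ⟨C', hC'⟩
    refine ⟨C + C', fun x => ?_⟩
    exact (norm_add_le _ _).trans (add_le_add (hC x) (hC' x))
  zero_mem' := ⟨0, fun x => by simp⟩
  smul_mem' := by
    rintro c L ⟨C, hC⟩
    refine ⟨‖c‖ * C, fun x => ?_⟩
    have : ((c • L) f).1 x = c * (L f).1 x := rfl
    rw [this, norm_mul]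
    exact mul_le_mul_of_nonneg_left (hC x) (norm_nonneg c)

theorem memS_iff_mono (D : RootData N) (a : ℝ) (f : V N) :
    MemS D a f.1 ↔ ∀ α β l : ℕ, mono D a α β l ∈ Bd f := by
  constructor
  · rintro ⟨-, hb⟩ α β l
    obtain ⟨C, hC⟩ := hb α β l
    refine ⟨max C 0, fun x => ?_⟩
    by_cases hx : x = 0
    · subst hx
      rw [vzero, norm_zero]
      exact le_max_right _ _
    · rw [← mono_apply D a α β l f hx]
      exact (hC x hx).trans (le_max_left _ _)
  · intro h
    refine ⟨vsmooth f, fun α β l => ?_⟩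
    obtain ⟨C, hC⟩ := h α β l
    exact ⟨C, fun x hx => by rw [mono_apply D a α β l f hx]; exact hC x⟩

/-- span of the ordered monomials -/
def S (D : RootData N) (a : ℝ) : Submodule ℂ (Module.End ℂ (V N)) :=
  Submodule.span ℂ {L | ∃ α β l : ℕ, L = mono D a α β l}

theorem mono_mem (D : RootData N) (a : ℝ) (α β l : ℕ) : mono D a α β l ∈ S D a :=
  Submodule.subset_span ⟨α, β, l, rfl⟩

theorem S_mul (D : RootData N) (a : ℝ) (P : Module.End ℂ (V N))
    (h : ∀ α β l : ℕ, P * mono D a α β l ∈ S D a) {L : Module.End ℂ (V N)} (hL : L ∈ S D a) :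
    P * L ∈ S D a := by
  induction hL using Submodule.span_induction with
  | mem x hx => obtain ⟨α, β, l, rfl⟩ := hx; exact h α β l
  | zero => rw [mul_zero]; exact Submodule.zero_mem _
  | add x y _ _ hx hy => rw [mul_add]; exact Submodule.add_mem _ hx hy
  | smul c x _ hx => rw [mul_smul_comm]; exact Submodule.smul_mem _ c hx

theorem S_A (D : RootData N) (a : ℝ) {L : Module.End ℂ (V N)} (hL : L ∈ S D a) :
    eA N a * L ∈ S D a := by
  refine S_mul D a (eA N a) (fun α β l => ?_) hL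
  have : eA N a * mono D a α β l = mono D a (α + 1) β l := by
    unfold mono
    rw [pow_succ', mul_assoc]
  rw [this]
  exact mono_mem D a _ _ _

theorem TA (a : ℝ) : eT N * eA N a =
    eA N a * eT N + (a : ℂ) • eA N a :=
  LinearMap.ext fun f => opT_opA a f

theorem TB (D : RootData N) (a : ℝ) : eT N * eB D a =
    eB D a * eT N + (-(a : ℂ)) • eB D a :=
  LinearMap.ext fun f => by
    have h := opT_opB D a f
    have h2 : ∀ u v : V N, u - (a : ℂ) • v = u + (-(a : ℂ)) • v := fun u v => by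
      apply Subtype.ext
      funext x
      show u.1 x - (a : ℂ) * v.1 x = u.1 x + (-(a : ℂ)) * v.1 x
      ring
    rw [h2] at h
    exact h

theorem BA (D : RootData N) (a : ℝ) : eB D a * eA N a =
    eA N a * eB D a + ((a * kap D a : ℝ) : ℂ) • (1 : Module.End ℂ (V N))
      + ((2 * a : ℝ) : ℂ) • eT N :=
  LinearMap.ext fun f => opB_opA D a f

theorem TA_pow (a : ℝ) (α : ℕ) : eT N * eA N a ^ α =
    eA N a ^ α * eT N + ((a : ℂ) * α) • eA N a ^ α := by
  induction α with
  | zero => simp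
  | succ n ih =>
    rw [pow_succ', ← mul_assoc, TA, add_mul, mul_assoc, ih, mul_add, smul_mul_assoc,
      mul_smul_comm, mul_assoc]
    rw [add_assoc, ← add_smul]
    congr 2
    push_cast
    ring

theorem TB_pow (D : RootData N) (a : ℝ) (β : ℕ) : eT N * eB D a ^ β =
    eB D a ^ β * eT N + (-(a : ℂ) * β) • eB D a ^ β := by
  induction β with
  | zero => simp
  | succ n ih =>
    rw [pow_succ', ← mul_assoc, TB, add_mul, mul_assoc, ih, mul_add, smul_mul_assoc,
      mul_smul_comm, mul_assoc]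
    rw [add_assoc, ← add_smul]
    congr 2
    push_cast
    ring

theorem T_tl (l : ℕ) : eT N * tl N l = tl N (l + 1) + (l : ℂ) • tl N l := by
  show _ = (eT N + (-(l : ℂ)) • (1 : Module.End ℂ (V N))) * tl N l + (l : ℂ) • tl N l
  rw [add_mul, smul_mul_assoc, one_mul, add_assoc, ← add_smul, neg_add_cancel, zero_smul, add_zero]

theorem S_T (D : RootData N) (a : ℝ) {L : Module.End ℂ (V N)} (hL : L ∈ S D a) :
    eT N * L ∈ S D a := by
  refine S_mul D a (eT N) (fun α β l => ?_) hL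
  have : eT N * mono D a α β l = mono D a α β (l + 1) + (l : ℂ) • mono D a α β l
      + (-(a : ℂ) * β) • mono D a α β l + ((a : ℂ) * α) • mono D a α β l := by
    unfold mono
    rw [← mul_assoc, TA_pow, add_mul, mul_assoc, ← mul_assoc (eT N), TB_pow, add_mul, mul_add,
      mul_assoc (eB D a ^ β), T_tl, mul_add, mul_add, smul_mul_assoc, smul_mul_assoc,
      mul_smul_comm, mul_smul_comm, mul_smul_comm]
  rw [this]
  have h := mono_mem D a α β l
  exact (S D a).add_mem ((S D a).add_mem ((S D a).add_mem (mono_mem D a _ _ _)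
    ((S D a).smul_mem _ h)) ((S D a).smul_mem _ h)) ((S D a).smul_mem _ h)

theorem S_B (D : RootData N) (a : ℝ) {L : Module.End ℂ (V N)} (hL : L ∈ S D a) :
    eB D a * L ∈ S D a := by
  refine S_mul D a (eB D a) (fun α β l => ?_) hL
  induction α with
  | zero =>
    have : eB D a * mono D a 0 β l = mono D a 0 (β + 1) l := by
      unfold mono
      rw [pow_zero, one_mul, one_mul, pow_succ', mul_assoc]
    rw [this]
    exact mono_mem D a _ _ _
  | succ n ih =>
    have h1 : mono D a (n + 1) β l = eA N a * mono D a n β l := by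
      unfold mono
      rw [pow_succ', mul_assoc]
    rw [h1, ← mul_assoc, BA, add_mul, add_mul, mul_assoc, smul_mul_assoc, smul_mul_assoc, one_mul]
    exact Submodule.add_mem _ (Submodule.add_mem _ (S_A D a ih)
      (Submodule.smul_mem _ _ (mono_mem D a _ _ _)))
      (Submodule.smul_mem _ _ (S_T D a (mono_mem D a _ _ _)))

theorem S_lv (D : RootData N) (a : ℝ) (c : Lt) {L : Module.End ℂ (V N)} (hL : L ∈ S D a) :
    (lv D a c : Module.End ℂ (V N)) * L ∈ S D a := by
  cases c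
  · exact S_A D a hL
  · exact S_B D a hL
  · exact S_T D a hL

theorem wv_mem_S (D : RootData N) (a : ℝ) (w : List Lt) : wv D a w ∈ S D a := by
  induction w with
  | nil =>
    have : wv D a [] = mono D a 0 0 0 := by
      unfold mono
      rw [pow_zero, pow_zero, one_mul, one_mul]
      rfl
    rw [this]
    exact mono_mem D a _ _ _
  | cons c w ih => exact S_lv D a c ih

/-- span of the words -/
def W (D : RootData N) (a : ℝ) : Submodule ℂ (Module.End ℂ (V N)) :=
  Submodule.span ℂ (range (wv D a))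

theorem W_lv (D : RootData N) (a : ℝ) (c : Lt) {L : Module.End ℂ (V N)} (hL : L ∈ W D a) :
    (lv D a c : Module.End ℂ (V N)) * L ∈ W D a := by
  induction hL using Submodule.span_induction with
  | mem x hx => obtain ⟨w, rfl⟩ := hx; exact Submodule.subset_span ⟨c :: w, rfl⟩
  | zero => rw [mul_zero]; exact Submodule.zero_mem _
  | add x y _ _ hx hy => rw [mul_add]; exact Submodule.add_mem _ hx hy
  | smul r x _ hx => rw [mul_smul_comm]; exact Submodule.smul_mem _ r hx

theorem W_pow (D : RootData N) (a : ℝ) (c : Lt) (n : ℕ) {L : Module.End ℂ (V N)}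
    (hL : L ∈ W D a) : (lv D a c : Module.End ℂ (V N)) ^ n * L ∈ W D a := by
  induction n with
  | zero => simpa using hL
  | succ n ih =>
    rw [pow_succ', mul_assoc]
    exact W_lv D a c ih

theorem tl_mem_W (D : RootData N) (a : ℝ) (l : ℕ) : tl N l ∈ W D a := by
  induction l with
  | zero => exact Submodule.subset_span ⟨[], rfl⟩
  | succ l ih =>
    show (eT N + (-(l : ℂ)) • (1 : Module.End ℂ (V N))) * tl N l ∈ W D a
    rw [add_mul, smul_mul_assoc, one_mul]
    exact (W D a).add_mem (W_lv D a Lt.T ih) ((W D a).smul_mem _ ih)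

theorem mono_mem_W (D : RootData N) (a : ℝ) (α β l : ℕ) : mono D a α β l ∈ W D a :=
  W_pow D a Lt.A α (W_pow D a Lt.B β (tl_mem_W D a l))

theorem radD_congr (l : ℕ) {f g : E N → ℂ} (h : EqOn f g {0}ᶜ) :
    EqOn (radD l f) (radD l g) {0}ᶜ := by
  intro x hx
  have hx' : x ≠ 0 := hx
  have hn : 0 < ‖x‖ := norm_pos_iff.mpr hx'
  have hu : ‖x‖⁻¹ • x ≠ 0 := smul_ne_zero (inv_ne_zero hn.ne') hx'
  unfold radD
  refine Filter.EventuallyEq.iteratedDeriv_eq l ?_
  filter_upwards [isOpen_Ioi.mem_nhds (show ‖x‖ ∈ Ioi (0 : ℝ) from hn)] with s hs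
  exact h (smul_ne_zero (ne_of_gt hs) hu)

theorem iter_congr (D : RootData N) (a : ℝ) {f g : E N → ℂ} (h : EqOn f g {0}ᶜ) (β : ℕ) :
    EqOn ((BF D a)^[β] f) ((BF D a)^[β] g) {0}ᶜ := by
  induction β with
  | zero => exact h
  | succ n ih =>
    rw [Function.iterate_succ_apply', Function.iterate_succ_apply']
    exact BF_congr D a ih

theorem memS_congr (D : RootData N) (a : ℝ) {f g : E N → ℂ} (h : EqOn f g {0}ᶜ)
    (hf : MemS D a f) : MemS D a g := by
  refine ⟨hf.smooth.congr fun x hx => (h hx).symm, fun α β l => ?_⟩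
  obtain ⟨C, hC⟩ := hf.bdd α β l
  refine ⟨C, fun x hx => ?_⟩
  have h1 : EqOn (fun y => ((‖y‖ ^ l : ℝ) : ℂ) * radD l g y)
      (fun y => ((‖y‖ ^ l : ℝ) : ℂ) * radD l f y) {0}ᶜ := fun y hy => by
    simp only
    rw [radD_congr l h hy]
  rw [iter_congr D a h1 β hx]
  exact hC x hx

end PbwAux

open PbwAux

/-- `r^l (d/dr)^l = Θ(Θ-1)...(Θ-l+1)` -/
theorem radD_succ (l : ℕ) (f : V N) {x : E N} (hx : x ≠ 0) :
    ((‖x‖ ^ (l + 1) : ℝ) : ℂ) * radD (l + 1) f.1 x =
      fderiv ℝ (fun y => ((‖y‖ ^ l : ℝ) : ℂ) * radD l f.1 y) x x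
        - (l : ℂ) * (((‖x‖ ^ l : ℝ) : ℂ) * radD l f.1 x) := by
  rw [key (l + 1) f hx, key l f hx, tl_succ_apply]
  have : (fun y => ((‖y‖ ^ l : ℝ) : ℂ) * radD l f.1 y) =ᶠ[𝓝 x] (tl N l f).1 := by
    filter_upwards [isOpen_compl_singleton.mem_nhds hx] with y hy
    exact key l f hy
  rw [this.fderiv_eq]

/-- membership in `S_{k,a}` is boundedness of all words in `A = ‖x‖^a, B = ‖x‖^{2-a}Δ_k, Θ`;
by the commutation relations every word is a combination of `A^α B^β Θ^l` -/
theorem memS_iff (D : RootData N) (a : ℝ) (f : V N) :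
    MemS D a f.1 ↔ ∀ w : List Lt, ∃ C : ℝ, ∀ x : E N, ‖(wv D a w f).1 x‖ ≤ C := by
  rw [memS_iff_mono]
  constructor
  · intro h w
    have hS : S D a ≤ Bd f := by
      refine Submodule.span_le.mpr ?_
      rintro L ⟨α, β, l, rfl⟩
      exact h α β l
    exact hS (wv_mem_S D a w)
  · intro h α β l
    have hW : W D a ≤ Bd f := by
      refine Submodule.span_le.mpr ?_
      rintro L ⟨w, rfl⟩
      exact h w
    exact hW (mono_mem_W D a α β l)

theorem memS_cut (D : RootData N) (a : ℝ) {f : E N → ℂ} : MemS D a f ↔ MemS D a (cut f) :=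
  ⟨memS_congr D a (cut_eqOn f).symm, memS_congr D a (cut_eqOn f)⟩

end KaSch
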