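import Pool.Agent.Work.MP_d717ad_an.RadAlg1

open scoped ContDiff Topology Polynomial
open MeasureTheory Set

noncomputable section

namespace KaSch

/-! ### Module RADALG2: the one-variable (Laguerre) algebra -/

/-- the operator `2 Θ + κ` -/
def Sm (a b : ℝ) (m : ℕ) (q : ℝ[X]) : ℝ[X] :=
  Polynomial.C 2 * Tm a m q + Polynomial.C (a + b) * q

/-- the lowering operator -/
def Lm (a b : ℝ) (m : ℕ) (q : ℝ[X]) : ℝ[X] :=
  Polynomial.X * q + Bm a b m q + Sm a b m q

/-- `B - A` -/
def Hm (a b : ℝ) (m : ℕ) (q : ℝ[X]) : ℝ[X] := Bm a b m q - Polynomial.X * q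

theorem Rm_eq (a b : ℝ) (m : ℕ) (q : ℝ[X]) :
    Rm a b m q = Polynomial.X * q + Bm a b m q - Sm a b m q := rfl

theorem HR (a b : ℝ) (m : ℕ) (q : ℝ[X]) :
    Hm a b m (Rm a b m q) = Rm a b m (Hm a b m q) - Polynomial.C (2 * a) * Rm a b m q := by
  have h2 : (Polynomial.C (2 : ℝ)) = 2 := map_ofNat Polynomial.C 2
  unfold Hm Rm Bm Tm
  simp only [map_mul, map_add, map_pow, h2, Polynomial.derivative_add, Polynomial.derivative_sub,
    Polynomial.derivative_mul, Polynomial.derivative_C, Polynomial.derivative_X,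
    Polynomial.derivative_ofNat, Polynomial.derivative_zero, Polynomial.derivative_pow,
    Polynomial.derivative_one]
  ring

theorem LR (a b : ℝ) (m : ℕ) (q : ℝ[X]) :
    Lm a b m (Rm a b m q) = Rm a b m (Lm a b m q) - Polynomial.C (4 * a) * Hm a b m q := by
  have h2 : (Polynomial.C (2 : ℝ)) = 2 := map_ofNat Polynomial.C 2
  have h4 : (Polynomial.C (4 : ℝ)) = 4 := map_ofNat Polynomial.C 4
  unfold Hm Lm Rm Sm Bm Tm
  simp only [map_mul, map_add, map_pow, h2, h4, Polynomial.derivative_add,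
    Polynomial.derivative_sub,
    Polynomial.derivative_mul, Polynomial.derivative_C, Polynomial.derivative_X,
    Polynomial.derivative_ofNat, Polynomial.derivative_zero, Polynomial.derivative_pow,
    Polynomial.derivative_one]
  ring

theorem Rm_C (a b : ℝ) (m : ℕ) (c : ℝ) (q : ℝ[X]) :
    Rm a b m (Polynomial.C c * q) = Polynomial.C c * Rm a b m q := by
  unfold Rm Bm Tm
  simp only [Polynomial.derivative_mul, Polynomial.derivative_C, zero_mul, zero_add]
  ring

theorem Rm_zero (a b : ℝ) (m : ℕ) : Rm a b m 0 = 0 := by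
  unfold Rm Bm Tm; simp

theorem qq_succ (a b : ℝ) (m l : ℕ) : qq a b m (l + 1) = Rm a b m (qq a b m l) := by
  unfold qq; rw [Function.iterate_succ_apply']

theorem qq_zero (a b : ℝ) (m : ℕ) : qq a b m 0 = 1 := rfl

theorem qq_ev' (a b : ℝ) (m l : ℕ) :
    Hm a b m (qq a b m l) = - (Polynomial.C (ev a b m l) * qq a b m l) := by
  induction l with
  | zero =>
    rw [qq_zero]
    unfold Hm Bm ev
    simp only [Polynomial.derivative_one, mul_zero, mul_one, Polynomial.derivative_zero,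
      add_zero, map_add, map_mul, Nat.cast_zero, map_zero]
    ring
  | succ l ih =>
    rw [qq_succ, HR, ih, ← neg_mul, ← map_neg, Rm_C, ← sub_mul, ← map_sub, ← neg_mul, ← map_neg]
    congr 2
    unfold ev
    push_cast
    ring

/-- eigenvalue equation -/
theorem qq_ev (a b : ℝ) (m l : ℕ) :
    Bm a b m (qq a b m l) - Polynomial.X * qq a b m l = - (Polynomial.C (ev a b m l) * qq a b m l) :=
  qq_ev' a b m l

theorem qq_lower_zero (a b : ℝ) (m : ℕ) :
    Polynomial.X * qq a b m 0 + Bm a b m (qq a b m 0)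
      + (Polynomial.C 2 * Tm a m (qq a b m 0) + Polynomial.C (a + b) * qq a b m 0) = 0 := by
  have h2 : (Polynomial.C (2 : ℝ)) = 2 := map_ofNat Polynomial.C 2
  rw [qq_zero]
  unfold Bm Tm
  simp only [Polynomial.derivative_one, mul_zero, mul_one, Polynomial.derivative_zero,
      add_zero, map_add, map_mul, h2]
  ring

/-- the lowering constants -/
def cl (a b : ℝ) (m l : ℕ) : ℝ := 4 * a * (l + 1) * ((a + b) + 2 * m + a * l)

theorem qq_lower' (a b : ℝ) (m l : ℕ) :
    Lm a b m (qq a b m (l + 1)) = Polynomial.C (cl a b m l) * qq a b m l := by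
  induction l with
  | zero =>
    rw [qq_succ, LR, qq_ev', show Lm a b m (qq a b m 0) = 0 from qq_lower_zero a b m, Rm_zero,
      zero_sub, mul_neg, neg_neg, ← mul_assoc, ← map_mul]
    congr 2
    unfold cl ev
    push_cast
    ring
  | succ l ih =>
    rw [qq_succ a b m (l + 1), LR, qq_ev', ih, Rm_C, ← qq_succ, mul_neg, sub_neg_eq_add,
      ← mul_assoc, ← map_mul, ← add_mul, ← map_add]
    congr 2
    unfold cl ev
    push_cast
    ring

/-- the lowering operator -/
theorem qq_lower (a b : ℝ) (m l : ℕ) :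
    Polynomial.X * qq a b m (l + 1) + Bm a b m (qq a b m (l + 1))
      + (Polynomial.C 2 * Tm a m (qq a b m (l + 1)) + Polynomial.C (a + b) * qq a b m (l + 1)) =
      Polynomial.C (4 * a * (l + 1) * ((a + b) + 2 * m + a * l)) * qq a b m l :=
  qq_lower' a b m l

theorem rip_sub_left {a b : ℝ} (ha : 0 < a) (hb : 0 ≤ b) (m : ℕ) (p q r : ℝ[X]) :
    rip a b m (p - q) r = rip a b m p r - rip a b m q r := by
  rw [rip_eq_rI, rip_eq_rI, rip_eq_rI, sub_mul, rI_sub ha hb]

/-- `R` and `L` are adjoint -/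
theorem rip_RL {a b : ℝ} (ha : 0 < a) (hb : 0 ≤ b) (m : ℕ) (q r : ℝ[X]) :
    rip a b m (Rm a b m q) r = rip a b m q (Lm a b m r) := by
  rw [Rm_eq, rip_sub_left ha hb, rip_add_left ha hb, rip_X, rip_B ha hb,
    show rip a b m (Sm a b m q) r = - rip a b m q (Sm a b m r) from rip_T ha hb m q r]
  unfold Lm
  rw [rip_comm a b m q (_ + _), rip_add_left ha hb, rip_add_left ha hb, rip_comm a b m _ q,
    rip_comm a b m _ q, rip_comm a b m _ q]
  ring

theorem rip_H {a b : ℝ} (ha : 0 < a) (hb : 0 ≤ b) (m : ℕ) (q r : ℝ[X]) :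
    rip a b m (Hm a b m q) r = rip a b m q (Hm a b m r) := by
  unfold Hm
  rw [rip_sub_left ha hb, rip_X, rip_B ha hb, rip_comm a b m q (_ - _), rip_sub_left ha hb,
    rip_comm a b m _ q, rip_comm a b m _ q]

theorem nsq_qq_succ' {a b : ℝ} (ha : 0 < a) (hb : 0 ≤ b) (m l : ℕ) :
    nsq a b m (qq a b m (l + 1)) = cl a b m l * nsq a b m (qq a b m l) := by
  rw [nsq_eq_rip, nsq_eq_rip]
  nth_rewrite 1 [qq_succ]
  rw [rip_RL ha hb, qq_lower', rip_comm, rip_smul_left]

theorem nsq_qq_succ {a b : ℝ} (ha : 0 < a) (hb : 0 ≤ b) (m l : ℕ) :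
    nsq a b m (qq a b m (l + 1)) =
      4 * a * (l + 1) * ((a + b) + 2 * m + a * l) * nsq a b m (qq a b m l) :=
  nsq_qq_succ' ha hb m l

theorem rip_qq {a b : ℝ} (ha : 0 < a) (hb : 0 ≤ b) (m : ℕ) {l l' : ℕ} (h : l ≠ l') :
    rip a b m (qq a b m l) (qq a b m l') = 0 := by
  have h1 := rip_H ha hb m (qq a b m l) (qq a b m l')
  rw [qq_ev', qq_ev', ← neg_mul, ← map_neg, rip_smul_left, ← neg_mul, ← map_neg,
    rip_comm a b m _ (Polynomial.C _ * _), rip_smul_left, rip_comm a b m (qq a b m l') _] at h1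
  have h2 : (ev a b m l - ev a b m l') * rip a b m (qq a b m l) (qq a b m l') = 0 := by
    linarith
  rcases mul_eq_zero.mp h2 with h3 | h3
  · exfalso
    apply h
    have h4 : a * ((l : ℝ) - l') = 0 := by
      have : ev a b m l - ev a b m l' = 2 * (a * ((l : ℝ) - l')) := by unfold ev; ring
      linarith
    rcases mul_eq_zero.mp h4 with h5 | h5
    · exact absurd h5 ha.ne'
    · exact_mod_cast sub_eq_zero.mp h5
  · exact h3

/-- the three letters through `R`, `L`, `H` -/
theorem X_RLH (a b : ℝ) (m : ℕ) (q : ℝ[X]) : Polynomial.X * q =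
    Polynomial.C (1 / 4) * Rm a b m q + Polynomial.C (1 / 4) * Lm a b m q
      - Polynomial.C (1 / 2) * Hm a b m q := by
  have h : (Polynomial.C (1 / 2 : ℝ)) = 2 * Polynomial.C (1 / 4 : ℝ) := by
    rw [← map_ofNat Polynomial.C 2, ← map_mul]; norm_num
  have h' : (4 : ℝ[X]) * Polynomial.C (1 / 4 : ℝ) = 1 := by
    rw [← map_ofNat Polynomial.C 4, ← map_mul]; norm_num
  rw [h, Rm_eq]
  unfold Lm Hm
  linear_combination (-(Polynomial.X * q)) * h'

theorem B_RLH (a b : ℝ) (m : ℕ) (q : ℝ[X]) : Bm a b m q =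
    Polynomial.C (1 / 4) * Rm a b m q + Polynomial.C (1 / 4) * Lm a b m q
      + Polynomial.C (1 / 2) * Hm a b m q := by
  have h : (Polynomial.C (1 / 2 : ℝ)) = 2 * Polynomial.C (1 / 4 : ℝ) := by
    rw [← map_ofNat Polynomial.C 2, ← map_mul]; norm_num
  have h' : (4 : ℝ[X]) * Polynomial.C (1 / 4 : ℝ) = 1 := by
    rw [← map_ofNat Polynomial.C 4, ← map_mul]; norm_num
  rw [h, Rm_eq]
  unfold Lm Hm
  linear_combination (-(Bm a b m q)) * h'

theorem T_RLH (a b : ℝ) (m : ℕ) (q : ℝ[X]) : Tm a m q =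
    Polynomial.C (-1 / 4) * Rm a b m q + Polynomial.C (1 / 4) * Lm a b m q
      + Polynomial.C (-(a + b) / 2) * q := by
  have h : (Polynomial.C (-1 / 4 : ℝ)) = - Polynomial.C (1 / 4 : ℝ) := by
    rw [← map_neg]; norm_num
  have h' : (4 : ℝ[X]) * Polynomial.C (1 / 4 : ℝ) = 1 := by
    rw [← map_ofNat Polynomial.C 4, ← map_mul]; norm_num
  have h2 : (Polynomial.C (2 : ℝ)) = 2 := map_ofNat Polynomial.C 2
  have h3 : Polynomial.C (-(a + b) / 2) = - (2 * Polynomial.C (1 / 4 : ℝ) * Polynomial.C (a + b)) := by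
    rw [← map_ofNat Polynomial.C 2, ← map_mul, ← map_mul, ← map_neg]; congr 1; ring
  rw [h, h3, Rm_eq]
  unfold Lm Sm
  rw [h2]
  linear_combination (-(Tm a m q)) * h'

/-- the `qq a b m l` span all polynomials -/
theorem qq_span (a b : ℝ) (m : ℕ) (q : ℝ[X]) :
    q ∈ Submodule.span ℝ (Set.range (qq a b m)) := by
  set S := Submodule.span ℝ (Set.range (qq a b m)) with hS
  have hq : ∀ l, qq a b m l ∈ S := fun l => Submodule.subset_span ⟨l, rfl⟩
  have hC : ∀ (c : ℝ) (p : ℝ[X]), p ∈ S → Polynomial.C c * p ∈ S := by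
    intro c p hp
    rw [← Polynomial.smul_eq_C_mul]
    exact S.smul_mem c hp
  have hX : ∀ p ∈ S, Polynomial.X * p ∈ S := by
    intro p hp
    induction hp using Submodule.span_induction with
    | mem p hp =>
      obtain ⟨l, rfl⟩ := hp
      rw [X_RLH a b m (qq a b m l), ← qq_succ, qq_ev', ← neg_mul, ← map_neg]
      refine S.sub_mem (S.add_mem (hC _ _ (hq _)) (hC _ _ ?_)) (hC _ _ (hC _ _ (hq _)))
      cases l with
      | zero => rw [show Lm a b m (qq a b m 0) = 0 from qq_lower_zero a b m]; exact S.zero_mem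
      | succ l => rw [qq_lower']; exact hC _ _ (hq _)
    | zero => simp
    | add p q _ _ hp hq => rw [mul_add]; exact S.add_mem hp hq
    | smul c p _ hp => rw [mul_smul_comm]; exact S.smul_mem c hp
  have hpow : ∀ n : ℕ, (Polynomial.X : ℝ[X]) ^ n ∈ S := by
    intro n
    induction n with
    | zero => rw [pow_zero]; exact hq 0
    | succ n ih => rw [pow_succ']; exact hX _ ih
  induction q using Polynomial.induction_on' with
  | add p q hp hq => exact S.add_mem hp hq
  | monomial n c => rw [← Polynomial.C_mul_X_pow_eq_monomial]; exact hC _ _ (hpow n)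

theorem lr_add (a b : ℝ) (m : ℕ) (c : Lt) (p q : ℝ[X]) :
    lr a b m c (p + q) = lr a b m c p + lr a b m c q := by
  cases c
  · simp only [lr]; ring
  · simp only [lr, Bm, Polynomial.derivative_add]; ring
  · simp only [lr, Tm, Polynomial.derivative_add]; ring

theorem lr_C (a b : ℝ) (m : ℕ) (c : Lt) (s : ℝ) (q : ℝ[X]) :
    lr a b m c (Polynomial.C s * q) = Polynomial.C s * lr a b m c q := by
  cases c
  · simp only [lr]; ring
  · simp only [lr, Bm, Polynomial.derivative_mul, Polynomial.derivative_C, zero_mul, zero_add]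
    ring
  · simp only [lr, Tm, Polynomial.derivative_mul, Polynomial.derivative_C, zero_mul, zero_add]
    ring

theorem wr_add (a b : ℝ) (m : ℕ) (w : List Lt) (p q : ℝ[X]) :
    wr a b m w (p + q) = wr a b m w p + wr a b m w q := by
  induction w with
  | nil => rfl
  | cons c w ih => simp only [wr]; rw [ih, lr_add]

theorem wr_C (a b : ℝ) (m : ℕ) (w : List Lt) (s : ℝ) (q : ℝ[X]) :
    wr a b m w (Polynomial.C s * q) = Polynomial.C s * wr a b m w q := by
  induction w with
  | nil => rfl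
  | cons c w ih => simp only [wr]; rw [ih, lr_C]

theorem wr_append (a b : ℝ) (m : ℕ) (w : List Lt) (c : Lt) (q : ℝ[X]) :
    wr a b m (w ++ [c]) q = wr a b m w (lr a b m c q) := by
  induction w with
  | nil => rfl
  | cons d w ih => simp only [wr, List.cons_append]; rw [ih]

/-- one letter -/
theorem lr_RLH (a b : ℝ) (m l : ℕ) (c : Lt) : ∃ α β : ℝ, |α| = 1 / 4 ∧
    |β| ≤ |ev a b m l| / 2 + |a + b| / 2 ∧
    lr a b m c (qq a b m l) = Polynomial.C α * qq a b m (l + 1) +
      Polynomial.C β * qq a b m l + Polynomial.C (1 / 4) * Lm a b m (qq a b m l) := by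
  have h0 : (0 : ℝ) ≤ |ev a b m l| := abs_nonneg _
  have h1 : (0 : ℝ) ≤ |a + b| := abs_nonneg _
  cases c
  · refine ⟨1 / 4, ev a b m l / 2, by norm_num, ?_, ?_⟩
    · rw [abs_div, abs_two]; linarith
    · simp only [lr]
      rw [X_RLH a b m (qq a b m l), ← qq_succ, qq_ev']
      have : Polynomial.C (ev a b m l / 2) = Polynomial.C (1 / 2) * Polynomial.C (ev a b m l) := by
        rw [← map_mul]; congr 1; ring
      rw [this]; ring
  · refine ⟨1 / 4, -(ev a b m l / 2), by norm_num, ?_, ?_⟩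
    · rw [abs_neg, abs_div, abs_two]; linarith
    · simp only [lr]
      rw [B_RLH a b m (qq a b m l), ← qq_succ, qq_ev']
      have : Polynomial.C (-(ev a b m l / 2)) =
          - (Polynomial.C (1 / 2) * Polynomial.C (ev a b m l)) := by
        rw [← map_mul, ← map_neg]; congr 1; ring
      rw [this]; ring
  · refine ⟨-1 / 4, -(a + b) / 2, by norm_num, ?_, ?_⟩
    · rw [abs_div, abs_two, abs_neg]; linarith
    · simp only [lr]
      rw [T_RLH a b m (qq a b m l), ← qq_succ]; ring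

theorem cl_nonneg {a b : ℝ} (ha : 0 < a) (hb : 0 ≤ b) (m l : ℕ) : 0 ≤ cl a b m l := by
  unfold cl; positivity

theorem cl_le {a b : ℝ} (ha : 0 < a) (hb : 0 ≤ b) (m l : ℕ) :
    cl a b m l ≤ 4 * a * (2 * a + b + 2) * (1 + m + l) ^ 2 := by
  unfold cl
  have hm : (0 : ℝ) ≤ m := Nat.cast_nonneg m
  have hl : (0 : ℝ) ≤ l := Nat.cast_nonneg l
  have h1 : ((l : ℝ) + 1) ≤ 1 + m + l := by linarith
  have h2 : (a + b) + 2 * m + a * l ≤ (2 * a + b + 2) * (1 + m + l) := by
    nlinarith [mul_nonneg ha.le hm, mul_nonneg ha.le hl, mul_nonneg hb hm, mul_nonneg hb hl]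
  have h3 : (0 : ℝ) ≤ (a + b) + 2 * m + a * l := by positivity
  calc 4 * a * (l + 1) * ((a + b) + 2 * m + a * l)
      = 4 * a * (((l : ℝ) + 1) * ((a + b) + 2 * m + a * l)) := by ring
    _ ≤ 4 * a * ((1 + m + l) * ((2 * a + b + 2) * (1 + m + l))) := by gcongr
    _ = _ := by ring

theorem ev_abs_le {a b : ℝ} (ha : 0 < a) (hb : 0 ≤ b) (m l : ℕ) :
    |ev a b m l| ≤ (3 * a + b + 2) * (1 + m + l) := by
  unfold ev
  have hm : (0 : ℝ) ≤ m := Nat.cast_nonneg m
  have hl : (0 : ℝ) ≤ l := Nat.cast_nonneg l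
  rw [abs_of_nonneg (by positivity)]
  nlinarith [mul_nonneg ha.le hm, mul_nonneg ha.le hl, mul_nonneg hb hm, mul_nonneg hb hl]

theorem sqrt_qq_succ {a b : ℝ} (ha : 0 < a) (hb : 0 ≤ b) (m l : ℕ) :
    Real.sqrt (nsq a b m (qq a b m (l + 1))) =
      Real.sqrt (cl a b m l) * Real.sqrt (nsq a b m (qq a b m l)) := by
  rw [nsq_qq_succ' ha hb, Real.sqrt_mul (cl_nonneg ha hb m l)]

theorem sqrt_cl_le {a b : ℝ} (ha : 0 < a) (hb : 0 ≤ b) (m l : ℕ) :
    Real.sqrt (cl a b m l) ≤ Real.sqrt (4 * a * (2 * a + b + 2)) * (1 + m + l) := by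
  have h : (0 : ℝ) ≤ 1 + m + l := by positivity
  refine (Real.sqrt_le_sqrt (cl_le ha hb m l)).trans ?_
  rw [Real.sqrt_mul (by positivity), Real.sqrt_sq h]

/-- words applied to `qq m l` have controlled norms -/
theorem nsq_word {a b : ℝ} (ha : 0 < a) (hb : 0 ≤ b) (w : List Lt) :
    ∃ (C : ℝ) (K : ℕ), 0 ≤ C ∧ ∀ m l : ℕ,
      Real.sqrt (nsq a b m (wr a b m w (qq a b m l))) ≤
        C * (1 + m + l) ^ K * Real.sqrt (nsq a b m (qq a b m l)) := by
  induction w using List.reverseRecOn with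
  | nil => exact ⟨1, 0, zero_le_one, fun m l => by simp [wr]⟩
  | append_singleton w c ih =>
    obtain ⟨C, K, hC, h⟩ := ih
    set G : ℝ := Real.sqrt (4 * a * (2 * a + b + 2)) with hG
    have hG0 : 0 ≤ G := Real.sqrt_nonneg _
    set F : ℝ := (3 * a + b + 2) / 2 + (a + b) / 2 with hF
    have hF0 : 0 ≤ F := by positivity
    refine ⟨C * (1 / 4 * 2 ^ K * G + F + 1 / 4 * G), K + 1, by positivity, fun m l => ?_⟩
    have hm : (0 : ℝ) ≤ m := Nat.cast_nonneg m
    have hl : (0 : ℝ) ≤ l := Nat.cast_nonneg l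
    set n : ℝ := 1 + m + l with hn
    have hn1 : 1 ≤ n := by linarith
    set q := qq a b m l with hq
    set s : ℝ := Real.sqrt (nsq a b m q) with hs
    have hs0 : 0 ≤ s := Real.sqrt_nonneg _
    obtain ⟨α, β, hα, hβ, he⟩ := lr_RLH a b m l c
    rw [wr_append, he, wr_add, wr_add, wr_C, wr_C, wr_C]
    have t1 := sqrt_nsq_add ha hb m (Polynomial.C α * wr a b m w (qq a b m (l + 1)) +
      Polynomial.C β * wr a b m w q) (Polynomial.C (1 / 4) * wr a b m w (Lm a b m q))
    have t2 := sqrt_nsq_add ha hb m (Polynomial.C α * wr a b m w (qq a b m (l + 1)))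
      (Polynomial.C β * wr a b m w q)
    rw [sqrt_nsq_smul] at t1
    rw [sqrt_nsq_smul, sqrt_nsq_smul] at t2
    have b1 : Real.sqrt (nsq a b m (wr a b m w (qq a b m (l + 1)))) ≤
        C * (2 ^ K * n ^ K) * (G * n * s) := by
      refine (h m (l + 1)).trans ?_
      rw [sqrt_qq_succ ha hb]
      have e1 : (1 + (m : ℝ) + ((l + 1 : ℕ) : ℝ)) ^ K ≤ 2 ^ K * n ^ K := by
        rw [← mul_pow]
        apply pow_le_pow_left₀ (by positivity)
        push_cast; linarith
      have e2 := sqrt_cl_le ha hb m l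
      have e3 : Real.sqrt (cl a b m l) * Real.sqrt (nsq a b m q) ≤ G * n * s :=
        mul_le_mul_of_nonneg_right e2 hs0
      exact mul_le_mul (mul_le_mul_of_nonneg_left e1 hC) e3
        (mul_nonneg (Real.sqrt_nonneg _) (Real.sqrt_nonneg _)) (by positivity)
    have b2 : Real.sqrt (nsq a b m (wr a b m w q)) ≤ C * n ^ K * s := h m l
    have b3 : Real.sqrt (nsq a b m (wr a b m w (Lm a b m q))) ≤ C * n ^ K * (G * n * s) := by
      rcases Nat.eq_zero_or_pos l with h0 | h0
      · have e0 : Lm a b m q = 0 := by rw [hq, h0]; exact qq_lower_zero a b m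
        have e1 : wr a b m w (0 : ℝ[X]) = 0 := by
          have := wr_C a b m w 0 (0 : ℝ[X])
          simpa using this
        have e2 : nsq a b m (0 : ℝ[X]) = 0 := by
          have := nsq_smul a b m 0 (0 : ℝ[X])
          simpa using this
        rw [e0, e1, e2, Real.sqrt_zero]
        positivity
      · obtain ⟨l', rfl⟩ : ∃ l', l = l' + 1 := ⟨l - 1, by omega⟩
        have e0 : Lm a b m q = Polynomial.C (cl a b m l') * qq a b m l' := qq_lower' a b m l'
        rw [e0, wr_C, sqrt_nsq_smul, abs_of_nonneg (cl_nonneg ha hb m l')]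
        have e1 := h m l'
        have e2 : s = Real.sqrt (cl a b m l') * Real.sqrt (nsq a b m (qq a b m l')) :=
          sqrt_qq_succ ha hb m l'
        have e3 := sqrt_cl_le ha hb m l'
        have e4 : (1 + (m : ℝ) + (l' : ℝ)) ≤ n := by rw [hn]; push_cast; linarith
        have e5 : (1 + (m : ℝ) + (l' : ℝ)) ^ K ≤ n ^ K := pow_le_pow_left₀ (by positivity) e4 K
        set z := Real.sqrt (nsq a b m (qq a b m l')) with hz
        have hz0 : 0 ≤ z := Real.sqrt_nonneg _
        set y := Real.sqrt (cl a b m l') with hy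
        have hy0 : 0 ≤ y := Real.sqrt_nonneg _
        have hy2 : cl a b m l' = y * y := (Real.mul_self_sqrt (cl_nonneg ha hb m l')).symm
        have e6 : y ≤ G * n := e3.trans (mul_le_mul_of_nonneg_left e4 hG0)
        calc cl a b m l' * Real.sqrt (nsq a b m (wr a b m w (qq a b m l')))
            ≤ cl a b m l' * (C * n ^ K * z) := by
              apply mul_le_mul_of_nonneg_left _ (cl_nonneg ha hb m l')
              exact e1.trans (mul_le_mul_of_nonneg_right (mul_le_mul_of_nonneg_left e5 hC) hz0)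
          _ = C * n ^ K * (y * (y * z)) := by rw [hy2]; ring
          _ ≤ C * n ^ K * (G * n * (y * z)) := by gcongr
          _ = C * n ^ K * (G * n * s) := by rw [e2]
    have b4 : |β| ≤ F * n := by
      refine hβ.trans ?_
      have e1 := ev_abs_le ha hb m l
      have e2 : |a + b| = a + b := abs_of_nonneg (by positivity)
      rw [e2, hF]
      have e3 : (a + b) ≤ (a + b) * n := le_mul_of_one_le_right (by positivity) hn1
      have e4 : (3 * a + b + 2) * (1 + m + l) = (3 * a + b + 2) * n := rfl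
      linarith
    have hsN : 0 ≤ Real.sqrt (nsq a b m (wr a b m w q)) := Real.sqrt_nonneg _
    calc _ ≤ _ := t1
      _ ≤ (|α| * Real.sqrt (nsq a b m (wr a b m w (qq a b m (l + 1)))) +
          |β| * Real.sqrt (nsq a b m (wr a b m w q))) +
          |1 / 4| * Real.sqrt (nsq a b m (wr a b m w (Lm a b m q))) := by
          gcongr
      _ ≤ (1 / 4 * (C * (2 ^ K * n ^ K) * (G * n * s)) + (F * n) * (C * n ^ K * s)) +
          1 / 4 * (C * n ^ K * (G * n * s)) := by
          rw [hα, abs_of_pos (by norm_num : (0 : ℝ) < 1 / 4)]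
          gcongr
      _ = C * (1 / 4 * 2 ^ K * G + F + 1 / 4 * G) * n ^ (K + 1) * s := by ring

end KaSch
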