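import Pool.Agent.Work.MP_d717ad_an.Base

open scoped ContDiff Topology Polynomial
open MeasureTheory Set

noncomputable section

namespace KaSch

variable {N : ℕ}

/-! ### Module SUMSM1: smoothness of sums -/

theorem sum_ee (v : E N) : ∑ j, v j • ee j = v := by
  ext i
  simp [ee, Pi.single_apply]

theorem sum_rot (x : E N) (j : Fin N) :
    x j • x + ∑ i, x i • (x i • ee j - x j • ee i) = (‖x‖ ^ 2) • ee j := by
  have h1 : ∑ i, x i • (x i • ee j - x j • ee i) = (‖x‖ ^ 2) • ee j - x j • x := by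
    have : ∀ i, x i • (x i • ee j - x j • ee i) = (x i ^ 2) • ee j - x j • (x i • ee i : E N) := by
      intro i
      rw [smul_sub, smul_smul, smul_comm (x i) (x j), sq]
    simp_rw [this]
    rw [Finset.sum_sub_distrib, ← Finset.sum_smul, ← Finset.smul_sum, sum_ee,
      EuclideanSpace.norm_sq_eq]
    simp
  rw [h1]; abel

/-- `∂_j = ‖x‖^{-2} (x_j Θ + ∑_i x_i (x_i∂_j - x_j∂_i))` -/
theorem partial_eq {f : E N → ℂ} {x : E N} (hx : x ≠ 0) (j : Fin N) :
    fderiv ℝ f x (ee j) = ((‖x‖ ^ 2)⁻¹ : ℝ) •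
      (((x j : ℝ) : ℂ) * fderiv ℝ f x x + ∑ i, ((x i : ℝ) : ℂ) * rot i j f x) := by
  have hn : ‖x‖ ^ 2 ≠ 0 := pow_ne_zero _ (norm_ne_zero_iff.mpr hx)
  have h := congrArg (fderiv ℝ f x) (sum_rot x j)
  rw [map_add, map_sum, map_smul, map_smul] at h
  simp_rw [map_smul] at h
  have h2 : (((x j : ℝ) : ℂ) * fderiv ℝ f x x + ∑ i, ((x i : ℝ) : ℂ) * rot i j f x) =
      (‖x‖ ^ 2 : ℝ) • fderiv ℝ f x (ee j) := by
    rw [← h]
    simp only [rot, Complex.real_smul]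
  rw [h2, smul_smul, inv_mul_cancel₀ hn, one_smul]

/-- the vector of a letter -/
def zv (c : Option (Fin N × Fin N)) (x : E N) : E N :=
  match c with
  | none => x
  | some (i, j) => x i • ee j - x j • ee i

theorem zl_eq (c : Option (Fin N × Fin N)) (f : E N → ℂ) (x : E N) :
    zl c f x = fderiv ℝ f x (zv c x) := by
  rcases c with _ | ⟨i, j⟩ <;> rfl

theorem zv_contDiff (c : Option (Fin N × Fin N)) : ContDiff ℝ ∞ (zv c) := by
  rcases c with _ | ⟨i, j⟩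
  · exact contDiff_id
  · unfold zv
    simp only
    fun_prop

theorem zl_contDiffOn (c : Option (Fin N × Fin N)) {f : E N → ℂ} (hf : ContDiffOn ℝ ∞ f {0}ᶜ) :
    ContDiffOn ℝ ∞ (zl c f) {0}ᶜ := by
  have h1 : ContDiffOn ℝ ∞ (fderiv ℝ f) {0}ᶜ :=
    hf.fderiv_of_isOpen isOpen_compl_singleton (by simp)
  exact (h1.clm_apply (zv_contDiff c).contDiffOn).congr fun x _ => zl_eq c f x

theorem zw_append (w : List (Option (Fin N × Fin N))) (c : Option (Fin N × Fin N)) (f : E N → ℂ) :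
    zw (w ++ [c]) f = zw w (zl c f) := by
  induction w with
  | nil => rfl
  | cons d w ih => simp only [List.cons_append, zw, ih]

/-- the hypothesis of `sum_smooth` -/
def ZB {ι : Type} (F : ι → E N → ℂ) : Prop :=
  ∀ w : List (Option (Fin N × Fin N)), ∃ c : ι → ℝ, Summable c ∧
      ∀ i (x : E N), x ≠ 0 → ‖zw w (F i) x‖ ≤ c i

theorem ZB_zl {ι : Type} {F : ι → E N → ℂ} (hF : ZB F) (c : Option (Fin N × Fin N)) :
    ZB fun i => zl c (F i) := by
  intro w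
  obtain ⟨d, hd, hb⟩ := hF (w ++ [c])
  exact ⟨d, hd, fun i x hx => by rw [← zw_append]; exact hb i x hx⟩

/-- bound for one partial derivative by the letters -/
theorem partial_le {f : E N → ℂ} {x : E N} (hx : x ≠ 0) (j : Fin N) :
    ‖fderiv ℝ f x (ee j)‖ ≤ ‖x‖⁻¹ * (‖zl none f x‖ + ∑ i, ‖zl (some (i, j)) f x‖) := by
  have hn : 0 < ‖x‖ := norm_pos_iff.mpr hx
  have hco : ∀ i, ‖((x i : ℝ) : ℂ)‖ ≤ ‖x‖ := fun i => by
    rw [Complex.norm_real]; exact PiLp.norm_apply_le x i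
  rw [partial_eq hx, norm_smul, Real.norm_eq_abs, abs_of_pos (by positivity)]
  have h1 : ‖((x j : ℝ) : ℂ) * fderiv ℝ f x x + ∑ i, ((x i : ℝ) : ℂ) * rot i j f x‖ ≤
      ‖x‖ * (‖zl none f x‖ + ∑ i, ‖zl (some (i, j)) f x‖) := by
    refine (norm_add_le _ _).trans ?_
    rw [mul_add, Finset.mul_sum]
    refine add_le_add ?_ ((norm_sum_le _ _).trans (Finset.sum_le_sum fun i _ => ?_))
    · rw [norm_mul]
      exact mul_le_mul_of_nonneg_right (hco j) (norm_nonneg _)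
    · rw [norm_mul]
      exact mul_le_mul_of_nonneg_right (hco i) (norm_nonneg _)
  calc (‖x‖ ^ 2)⁻¹ * ‖((x j : ℝ) : ℂ) * fderiv ℝ f x x + ∑ i, ((x i : ℝ) : ℂ) * rot i j f x‖
      ≤ (‖x‖ ^ 2)⁻¹ * (‖x‖ * (‖zl none f x‖ + ∑ i, ‖zl (some (i, j)) f x‖)) := by gcongr
    _ = ‖x‖⁻¹ * (‖zl none f x‖ + ∑ i, ‖zl (some (i, j)) f x‖) := by
      field_simp

theorem fderiv_le {f : E N → ℂ} {x : E N} (hx : x ≠ 0) :
    ‖fderiv ℝ f x‖ ≤ ∑ j, ‖x‖⁻¹ * (‖zl none f x‖ + ∑ i, ‖zl (some (i, j)) f x‖) := by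
  refine ContinuousLinearMap.opNorm_le_bound _ (Finset.sum_nonneg fun j _ => by positivity) ?_
  intro v
  conv_lhs => rw [← sum_ee v]
  rw [map_sum, Finset.sum_mul]
  refine (norm_sum_le _ _).trans (Finset.sum_le_sum fun j _ => ?_)
  rw [map_smul, norm_smul, mul_comm]
  exact mul_le_mul (partial_le hx j) (by
    rw [Real.norm_eq_abs]
    have := PiLp.norm_apply_le v j
    rwa [Real.norm_eq_abs] at this) (norm_nonneg _) (by positivity)

/-- local summable bound for the derivatives -/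
theorem fderiv_bound {ι : Type} {F : ι → E N → ℂ} (hF : ZB F) {x₀ : E N} (hx₀ : x₀ ≠ 0) :
    ∃ u : ι → ℝ, Summable u ∧ ∀ i x, x ∈ Metric.ball x₀ (‖x₀‖ / 2) →
      ‖fderiv ℝ (F i) x‖ ≤ u i := by
  have hn : 0 < ‖x₀‖ := norm_pos_iff.mpr hx₀
  have h1 : ∀ c : Option (Fin N × Fin N), ∃ d : ι → ℝ, Summable d ∧
      ∀ i (x : E N), x ≠ 0 → ‖zl c (F i) x‖ ≤ d i := fun c => hF [c]
  choose d hd hb using h1
  refine ⟨fun i => ∑ j, (2 / ‖x₀‖) * (d none i + ∑ l, d (some (l, j)) i), ?_, ?_⟩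
  · refine summable_sum fun j _ => ?_
    exact ((hd none).add (summable_sum fun l _ => hd (some (l, j)))).mul_left _
  · intro i x hx
    rw [Metric.mem_ball, dist_eq_norm] at hx
    have h2 : ‖x₀‖ / 2 ≤ ‖x‖ := by
      have := norm_sub_norm_le x₀ x
      rw [norm_sub_rev] at this
      linarith
    have hxp : 0 < ‖x‖ := by linarith
    have hx0 : x ≠ 0 := norm_pos_iff.mp hxp
    refine (fderiv_le hx0).trans (Finset.sum_le_sum fun j _ => ?_)
    have h3 : ‖x‖⁻¹ ≤ 2 / ‖x₀‖ := by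
      rw [inv_le_comm₀ hxp (by positivity), inv_div]; exact h2
    refine mul_le_mul h3 (add_le_add (hb none i x hx0)
      (Finset.sum_le_sum fun l _ => hb (some (l, j)) i x hx0)) (by positivity) (by positivity)

theorem hasFDerivAt_sum {ι : Type} {F : ι → E N → ℂ}
    (hFs : ∀ i, ContDiffOn ℝ ∞ (F i) {0}ᶜ) (hF : ZB F) {x : E N} (hx : x ≠ 0) :
    Summable (fun i => fderiv ℝ (F i) x) ∧
      HasFDerivAt (fun y => ∑' i, F i y) (∑' i, fderiv ℝ (F i) x) x := by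
  obtain ⟨u, hu, hb⟩ := fderiv_bound hF hx
  have hn : 0 < ‖x‖ := norm_pos_iff.mpr hx
  have hxm : x ∈ Metric.ball x (‖x‖ / 2) := Metric.mem_ball_self (by linarith)
  obtain ⟨c, hc, hcb⟩ := hF []
  refine ⟨Summable.of_norm_bounded hu fun i => hb i x hxm, ?_⟩
  refine hasFDerivAt_tsum_of_isPreconnected hu Metric.isOpen_ball
    (convex_ball x _).isPreconnected (fun i y hy => ?_) hb hxm
    (Summable.of_norm_bounded hc fun i => hcb i x hx) hxm
  have hy0 : y ≠ 0 := by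
    rintro rfl
    rw [Metric.mem_ball, dist_eq_norm, zero_sub, norm_neg] at hy
    linarith
  exact (((hFs i).contDiffAt (isOpen_compl_singleton.mem_nhds hy0)).differentiableAt
    (by simp)).hasFDerivAt

theorem fderiv_sum_apply {ι : Type} {F : ι → E N → ℂ}
    (hFs : ∀ i, ContDiffOn ℝ ∞ (F i) {0}ᶜ) (hF : ZB F) {x : E N} (hx : x ≠ 0) (v : E N) :
    fderiv ℝ (fun y => ∑' i, F i y) x v = ∑' i, fderiv ℝ (F i) x v := by
  obtain ⟨h1, h2⟩ := hasFDerivAt_sum hFs hF hx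
  rw [h2.fderiv]
  exact (ContinuousLinearMap.apply ℝ ℂ v).map_tsum h1

theorem sum_contDiffOn_nat (n : ℕ) : ∀ {ι : Type} {F : ι → E N → ℂ},
    (∀ i, ContDiffOn ℝ ∞ (F i) {0}ᶜ) → ZB F →
    ContDiffOn ℝ n (fun x => ∑' i, F i x) {0}ᶜ := by
  induction n with
  | zero =>
    intro ι F hFs hF
    refine contDiffOn_zero.mpr fun x hx => ?_
    exact (hasFDerivAt_sum hFs hF hx).2.continuousAt.continuousWithinAt
  | succ n ih =>
    intro ι F hFs hF
    have e : ((n + 1 : ℕ) : WithTop ℕ∞) = (n : WithTop ℕ∞) + 1 := by push_cast; rfl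
    rw [e, contDiffOn_succ_iff_fderiv_of_isOpen isOpen_compl_singleton]
    refine ⟨fun x hx => (hasFDerivAt_sum hFs hF hx).2.differentiableAt.differentiableWithinAt,
      fun h => by simp at h, ?_⟩
    rw [contDiffOn_clm_apply]
    intro y
    have hz : ∀ c : Option (Fin N × Fin N),
        ContDiffOn ℝ n (fun x => zl c (fun y => ∑' i, F i y) x) {0}ᶜ := by
      intro c
      have h1 := ih (fun i => zl_contDiffOn c (hFs i)) (ZB_zl hF c)
      refine h1.congr fun x hx => ?_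
      rw [zl_eq, fderiv_sum_apply hFs hF hx]
      exact tsum_congr fun i => (zl_eq c (F i) x).symm
    have hinv : ContDiffOn ℝ n (fun x : E N => ((‖x‖ ^ 2)⁻¹ : ℝ)) {0}ᶜ := by
      intro x hx
      have hx' : x ≠ 0 := hx
      exact (((contDiffAt_norm ℝ hx').pow 2).inv
        (pow_ne_zero _ (norm_ne_zero_iff.mpr hx'))).contDiffWithinAt
    have hco : ∀ j : Fin N, ContDiffOn ℝ n (fun x : E N => ((x j : ℝ) : ℂ)) {0}ᶜ := fun j => by
      have : ContDiff ℝ n (fun x : E N => ((x j : ℝ) : ℂ)) :=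
        Complex.ofRealCLM.contDiff.comp (by fun_prop)
      exact this.contDiffOn
    have hp : ∀ j : Fin N,
        ContDiffOn ℝ n (fun x => fderiv ℝ (fun y => ∑' i, F i y) x (ee j)) {0}ᶜ := by
      intro j
      have h2 : ContDiffOn ℝ n (fun x : E N => ((‖x‖ ^ 2)⁻¹ : ℝ) •
        (((x j : ℝ) : ℂ) * zl none (fun y => ∑' i, F i y) x +
          ∑ l, ((x l : ℝ) : ℂ) * zl (some (l, j)) (fun y => ∑' i, F i y) x)) {0}ᶜ :=
        hinv.smul (((hco j).mul (hz none)).add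
          (ContDiffOn.sum fun l _ => (hco l).mul (hz (some (l, j)))))
      exact h2.congr fun x hx => partial_eq hx j
    have h3 : ContDiffOn ℝ n (fun x => ∑ j, y j • fderiv ℝ (fun y => ∑' i, F i y) x (ee j))
        {0}ᶜ := ContDiffOn.sum fun j _ => (hp j).const_smul (y j)
    refine h3.congr fun x _ => ?_
    conv_lhs => rw [← sum_ee y]
    rw [map_sum]
    simp_rw [map_smul]

theorem sum_smooth {ι : Type} [Countable ι] {F : ι → E N → ℂ}
    (hF : ∀ i, ContDiffOn ℝ ∞ (F i) {0}ᶜ)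
    (hb : ∀ w : List (Option (Fin N × Fin N)), ∃ c : ι → ℝ, Summable c ∧
      ∀ i (x : E N), x ≠ 0 → ‖zw w (F i) x‖ ≤ c i) :
    ContDiffOn ℝ ∞ (fun x => ∑' i, F i x) {0}ᶜ ∧
      ∀ x : E N, x ≠ 0 → fderiv ℝ (fun x => ∑' i, F i x) x x = ∑' i, fderiv ℝ (F i) x x :=
  ⟨contDiffOn_infty.mpr fun n => sum_contDiffOn_nat n hF hb,
    fun x hx => fderiv_sum_apply hF hb hx x⟩

end KaSch
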