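import Pool.Agent.Work.MP_d717ad_an.Ibp2

open scoped ContDiff Topology Polynomial
open MeasureTheory Set

noncomputable section

namespace KaSch

variable {N : ℕ}

/-! ### Module SUMSM2: the operator `B` applied termwise -/

theorem theta_continuousOn (D : RootData N) (a : ℝ) : ContinuousOn (theta D a) {0}ᶜ := by
  unfold theta
  exact (norm_rpow_contDiffOn (a - 2)).continuousOn.mul (wt_continuous D).continuousOn

theorem inner_ne_zero_ae {α : E N} (hα : α ≠ 0) : ∀ᵐ x : E N, (inner ℝ α x : ℝ) ≠ 0 := by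
  have h1 : (volume : Measure (E N)) (LinearMap.ker (innerSL ℝ α).toLinearMap : Set (E N)) = 0 := by
    apply Measure.addHaar_submodule
    intro h
    have h2 : α ∈ LinearMap.ker (innerSL ℝ α).toLinearMap := by rw [h]; trivial
    rw [LinearMap.mem_ker] at h2
    exact (inner_self_pos' hα).ne' h2
  rw [ae_iff]
  convert h1 using 2
  ext x
  simp

theorem wt_ne_zero_ae (D : RootData N) : ∀ᵐ x : E N, wt D x ≠ 0 := by
  have h1 : ∀ᵐ x : E N, ∀ α ∈ D.pos, (inner ℝ α x : ℝ) ≠ 0 := by
    refine (ae_ball_iff (D.pos.finite_toSet.countable)).2 ?_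
    intro α hα
    exact inner_ne_zero_ae (pos_ne_zero D hα)
  filter_upwards [h1] with x hx
  unfold wt
  apply Finset.prod_ne_zero_iff.2
  intro α hα
  exact (Real.rpow_pos_of_pos (abs_pos.2 (hx α hα)) _).ne'

theorem Lap_hasCompactSupport (D : RootData N) {g : E N → ℂ} (hc : HasCompactSupport g) :
    HasCompactSupport (Lap D g) := by
  apply HasCompactSupport.of_support_subset_isCompact
    (isCompact_iUnion fun j : Fin N => (T_hasCompactSupport D (ee j)
      (T_hasCompactSupport D (ee j) hc)))
  intro x hx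
  by_contra hn
  apply hx
  unfold Lap
  apply Finset.sum_eq_zero
  intro j _
  apply image_eq_zero_of_notMem_tsupport
  intro h
  exact hn (mem_iUnion.2 ⟨j, h⟩)

theorem Lap_contDiff (D : RootData N) {g : E N → ℂ} (hg : ContDiff ℝ ∞ g) :
    ContDiff ℝ ∞ (Lap D g) := by
  unfold Lap
  apply ContDiff.sum
  intro j _
  exact T_contDiff D _ (T_contDiff D _ hg)

theorem theta_mul_BF (D : RootData N) (a : ℝ) {g : E N → ℂ} (hc : HasCompactSupport g)
    (h0 : (0 : E N) ∉ tsupport g) (x : E N) :
    ((theta D a x : ℝ) : ℂ) * BF D a g x = ((wt D x : ℝ) : ℂ) * Lap D g x := by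
  by_cases hx : x = 0
  · subst hx
    have hL : Lap D g 0 = 0 := by
      unfold Lap
      apply Finset.sum_eq_zero
      intro j _
      exact image_eq_zero_of_notMem_tsupport (T_zero_notMem D _ (T_hasCompactSupport D _ hc)
        (T_zero_notMem D _ hc h0))
    unfold BF
    rw [hL]; simp
  · have hx0 : 0 < ‖x‖ := norm_pos_iff.2 hx
    have h1 : ((theta D a x : ℝ) : ℂ) * ((‖x‖ ^ (2 - a) : ℝ) : ℂ) = ((wt D x : ℝ) : ℂ) := by
      rw [← Complex.ofReal_mul]
      congr 1
      unfold theta
      have : ‖x‖ ^ (a - 2) * ‖x‖ ^ (2 - a) = 1 := by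
        rw [← Real.rpow_add hx0]; simp
      calc _ = (‖x‖ ^ (a - 2) * ‖x‖ ^ (2 - a)) * wt D x := by ring
        _ = wt D x := by rw [this, one_mul]
    unfold BF
    rw [← mul_assoc, h1]

/-- termwise integration -/
theorem hasSum_test (hN : 2 ≤ N) {ι : Type} [Countable ι] {F : ι → E N → ℂ}
    (hF : ∀ i, ContinuousOn (F i) {0}ᶜ) (c : ι → ℝ) (hc : Summable c)
    (hc0 : ∀ i (x : E N), x ≠ 0 → ‖F i x‖ ≤ c i) {φ : E N → ℂ} (hφ : Continuous φ)
    (hφc : HasCompactSupport φ) :
    HasSum (fun i => ∫ x, F i x * φ x) (∫ x, (∑' i, F i x) * φ x) := by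
  have hne : ∀ᵐ x : E N, x ≠ 0 := by
    have : Nontrivial (E N) := by
      haveI : Nonempty (Fin N) := ⟨⟨0, by omega⟩⟩
      infer_instance
    rw [ae_iff]
    simp
  have hφi : Integrable φ := hφ.integrable_of_hasCompactSupport hφc
  have hm : ∀ i, AEStronglyMeasurable (F i) volume := by
    intro i
    have h1 : AEStronglyMeasurable (F i) (volume.restrict {0}ᶜ) :=
      (hF i).aestronglyMeasurable isOpen_compl_singleton.measurableSet
    have h2 : (volume : Measure (E N)).restrict {0}ᶜ = volume := by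
      apply Measure.restrict_eq_self_of_ae_mem
      filter_upwards [hne] with x hx
      exact hx
    rwa [h2] at h1
  have hb : ∀ i, ∀ᵐ x : E N, ‖F i x * φ x‖ ≤ c i * ‖φ x‖ := by
    intro i
    filter_upwards [hne] with x hx
    rw [norm_mul]
    exact mul_le_mul_of_nonneg_right (hc0 i x hx) (norm_nonneg _)
  have hint : ∀ i, Integrable fun x => F i x * φ x := fun i =>
    (hφi.norm.const_mul (c i)).mono' ((hm i).mul hφi.aestronglyMeasurable) (hb i)
  have hc00 : ∀ i, 0 ≤ c i := by
    intro i
    have : ∃ x : E N, x ≠ 0 := by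
      haveI : Nonempty (Fin N) := ⟨⟨0, by omega⟩⟩
      exact exists_ne 0
    obtain ⟨x, hx⟩ := this
    exact (norm_nonneg _).trans (hc0 i x hx)
  have hs : Summable fun i => ∫ x, ‖F i x * φ x‖ := by
    apply Summable.of_nonneg_of_le (fun i => integral_nonneg fun x => norm_nonneg _)
      (fun i => ?_) (hc.mul_right (∫ x, ‖φ x‖))
    calc ∫ x, ‖F i x * φ x‖ ≤ ∫ x, c i * ‖φ x‖ :=
          integral_mono_ae (hint i).norm (hφi.norm.const_mul _) (hb i)
      _ = c i * ∫ x, ‖φ x‖ := integral_const_mul _ _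
  have key := hasSum_integral_of_summable_integral_norm hint hs
  have e : (fun x => (∑' i, F i x) * φ x) = fun x => ∑' i, F i x * φ x := by
    funext x
    rw [tsum_mul_right]
  rw [e]
  exact key

/-- `B` applied termwise, by duality with test functions (`ibp`) -/
theorem sum_B (hN : 2 ≤ N) (D : RootData N) {a : ℝ} (ha : 0 < a) {ι : Type} [Countable ι]
    {F : ι → E N → ℂ} (hF : ∀ i, ContDiffOn ℝ ∞ (F i) {0}ᶜ)
    (h0 : ContDiffOn ℝ ∞ (fun x => ∑' i, F i x) {0}ᶜ)
    (h1 : ContinuousOn (fun x => ∑' i, BF D a (F i) x) {0}ᶜ)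
    (c : ι → ℝ) (hc : Summable c)
    (hc0 : ∀ i (x : E N), x ≠ 0 → ‖F i x‖ ≤ c i)
    (hc1 : ∀ i (x : E N), x ≠ 0 → ‖BF D a (F i) x‖ ≤ c i) :
    ∀ x : E N, x ≠ 0 → BF D a (fun x => ∑' i, F i x) x = ∑' i, BF D a (F i) x := by
  have hBS : ContinuousOn (BF D a (fun x => ∑' i, F i x)) {0}ᶜ :=
    (BF_contDiffOn D a h0).continuousOn
  have hBF : ∀ i, ContinuousOn (BF D a (F i)) {0}ᶜ := fun i =>
    (BF_contDiffOn D a (hF i)).continuousOn
  have hth : ContinuousOn (fun x => ((theta D a x : ℝ) : ℂ)) {0}ᶜ :=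
    Complex.continuous_ofReal.comp_continuousOn (theta_continuousOn D a)
  -- tested identity
  have test : ∀ g : E N → ℂ, ContDiff ℝ ∞ g → HasCompactSupport g → (0 : E N) ∉ tsupport g →
      ∫ x, g x * (((theta D a x : ℝ) : ℂ) * (BF D a (fun x => ∑' i, F i x) x -
        ∑' i, BF D a (F i) x)) = 0 := by
    intro g hg hgc hg0
    have hφ : Continuous fun x => ((wt D x : ℝ) : ℂ) * Lap D g x :=
      (Complex.continuous_ofReal.comp (wt_continuous D)).mul (Lap_contDiff D hg).continuous
    have hφc : HasCompactSupport fun x => ((wt D x : ℝ) : ℂ) * Lap D g x :=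
      (Lap_hasCompactSupport D hgc).mul_left
    have hψ : Continuous fun x => ((theta D a x : ℝ) : ℂ) * g x :=
      mul_continuous hth hg.continuous hg0
    have hψc : HasCompactSupport fun x => ((theta D a x : ℝ) : ℂ) * g x := hgc.mul_left
    have s1 := hasSum_test hN (fun i => (hF i).continuousOn) c hc hc0 hφ hφc
    have s2 := hasSum_test hN hBF c hc hc1 hψ hψc
    have e1 : ∀ f : E N → ℂ, ∫ x, f x * (((wt D x : ℝ) : ℂ) * Lap D g x) =
        ∫ x, f x * BF D a g x ∂(mu D a) := by
      intro f
      rw [integral_mu]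
      congr 1
      funext x
      rw [← theta_mul_BF D a hgc hg0]
      ring
    have e2 : ∀ f : E N → ℂ, ∫ x, f x * (((theta D a x : ℝ) : ℂ) * g x) =
        ∫ x, f x * g x ∂(mu D a) := by
      intro f
      rw [integral_mu]
      congr 1
      funext x
      ring
    have e3 : (fun i => ∫ x, F i x * (((wt D x : ℝ) : ℂ) * Lap D g x)) =
        fun i => ∫ x, BF D a (F i) x * (((theta D a x : ℝ) : ℂ) * g x) := by
      funext i
      rw [e1, e2]
      exact (ibp D a (hF i) hg hgc hg0).symm
    rw [e3] at s1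
    have e4 := s1.unique s2
    rw [e1 (fun x => ∑' i, F i x), ← ibp D a h0 hg hgc hg0, ← e2] at e4
    have i1 : Integrable fun x => BF D a (fun x => ∑' i, F i x) x *
        (((theta D a x : ℝ) : ℂ) * g x) := by
      have c1 := mul_continuous (hBS.mul hth) hg.continuous hg0
      have c2 := c1.integrable_of_hasCompactSupport (μ := (volume : Measure (E N)))
        hgc.mul_left
      refine c2.congr (Filter.Eventually.of_forall fun x => ?_)
      simp only [Pi.mul_apply]
      ring
    have i2 : Integrable fun x => (∑' i, BF D a (F i) x) *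
        (((theta D a x : ℝ) : ℂ) * g x) := by
      have c1 := mul_continuous (h1.mul hth) hg.continuous hg0
      have c2 := c1.integrable_of_hasCompactSupport (μ := (volume : Measure (E N)))
        hgc.mul_left
      refine c2.congr (Filter.Eventually.of_forall fun x => ?_)
      simp only [Pi.mul_apply]
      ring
    have e5 : (fun x => g x * (((theta D a x : ℝ) : ℂ) * (BF D a (fun x => ∑' i, F i x) x -
        ∑' i, BF D a (F i) x))) = fun x => BF D a (fun x => ∑' i, F i x) x *
        (((theta D a x : ℝ) : ℂ) * g x) - (∑' i, BF D a (F i) x) *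
        (((theta D a x : ℝ) : ℂ) * g x) := by
      funext x; ring
    rw [e5, integral_sub i1 i2, e4, sub_self]
  -- conclusion
  have hu : ContinuousOn (fun x => ((theta D a x : ℝ) : ℂ) *
      (BF D a (fun x => ∑' i, F i x) x - ∑' i, BF D a (F i) x)) {0}ᶜ :=
    hth.mul (hBS.sub h1)
  have hae := isOpen_compl_singleton.ae_eq_zero_of_integral_contDiff_smul_eq_zero
    (hu.locallyIntegrableOn (μ := (volume : Measure (E N)))
      isOpen_compl_singleton.measurableSet) (by
      intro g hg hgc hgs
      have h2 := test (fun x => ((g x : ℝ) : ℂ)) (Complex.ofRealCLM.contDiff.comp hg)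
        (hgc.comp_left Complex.ofReal_zero) (by
          intro h
          have h3 : tsupport (fun x => ((g x : ℝ) : ℂ)) ⊆ tsupport g := by
            apply closure_mono
            intro x hx
            rw [Function.mem_support] at hx ⊢
            intro h4
            exact hx (by rw [h4]; simp)
          exact (hgs (h3 h)) rfl)
      simpa only [Complex.real_smul] using h2)
  have hzero : EqOn (fun x => BF D a (fun x => ∑' i, F i x) x)
      (fun x => ∑' i, BF D a (F i) x) {0}ᶜ := by
    apply Measure.eqOn_open_of_ae_eq (μ := (volume : Measure (E N))) _ isOpen_compl_singleton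
      hBS h1
    rw [Filter.EventuallyEq, ae_restrict_iff' isOpen_compl_singleton.measurableSet]
    filter_upwards [hae, wt_ne_zero_ae D] with x hx1 hx2 hx3
    have h3 := hx1 hx3
    have hx0 : x ≠ 0 := hx3
    have h4 : ((theta D a x : ℝ) : ℂ) ≠ 0 := by
      have : theta D a x ≠ 0 := by
        unfold theta
        exact mul_ne_zero (Real.rpow_pos_of_pos (norm_pos_iff.2 hx0) _).ne' hx2
      exact_mod_cast this
    exact sub_eq_zero.1 ((mul_eq_zero.1 h3).resolve_left h4)
  intro x hx
  exact hzero hx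

end KaSch
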