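import Pool.Agent.Work.MP_d717ad_an.Base
import Pool.Agent.Work.MP_d717ad_an.Hom2
import Pool.Agent.Work.MP_d717ad_an.Rel2
import Pool.Agent.Work.MP_d717ad_an.Ibp2
import Pool.Agent.Work.MP_d717ad_an.Polar2

open scoped ContDiff Topology Polynomial
open MeasureTheory Set

noncomputable section

namespace KaSch

variable {N : ℕ}

/-! ### Module SYM: symmetry of `‖x‖^{2-a} Δ_k` between decaying functions and `PF` functions. -/

-- (robust under both signatures, with or without the hypothesis `0 < a`)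
private theorem sym_opB_PV (D : RootData N) {a : ℝ} (ha : 0 < a) {m : ℕ} {p : E N → ℂ}
    (hp : p ∈ Hom N m) (hp' : ∀ x, Lap D p x = 0) (q : ℝ[X]) :
    opB D a (PV a hp q) = PV a hp (Bm a (bb D) m q) := by
  first
    | exact opB_PV D a ha hp hp' q
    | exact opB_PV D a hp hp' q

private theorem sym_opT_PV {a : ℝ} (ha : 0 < a) {m : ℕ} {p : E N → ℂ} (hp : p ∈ Hom N m)
    (q : ℝ[X]) : opT N (PV a hp q) = PV a hp (Tm a m q) := by
  first
    | exact opT_PV a ha hp q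
    | exact opT_PV a hp q

private theorem sym_cutoff : ∃ (χ : ℝ → ℝ) (M : ℝ), ContDiff ℝ ∞ χ ∧ 0 ≤ M ∧
    (∀ t, |t| ≤ 1 → χ t = 1) ∧ (∀ t, 2 ≤ |t| → χ t = 0) ∧ (∀ t, |χ t| ≤ 1) ∧
    (∀ t, |deriv χ t| ≤ M) ∧ (∀ t, |deriv (deriv χ) t| ≤ M) ∧
    (∀ t, 2 < |t| → deriv (deriv χ) t = 0) ∧
    (∀ t, |t| < 1 → deriv χ t = 0 ∧ deriv (deriv χ) t = 0) := by
  let B : ContDiffBump (0 : ℝ) := ⟨1, 2, one_pos, one_lt_two⟩
  have hB : ContDiff ℝ ∞ B := B.contDiff
  have hc : HasCompactSupport B := B.hasCompactSupport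
  have hd : ContDiff ℝ ∞ (deriv B) := (contDiff_infty_iff_deriv.mp hB).2
  have hdd : ContDiff ℝ ∞ (deriv (deriv B)) := (contDiff_infty_iff_deriv.mp hd).2
  have hc1 : HasCompactSupport (deriv B) := hc.deriv
  have hc2 : HasCompactSupport (deriv (deriv B)) := hc1.deriv
  obtain ⟨M1, hM1⟩ := hd.continuous.bounded_above_of_compact_support hc1
  obtain ⟨M2, hM2⟩ := hdd.continuous.bounded_above_of_compact_support hc2
  refine ⟨B, max M1 M2, hB, le_trans (norm_nonneg _) ((hM1 0).trans (le_max_left _ _)),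
    ?_, ?_, ?_, ?_, ?_, ?_, ?_⟩
  · intro t ht
    exact B.one_of_mem_closedBall (by simpa [B] using ht)
  · intro t ht
    exact B.zero_of_le_dist (by simpa [B] using ht)
  · intro t
    rw [abs_of_nonneg B.nonneg]
    exact B.le_one
  · intro t
    exact (hM1 t).trans (le_max_left _ _)
  · intro t
    exact (hM2 t).trans (le_max_right _ _)
  · intro t ht
    have h1 : (B : ℝ → ℝ) =ᶠ[𝓝 t] fun _ => 0 := by
      have : {s : ℝ | 2 < |s|} ∈ 𝓝 t :=
        (isOpen_lt continuous_const continuous_abs).mem_nhds ht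
      filter_upwards [this] with s hs
      exact B.zero_of_le_dist (by simpa [B] using hs.le)
    have h2 : deriv (B : ℝ → ℝ) =ᶠ[𝓝 t] fun _ => 0 := by
      have := h1.deriv
      simpa using this
    rw [h2.deriv_eq]
    simp
  · intro t ht
    have h1 : (B : ℝ → ℝ) =ᶠ[𝓝 t] fun _ => 1 := by
      have : {s : ℝ | |s| < 1} ∈ 𝓝 t :=
        (isOpen_lt continuous_abs continuous_const).mem_nhds ht
      filter_upwards [this] with s hs
      have hs' : |s| < 1 := hs
      exact B.one_of_mem_closedBall (by simpa [B] using hs'.le)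
    have h2 : deriv (B : ℝ → ℝ) =ᶠ[𝓝 t] fun _ => 0 := by
      have := h1.deriv
      simpa using this
    refine ⟨by simpa using h2.self_of_nhds, ?_⟩
    rw [h2.deriv_eq]
    simp

private theorem sym_int_log :
    IntegrableOn (fun r : ℝ => r⁻¹ * ((1 + |Real.log r|) ^ 2)⁻¹) (Ioc 0 1) := by
  have hg : ContinuousOn (fun r : ℝ => if r ≤ 0 then 0 else (1 - Real.log r)⁻¹) (Icc 0 1) := by
    intro r hr
    rcases eq_or_lt_of_le hr.1 with h0 | h0
    · subst h0
      have h1 : Filter.Tendsto (fun r : ℝ => (1 - Real.log r)⁻¹) (𝓝[>] 0) (𝓝 0) := by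
        apply Filter.Tendsto.inv_tendsto_atTop
        have := Real.tendsto_log_nhdsGT_zero
        have h2 := Filter.tendsto_neg_atBot_atTop.comp this
        have h3 := Filter.tendsto_atTop_add_const_left (𝓝[>] (0 : ℝ)) (1 : ℝ) h2
        refine h3.congr fun r => ?_
        simp [sub_eq_add_neg]
      have h2 : ContinuousWithinAt (fun r : ℝ => if r ≤ 0 then 0 else (1 - Real.log r)⁻¹)
          (Ioi 0) 0 := by
        unfold ContinuousWithinAt
        simp only [le_refl, if_true]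
        refine h1.congr' ?_
        filter_upwards [self_mem_nhdsWithin] with r hr'
        rw [if_neg (not_le.mpr hr')]
      have h3 := (continuousWithinAt_insert_self.mpr h2)
      refine h3.mono ?_
      intro r hr
      rcases eq_or_lt_of_le hr.1 with h | h
      · exact Or.inl h.symm
      · exact Or.inr h
    · have h1 : ContinuousAt (fun r : ℝ => (1 - Real.log r)⁻¹) r := by
        have : 1 - Real.log r ≠ 0 := by
          have := Real.log_nonpos hr.1 hr.2
          linarith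
        exact ((continuousAt_const.sub (Real.continuousAt_log h0.ne')).inv₀ this)
      refine (h1.congr ?_).continuousWithinAt
      filter_upwards [lt_mem_nhds h0] with s hs
      rw [if_neg (not_le.mpr hs)]
  refine intervalIntegral.integrableOn_deriv_of_nonneg hg ?_ ?_
  · intro r hr
    have hl : Real.log r ≤ 0 := Real.log_nonpos hr.1.le hr.2.le
    have hne : 1 - Real.log r ≠ 0 := by linarith
    have h1 : HasDerivAt (fun r : ℝ => (1 - Real.log r)⁻¹)
        (-(0 - r⁻¹) / (1 - Real.log r) ^ 2) r :=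
      ((hasDerivAt_const r (1 : ℝ)).sub (Real.hasDerivAt_log hr.1.ne')).inv hne
    have h2 : HasDerivAt (fun r : ℝ => if r ≤ 0 then 0 else (1 - Real.log r)⁻¹)
        (-(0 - r⁻¹) / (1 - Real.log r) ^ 2) r := by
      refine h1.congr_of_eventuallyEq ?_
      filter_upwards [lt_mem_nhds hr.1] with s hs
      rw [if_neg (not_le.mpr hs)]
    convert h2 using 1
    have e : (1 + |Real.log r|) = 1 - Real.log r := by rw [abs_of_nonpos hl]; ring
    rw [e]
    have := hr.1.ne'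
    field_simp
    ring
  · intro r hr
    have := hr.1
    positivity

private theorem sym_int {b s a : ℝ} (hb : 0 ≤ b) (hs : 0 < s) {k : ℕ}
    (hk : b + s < a * k) :
    IntegrableOn (fun r : ℝ => r ^ (b - 1) * ((((1 + |Real.log r|) ^ 2)⁻¹ + b + r ^ s) *
      (1 + (r ^ a) ^ k)⁻¹)) (Ioi 0) := by
  have hmeas : Measurable (fun r : ℝ => r ^ (b - 1) * ((((1 + |Real.log r|) ^ 2)⁻¹ + b + r ^ s) *
      (1 + (r ^ a) ^ k)⁻¹)) := by
    have h1 : Measurable fun r : ℝ => r ^ (b - 1) := measurable_id.pow_const _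
    have h2 : Measurable fun r : ℝ => r ^ s := measurable_id.pow_const _
    have h3 : Measurable fun r : ℝ => r ^ a := measurable_id.pow_const _
    have h4 : Measurable fun r : ℝ => Real.log r := Real.measurable_log
    fun_prop
  rw [← Ioc_union_Ioi_eq_Ioi zero_le_one]
  refine IntegrableOn.union ?_ ?_
  · have hJ : IntegrableOn (fun r : ℝ => r⁻¹ * ((1 + |Real.log r|) ^ 2)⁻¹ + b * r ^ (b - 1)
        + r ^ (b + s - 1)) (Ioc 0 1) := by
      refine (sym_int_log.add ?_).add ?_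
      · rcases eq_or_lt_of_le hb with h | h
        · subst h; simp
        · have := (intervalIntegral.intervalIntegrable_rpow' (a := 0) (b := 1)
            (r := b - 1) (by linarith)).const_mul b
          rwa [intervalIntegrable_iff_integrableOn_Ioc_of_le zero_le_one] at this
      · have := (intervalIntegral.intervalIntegrable_rpow' (a := 0) (b := 1)
            (r := b + s - 1) (by linarith))
        rwa [intervalIntegrable_iff_integrableOn_Ioc_of_le zero_le_one] at this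
    refine Integrable.mono' hJ hmeas.aestronglyMeasurable ?_
    filter_upwards [ae_restrict_mem measurableSet_Ioc] with r hr
    have hr0 : 0 < r := hr.1
    have e1 : r ^ (b - 1) * r ^ s = r ^ (b + s - 1) := by
      rw [← Real.rpow_add hr0]; ring_nf
    have e2 : r ^ (b - 1) ≤ r⁻¹ := by
      rw [← Real.rpow_neg_one]
      exact Real.rpow_le_rpow_of_exponent_ge hr0 hr.2 (by linarith)
    have e3 : (1 + (r ^ a) ^ k)⁻¹ ≤ 1 := by
      apply inv_le_one_of_one_le₀
      have : 0 ≤ (r ^ a) ^ k := by positivity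
      linarith
    have e4 : 0 ≤ (1 + (r ^ a) ^ k)⁻¹ := by positivity
    have e5 : 0 ≤ ((1 + |Real.log r|) ^ 2)⁻¹ := by positivity
    have e6 : 0 ≤ r ^ (b - 1) := by positivity
    have e7 : 0 ≤ r ^ s := by positivity
    rw [Real.norm_eq_abs, abs_of_nonneg (by positivity)]
    calc r ^ (b - 1) * ((((1 + |Real.log r|) ^ 2)⁻¹ + b + r ^ s) * (1 + (r ^ a) ^ k)⁻¹)
        ≤ r ^ (b - 1) * ((((1 + |Real.log r|) ^ 2)⁻¹ + b + r ^ s) * 1) := by gcongr
      _ = r ^ (b - 1) * ((1 + |Real.log r|) ^ 2)⁻¹ + b * r ^ (b - 1) + r ^ (b - 1) * r ^ s := by ring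
      _ ≤ r⁻¹ * ((1 + |Real.log r|) ^ 2)⁻¹ + b * r ^ (b - 1) + r ^ (b + s - 1) := by
        rw [e1]; gcongr
  · have hJ : IntegrableOn (fun r : ℝ => (2 + b) * r ^ (b - 1 + s - a * k)) (Ioi 1) :=
      (integrableOn_Ioi_rpow_of_lt (by linarith) one_pos).const_mul _
    refine Integrable.mono' hJ hmeas.aestronglyMeasurable ?_
    filter_upwards [ae_restrict_mem measurableSet_Ioi] with r hr
    have hr1 : 1 < r := hr
    have hr0 : 0 < r := by linarith
    have e1 : r ^ (b - 1 + s - a * k) = r ^ (b - 1) * (r ^ s * ((r ^ a) ^ k)⁻¹) := by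
      rw [← Real.rpow_natCast (r ^ a) k, ← Real.rpow_mul hr0.le, ← Real.rpow_neg hr0.le,
        ← Real.rpow_add hr0, ← Real.rpow_add hr0]
      ring_nf
    have e2 : 1 ≤ r ^ s := Real.one_le_rpow hr1.le hs.le
    have e3 : (1 + (r ^ a) ^ k)⁻¹ ≤ ((r ^ a) ^ k)⁻¹ := by
      apply inv_anti₀ (by positivity)
      linarith
    have e5 : ((1 + |Real.log r|) ^ 2)⁻¹ ≤ 1 := by
      apply inv_le_one_of_one_le₀
      have : 0 ≤ |Real.log r| := abs_nonneg _
      nlinarith
    rw [Real.norm_eq_abs, abs_of_nonneg (by positivity), e1]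
    calc r ^ (b - 1) * ((((1 + |Real.log r|) ^ 2)⁻¹ + b + r ^ s) * (1 + (r ^ a) ^ k)⁻¹)
        ≤ r ^ (b - 1) * ((1 * r ^ s + b * r ^ s + r ^ s) * ((r ^ a) ^ k)⁻¹) := by
          gcongr
          · nlinarith
          · nlinarith
      _ = (2 + b) * (r ^ (b - 1) * (r ^ s * ((r ^ a) ^ k)⁻¹)) := by ring

/-- derivative of the logarithmic cutoffs -/
private theorem sym_deriv {χ : ℝ → ℝ} (hχ : ContDiff ℝ ∞ χ) (n : ℕ) {r : ℝ} (hr : 0 < r) :
    deriv (fun r => χ (Real.log r / (n + 1))) r = deriv χ (Real.log r / (n + 1)) / ((n + 1) * r) := by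
  have h1 : HasDerivAt (fun r : ℝ => Real.log r / (n + 1)) (r⁻¹ / (n + 1)) r :=
    (Real.hasDerivAt_log hr.ne').div_const _
  have h2 : HasDerivAt χ (deriv χ (Real.log r / (n + 1))) (Real.log r / (n + 1)) :=
    (hχ.differentiable (by simp) _).hasDerivAt
  have h3 := h2.comp r h1
  have h4 : deriv (fun r => χ (Real.log r / (n + 1))) r =
      deriv χ (Real.log r / (n + 1)) * (r⁻¹ / (n + 1)) := h3.deriv
  rw [h4]
  have : (n : ℝ) + 1 ≠ 0 := by positivity
  field_simp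

private theorem sym_deriv2 {χ : ℝ → ℝ} (hχ : ContDiff ℝ ∞ χ) (n : ℕ) {r : ℝ} (hr : 0 < r) :
    deriv (deriv (fun r => χ (Real.log r / (n + 1)))) r =
      deriv (deriv χ) (Real.log r / (n + 1)) / ((n + 1) ^ 2 * r ^ 2)
        - deriv χ (Real.log r / (n + 1)) / ((n + 1) * r ^ 2) := by
  have h0 : deriv (fun r => χ (Real.log r / (n + 1))) =ᶠ[𝓝 r]
      fun r => deriv χ (Real.log r / (n + 1)) * (((n : ℝ) + 1) * r)⁻¹ := by
    filter_upwards [lt_mem_nhds hr] with s hs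
    rw [sym_deriv hχ n hs, div_eq_mul_inv]
  rw [h0.deriv_eq]
  have hn : (n : ℝ) + 1 ≠ 0 := by positivity
  have h1 : HasDerivAt (fun r : ℝ => Real.log r / (n + 1)) (r⁻¹ / (n + 1)) r :=
    (Real.hasDerivAt_log hr.ne').div_const _
  have hd : ContDiff ℝ ∞ (deriv χ) := (contDiff_infty_iff_deriv.mp hχ).2
  have h2 : HasDerivAt (deriv χ) (deriv (deriv χ) (Real.log r / (n + 1))) (Real.log r / (n + 1)) :=
    (hd.differentiable (by simp) _).hasDerivAt
  have h3 : HasDerivAt (fun r => deriv χ (Real.log r / (n + 1)))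
      (deriv (deriv χ) (Real.log r / (n + 1)) * (r⁻¹ / (n + 1))) r := by
    have := h2.comp r h1
    exact this
  have h4 : HasDerivAt (fun r : ℝ => (((n : ℝ) + 1) * r)⁻¹)
      (-(((n : ℝ) + 1) * 1) / (((n : ℝ) + 1) * r) ^ 2) r :=
    ((hasDerivAt_id r).const_mul _).inv (by simpa using ⟨hn, hr.ne'⟩)
  have h5 := h3.mul h4
  have h6 : deriv (fun r => deriv χ (Real.log r / (n + 1)) * (((n : ℝ) + 1) * r)⁻¹) r = _ := h5.deriv
  rw [h6]
  field_simp
  ring

private theorem sym_BF (D : RootData N) (a : ℝ) {χ : ℝ → ℝ} (hχ : ContDiff ℝ ∞ χ) (n : ℕ)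
    {g : E N → ℂ} (hg : ContDiffOn ℝ ∞ g {0}ᶜ) {x : E N} (hx : x ≠ 0) :
    BF D a (fun y => ((χ (Real.log ‖y‖ / (n + 1)) : ℝ) : ℂ) * g y) x =
      ((χ (Real.log ‖x‖ / (n + 1)) : ℝ) : ℂ) * BF D a g x
      + ((‖x‖ ^ (-a) * (deriv (deriv χ) (Real.log ‖x‖ / (n + 1)) / (n + 1) ^ 2
          + bb D * (deriv χ (Real.log ‖x‖ / (n + 1)) / (n + 1))) : ℝ) : ℂ) * g x
      + ((‖x‖ ^ (-a) * (2 * (deriv χ (Real.log ‖x‖ / (n + 1)) / (n + 1))) : ℝ) : ℂ) *
          fderiv ℝ g x x := by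
  have hr : 0 < ‖x‖ := norm_pos_iff.mpr hx
  have hc : ContDiffOn ℝ ∞ (fun r : ℝ => χ (Real.log r / (n + 1))) (Ioi 0) := by
    refine hχ.comp_contDiffOn ?_
    refine ContDiffOn.div_const ?_ _
    exact Real.contDiffOn_log.mono (fun r hr => (ne_of_gt hr : r ≠ 0))
  have h := Lap_radial_mul D hc hg hx
  unfold BF
  rw [h, sym_deriv2 hχ n hr, sym_deriv hχ n hr]
  have e : ‖x‖ ^ (2 - a) = ‖x‖ ^ (-a) * ‖x‖ ^ 2 := by
    rw [← Real.rpow_natCast ‖x‖ 2, ← Real.rpow_add hr]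
    congr 1
    push_cast
    ring
  have hn : (n : ℝ) + 1 ≠ 0 := by positivity
  set A := deriv (deriv χ) (Real.log ‖x‖ / (n + 1))
  set B := deriv χ (Real.log ‖x‖ / (n + 1))
  have e1 : ‖x‖ ^ (2 - a) * ((A / ((n + 1) ^ 2 * ‖x‖ ^ 2) - B / ((n + 1) * ‖x‖ ^ 2))
      + (bb D + 1) * (B / ((n + 1) * ‖x‖) / ‖x‖)) =
      ‖x‖ ^ (-a) * (A / (n + 1) ^ 2 + bb D * (B / (n + 1))) := by
    rw [e]
    field_simp
    ring
  have e2 : ‖x‖ ^ (2 - a) * (2 * (B / ((n + 1) * ‖x‖) / ‖x‖)) =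
      ‖x‖ ^ (-a) * (2 * (B / (n + 1))) := by
    rw [e]
    field_simp
  rw [← e1, ← e2]
  push_cast
  ring

private theorem sym_supp {χ : ℝ → ℝ} (h2 : ∀ t, 2 ≤ |t| → χ t = 0) (n : ℕ) (g : V N) :
    Function.support (fun y => ((χ (Real.log ‖y‖ / (n + 1)) : ℝ) : ℂ) * g.1 y) ⊆
      {y : E N | Real.exp (-(2 * (n + 1))) ≤ ‖y‖ ∧ ‖y‖ ≤ Real.exp (2 * (n + 1))} := by
  intro y hy
  have hy' : ((χ (Real.log ‖y‖ / (n + 1)) : ℝ) : ℂ) * g.1 y ≠ 0 := hy
  have hn : (0 : ℝ) < (n : ℝ) + 1 := by positivity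
  have hy0 : y ≠ 0 := by
    rintro rfl
    apply hy'
    rw [vzero, mul_zero]
  have hr : 0 < ‖y‖ := norm_pos_iff.mpr hy0
  have h3 : |Real.log ‖y‖ / (n + 1)| < 2 := by
    by_contra hcon
    apply hy'
    rw [h2 _ (not_lt.mp hcon)]
    simp
  rw [abs_div, abs_of_pos hn, div_lt_iff₀ hn, abs_lt] at h3
  constructor
  · rw [← Real.exp_log hr]
    apply Real.exp_le_exp.mpr
    exact h3.1.le
  · rw [← Real.exp_log hr]
    apply Real.exp_le_exp.mpr
    exact h3.2.le

private theorem sym_test {χ : ℝ → ℝ} (hχ : ContDiff ℝ ∞ χ) (h2 : ∀ t, 2 ≤ |t| → χ t = 0) (n : ℕ)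
    (g : V N) :
    ContDiff ℝ ∞ (fun y => ((χ (Real.log ‖y‖ / (n + 1)) : ℝ) : ℂ) * g.1 y) ∧
    HasCompactSupport (fun y => ((χ (Real.log ‖y‖ / (n + 1)) : ℝ) : ℂ) * g.1 y) ∧
    (0 : E N) ∉ tsupport (fun y => ((χ (Real.log ‖y‖ / (n + 1)) : ℝ) : ℂ) * g.1 y) := by
  have hK : IsClosed {y : E N | Real.exp (-(2 * ((n : ℝ) + 1))) ≤ ‖y‖ ∧
      ‖y‖ ≤ Real.exp (2 * (n + 1))} :=
    (isClosed_le continuous_const continuous_norm).inter
      (isClosed_le continuous_norm continuous_const)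
  have hts : tsupport (fun y => ((χ (Real.log ‖y‖ / (n + 1)) : ℝ) : ℂ) * g.1 y) ⊆
      {y : E N | Real.exp (-(2 * ((n : ℝ) + 1))) ≤ ‖y‖ ∧ ‖y‖ ≤ Real.exp (2 * (n + 1))} :=
    closure_minimal (sym_supp h2 n g) hK
  have h0 : (0 : E N) ∉ tsupport (fun y => ((χ (Real.log ‖y‖ / (n + 1)) : ℝ) : ℂ) * g.1 y) := by
    intro h
    have := (hts h).1
    rw [norm_zero] at this
    exact absurd (Real.exp_pos (-(2 * ((n : ℝ) + 1)))) (not_lt.mpr this)
  refine ⟨?_, ?_, h0⟩
  · rw [contDiff_iff_contDiffAt]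
    intro x
    by_cases hx : x = 0
    · subst hx
      have h3 := notMem_tsupport_iff_eventuallyEq.mp h0
      exact contDiffAt_const.congr_of_eventuallyEq h3
    · have hg : ContDiffAt ℝ ∞ g.1 x := g.2.1.contDiffAt (isOpen_compl_singleton.mem_nhds hx)
      have hr : ‖x‖ ≠ 0 := norm_ne_zero_iff.mpr hx
      have h3 : ContDiffAt ℝ ∞ (fun y : E N => Real.log ‖y‖ / (n + 1)) x :=
        ((contDiffAt_norm ℝ hx).log hr).div_const _
      have h4 : ContDiffAt ℝ ∞ (fun y : E N => χ (Real.log ‖y‖ / (n + 1))) x :=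
        hχ.contDiffAt.comp x h3
      have h5 : ContDiffAt ℝ ∞ (fun y : E N => ((χ (Real.log ‖y‖ / (n + 1)) : ℝ) : ℂ)) x :=
        Complex.ofRealCLM.contDiff.contDiffAt.comp x h4
      exact h5.mul hg
  · refine HasCompactSupport.of_support_subset_isCompact
      (K := Metric.closedBall (0 : E N) (Real.exp (2 * (n + 1)))) (isCompact_closedBall _ _) ?_
    intro y hy
    have := (sym_supp h2 n g hy).2
    simpa using this

private theorem sym_aesm (hN : 2 ≤ N) (D : RootData N) (a : ℝ) {h : E N → ℂ}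
    (hh : ContDiffOn ℝ ∞ h {0}ᶜ) : AEStronglyMeasurable h (mu D a) := by
  have h0 : ∀ᵐ x ∂(mu D a), x ∈ ({0}ᶜ : Set (E N)) := by
    have hnt : Nontrivial (E N) := by
      have : 0 < Module.finrank ℝ (E N) := by simp; omega
      exact Module.finrank_pos_iff.mp this
    have : ∀ᵐ x ∂(volume : Measure (E N)), x ∈ ({0}ᶜ : Set (E N)) := by
      rw [ae_iff]; simp
    exact (mu_ac D a hN).1.ae_le this
  have h1 : (mu D a).restrict {0}ᶜ = mu D a := Measure.restrict_eq_self_of_ae_mem h0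
  rw [← h1]
  exact hh.continuousOn.aestronglyMeasurable (measurableSet_singleton _).compl

private theorem sym_ae_ne (hN : 2 ≤ N) (D : RootData N) (a : ℝ) : ∀ᵐ x ∂(mu D a), x ≠ 0 := by
  have hnt : Nontrivial (E N) := by
    have : 0 < Module.finrank ℝ (E N) := by simp; omega
    exact Module.finrank_pos_iff.mp this
  have : ∀ᵐ x ∂(volume : Measure (E N)), x ≠ 0 := by
    rw [ae_iff]; simp
  exact (mu_ac D a hN).1.ae_le this

private theorem sym_decay_mul {a : ℝ} {u v : E N → ℂ} (hu : Decay a u) (hv : Decay a v) :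
    Decay a (fun x => u x * v x) := by
  intro n
  obtain ⟨C1, h1⟩ := hu n
  obtain ⟨C2, h2⟩ := hv 0
  refine ⟨C1 * C2, fun x hx => ?_⟩
  have e1 := h1 x hx
  have e2 := h2 x hx
  rw [pow_zero, one_mul] at e2
  have : 0 ≤ (‖x‖ ^ a) ^ n * ‖u x‖ := by positivity
  rw [norm_mul, ← mul_assoc]
  exact mul_le_mul e1 e2 (norm_nonneg _) (this.trans e1)

private theorem sym_prod_int (hN : 2 ≤ N) (D : RootData N) {a : ℝ} (ha : 0 < a) (u v : V N)
    (hu : Decay a u.1) (hv : Decay a v.1) : Integrable (fun x => u.1 x * v.1 x) (mu D a) :=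
  decay_integrable hN D ha ⟨fun x => u.1 x * v.1 x, u.2.1.mul v.2.1, by simp [vzero]⟩
    (sym_decay_mul hu hv)

/-- a homogeneous polynomial is bounded by a multiple of `‖x‖^m` -/
private theorem sym_hom_bound {m : ℕ} {p : E N → ℂ} (hp : p ∈ Hom N m) :
    ∃ M : ℝ, 0 ≤ M ∧ ∀ x : E N, ‖p x‖ ≤ M * ‖x‖ ^ m := by
  obtain ⟨M, hM⟩ := (isCompact_closedBall (0 : E N) 1).exists_bound_of_continuousOn
    (hom_contDiff hp).continuous.continuousOn
  refine ⟨M, (norm_nonneg _).trans (hM 0 (by simp)), fun x => ?_⟩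
  by_cases hx : x = 0
  · subst hx
    have h := hom_smul hp 0 (0 : E N)
    rw [zero_smul] at h
    rcases Nat.eq_zero_or_pos m with hm | hm
    · subst hm
      simpa using hM 0 (by simp)
    · rw [zero_pow (by omega)] at h
      rw [h]
      simp [zero_pow (by omega : m ≠ 0)]
  · have hr : 0 < ‖x‖ := norm_pos_iff.mpr hx
    have h1 : p x = ((‖x‖ ^ m : ℝ) : ℂ) * p (‖x‖⁻¹ • x) := by
      rw [← hom_smul hp, smul_smul, mul_inv_cancel₀ hr.ne', one_smul]
    have h2 : ‖‖x‖⁻¹ • x‖ = 1 := by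
      rw [norm_smul, norm_inv, norm_norm, inv_mul_cancel₀ hr.ne']
    rw [h1, norm_mul, Complex.norm_real, Real.norm_of_nonneg (by positivity), mul_comm]
    gcongr
    exact hM _ (by simp [h2])

private theorem sym_theta_bound (hN : 2 ≤ N) {a : ℝ} (ha : 0 < a) {m : ℕ} {p : E N → ℂ}
    (hp : p ∈ Hom N m) (q : ℝ[X]) :
    ∃ C : ℝ, 0 ≤ C ∧ ∀ x : E N, x ≠ 0 → ‖(PV a hp (Tm a m q)).1 x‖ ≤ C * ‖x‖ ^ (min 1 a) := by
  rcases Nat.eq_zero_or_pos m with hm | hm
  · subst hm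
    have e : Tm a 0 q = Polynomial.X * (Polynomial.C a * Polynomial.derivative q - q) := by
      unfold Tm
      simp
      ring
    obtain ⟨C0, h0⟩ := PV_decay hN ha hp (Polynomial.C a * Polynomial.derivative q - q) 0
    obtain ⟨C1, h1⟩ := PV_decay hN ha hp (Tm a 0 q) 0
    refine ⟨max (max C0 C1) 0, le_max_right _ _, fun x hx => ?_⟩
    have hr : 0 < ‖x‖ := norm_pos_iff.mpr hx
    rcases le_total ‖x‖ 1 with h | h
    · rw [e, ← opA_PV, opA_apply, norm_mul, Complex.norm_real, Real.norm_of_nonneg (by positivity),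
        mul_comm]
      have := h0 x hx
      rw [pow_zero, one_mul] at this
      have h2 : ‖x‖ ^ a ≤ ‖x‖ ^ (min 1 a) :=
        Real.rpow_le_rpow_of_exponent_ge hr h (min_le_right _ _)
      have h3 : ‖(PV a hp (Polynomial.C a * Polynomial.derivative q - q)).1 x‖ ≤
          max (max C0 C1) 0 := this.trans ((le_max_left _ _).trans (le_max_left _ _))
      gcongr
    · have := h1 x hx
      rw [pow_zero, one_mul] at this
      have h2 : 1 ≤ ‖x‖ ^ (min 1 a) := Real.one_le_rpow h (by positivity)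
      calc _ ≤ C1 := this
        _ ≤ max (max C0 C1) 0 := (le_max_right _ _).trans (le_max_left _ _)
        _ = max (max C0 C1) 0 * 1 := (mul_one _).symm
        _ ≤ _ := by gcongr
  · obtain ⟨M, hM0, hM⟩ := sym_hom_bound hp
    obtain ⟨C1, h1⟩ := PV_decay hN ha hp (Tm a m q) 0
    obtain ⟨K, hK⟩ := (isCompact_Icc (a := (0 : ℝ)) (b := 1)).exists_bound_of_continuousOn
      (Tm a m q).continuous.continuousOn
    have hK0 : 0 ≤ K := (norm_nonneg _).trans (hK 0 (by simp))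
    refine ⟨max (M * K) C1, le_trans (by positivity) (le_max_left _ _), fun x hx => ?_⟩
    have hr : 0 < ‖x‖ := norm_pos_iff.mpr hx
    rcases le_total ‖x‖ 1 with h | h
    · have e1 : (PV a hp (Tm a m q)).1 x = PF a p (Tm a m q) x := cut_apply _ hx
      have e2 : |(Tm a m q).eval (‖x‖ ^ a)| ≤ K :=
        hK _ ⟨by positivity, Real.rpow_le_one hr.le h ha.le⟩
      have e3 : Real.exp (-(‖x‖ ^ a) / a) ≤ 1 := by
        apply Real.exp_le_one_iff.mpr
        apply div_nonpos_of_nonpos_of_nonneg _ ha.le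
        have : 0 ≤ ‖x‖ ^ a := by positivity
        linarith
      have e4 : ‖x‖ ^ m ≤ ‖x‖ ^ (min 1 a) := by
        rw [← Real.rpow_natCast]
        apply Real.rpow_le_rpow_of_exponent_ge hr h
        have : (1 : ℝ) ≤ m := by exact_mod_cast hm
        exact (min_le_left _ _).trans this
      rw [e1]
      unfold PF
      rw [norm_mul, Complex.norm_real, Real.norm_eq_abs, abs_mul, Real.abs_exp]
      calc ‖p x‖ * (|(Tm a m q).eval (‖x‖ ^ a)| * Real.exp (-(‖x‖ ^ a) / a))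
          ≤ (M * ‖x‖ ^ m) * (K * 1) := by
            gcongr
            exact hM x
        _ = (M * K) * ‖x‖ ^ m := by ring
        _ ≤ _ := by
            gcongr
            exact le_max_left _ _
    · have := h1 x hx
      rw [pow_zero, one_mul] at this
      have h2 : 1 ≤ ‖x‖ ^ (min 1 a) := Real.one_le_rpow h (by positivity)
      calc _ ≤ C1 := this
        _ ≤ max (M * K) C1 := le_max_right _ _
        _ = max (M * K) C1 * 1 := (mul_one _).symm
        _ ≤ _ := by gcongr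

/-- bound for a decaying function -/
private theorem sym_decay_bound {a : ℝ} {u : E N → ℂ} (hu : Decay a u) (k : ℕ) :
    ∃ C : ℝ, 0 ≤ C ∧ ∀ x : E N, x ≠ 0 → ‖u x‖ ≤ C * (1 + (‖x‖ ^ a) ^ k)⁻¹ := by
  obtain ⟨C0, h0⟩ := hu 0
  obtain ⟨C1, h1⟩ := hu k
  refine ⟨max (C0 + C1) 0, le_max_right _ _, fun x hx => ?_⟩
  have e0 := h0 x hx
  have e1 := h1 x hx
  rw [pow_zero, one_mul] at e0
  have hp : 0 < 1 + (‖x‖ ^ a) ^ k := by positivity
  rw [← div_eq_mul_inv, le_div_iff₀ hp]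
  refine le_trans ?_ (le_max_left _ _)
  linarith

theorem sym (hN : 2 ≤ N) (D : RootData N) {a : ℝ} (ha : 0 < a) (f : V N) (hf : Decay a f.1)
    (hBf : Decay a (opB D a f).1) {m : ℕ} {p : E N → ℂ} (hp : p ∈ Hom N m)
    (hp' : ∀ x, Lap D p x = 0) (q : ℝ[X]) :
    ∫ x, (opB D a f).1 x * (PV a hp q).1 x ∂(mu D a) =
      ∫ x, f.1 x * (PV a hp (Bm a (bb D) m q)).1 x ∂(mu D a) := by
  obtain ⟨χ, M, hχ, hM, h1, h2, h01, hd1, hd2, hs2, hd0⟩ := sym_cutoff
  set g : V N := PV a hp q with hgdef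
  have hBg : opB D a g = PV a hp (Bm a (bb D) m q) := sym_opB_PV D ha hp hp' q
  have hTg : opT N g = PV a hp (Tm a m q) := sym_opT_PV ha hp q
  have hb := bb_nonneg hN D
  have hgd : Decay a g.1 := PV_decay hN ha hp q
  have hBgd : Decay a (opB D a g).1 := by rw [hBg]; exact PV_decay hN ha hp _
  -- the identity for the cutoffs
  have hn : ∀ n : ℕ, ∫ x, BF D a f.1 x * (((χ (Real.log ‖x‖ / (n + 1)) : ℝ) : ℂ) * g.1 x) ∂(mu D a) =
      ∫ x, f.1 x * BF D a (fun y => ((χ (Real.log ‖y‖ / (n + 1)) : ℝ) : ℂ) * g.1 y) x ∂(mu D a) := by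
    intro n
    obtain ⟨t1, t2, t3⟩ := sym_test hχ h2 n g
    exact ibp D a f.2.1 t1 t2 t3
  have hne := sym_ae_ne hN D a
  -- eventually the argument is small
  have hev : ∀ x : E N, ∀ᶠ n : ℕ in Filter.atTop, |Real.log ‖x‖ / (n + 1)| < 1 := by
    intro x
    obtain ⟨n0, hn0⟩ := exists_nat_gt |Real.log ‖x‖|
    filter_upwards [Filter.eventually_ge_atTop n0] with n hn
    have hn' : (n0 : ℝ) ≤ n := by exact_mod_cast hn
    rw [abs_div, abs_of_pos (by positivity : (0 : ℝ) < (n : ℝ) + 1), div_lt_one (by positivity)]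
    linarith
  -- left side
  have hL : Filter.Tendsto (fun n : ℕ => ∫ x, BF D a f.1 x *
      (((χ (Real.log ‖x‖ / (n + 1)) : ℝ) : ℂ) * g.1 x) ∂(mu D a)) Filter.atTop
      (𝓝 (∫ x, (opB D a f).1 x * g.1 x ∂(mu D a))) := by
    refine tendsto_integral_of_dominated_convergence
      (fun x => ‖(opB D a f).1 x * g.1 x‖) ?_ (sym_prod_int hN D ha _ _ hBf hgd).norm ?_ ?_
    · intro n
      obtain ⟨t1, t2, t3⟩ := sym_test hχ h2 n g
      exact sym_aesm hN D a ((BF_contDiffOn D a f.2.1).mul t1.contDiffOn)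
    · intro n
      filter_upwards [hne] with x hx
      rw [opB_apply D a f hx, norm_mul, norm_mul, norm_mul, Complex.norm_real, Real.norm_eq_abs]
      have := h01 (Real.log ‖x‖ / (n + 1))
      have h3 : 0 ≤ ‖g.1 x‖ := norm_nonneg _
      have h4 : |χ (Real.log ‖x‖ / (n + 1))| * ‖g.1 x‖ ≤ 1 * ‖g.1 x‖ := by gcongr
      rw [one_mul] at h4
      gcongr
    · filter_upwards [hne] with x hx
      refine tendsto_const_nhds.congr' ?_
      filter_upwards [hev x] with n hn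
      rw [h1 _ hn.le, opB_apply D a f hx]
      simp
  -- right side
  obtain ⟨k, hk⟩ := exists_nat_gt ((bb D + min 1 a) / a)
  have hk' : bb D + min 1 a < a * k := by
    rw [div_lt_iff₀ ha] at hk
    linarith
  obtain ⟨Cf, hCf0, hCf⟩ := sym_decay_bound hf k
  obtain ⟨Cg, hCg⟩ := hgd 0
  obtain ⟨CT, hCT0, hCT⟩ := sym_theta_bound hN ha hp q
  have hs : 0 < min 1 a := lt_min one_pos ha
  set F : ℝ → ℝ := fun r => r ^ (-a) * ((((1 + |Real.log r|) ^ 2)⁻¹ + bb D + r ^ (min 1 a)) *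
      (1 + (r ^ a) ^ k)⁻¹) with hF
  set C : ℝ := Cf * (9 * M * |Cg| + M * |Cg| + 2 * M * CT) with hC
  have hFint : Integrable (fun x : E N => C * F ‖x‖) (mu D a) := by
    refine Integrable.const_mul ?_ C
    refine integrable_radial hN D ha ?_
    refine (sym_int (b := bb D) (s := min 1 a) (a := a) hb hs hk').congr_fun ?_ measurableSet_Ioi
    intro r hr
    have hr0 : 0 < r := hr
    simp only [hF]
    have e : r ^ (bb D - 1) = r ^ (kap D a - 1) * r ^ (-a) := by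
      rw [← Real.rpow_add hr0, kap_eq]
      congr 1
      ring
    rw [e, mul_assoc]
  have hR : Filter.Tendsto (fun n : ℕ => ∫ x, f.1 x *
      BF D a (fun y => ((χ (Real.log ‖y‖ / (n + 1)) : ℝ) : ℂ) * g.1 y) x ∂(mu D a)) Filter.atTop
      (𝓝 (∫ x, f.1 x * (PV a hp (Bm a (bb D) m q)).1 x ∂(mu D a))) := by
    rw [← hBg]
    refine tendsto_integral_of_dominated_convergence
      (fun x => ‖f.1 x * (opB D a g).1 x‖ + C * F ‖x‖) ?_
      ((sym_prod_int hN D ha _ _ hf hBgd).norm.add hFint) ?_ ?_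
    · intro n
      obtain ⟨t1, t2, t3⟩ := sym_test hχ h2 n g
      exact sym_aesm hN D a (f.2.1.mul (BF_contDiffOn D a t1.contDiffOn))
    · intro n
      filter_upwards [hne] with x hx
      have hr : 0 < ‖x‖ := norm_pos_iff.mpr hx
      rw [sym_BF D a hχ n g.2.1 hx, opB_apply D a g hx]
      have hTx : fderiv ℝ g.1 x x = (PV a hp (Tm a m q)).1 x := by
        rw [← opT_apply, hTg]
      rw [hTx]
      set t := Real.log ‖x‖ / (n + 1) with ht
      have hn0 : (0 : ℝ) < (n : ℝ) + 1 := by positivity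
      have hn1 : (1 : ℝ) ≤ (n : ℝ) + 1 := by
        have : (0 : ℝ) ≤ n := by positivity
        linarith
      have b1 : ‖g.1 x‖ ≤ |Cg| := by
        have := hCg x hx
        rw [pow_zero, one_mul] at this
        exact this.trans (le_abs_self _)
      have b2 := hCT x hx
      have b3 := hCf x hx
      have hL2 : |deriv (deriv χ) t / (n + 1) ^ 2| ≤ 9 * M * ((1 + |Real.log ‖x‖|) ^ 2)⁻¹ := by
        by_cases h : 2 < |t|
        · rw [hs2 t h]
          simp only [zero_div, abs_zero]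
          positivity
        · rw [not_lt] at h
          rw [ht, abs_div, abs_of_pos hn0, div_le_iff₀ hn0] at h
          have h5 : 1 + |Real.log ‖x‖| ≤ 3 * ((n : ℝ) + 1) := by linarith
          have h6 : (1 + |Real.log ‖x‖|) ^ 2 ≤ 9 * ((n : ℝ) + 1) ^ 2 := by
            have h7 : 0 ≤ |Real.log ‖x‖| := abs_nonneg _
            nlinarith
          rw [abs_div, abs_of_pos (by positivity : (0 : ℝ) < ((n : ℝ) + 1) ^ 2),
            div_le_iff₀ (by positivity)]
          have h8 : 0 < (1 + |Real.log ‖x‖|) ^ 2 := by positivity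
          have h9 : 1 ≤ 9 * (((1 + |Real.log ‖x‖|) ^ 2)⁻¹ * ((n : ℝ) + 1) ^ 2) := by
            rw [← mul_assoc, mul_comm 9, mul_assoc, ← div_eq_inv_mul, le_div_iff₀ h8]
            linarith
          calc |deriv (deriv χ) t| ≤ M := hd2 t
            _ = M * 1 := (mul_one _).symm
            _ ≤ M * (9 * (((1 + |Real.log ‖x‖|) ^ 2)⁻¹ * ((n : ℝ) + 1) ^ 2)) := by gcongr
            _ = _ := by ring
      have hL1 : |deriv χ t / (n + 1)| ≤ M := by
        rw [abs_div, abs_of_pos hn0, div_le_iff₀ hn0]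
        calc |deriv χ t| ≤ M := hd1 t
          _ = M * 1 := (mul_one _).symm
          _ ≤ M * (n + 1) := by gcongr
      have e1 : ‖((χ t : ℝ) : ℂ) * BF D a g.1 x‖ ≤ ‖BF D a g.1 x‖ := by
        rw [norm_mul, Complex.norm_real, Real.norm_eq_abs]
        calc _ ≤ 1 * ‖BF D a g.1 x‖ := by
              gcongr
              exact h01 t
          _ = _ := one_mul _
      have hra : 0 < ‖x‖ ^ (-a) := by positivity
      have e2 : ‖((‖x‖ ^ (-a) * (deriv (deriv χ) t / (n + 1) ^ 2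
          + bb D * (deriv χ t / (n + 1))) : ℝ) : ℂ) * g.1 x‖ ≤
          ‖x‖ ^ (-a) * (9 * M * ((1 + |Real.log ‖x‖|) ^ 2)⁻¹ + bb D * M) * |Cg| := by
        rw [norm_mul, Complex.norm_real, Real.norm_eq_abs, abs_mul, abs_of_pos hra]
        gcongr
        calc |deriv (deriv χ) t / (n + 1) ^ 2 + bb D * (deriv χ t / (n + 1))|
            ≤ |deriv (deriv χ) t / (n + 1) ^ 2| + |bb D * (deriv χ t / (n + 1))| := abs_add_le _ _
          _ ≤ 9 * M * ((1 + |Real.log ‖x‖|) ^ 2)⁻¹ + bb D * M := by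
            rw [abs_mul (bb D), abs_of_nonneg hb]
            gcongr
      have e3 : ‖((‖x‖ ^ (-a) * (2 * (deriv χ t / (n + 1))) : ℝ) : ℂ) *
          (PV a hp (Tm a m q)).1 x‖ ≤ ‖x‖ ^ (-a) * (2 * M) * (CT * ‖x‖ ^ (min 1 a)) := by
        rw [norm_mul, Complex.norm_real, Real.norm_eq_abs, abs_mul, abs_of_pos hra, abs_mul 2,
          abs_of_pos two_pos]
        gcongr
      have hx1 : 0 ≤ ((1 + |Real.log ‖x‖|) ^ 2)⁻¹ := by positivity
      have hx2 : 0 ≤ ‖x‖ ^ (min 1 a) := by positivity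
      have hx3 : 0 < (1 + (‖x‖ ^ a) ^ k)⁻¹ := by positivity
      have hcg : 0 ≤ |Cg| := abs_nonneg _
      rw [norm_mul, norm_mul (f.1 x)]
      calc ‖f.1 x‖ * ‖((χ t : ℝ) : ℂ) * BF D a g.1 x + ((‖x‖ ^ (-a) * (deriv (deriv χ) t / (n + 1) ^ 2
          + bb D * (deriv χ t / (n + 1))) : ℝ) : ℂ) * g.1 x +
          ((‖x‖ ^ (-a) * (2 * (deriv χ t / (n + 1))) : ℝ) : ℂ) * (PV a hp (Tm a m q)).1 x‖
          ≤ ‖f.1 x‖ * (‖BF D a g.1 x‖ +
            ‖x‖ ^ (-a) * (9 * M * ((1 + |Real.log ‖x‖|) ^ 2)⁻¹ + bb D * M) * |Cg| +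
            ‖x‖ ^ (-a) * (2 * M) * (CT * ‖x‖ ^ (min 1 a))) := by
            gcongr
            refine (norm_add_le _ _).trans (add_le_add ((norm_add_le _ _).trans
              (add_le_add e1 e2)) e3)
        _ = ‖f.1 x‖ * ‖BF D a g.1 x‖ + ‖f.1 x‖ * (‖x‖ ^ (-a) *
            (9 * M * |Cg| * ((1 + |Real.log ‖x‖|) ^ 2)⁻¹ + M * |Cg| * bb D +
              2 * M * CT * ‖x‖ ^ (min 1 a))) := by ring
        _ ≤ ‖f.1 x‖ * ‖BF D a g.1 x‖ + (Cf * (1 + (‖x‖ ^ a) ^ k)⁻¹) * (‖x‖ ^ (-a) *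
            ((9 * M * |Cg| + M * |Cg| + 2 * M * CT) * (((1 + |Real.log ‖x‖|) ^ 2)⁻¹ + bb D +
              ‖x‖ ^ (min 1 a)))) := by
            gcongr
            have w1 : 0 ≤ M * |Cg| := by positivity
            have w2 : 0 ≤ M * CT := by positivity
            nlinarith [mul_nonneg w1 hx1, mul_nonneg w2 hx1, mul_nonneg w1 hb, mul_nonneg w2 hb,
              mul_nonneg w1 hx2, mul_nonneg w2 hx2]
        _ = _ := by
            rw [hC, hF]
            ring
    · filter_upwards [hne] with x hx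
      refine tendsto_const_nhds.congr' ?_
      filter_upwards [hev x] with n hn
      rw [sym_BF D a hχ n g.2.1 hx, h1 _ hn.le, (hd0 _ hn).1, (hd0 _ hn).2, opB_apply D a g hx]
      simp
  refine tendsto_nhds_unique hL ?_
  simpa only [hn] using hR

/-- orthogonality of `k`-harmonics of different degrees on the sphere -/
theorem harm_orth (hN : 2 ≤ N) (D : RootData N) {m m' : ℕ} (hm : m ≠ m') {p p' : E N → ℂ}
    (hp : p ∈ Harm D m) (hp' : p' ∈ Harm D m') :
    ∫ w : Metric.sphere (0 : E N) 1, (starRingEnd ℂ) (p w) * p' w ∂(sig D) = 0 := by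
  have hpc := harm_conj D hp
  have h1 := sym hN D one_pos (PV 1 hpc.1 1) (PV_decay hN one_pos hpc.1 1)
    (by rw [sym_opB_PV D one_pos hpc.1 hpc.2]; exact PV_decay hN one_pos hpc.1 _) hp'.1 hp'.2 1
  rw [sym_opB_PV D one_pos hpc.1 hpc.2] at h1
  -- difference of the two sides
  have hint1 := sym_prod_int hN D one_pos (PV 1 hpc.1 (Bm 1 (bb D) m 1)) (PV 1 hp'.1 1)
    (PV_decay hN one_pos hpc.1 _) (PV_decay hN one_pos hp'.1 _)
  have hint2 := sym_prod_int hN D one_pos (PV 1 hpc.1 1) (PV 1 hp'.1 (Bm 1 (bb D) m' 1))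
    (PV_decay hN one_pos hpc.1 _) (PV_decay hN one_pos hp'.1 _)
  have h2 : ∫ x, ((PV 1 hpc.1 (Bm 1 (bb D) m 1)).1 x * (PV 1 hp'.1 1).1 x -
      (PV 1 hpc.1 1).1 x * (PV 1 hp'.1 (Bm 1 (bb D) m' 1)).1 x) ∂(mu D 1) = 0 := by
    rw [integral_sub hint1 hint2, h1, sub_self]
  have h3 : ∀ x, (PV 1 hpc.1 (Bm 1 (bb D) m 1)).1 x * (PV 1 hp'.1 1).1 x -
      (PV 1 hpc.1 1).1 x * (PV 1 hp'.1 (Bm 1 (bb D) m' 1)).1 x =
      ((2 * (m' : ℝ) - 2 * m : ℝ) : ℂ) * ((starRingEnd ℂ) ((PV 1 hp.1 1).1 x) * (PV 1 hp'.1 1).1 x) := by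
    intro x
    by_cases hx : x = 0
    · subst hx; simp [vzero]
    · have e1 : ∀ {m : ℕ} {p : E N → ℂ} (h : p ∈ Hom N m) (q : ℝ[X]),
          (PV 1 h q).1 x = PF 1 p q x := fun h q => cut_apply _ hx
      rw [e1, e1, e1, e1, e1]
      unfold PF Bm
      simp only [map_mul, Complex.conj_ofReal]
      simp
      ring
  rw [integral_congr_ae (ae_of_all _ h3), integral_const_mul, inner_PF hN D one_pos hp.1 hp'.1 1 1]
    at h2
  have hne : ((2 * (m' : ℝ) - 2 * m : ℝ) : ℂ) ≠ 0 := by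
    rw [Complex.ofReal_ne_zero]
    intro h
    apply hm
    have : (m : ℝ) = m' := by linarith
    exact_mod_cast this
  have hI : ∫ r in Ioi (0 : ℝ), (r ^ m * ((1 : ℝ[X]).eval (r ^ (1 : ℝ)) *
      Real.exp (-(r ^ (1 : ℝ)) / 1))) * (r ^ m' * ((1 : ℝ[X]).eval (r ^ (1 : ℝ)) *
      Real.exp (-(r ^ (1 : ℝ)) / 1))) * r ^ (kap D 1 - 1) =
      (1 / 2) ^ ((m : ℝ) + m' + kap D 1) * Real.Gamma ((m : ℝ) + m' + kap D 1) := by
    have hκ := kap_pos hN D one_pos
    rw [← Real.integral_rpow_mul_exp_neg_mul_Ioi (by positivity) two_pos]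
    refine setIntegral_congr_fun measurableSet_Ioi fun r hr => ?_
    have hr0 : 0 < r := hr
    simp only [Real.rpow_one, Polynomial.eval_one, one_mul, div_one]
    have e1 : r ^ ((m : ℝ) + m' + kap D 1 - 1) = r ^ m * r ^ m' * r ^ (kap D 1 - 1) := by
      rw [← Real.rpow_natCast, ← Real.rpow_natCast, ← Real.rpow_add hr0, ← Real.rpow_add hr0]
      congr 1
      ring
    have e2 : Real.exp (-(2 * r)) = Real.exp (-r) * Real.exp (-r) := by
      rw [← Real.exp_add]
      congr 1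
      ring
    rw [e1, e2]
    ring
  rw [hI] at h2
  have hκ := kap_pos hN D one_pos
  have hG : 0 < (1 / 2 : ℝ) ^ ((m : ℝ) + m' + kap D 1) * Real.Gamma ((m : ℝ) + m' + kap D 1) := by
    have := Real.Gamma_pos_of_pos (s := (m : ℝ) + m' + kap D 1) (by positivity)
    positivity
  have hGc : (((1 / 2 : ℝ) ^ ((m : ℝ) + m' + kap D 1) * Real.Gamma ((m : ℝ) + m' + kap D 1) : ℝ) : ℂ) ≠ 0 :=
    Complex.ofReal_ne_zero.mpr hG.ne'
  rcases mul_eq_zero.mp h2 with h | h
  · exact absurd h hne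
  · rcases mul_eq_zero.mp h with h | h
    · exact h
    · exact absurd h hGc

end KaSch
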