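import Pool.Agent.Work.MP_d717ad_an.Base
import Pool.Agent.Work.MP_d717ad_an.RadAlg2

open scoped ContDiff Topology Polynomial
open MeasureTheory Set

noncomputable section

namespace KaSch

/-! ### Module RADSUP: the radial sup-norm estimate. -/

/-- the function `r^m q(r^a) e^{-r^a/a}` -/
private def ru (a : ℝ) (m : ℕ) (q : ℝ[X]) (r : ℝ) : ℝ :=
  r ^ m * (q.eval (r ^ a) * Real.exp (-(r ^ a) / a))

/-- the function `q(r^a) e^{-r^a/a}` -/
private def rf (a : ℝ) (q : ℝ[X]) (r : ℝ) : ℝ := q.eval (r ^ a) * Real.exp (-(r ^ a) / a)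

private theorem ru_eq (a : ℝ) (m : ℕ) (q : ℝ[X]) (r : ℝ) : ru a m q r = r ^ m * rf a q r := rfl

private theorem rf_cont {a : ℝ} (ha : 0 < a) (q : ℝ[X]) : Continuous (rf a q) := by
  unfold rf
  have h : Continuous fun r : ℝ => r ^ a := Real.continuous_rpow_const ha.le
  have h1 : Continuous fun r : ℝ => q.eval (r ^ a) := q.continuous.comp h
  fun_prop

private theorem ru_cont {a : ℝ} (ha : 0 < a) (m : ℕ) (q : ℝ[X]) : Continuous (ru a m q) := by
  have := rf_cont ha q
  have h2 : Continuous fun r : ℝ => r ^ m := continuous_pow m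
  exact h2.mul this

private theorem rf_deriv {a : ℝ} (ha : 0 < a) (q : ℝ[X]) {r : ℝ} (hr : 0 < r) :
    HasDerivAt (rf a q)
      (r⁻¹ * rf a (Polynomial.C a * (Polynomial.X * Polynomial.derivative q) - Polynomial.X * q) r)
      r := by
  have h1 : HasDerivAt (fun r : ℝ => r ^ a) (a * r ^ (a - 1)) r :=
    Real.hasDerivAt_rpow_const (Or.inl hr.ne')
  have h2 : HasDerivAt (fun r : ℝ => q.eval (r ^ a))
      ((Polynomial.derivative q).eval (r ^ a) * (a * r ^ (a - 1))) r := by
    have := (q.hasDerivAt (r ^ a)).comp r h1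
    exact this
  have h3 : HasDerivAt (fun r : ℝ => Real.exp (-(r ^ a) / a))
      (Real.exp (-(r ^ a) / a) * (-(a * r ^ (a - 1)) / a)) r :=
    (h1.neg.div_const a).exp
  have h4 := h2.mul h3
  have e : r ^ (a - 1) = r⁻¹ * r ^ a := by
    rw [Real.rpow_sub_one hr.ne', div_eq_inv_mul]
  refine HasDerivAt.congr_deriv (f := rf a q) h4 ?_
  unfold rf
  rw [e]
  simp only [Polynomial.eval_sub, Polynomial.eval_mul, Polynomial.eval_C, Polynomial.eval_X]
  have ha' : a ≠ 0 := ha.ne'
  field_simp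
  ring

private theorem ru_deriv {a : ℝ} (ha : 0 < a) (m : ℕ) (q : ℝ[X]) {r : ℝ} (hr : 0 < r) :
    HasDerivAt (ru a m q) (r⁻¹ * ru a m (Tm a m q) r) r := by
  have h1 : HasDerivAt (fun r : ℝ => r ^ m) ((m : ℝ) * r ^ (m - 1)) r := hasDerivAt_pow m r
  have h2 := h1.mul (rf_deriv ha q hr)
  refine HasDerivAt.congr_deriv (f := ru a m q) h2 ?_
  have e : (m : ℝ) * r ^ (m - 1) = m * (r⁻¹ * r ^ m) := by
    rcases Nat.eq_zero_or_pos m with h | h
    · subst h; simp
    · congr 1
      obtain ⟨k, rfl⟩ : ∃ k, m = k + 1 := ⟨m - 1, by omega⟩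
      rw [Nat.add_sub_cancel, pow_succ]
      field_simp
  rw [e]
  unfold ru rf Tm
  simp only [Polynomial.eval_sub, Polynomial.eval_add, Polynomial.eval_mul, Polynomial.eval_C,
    Polynomial.eval_X]
  ring

/-- comparison lemma -/
private theorem cmp_lemma {f g f' g' : ℝ → ℝ} {x y : ℝ} (hxy : x ≤ y)
    (hf : ContinuousOn f (Icc x y)) (hg : ContinuousOn g (Icc x y))
    (hf' : ∀ s ∈ Ioo x y, HasDerivAt f (f' s) s) (hg' : ∀ s ∈ Ioo x y, HasDerivAt g (g' s) s)
    (h : ∀ s ∈ Ioo x y, |f' s| ≤ g' s) : |f y - f x| ≤ g y - g x := by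
  have h1 : MonotoneOn (fun s => g s - f s) (Icc x y) := by
    refine monotoneOn_of_deriv_nonneg (convex_Icc x y) (hg.sub hf) ?_ ?_
    · intro s hs
      rw [interior_Icc] at hs
      exact ((hg' s hs).sub (hf' s hs)).differentiableAt.differentiableWithinAt
    · intro s hs
      rw [interior_Icc] at hs
      have e : deriv (fun s => g s - f s) s = g' s - f' s := ((hg' s hs).sub (hf' s hs)).deriv
      rw [e]
      have := (abs_le.mp (h s hs)).2
      linarith
  have h2 : MonotoneOn (fun s => g s + f s) (Icc x y) := by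
    refine monotoneOn_of_deriv_nonneg (convex_Icc x y) (hg.add hf) ?_ ?_
    · intro s hs
      rw [interior_Icc] at hs
      exact ((hg' s hs).add (hf' s hs)).differentiableAt.differentiableWithinAt
    · intro s hs
      rw [interior_Icc] at hs
      have e : deriv (fun s => g s + f s) s = g' s + f' s := ((hg' s hs).add (hf' s hs)).deriv
      rw [e]
      have := (abs_le.mp (h s hs)).1
      linarith
  have a1 := h1 (left_mem_Icc.mpr hxy) (right_mem_Icc.mpr hxy) hxy
  have a2 := h2 (left_mem_Icc.mpr hxy) (right_mem_Icc.mpr hxy) hxy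
  simp only at a1 a2
  rw [abs_le]
  constructor <;> linarith

/-- `√nsq q + √nsq (T q)` -/
private def SS (a b : ℝ) (m : ℕ) (q : ℝ[X]) : ℝ :=
  Real.sqrt (nsq a b m q) + Real.sqrt (nsq a b m (Tm a m q))

private theorem SS_nonneg (a b : ℝ) (m : ℕ) (q : ℝ[X]) : 0 ≤ SS a b m q := by
  unfold SS; positivity

private theorem ru_sq_int {a b : ℝ} (ha : 0 < a) (hb : 0 ≤ b) (m : ℕ) (q q' : ℝ[X]) :
    IntegrableOn (fun r => ru a m q r * ru a m q' r * r ^ (a + b - 1)) (Ioi 0) :=
  rip_integrable ha hb m q q'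

/-- the basic pointwise bound -/
private theorem basic {a b : ℝ} (ha : 0 < a) (hb : 0 ≤ b) (m : ℕ) (q : ℝ[X]) {r : ℝ}
    (hr : 0 < r) : |ru a m q r| ≤ Real.sqrt (a + b + 1) * r ^ (-((a + b) / 2)) * SS a b m q := by
  have hκ : 0 < a + b := by linarith
  -- the function `s^κ u²`
  have hGc : ContinuousOn (fun s : ℝ => s ^ (a + b) * (ru a m q s) ^ 2) (Icc 0 r) := by
    have h1 : Continuous fun s : ℝ => s ^ (a + b) := Real.continuous_rpow_const hκ.le
    have h2 := ru_cont ha m q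
    fun_prop
  have hGd : ∀ s ∈ Ioo (0 : ℝ) r, HasDerivAt (fun s : ℝ => s ^ (a + b) * (ru a m q s) ^ 2)
      ((a + b) * (ru a m q s * ru a m q s * s ^ (a + b - 1)) +
        2 * (ru a m q s * ru a m (Tm a m q) s * s ^ (a + b - 1))) s := by
    intro s hs
    have hs0 : 0 < s := hs.1
    have h1 : HasDerivAt (fun s : ℝ => s ^ (a + b)) ((a + b) * s ^ (a + b - 1)) s :=
      Real.hasDerivAt_rpow_const (Or.inl hs0.ne')
    have h2 := (ru_deriv ha m q hs0).pow 2
    have h3 := h1.mul h2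
    refine HasDerivAt.congr_deriv (f := fun s : ℝ => s ^ (a + b) * (ru a m q s) ^ 2) h3 ?_
    have e : s ^ (a + b) = s ^ (a + b - 1) * s := by
      rw [Real.rpow_sub_one hs0.ne']; field_simp
    rw [e]
    simp only [Pi.pow_apply, Nat.cast_ofNat, Nat.add_one_sub_one, pow_one]
    field_simp
  have hint : IntegrableOn (fun s => (a + b) * (ru a m q s * ru a m q s * s ^ (a + b - 1)) +
        2 * (ru a m q s * ru a m (Tm a m q) s * s ^ (a + b - 1))) (Ioi 0) :=
    ((ru_sq_int ha hb m q q).const_mul _).add ((ru_sq_int ha hb m q _).const_mul _)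
  have hint' : IntegrableOn (fun s => (a + b + 1) * (ru a m q s * ru a m q s * s ^ (a + b - 1)) +
        (ru a m (Tm a m q) s * ru a m (Tm a m q) s * s ^ (a + b - 1))) (Ioi 0) :=
    ((ru_sq_int ha hb m q q).const_mul _).add (ru_sq_int ha hb m _ _)
  have hsub : Ioc (0 : ℝ) r ⊆ Ioi 0 := fun s hs => hs.1
  have hFTC := intervalIntegral.integral_eq_sub_of_hasDerivAt_of_le hr.le hGc hGd
    ((intervalIntegrable_iff_integrableOn_Ioc_of_le hr.le).mpr (hint.mono_set hsub))
  rw [Real.zero_rpow hκ.ne', zero_mul, sub_zero, intervalIntegral.integral_of_le hr.le] at hFTC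
  have hle : r ^ (a + b) * (ru a m q r) ^ 2 ≤ (a + b + 1) * nsq a b m q + nsq a b m (Tm a m q) := by
    rw [← hFTC]
    have e1 : (a + b + 1) * nsq a b m q + nsq a b m (Tm a m q) =
        ∫ s in Ioi (0 : ℝ), ((a + b + 1) * (ru a m q s * ru a m q s * s ^ (a + b - 1)) +
        (ru a m (Tm a m q) s * ru a m (Tm a m q) s * s ^ (a + b - 1))) := by
      rw [integral_add ((ru_sq_int ha hb m q q).const_mul _) (ru_sq_int ha hb m _ _),
        integral_const_mul]
      congr 2
      · unfold nsq ru; simp only [sq]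
      · unfold nsq ru; simp only [sq]
    rw [e1]
    calc _ ≤ ∫ s in Ioc (0 : ℝ) r, ((a + b + 1) * (ru a m q s * ru a m q s * s ^ (a + b - 1)) +
        (ru a m (Tm a m q) s * ru a m (Tm a m q) s * s ^ (a + b - 1))) := by
          refine setIntegral_mono_on (hint.mono_set hsub) (hint'.mono_set hsub)
            measurableSet_Ioc fun s hs => ?_
          have hs0 : 0 < s := hs.1
          have h1 : 0 ≤ s ^ (a + b - 1) := by positivity
          have h2 : 0 ≤ (ru a m q s - ru a m (Tm a m q) s) ^ 2 * s ^ (a + b - 1) := by positivity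
          nlinarith
      _ ≤ _ := by
          refine setIntegral_mono_set hint' ?_ (Filter.Eventually.of_forall hsub)
          filter_upwards [ae_restrict_mem measurableSet_Ioi] with s hs
          have hs0 : 0 < s := hs
          have h1 : 0 ≤ s ^ (a + b - 1) := by positivity
          simp only [Pi.zero_apply]
          have h3 : 0 ≤ ru a m q s * ru a m q s := mul_self_nonneg _
          have h4 : 0 ≤ ru a m (Tm a m q) s * ru a m (Tm a m q) s := mul_self_nonneg _
          positivity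
  -- conclude
  have hn1 := nsq_nonneg a b m q
  have hn2 := nsq_nonneg a b m (Tm a m q)
  have h5 : (a + b + 1) * nsq a b m q + nsq a b m (Tm a m q) ≤
      (a + b + 1) * (SS a b m q) ^ 2 := by
    unfold SS
    set x := Real.sqrt (nsq a b m q)
    set y := Real.sqrt (nsq a b m (Tm a m q))
    have ex : nsq a b m q = x ^ 2 := (Real.sq_sqrt hn1).symm
    have ey : nsq a b m (Tm a m q) = y ^ 2 := (Real.sq_sqrt hn2).symm
    have hx : 0 ≤ x := Real.sqrt_nonneg _
    have hy : 0 ≤ y := Real.sqrt_nonneg _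
    rw [ex, ey]
    nlinarith [mul_nonneg hx hy, mul_nonneg hκ.le (mul_nonneg hx hy), mul_nonneg hκ.le (sq_nonneg y)]
  have hSS := SS_nonneg a b m q
  apply abs_le_of_sq_le_sq _ (by positivity)
  have e2 : (r ^ (-((a + b) / 2))) ^ 2 = (r ^ (a + b))⁻¹ := by
    rw [← Real.rpow_natCast, ← Real.rpow_mul hr.le, ← Real.rpow_neg hr.le]
    congr 1
    push_cast
    ring
  rw [mul_pow, mul_pow, Real.sq_sqrt (by linarith), e2]
  have hp : 0 < r ^ (a + b) := by positivity
  rw [mul_assoc, mul_left_comm, ← div_eq_inv_mul, le_div_iff₀ hp, mul_comm]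
  linarith

private theorem Tm_p1 (a b : ℝ) (m : ℕ) (q : ℝ[X]) :
    Tm a m (Polynomial.C a * (Polynomial.X * Polynomial.derivative q) - Polynomial.X * q) +
      Polynomial.C ((m : ℝ) + b) *
        (Polynomial.C a * (Polynomial.X * Polynomial.derivative q) - Polynomial.X * q) =
      Polynomial.X * Bm a b m q := by
  unfold Tm Bm
  simp only [Polynomial.derivative_sub, Polynomial.derivative_mul, Polynomial.derivative_X,
    Polynomial.derivative_C, map_add, map_mul, map_pow, map_ofNat, map_natCast]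
  ring

private theorem stepA {a b : ℝ} (ha : 0 < a) (hb : 0 ≤ b) (m : ℕ) (q : ℝ[X]) {γ K : ℝ}
    (hγ' : γ < a + b) (hK : 0 ≤ K)
    (h : ∀ s, 0 < s → s ≤ 1 → |ru a m (Bm a b m q) s| ≤ K * s ^ (-γ)) {r : ℝ} (hr : 0 < r)
    (hr1 : r ≤ 1) :
    |ru a m (Polynomial.C a * (Polynomial.X * Polynomial.derivative q) - Polynomial.X * q) r| ≤
      K / (a + b - γ) * r ^ (a - γ) := by
  set p1 := Polynomial.C a * (Polynomial.X * Polynomial.derivative q) - Polynomial.X * q with hp1
  have hmb : 0 ≤ (m : ℝ) + b := by positivity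
  have hm0 : (0 : ℝ) ≤ m := by positivity
  have he : 0 < (m : ℝ) + (a + b) - γ := by linarith
  have hzero : ru a m p1 0 = 0 := by
    unfold ru
    rw [Real.zero_rpow ha.ne']
    simp [hp1]
  have hc := cmp_lemma (f := fun s => s ^ ((m : ℝ) + b) * ru a m p1 s)
    (g := fun s => K / ((m : ℝ) + (a + b) - γ) * s ^ ((m : ℝ) + (a + b) - γ))
    (f' := fun s => s ^ ((m : ℝ) + b - 1 + a) * ru a m (Bm a b m q) s)
    (g' := fun s => K * s ^ ((m : ℝ) + (a + b) - γ - 1)) hr.le
    (by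
      have h1 : Continuous fun s : ℝ => s ^ ((m : ℝ) + b) := Real.continuous_rpow_const hmb
      exact (h1.mul (ru_cont ha m p1)).continuousOn)
    (by
      have h1 : Continuous fun s : ℝ => s ^ ((m : ℝ) + (a + b) - γ) :=
        Real.continuous_rpow_const he.le
      exact (continuous_const.mul h1).continuousOn)
    (by
      intro s hs
      have hs0 : 0 < s := hs.1
      have h1 : HasDerivAt (fun s : ℝ => s ^ ((m : ℝ) + b)) (((m : ℝ) + b) * s ^ ((m : ℝ) + b - 1)) s :=
        Real.hasDerivAt_rpow_const (Or.inl hs0.ne')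
      have h2 := h1.mul (ru_deriv ha m p1 hs0)
      refine HasDerivAt.congr_deriv (f := fun s => s ^ ((m : ℝ) + b) * ru a m p1 s) h2 ?_
      have e1 : s ^ ((m : ℝ) + b) = s ^ ((m : ℝ) + b - 1) * s := by
        rw [Real.rpow_sub_one hs0.ne']; field_simp
      have e2 : s ^ ((m : ℝ) + b - 1 + a) = s ^ ((m : ℝ) + b - 1) * s ^ a := Real.rpow_add hs0 _ _
      have e3 : s ^ a * ru a m (Bm a b m q) s =
          ru a m (Tm a m p1) s + ((m : ℝ) + b) * ru a m p1 s := by
        have h3 : ru a m (Polynomial.X * Bm a b m q) s = s ^ a * ru a m (Bm a b m q) s := by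
          unfold ru
          rw [Polynomial.eval_mul, Polynomial.eval_X]
          ring
        rw [← h3, ← Tm_p1, ← hp1]
        unfold ru
        rw [Polynomial.eval_add, Polynomial.eval_mul, Polynomial.eval_C]
        ring
      rw [e1, e2, mul_assoc (s ^ ((m : ℝ) + b - 1)) (s ^ a), e3]
      field_simp
      ring)
    (by
      intro s hs
      have hs0 : 0 < s := hs.1
      have h1 : HasDerivAt (fun s : ℝ => s ^ ((m : ℝ) + (a + b) - γ))
          (((m : ℝ) + (a + b) - γ) * s ^ ((m : ℝ) + (a + b) - γ - 1)) s :=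
        Real.hasDerivAt_rpow_const (Or.inl hs0.ne')
      refine HasDerivAt.congr_deriv (h1.const_mul _) ?_
      field_simp)
    (by
      intro s hs
      have hs0 : 0 < s := hs.1
      have h1 := h s hs0 (hs.2.le.trans hr1)
      rw [abs_mul, abs_of_pos (by positivity : 0 < s ^ ((m : ℝ) + b - 1 + a))]
      calc s ^ ((m : ℝ) + b - 1 + a) * |ru a m (Bm a b m q) s|
          ≤ s ^ ((m : ℝ) + b - 1 + a) * (K * s ^ (-γ)) := by gcongr
        _ = K * (s ^ ((m : ℝ) + b - 1 + a) * s ^ (-γ)) := by ring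
        _ = K * s ^ ((m : ℝ) + (a + b) - γ - 1) := by
          rw [← Real.rpow_add hs0]
          congr 2
          ring)
  simp only [hzero, mul_zero, sub_zero, Real.zero_rpow he.ne'] at hc
  rw [abs_mul, abs_of_pos (by positivity : 0 < r ^ ((m : ℝ) + b))] at hc
  have e1 : r ^ ((m : ℝ) + (a + b) - γ) = r ^ ((m : ℝ) + b) * r ^ (a - γ) := by
    rw [← Real.rpow_add hr]; congr 1; ring
  have hp : 0 < r ^ ((m : ℝ) + b) := by positivity
  have h2 : |ru a m p1 r| ≤ K / ((m : ℝ) + (a + b) - γ) * r ^ (a - γ) := by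
    refine le_of_mul_le_mul_left ?_ hp
    calc _ ≤ _ := hc
      _ = _ := by rw [e1]; ring
  refine h2.trans ?_
  have h3 : 0 < a + b - γ := by linarith
  have h4 : a + b - γ ≤ (m : ℝ) + (a + b) - γ := by linarith
  exact mul_le_mul_of_nonneg_right (div_le_div_of_nonneg_left hK h3 h4) (by positivity)

private theorem step {a b : ℝ} (ha : 0 < a) (hb : 0 ≤ b) (m : ℕ) (q : ℝ[X]) {γ K : ℝ}
    (hγ : a / 2 ≤ γ) (hγ' : γ < a + b) (hK : 0 ≤ K)
    (h : ∀ s, 0 < s → s ≤ 1 → |ru a m (Bm a b m q) s| ≤ K * s ^ (-γ)) {r : ℝ} (hr : 0 < r)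
    (hr1 : r ≤ 1) :
    |ru a m q r| ≤ |ru a m q 1| + K * (2 / a / (a + b - γ)) * r ^ (-(γ - a / 2)) := by
  set p1 := Polynomial.C a * (Polynomial.X * Polynomial.derivative q) - Polynomial.X * q with hp1
  have hκγ : 0 < a + b - γ := by linarith
  set M : ℝ := K / (a + b - γ) * ((r ^ m)⁻¹ * r ^ (-(γ - a / 2))) with hM
  have hM0 : 0 ≤ M := by positivity
  have ha2 : 0 < a / 2 := by linarith
  have hc := cmp_lemma (f := rf a q) (g := fun s => M * (2 / a) * s ^ (a / 2))
    (f' := fun s => s⁻¹ * rf a p1 s) (g' := fun s => M * s ^ (a / 2 - 1)) hr1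
    (rf_cont ha q).continuousOn
    (by
      have h1 : Continuous fun s : ℝ => s ^ (a / 2) := Real.continuous_rpow_const ha2.le
      exact (continuous_const.mul h1).continuousOn)
    (fun s hs => rf_deriv ha q (hr.trans hs.1))
    (by
      intro s hs
      have hs0 : 0 < s := hr.trans hs.1
      have h1 : HasDerivAt (fun s : ℝ => s ^ (a / 2)) (a / 2 * s ^ (a / 2 - 1)) s :=
        Real.hasDerivAt_rpow_const (Or.inl hs0.ne')
      refine HasDerivAt.congr_deriv (h1.const_mul _) ?_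
      field_simp)
    (by
      intro s hs
      have hs0 : 0 < s := hr.trans hs.1
      have h1 := stepA ha hb m q hγ' hK h hs0 hs.2.le
      rw [← hp1, ru_eq, abs_mul, abs_of_pos (by positivity : 0 < s ^ m)] at h1
      rw [abs_mul, abs_of_pos (by positivity : 0 < s⁻¹)]
      have h2 : |rf a p1 s| ≤ K / (a + b - γ) * ((s ^ m)⁻¹ * s ^ (a - γ)) := by
        refine le_of_mul_le_mul_left ?_ (by positivity : 0 < s ^ m)
        calc _ ≤ _ := h1
          _ = _ := by field_simp
      have h3 : (s ^ m)⁻¹ ≤ (r ^ m)⁻¹ := by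
        apply inv_anti₀ (by positivity)
        exact pow_le_pow_left₀ hr.le hs.1.le m
      have h4 : s⁻¹ * s ^ (a - γ) = s ^ (a / 2 - 1) * s ^ (-(γ - a / 2)) := by
        rw [← Real.rpow_neg_one, ← Real.rpow_add hs0, ← Real.rpow_add hs0]
        congr 1
        ring
      have h5 : s ^ (-(γ - a / 2)) ≤ r ^ (-(γ - a / 2)) :=
        Real.rpow_le_rpow_of_nonpos hr hs.1.le (by linarith)
      calc s⁻¹ * |rf a p1 s| ≤ s⁻¹ * (K / (a + b - γ) * ((s ^ m)⁻¹ * s ^ (a - γ))) := by gcongr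
        _ = K / (a + b - γ) * ((s ^ m)⁻¹ * (s⁻¹ * s ^ (a - γ))) := by ring
        _ = K / (a + b - γ) * ((s ^ m)⁻¹ * (s ^ (a / 2 - 1) * s ^ (-(γ - a / 2)))) := by rw [h4]
        _ ≤ K / (a + b - γ) * ((r ^ m)⁻¹ * (s ^ (a / 2 - 1) * r ^ (-(γ - a / 2)))) := by gcongr
        _ = M * s ^ (a / 2 - 1) := by rw [hM]; ring)
  rw [Real.one_rpow, mul_one] at hc
  have h6 : |rf a q r| ≤ |rf a q 1| + M * (2 / a) := by
    have h7 : 0 ≤ M * (2 / a) * r ^ (a / 2) := by positivity
    have h8 : |rf a q r| ≤ |rf a q 1| + |rf a q 1 - rf a q r| := by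
      have := abs_sub_abs_le_abs_sub (rf a q r) (rf a q 1)
      rw [abs_sub_comm] at this
      linarith
    linarith
  have e1 : |ru a m q 1| = |rf a q 1| := by rw [ru_eq, one_pow, one_mul]
  rw [ru_eq, abs_mul, abs_of_pos (by positivity : 0 < r ^ m), e1]
  calc r ^ m * |rf a q r| ≤ r ^ m * (|rf a q 1| + M * (2 / a)) := by gcongr
    _ = r ^ m * |rf a q 1| + r ^ m * (M * (2 / a)) := by ring
    _ ≤ 1 * |rf a q 1| + r ^ m * (M * (2 / a)) := by
        gcongr
        exact pow_le_one₀ hr.le hr1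
    _ = _ := by
        rw [hM]
        field_simp

private theorem iter {a b : ℝ} (ha : 0 < a) (hb : 0 ≤ b) (n : ℕ) (hn1 : (a + b) / 2 ≤ n * (a / 2))
    (hn2 : n * (a / 2) < a + b) (i : ℕ) (hi : i ≤ n) :
    ∃ C : ℝ, 0 ≤ C ∧ ∀ (m : ℕ) (q : ℝ[X]) (r : ℝ), 0 < r → r ≤ 1 →
      |ru a m q r| ≤ C * r ^ (-(((n : ℝ) - i) * (a / 2))) *
        ∑ j ∈ Finset.range (i + 1), SS a b m ((Bm a b m)^[j] q) := by
  induction i with
  | zero =>
    refine ⟨Real.sqrt (a + b + 1), Real.sqrt_nonneg _, fun m q r hr hr1 => ?_⟩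
    refine (basic ha hb m q hr).trans ?_
    simp only [zero_add, Finset.sum_range_one, Function.iterate_zero, id, Nat.cast_zero, sub_zero]
    have := SS_nonneg a b m q
    gcongr ?_ * ?_ * _
    exact Real.rpow_le_rpow_of_exponent_ge hr hr1 (by linarith)
  | succ i ih =>
    obtain ⟨C, hC0, hC⟩ := ih (by omega)
    have hin : ((i : ℝ)) + 1 ≤ n := by exact_mod_cast hi
    have ha2 : 0 < a / 2 := by linarith
    set γ : ℝ := ((n : ℝ) - i) * (a / 2) with hγ
    have hγ1 : a / 2 ≤ γ := by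
      rw [hγ]
      have : 1 * (a / 2) ≤ ((n : ℝ) - i) * (a / 2) := by
        gcongr
        linarith
      linarith
    have hi0 : (0 : ℝ) ≤ i := by positivity
    have hγ2 : γ < a + b := by
      refine lt_of_le_of_lt ?_ hn2
      rw [hγ]
      gcongr
      linarith
    have hκγ : 0 < a + b - γ := by linarith
    refine ⟨Real.sqrt (a + b + 1) + C * (2 / a / (a + b - γ)), by positivity,
      fun m q r hr hr1 => ?_⟩
    set Sg := ∑ j ∈ Finset.range (i + 1), SS a b m ((Bm a b m)^[j] (Bm a b m q)) with hSg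
    have hSg0 : 0 ≤ Sg := Finset.sum_nonneg fun j _ => SS_nonneg a b m _
    have hsum : ∑ j ∈ Finset.range (i + 1 + 1), SS a b m ((Bm a b m)^[j] q) =
        Sg + SS a b m q := by
      rw [Finset.sum_range_succ', hSg]
      simp only [Function.iterate_succ_apply, Function.iterate_zero, id]
    have hb1 := step ha hb m q hγ1 hγ2 (K := C * Sg) (by positivity)
      (fun s hs hs1 => by
        refine (hC m (Bm a b m q) s hs hs1).trans (le_of_eq ?_)
        ring) hr hr1
    have hb2 := basic ha hb m q one_pos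
    rw [Real.one_rpow, mul_one] at hb2
    have hS0 := SS_nonneg a b m q
    have e1 : -(((n : ℝ) - ((i + 1 : ℕ) : ℝ)) * (a / 2)) = -(γ - a / 2) := by
      rw [hγ]; push_cast; ring
    rw [hsum, e1]
    have h1 : 1 ≤ r ^ (-(γ - a / 2)) := by
      rw [Real.rpow_neg hr.le]
      apply (one_le_inv₀ (by positivity)).mpr
      exact Real.rpow_le_one hr.le hr1 (by linarith)
    set R := r ^ (-(γ - a / 2)) with hR
    have hR0 : 0 ≤ R := by linarith
    have hsq : 0 ≤ Real.sqrt (a + b + 1) := Real.sqrt_nonneg _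
    set W := 2 / a / (a + b - γ) with hW
    have hW0 : 0 ≤ W := by positivity
    calc |ru a m q r| ≤ |ru a m q 1| + C * Sg * W * R := hb1
      _ ≤ Real.sqrt (a + b + 1) * SS a b m q * R + C * Sg * W * R := by
        gcongr
        calc |ru a m q 1| ≤ Real.sqrt (a + b + 1) * SS a b m q := hb2
          _ = Real.sqrt (a + b + 1) * SS a b m q * 1 := (mul_one _).symm
          _ ≤ _ := by gcongr
      _ ≤ (Real.sqrt (a + b + 1) + C * W) * R * (Sg + SS a b m q) := by
        have w1 : 0 ≤ Real.sqrt (a + b + 1) * Sg * R := by positivity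
        have w2 : 0 ≤ C * SS a b m q * W * R := by positivity
        nlinarith

private theorem ru_abs {a : ℝ} (m : ℕ) (q : ℝ[X]) {r : ℝ} (hr : 0 < r) :
    r ^ m * |q.eval (r ^ a)| * Real.exp (-(r ^ a) / a) = |ru a m q r| := by
  unfold ru
  rw [abs_mul, abs_mul, abs_of_pos (by positivity : 0 < r ^ m), Real.abs_exp, mul_assoc]

theorem radSup {a b : ℝ} (ha : 0 < a) (hb : 0 ≤ b) :
    ∃ (C : ℝ) (n : ℕ), 0 ≤ C ∧ ∀ (m : ℕ) (q : ℝ[X]) (r : ℝ), 0 < r →
      r ^ m * |q.eval (r ^ a)| * Real.exp (-(r ^ a) / a) ≤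
        C * ∑ j ∈ Finset.range (n + 1), (Real.sqrt (nsq a b m ((Bm a b m)^[j] q))
          + Real.sqrt (nsq a b m (Tm a m ((Bm a b m)^[j] q)))) := by
  have hκ : 0 < a + b := by linarith
  set n := ⌈(a + b) / a⌉₊ with hn
  have hn1 : (a + b) / 2 ≤ n * (a / 2) := by
    have := Nat.le_ceil ((a + b) / a)
    rw [div_le_iff₀ ha] at this
    linarith
  have hn2 : n * (a / 2) < a + b := by
    have := Nat.ceil_lt_add_one (div_nonneg hκ.le ha.le)
    rw [← hn] at this
    have h1 : (n : ℝ) * a < ((a + b) / a + 1) * a := by gcongr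
    rw [add_mul, div_mul_cancel₀ _ ha.ne'] at h1
    linarith
  obtain ⟨C, hC0, hC⟩ := iter ha hb n hn1 hn2 n le_rfl
  have hsq : 0 ≤ Real.sqrt (a + b + 1) := Real.sqrt_nonneg _
  refine ⟨C + Real.sqrt (a + b + 1), n, by positivity, fun m q r hr => ?_⟩
  rw [ru_abs m q hr]
  change |ru a m q r| ≤ (C + Real.sqrt (a + b + 1)) *
    ∑ j ∈ Finset.range (n + 1), SS a b m ((Bm a b m)^[j] q)
  have hS : 0 ≤ ∑ j ∈ Finset.range (n + 1), SS a b m ((Bm a b m)^[j] q) :=
    Finset.sum_nonneg fun j _ => SS_nonneg a b m _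
  rcases le_total r 1 with h | h
  · have h1 := hC m q r hr h
    rw [sub_self, zero_mul, neg_zero, Real.rpow_zero, mul_one] at h1
    nlinarith
  · have h1 := basic ha hb m q hr
    have h2 : r ^ (-((a + b) / 2)) ≤ 1 := Real.rpow_le_one_of_one_le_of_nonpos h (by linarith)
    have h3 : SS a b m q ≤ ∑ j ∈ Finset.range (n + 1), SS a b m ((Bm a b m)^[j] q) := by
      have := Finset.single_le_sum (f := fun j => SS a b m ((Bm a b m)^[j] q))
        (fun j _ => SS_nonneg a b m _) (Finset.mem_range.mpr (Nat.succ_pos n))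
      simpa using this
    have h4 := SS_nonneg a b m q
    calc |ru a m q r| ≤ Real.sqrt (a + b + 1) * r ^ (-((a + b) / 2)) * SS a b m q := h1
      _ ≤ Real.sqrt (a + b + 1) * 1 * ∑ j ∈ Finset.range (n + 1), SS a b m ((Bm a b m)^[j] q) := by
        gcongr
      _ ≤ _ := by nlinarith

theorem wr_append_rs (a b : ℝ) (m : ℕ) (w w' : List Lt) (q : ℝ[X]) :
    wr a b m (w ++ w') q = wr a b m w (wr a b m w' q) := by
  induction w with
  | nil => rfl
  | cons c w ih =>
    simp only [List.cons_append, wr]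
    rw [ih]

private theorem wr_replicate_B (a b : ℝ) (m : ℕ) (j : ℕ) (q : ℝ[X]) :
    wr a b m (List.replicate j Lt.B) q = (Bm a b m)^[j] q := by
  induction j with
  | zero => rfl
  | succ j ih =>
    rw [List.replicate_succ, Function.iterate_succ_apply']
    simp only [wr, lr]
    rw [ih]

theorem wordSup {a b : ℝ} (ha : 0 < a) (hb : 0 ≤ b) (w : List Lt) :
    ∃ (C : ℝ) (K : ℕ), 0 ≤ C ∧ ∀ (m l : ℕ) (r : ℝ), 0 < r →
      r ^ m * |(wr a b m w (qq a b m l)).eval (r ^ a)| * Real.exp (-(r ^ a) / a) ≤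
        C * (1 + m + l) ^ K * Real.sqrt (nsq a b m (qq a b m l)) := by
  obtain ⟨C, n, hC0, hC⟩ := radSup (a := a) (b := b) ha hb
  have hadd : ∀ F G : ℕ → ℕ → ℝ,
      (∃ (C : ℝ) (K : ℕ), 0 ≤ C ∧ ∀ m l : ℕ, F m l ≤
        C * (1 + m + l) ^ K * Real.sqrt (nsq a b m (qq a b m l))) →
      (∃ (C : ℝ) (K : ℕ), 0 ≤ C ∧ ∀ m l : ℕ, G m l ≤
        C * (1 + m + l) ^ K * Real.sqrt (nsq a b m (qq a b m l))) →
      (∃ (C : ℝ) (K : ℕ), 0 ≤ C ∧ ∀ m l : ℕ, F m l + G m l ≤
        C * (1 + m + l) ^ K * Real.sqrt (nsq a b m (qq a b m l))) := by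
    rintro F G ⟨C1, K1, h1, h1'⟩ ⟨C2, K2, h2, h2'⟩
    refine ⟨C1 + C2, max K1 K2, by positivity, fun m l => ?_⟩
    have e : (1 : ℝ) ≤ 1 + m + l := by
      have : (0 : ℝ) ≤ (m : ℝ) + l := by positivity
      linarith
    have s0 : 0 ≤ Real.sqrt (nsq a b m (qq a b m l)) := Real.sqrt_nonneg _
    have p1 : ((1 : ℝ) + m + l) ^ K1 ≤ (1 + m + l) ^ (max K1 K2) :=
      pow_le_pow_right₀ e (le_max_left _ _)
    have p2 : ((1 : ℝ) + m + l) ^ K2 ≤ (1 + m + l) ^ (max K1 K2) :=
      pow_le_pow_right₀ e (le_max_right _ _)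
    calc F m l + G m l ≤ C1 * (1 + m + l) ^ K1 * Real.sqrt (nsq a b m (qq a b m l)) +
          C2 * (1 + m + l) ^ K2 * Real.sqrt (nsq a b m (qq a b m l)) :=
          add_le_add (h1' m l) (h2' m l)
      _ ≤ C1 * (1 + m + l) ^ (max K1 K2) * Real.sqrt (nsq a b m (qq a b m l)) +
          C2 * (1 + m + l) ^ (max K1 K2) * Real.sqrt (nsq a b m (qq a b m l)) := by gcongr
      _ = _ := by ring
  have hsum : ∀ k : ℕ, ∃ (C : ℝ) (K : ℕ), 0 ≤ C ∧ ∀ m l : ℕ,
      (∑ j ∈ Finset.range k, (Real.sqrt (nsq a b m ((Bm a b m)^[j] (wr a b m w (qq a b m l))))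
          + Real.sqrt (nsq a b m (Tm a m ((Bm a b m)^[j] (wr a b m w (qq a b m l))))))) ≤
        C * (1 + m + l) ^ K * Real.sqrt (nsq a b m (qq a b m l)) := by
    intro k
    induction k with
    | zero => exact ⟨0, 0, le_rfl, fun m l => by simp⟩
    | succ k ih =>
      have h1 := nsq_word ha hb (List.replicate k Lt.B ++ w)
      have h2 := nsq_word ha hb (Lt.T :: (List.replicate k Lt.B ++ w))
      have e1 : ∀ m l, wr a b m (List.replicate k Lt.B ++ w) (qq a b m l) =
          (Bm a b m)^[k] (wr a b m w (qq a b m l)) := fun m l => by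
        rw [wr_append_rs, wr_replicate_B]
      have e2 : ∀ m l, wr a b m (Lt.T :: (List.replicate k Lt.B ++ w)) (qq a b m l) =
          Tm a m ((Bm a b m)^[k] (wr a b m w (qq a b m l))) := fun m l => by
        rw [← e1]; rfl
      simp only [e1] at h1
      simp only [e2] at h2
      have h3 := hadd _ _ ih (hadd _ _ h1 h2)
      simp only [Finset.sum_range_succ]
      exact h3
  obtain ⟨C', K', hC'0, hC'⟩ := hsum (n + 1)
  refine ⟨C * C', K', by positivity, fun m l r hr => ?_⟩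
  calc _ ≤ C * ∑ j ∈ Finset.range (n + 1),
        (Real.sqrt (nsq a b m ((Bm a b m)^[j] (wr a b m w (qq a b m l))))
          + Real.sqrt (nsq a b m (Tm a m ((Bm a b m)^[j] (wr a b m w (qq a b m l)))))) :=
        hC m _ r hr
    _ ≤ C * (C' * (1 + m + l) ^ K' * Real.sqrt (nsq a b m (qq a b m l))) := by
        gcongr
        exact hC' m l
    _ = _ := by ring

end KaSch
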