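import Pool.Agent.Work.MP_d717ad_an.Base

open scoped ContDiff Topology Polynomial
open MeasureTheory Set

noncomputable section

namespace KaSch

variable {N : ℕ}

/-! ### Module SPH2: weighted caps, Nikolskii inequality on the sphere -/

theorem pos_roots (D : RootData N) {α : E N} (h : α ∈ D.pos) : α ∈ D.roots := by
  obtain ⟨v, -, hv⟩ := D.pos_spec
  exact ((hv α).mp h).1

theorem wt_nonneg' (D : RootData N) (x : E N) : 0 ≤ wt D x :=
  Finset.prod_nonneg fun _ _ => Real.rpow_nonneg (abs_nonneg _) _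

theorem wt_le_of_norm (D : RootData N) {x : E N} (hx : ‖x‖ ≤ 1) :
    wt D x ≤ ∏ α ∈ D.pos, ‖α‖ ^ (2 * D.k α) := by
  unfold wt
  refine Finset.prod_le_prod (fun _ _ => Real.rpow_nonneg (abs_nonneg _) _) fun α hα => ?_
  have hk := D.k_nonneg α (pos_roots D hα)
  refine Real.rpow_le_rpow (abs_nonneg _) ?_ (by positivity)
  refine (abs_real_inner_le_norm α x).trans ?_
  exact mul_le_of_le_one_right (norm_nonneg _) hx

theorem sig_fin (D : RootData N) : IsFiniteMeasure (sig D) := by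
  unfold sig
  refine isFiniteMeasure_withDensity (ne_of_lt ?_)
  calc ∫⁻ w : Metric.sphere (0 : E N) 1, ENNReal.ofReal (wt D (w : E N))
        ∂((volume : Measure (E N)).toSphere)
      ≤ ∫⁻ _ : Metric.sphere (0 : E N) 1,
          ENNReal.ofReal (∏ α ∈ D.pos, ‖α‖ ^ (2 * D.k α)) ∂((volume : Measure (E N)).toSphere) := by
        refine lintegral_mono fun w => ENNReal.ofReal_le_ofReal (wt_le_of_norm D ?_)
        exact (mem_sphere_zero_iff_norm.mp w.2).le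
    _ < ⊤ := by
        rw [lintegral_const]
        exact ENNReal.mul_lt_top ENNReal.ofReal_lt_top (measure_lt_top _ _)

theorem exists_lower {ι : Type*} (s : Finset ι) (f : ι → ℝ) (h : ∀ i ∈ s, 0 < f i) :
    ∃ g : ℝ, 0 < g ∧ g ≤ 1 ∧ ∀ i ∈ s, g ≤ f i := by
  classical
  induction s using Finset.induction_on with
  | empty => exact ⟨1, one_pos, le_refl _, by simp⟩
  | insert j s _ ih =>
    obtain ⟨g, h1, h2, h3⟩ := ih fun i hi => h i (Finset.mem_insert_of_mem hi)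
    refine ⟨min g (f j), lt_min h1 (h j (Finset.mem_insert_self _ _)),
      (min_le_left _ _).trans h2, fun i hi => ?_⟩
    rcases Finset.mem_insert.mp hi with rfl | hi
    · exact min_le_right _ _
    · exact (min_le_left _ _).trans (h3 i hi)

/-- a generic direction -/
theorem exists_dir (D : RootData N) : ∃ (v : E N) (g : ℝ), ‖v‖ ≤ 1 ∧ 0 < g ∧ g ≤ 1 ∧
    ∀ α ∈ D.pos, g ≤ |inner ℝ α v| := by
  obtain ⟨v, hv, -⟩ := D.pos_spec
  have hn : 0 < 1 + ‖v‖ := by positivity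
  set u : E N := (1 + ‖v‖)⁻¹ • v with hu
  have hu1 : ‖u‖ ≤ 1 := by
    rw [hu, norm_smul, norm_inv, Real.norm_of_nonneg hn.le, inv_mul_le_iff₀ hn]
    linarith
  have hu2 : ∀ α ∈ D.pos, 0 < |(inner ℝ α u : ℝ)| := by
    intro α hα
    rw [hu, inner_smul_right]
    exact abs_pos.mpr (mul_ne_zero (inv_ne_zero hn.ne') (hv α (pos_roots D hα)))
  obtain ⟨g, h1, h2, h3⟩ := exists_lower D.pos (fun α => |(inner ℝ α u : ℝ)|) hu2
  exact ⟨u, g, hu1, h1, h2, h3⟩

/-- a good translate -/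
theorem exists_shift (D : RootData N) {v : E N} {g : ℝ} (hg : 0 < g)
    (hv : ∀ α ∈ D.pos, g ≤ |inner ℝ α v|) {s : ℝ} (hs : 0 < s) (x : E N) :
    ∃ t : ℝ, 0 ≤ t ∧ t ≤ s * D.pos.card ∧ ∀ α ∈ D.pos, s * g / 2 ≤ |inner ℝ α (x + t • v)| := by
  classical
  by_contra hcon
  push Not at hcon
  have h1 : ∀ j : Fin (D.pos.card + 1), ∃ α ∈ D.pos,
      |inner ℝ α (x + (s * (j : ℕ)) • v)| < s * g / 2 := by
    intro j
    refine hcon (s * (j : ℕ)) (by positivity) ?_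
    have : ((j : ℕ) : ℝ) ≤ D.pos.card := by exact_mod_cast Nat.lt_succ_iff.mp j.2
    exact mul_le_mul_of_nonneg_left this hs.le
  choose f hf1 hf2 using h1
  have hcard : D.pos.card < (Finset.univ : Finset (Fin (D.pos.card + 1))).card := by simp
  obtain ⟨i, -, j, -, hij, he⟩ := Finset.exists_ne_map_eq_of_card_lt_of_maps_to hcard
    (fun j _ => hf1 j)
  have h2 := hf2 i
  have h3 := hf2 j
  rw [← he] at h3
  have h4 := hv _ (hf1 i)
  rw [inner_add_right, inner_smul_right] at h2 h3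
  have h5 : (s * ((i : ℕ) : ℝ) - s * ((j : ℕ) : ℝ)) * inner ℝ (f i) v =
      (inner ℝ (f i) x + s * ((i : ℕ) : ℝ) * inner ℝ (f i) v) -
      (inner ℝ (f i) x + s * ((j : ℕ) : ℝ) * inner ℝ (f i) v) := by ring
  have h6 : |(s * ((i : ℕ) : ℝ) - s * ((j : ℕ) : ℝ)) * inner ℝ (f i) v| < s * g := by
    rw [h5]
    refine (abs_sub _ _).trans_lt ?_
    linarith
  have h7 : (1 : ℝ) ≤ |((i : ℕ) : ℝ) - ((j : ℕ) : ℝ)| := by
    have h8 : ((i : ℕ) : ℤ) - ((j : ℕ) : ℤ) ≠ 0 := by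
      intro h9
      apply hij
      ext
      omega
    have h9 : (1 : ℤ) ≤ |((i : ℕ) : ℤ) - ((j : ℕ) : ℤ)| := Int.one_le_abs h8
    exact_mod_cast h9
  rw [← mul_sub, abs_mul, abs_mul, abs_of_pos hs] at h6
  have h8 : s * g ≤ s * |((i : ℕ) : ℝ) - ((j : ℕ) : ℝ)| * |inner ℝ (f i) v| := by
    calc s * g = s * 1 * g := by ring
      _ ≤ _ := by gcongr
  linarith

/-- a good centre on the sphere -/
theorem exists_center (D : RootData N) {v : E N} {g : ℝ} (hv1 : ‖v‖ ≤ 1) (hg : 0 < g)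
    (hv : ∀ α ∈ D.pos, g ≤ |inner ℝ α v|) {δ : ℝ} (hδ : 0 < δ) (hδ1 : δ ≤ 1)
    (x : Metric.sphere (0 : E N) 1) :
    ∃ y : Metric.sphere (0 : E N) 1, dist y x ≤ δ / 4 ∧
      ∀ α ∈ D.pos, δ * g / (32 * (D.pos.card + 1)) ≤ |inner ℝ α (y : E N)| := by
  set M : ℝ := D.pos.card + 1 with hM
  have hM1 : 1 ≤ M := by rw [hM]; have : (0 : ℝ) ≤ D.pos.card := Nat.cast_nonneg _; linarith
  set s : ℝ := δ / (8 * M) with hs
  have hs0 : 0 < s := by positivity
  obtain ⟨t, ht0, ht1, ht2⟩ := exists_shift D hg hv hs0 (x : E N)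
  have hxn : ‖(x : E N)‖ = 1 := mem_sphere_zero_iff_norm.mp x.2
  have htδ : t ≤ δ / 8 := by
    refine ht1.trans ?_
    rw [hs]
    have h1 : (D.pos.card : ℝ) ≤ M := by rw [hM]; linarith
    calc δ / (8 * M) * (D.pos.card : ℝ) ≤ δ / (8 * M) * M := by gcongr
      _ = δ / 8 := by field_simp
  have htv : ‖t • v‖ ≤ δ / 8 := by
    rw [norm_smul, Real.norm_of_nonneg ht0]
    calc t * ‖v‖ ≤ t * 1 := by gcongr
      _ ≤ δ / 8 := by linarith
  obtain ⟨z, hz⟩ : ∃ z : E N, z = (x : E N) + t • v := ⟨_, rfl⟩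
  rw [← hz] at ht2
  have hz1 : ‖z‖ ≤ 1 + δ / 8 := by
    rw [hz]; exact (norm_add_le _ _).trans (by rw [hxn]; linarith)
  have hz2 : 1 - δ / 8 ≤ ‖z‖ := by
    have : ‖(x : E N)‖ ≤ ‖z‖ + ‖t • v‖ := by
      have e : (x : E N) = z - t • v := by rw [hz]; abel
      calc ‖(x : E N)‖ = ‖z - t • v‖ := by rw [← e]
        _ ≤ _ := norm_sub_le _ _
    rw [hxn] at this; linarith
  have hz0 : 0 < ‖z‖ := by linarith
  obtain ⟨y, hy⟩ : ∃ y : Metric.sphere (0 : E N) 1, (y : E N) = ‖z‖⁻¹ • z := ⟨⟨‖z‖⁻¹ • z, by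
    rw [mem_sphere_zero_iff_norm, norm_smul, norm_inv, norm_norm, inv_mul_cancel₀ hz0.ne']⟩, rfl⟩
  refine ⟨y, ?_, fun α hα => ?_⟩
  · rw [Subtype.dist_eq, dist_eq_norm]
    have e : ((y : E N) - x) = (‖z‖⁻¹ - 1) • z + t • v := by
      have hx : (x : E N) = z - t • v := by rw [hz]; abel
      rw [hy, hx, sub_smul, one_smul]; abel
    rw [e]
    refine (norm_add_le _ _).trans ?_
    rw [norm_smul]
    have e2 : ‖(‖z‖⁻¹ - 1 : ℝ)‖ * ‖z‖ = |1 - ‖z‖| := by
      have h1 : |(‖z‖⁻¹ - 1) * ‖z‖| = |1 - ‖z‖| := by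
        rw [sub_mul, inv_mul_cancel₀ hz0.ne', one_mul]
      rw [abs_mul, abs_of_pos hz0] at h1
      rw [Real.norm_eq_abs, h1]
    rw [e2]
    have e3 : |1 - ‖z‖| ≤ δ / 8 := abs_le.mpr ⟨by linarith, by linarith⟩
    linarith
  · rw [hy, inner_smul_right, abs_mul, abs_of_pos (inv_pos.mpr hz0)]
    have h2 := ht2 α hα
    have h3 : (1 / 2 : ℝ) ≤ ‖z‖⁻¹ := by
      rw [one_div, inv_le_inv₀ (by norm_num) hz0]; linarith
    have h4 : δ * g / (32 * M) = 1 / 2 * (s * g / 2) := by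
      rw [hs]; field_simp; ring
    rw [h4]
    exact mul_le_mul h3 h2 (by positivity) (by positivity)

/-- lower bound of the weight near a good centre -/
theorem wt_lower (D : RootData N) {e A : ℝ} (he : 0 < e) (he1 : e ≤ 1) (hA : 1 ≤ A)
    (hAα : ∀ α ∈ D.pos, ‖α‖ ≤ A) {y : E N} (hy : ∀ α ∈ D.pos, 2 * e ≤ |inner ℝ α y|)
    {w : E N} (hw : dist w y ≤ e / A) : e ^ ⌈2 * kSum D⌉₊ ≤ wt D w := by
  have hwα : ∀ α ∈ D.pos, e ≤ |inner ℝ α w| := by
    intro α hα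
    have h1 := hy α hα
    have h2 : |(inner ℝ α y : ℝ) - inner ℝ α w| ≤ e := by
      rw [← inner_sub_right]
      refine (abs_real_inner_le_norm _ _).trans ?_
      have h3 : ‖y - w‖ ≤ e / A := by
        rw [← dist_eq_norm, dist_comm]; exact hw
      calc ‖α‖ * ‖y - w‖ ≤ A * (e / A) := mul_le_mul (hAα α hα) h3 (norm_nonneg _) (by linarith)
        _ = e := by field_simp
    have h3 := abs_sub_abs_le_abs_sub (inner ℝ α y : ℝ) (inner ℝ α w)
    linarith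
  have hk : ∀ α ∈ D.pos, 0 ≤ 2 * D.k α := fun α hα => by
    have := D.k_nonneg α (pos_roots D hα); positivity
  calc e ^ ⌈2 * kSum D⌉₊ = e ^ ((⌈2 * kSum D⌉₊ : ℕ) : ℝ) := (Real.rpow_natCast _ _).symm
    _ ≤ e ^ (2 * kSum D) :=
        Real.rpow_le_rpow_of_exponent_ge he he1 (Nat.le_ceil _)
    _ = ∏ α ∈ D.pos, e ^ (2 * D.k α) := by
        rw [← Real.rpow_sum_of_pos he]
        congr 1
        unfold kSum
        rw [Finset.mul_sum]
    _ ≤ wt D w := by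
        unfold wt
        refine Finset.prod_le_prod (fun _ _ => Real.rpow_nonneg he.le _) fun α hα => ?_
        exact Real.rpow_le_rpow he.le (hwα α hα) (hk α hα)

theorem sphere_ball_lower (hN : N ≠ 0) {r : ℝ} (hr0 : 0 < r) (hr1 : r ≤ 1)
    (y : Metric.sphere (0 : E N) 1) :
    N * (r / 4) ^ N * (volume : Measure (E N)).real (Metric.ball 0 1) ≤
      (volume : Measure (E N)).toSphere.real (Metric.ball y r) := by
  have hball := Measure.toSphereBallBound_mul_measureReal_unitBall_le_toSphere_ball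
    (volume : Measure (E N)) hr0 y
  have hbound : ((Measure.toSphereBallBound (Module.finrank ℝ (E N)) r : NNReal) : ℝ) =
      N * (r / 4) ^ N := by
    rw [Measure.toSphereBallBound]
    have hmin : min (Real.toNNReal r) 2 = Real.toNNReal r := by
      apply min_eq_left
      rw [Real.toNNReal_le_iff_le_coe]; push_cast; linarith
    rw [if_pos ⟨by simpa using hN, hr0⟩, hmin]
    simp [Real.coe_toNNReal _ hr0.le]
  rwa [hbound] at hball

/-- lower bound for the weighted measure of spherical caps -/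
theorem cap_lower (hN : 2 ≤ N) (D : RootData N) : ∃ (c : ℝ) (K : ℕ), 0 < c ∧
    ∀ (δ : ℝ), 0 < δ → δ ≤ 1 → ∀ x : Metric.sphere (0 : E N) 1,
      c * δ ^ K ≤ (sig D).real (Metric.ball x δ) := by
  obtain ⟨v, g, hv1, hg, hg1, hv⟩ := exists_dir D
  obtain ⟨M, hM⟩ : ∃ M : ℝ, M = D.pos.card + 1 := ⟨_, rfl⟩
  have hM1 : 1 ≤ M := by rw [hM]; have : (0 : ℝ) ≤ D.pos.card := Nat.cast_nonneg _; linarith
  obtain ⟨A, hA⟩ : ∃ A : ℝ, A = 1 + ∑ α ∈ D.pos, ‖α‖ := ⟨_, rfl⟩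
  have hA1 : 1 ≤ A := by
    rw [hA]; have : 0 ≤ ∑ α ∈ D.pos, ‖α‖ := Finset.sum_nonneg fun _ _ => norm_nonneg _
    linarith
  have hAα : ∀ α ∈ D.pos, ‖α‖ ≤ A := by
    intro α hα
    have := Finset.single_le_sum (f := fun α : E N => ‖α‖) (fun _ _ => norm_nonneg _) hα
    rw [hA]; linarith
  obtain ⟨K1, hK1⟩ : ∃ K1 : ℕ, K1 = ⌈2 * kSum D⌉₊ := ⟨_, rfl⟩
  obtain ⟨V, hV⟩ : ∃ V : ℝ, V = (volume : Measure (E N)).real (Metric.ball 0 1) := ⟨_, rfl⟩
  have hV0 : 0 < V := by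
    rw [hV, measureReal_def]
    exact ENNReal.toReal_pos (Metric.measure_ball_pos _ _ one_pos).ne' measure_ball_lt_top.ne
  have hN0 : N ≠ 0 := by omega
  have hNpos : (0 : ℝ) < N := by positivity
  refine ⟨(g / (64 * M)) ^ K1 * (N * (g / (256 * M * A)) ^ N * V), K1 + N, by positivity, ?_⟩
  intro δ hδ hδ1 x
  have hfin := sig_fin D
  obtain ⟨y, hyx, hy⟩ := exists_center D hv1 hg hv hδ hδ1 x
  rw [← hM] at hy
  obtain ⟨e, he⟩ : ∃ e : ℝ, e = δ * g / (64 * M) := ⟨_, rfl⟩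
  have he0 : 0 < e := by rw [he]; positivity
  have heδ : e ≤ δ / 64 := by
    rw [he, div_le_div_iff₀ (by positivity) (by norm_num)]
    have h1 : g ≤ M := hg1.trans hM1
    nlinarith [mul_le_mul_of_nonneg_left h1 hδ.le]
  have hy2 : ∀ α ∈ D.pos, 2 * e ≤ |inner ℝ α (y : E N)| := by
    intro α hα
    refine le_trans (le_of_eq ?_) (hy α hα)
    rw [he]; field_simp; ring
  obtain ⟨r, hr⟩ : ∃ r : ℝ, r = e / A := ⟨_, rfl⟩
  have hr0 : 0 < r := by rw [hr]; positivity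
  have hre : r ≤ e := by rw [hr]; exact div_le_self he0.le hA1
  have hsub : Metric.ball y r ⊆ Metric.ball x δ := by
    intro w hw
    rw [Metric.mem_ball] at hw ⊢
    have := dist_triangle w y x
    linarith
  have hwt : ∀ w ∈ Metric.ball y r, e ^ K1 ≤ wt D (w : E N) := by
    intro w hw
    rw [hK1]
    refine wt_lower D he0 (by linarith) hA1 hAα hy2 ?_
    rw [← Subtype.dist_eq, ← hr]
    exact (Metric.mem_ball.mp hw).le
  have hball := sphere_ball_lower hN0 hr0 (by linarith) y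
  rw [← hV] at hball
  have hlow : ENNReal.ofReal (e ^ K1) *
      (volume : Measure (E N)).toSphere (Metric.ball y r) ≤ (sig D) (Metric.ball y r) := by
    unfold sig
    rw [withDensity_apply _ Metric.isOpen_ball.measurableSet]
    calc ENNReal.ofReal (e ^ K1) * (volume : Measure (E N)).toSphere (Metric.ball y r)
        = ∫⁻ _ in Metric.ball y r, ENNReal.ofReal (e ^ K1)
            ∂((volume : Measure (E N)).toSphere) := by rw [setLIntegral_const]
      _ ≤ _ := by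
          refine setLIntegral_mono' Metric.isOpen_ball.measurableSet fun w hw => ?_
          exact ENNReal.ofReal_le_ofReal (hwt w hw)
  have hlow2 : e ^ K1 * (volume : Measure (E N)).toSphere.real (Metric.ball y r) ≤
      (sig D).real (Metric.ball x δ) := by
    have h1 := ENNReal.toReal_mono (measure_ne_top (sig D) _) hlow
    rw [ENNReal.toReal_mul, ENNReal.toReal_ofReal (by positivity)] at h1
    refine h1.trans ?_
    exact ENNReal.toReal_mono (measure_ne_top (sig D) _) (measure_mono hsub)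
  refine le_trans (le_of_eq ?_) ((mul_le_mul_of_nonneg_left hball (by positivity)).trans hlow2)
  have e1 : e = δ * (g / (64 * M)) := by rw [he]; ring
  have e2 : r / 4 = δ * (g / (256 * M * A)) := by rw [hr, he]; field_simp; ring
  rw [e2, e1, mul_pow, mul_pow, pow_add]
  ring

/-- the Nikolskii inequality, from a Lipschitz bound -/
theorem nikolskii_of (hN : 2 ≤ N) (D : RootData N)
    (hlip : ∃ C : ℝ, 0 ≤ C ∧ ∀ (m : ℕ) (p : E N → ℂ), p ∈ Hom N m → ∀ M : ℝ,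
      (∀ x : E N, ‖x‖ = 1 → ‖p x‖ ≤ M) → ∀ x y : E N, ‖x‖ ≤ 1 → ‖y‖ ≤ 1 →
      ‖p x - p y‖ ≤ C * (m + 1) ^ 2 * M * ‖x - y‖) : ∃ (C : ℝ) (K : ℕ), 0 ≤ C ∧
    ∀ (m : ℕ) (p : E N → ℂ), p ∈ Hom N m → ∀ x : E N, ‖x‖ = 1 →
      ‖p x‖ ^ 2 ≤ C * (m + 1) ^ K * ∫ w : Metric.sphere (0 : E N) 1, ‖p w‖ ^ 2 ∂(sig D) := by
  obtain ⟨C, hC, hL⟩ := hlip
  obtain ⟨c, K, hc, hcap⟩ := cap_lower hN D
  have hfin := sig_fin D
  refine ⟨4 / c * (2 * (C + 1)) ^ K, 2 * K, by positivity, fun m p hp x hx => ?_⟩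
  have hcont : Continuous p := by
    obtain ⟨P, -, hP⟩ := hp
    have : p = fun x => MvPolynomial.eval (fun i => ((x i : ℝ) : ℂ)) P := funext hP
    rw [this]
    refine (MvPolynomial.continuous_eval P).comp (continuous_pi fun i => ?_)
    exact Complex.continuous_ofReal.comp (by fun_prop)
  have hcomp : IsCompact (Metric.sphere (0 : E N) 1) := isCompact_sphere _ _
  obtain ⟨x0, hx0, hmax⟩ := hcomp.exists_isMaxOn ⟨x, mem_sphere_zero_iff_norm.mpr hx⟩
    hcont.norm.continuousOn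
  set M : ℝ := ‖p x0‖ with hM
  have hM0 : 0 ≤ M := norm_nonneg _
  have hb : ∀ y : E N, ‖y‖ = 1 → ‖p y‖ ≤ M := fun y hy =>
    hmax (mem_sphere_zero_iff_norm.mpr hy)
  have hx0n : ‖x0‖ = 1 := mem_sphere_zero_iff_norm.mp hx0
  set G : ℝ := 2 * (C + 1) * (m + 1) ^ 2 with hG
  have hm : (1 : ℝ) ≤ (m + 1 : ℝ) ^ 2 := one_le_pow₀ (by have : (0 : ℝ) ≤ m := Nat.cast_nonneg m; linarith)
  have hG1 : 1 ≤ G := by rw [hG]; nlinarith
  have hδ0 : 0 < G⁻¹ := by positivity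
  have hδ1 : G⁻¹ ≤ 1 := inv_le_one_of_one_le₀ hG1
  have hcap' := hcap G⁻¹ hδ0 hδ1 ⟨x0, hx0⟩
  have hlow : ∀ w ∈ Metric.ball (⟨x0, hx0⟩ : Metric.sphere (0 : E N) 1) G⁻¹,
      M ^ 2 / 4 ≤ ‖p w‖ ^ 2 := by
    intro w hw
    have hwn : ‖(w : E N)‖ = 1 := mem_sphere_zero_iff_norm.mp w.2
    have h1 := hL m p hp M hb x0 w hx0n.le hwn.le
    have h2 : ‖x0 - (w : E N)‖ ≤ G⁻¹ := by
      rw [← dist_eq_norm, dist_comm]
      exact (Metric.mem_ball.mp hw).le
    have h3 : C * (m + 1) ^ 2 * M * ‖x0 - (w : E N)‖ ≤ M / 2 := by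
      calc C * (m + 1) ^ 2 * M * ‖x0 - (w : E N)‖ ≤ (C + 1) * (m + 1) ^ 2 * M * G⁻¹ := by
            gcongr; linarith
        _ = M / 2 := by rw [hG]; field_simp
    have h4 : M ≤ ‖p w‖ + ‖p x0 - p w‖ := by
      have := norm_add_le (p w) (p x0 - p w)
      rw [add_sub_cancel] at this
      exact this
    have h5 : M / 2 ≤ ‖p w‖ := by linarith
    nlinarith [norm_nonneg (p w)]
  have hint : Integrable (fun w : Metric.sphere (0 : E N) 1 => ‖p w‖ ^ 2) (sig D) := by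
    refine Integrable.of_bound (C := M ^ 2)
      (((hcont.comp continuous_subtype_val).norm.pow 2).aestronglyMeasurable)
      (Filter.Eventually.of_forall fun w => ?_)
    rw [norm_pow, norm_norm]
    exact pow_le_pow_left₀ (norm_nonneg _) (hb w (mem_sphere_zero_iff_norm.mp w.2)) 2
  have hI : M ^ 2 / 4 * (sig D).real (Metric.ball ⟨x0, hx0⟩ G⁻¹) ≤
      ∫ w : Metric.sphere (0 : E N) 1, ‖p w‖ ^ 2 ∂(sig D) := by
    calc M ^ 2 / 4 * (sig D).real (Metric.ball ⟨x0, hx0⟩ G⁻¹)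
        = ∫ _ in Metric.ball (⟨x0, hx0⟩ : Metric.sphere (0 : E N) 1) G⁻¹, M ^ 2 / 4 ∂(sig D) := by
          rw [setIntegral_const, smul_eq_mul, mul_comm]
      _ ≤ ∫ w in Metric.ball (⟨x0, hx0⟩ : Metric.sphere (0 : E N) 1) G⁻¹, ‖p w‖ ^ 2 ∂(sig D) :=
          setIntegral_mono_on (integrable_const _).integrableOn hint.integrableOn
            Metric.isOpen_ball.measurableSet hlow
      _ ≤ _ := setIntegral_le_integral hint (Filter.Eventually.of_forall fun w => sq_nonneg _)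
  set I : ℝ := ∫ w : Metric.sphere (0 : E N) 1, ‖p w‖ ^ 2 ∂(sig D) with hIdef
  have hxM : ‖p x‖ ^ 2 ≤ M ^ 2 := pow_le_pow_left₀ (norm_nonneg _) (hb x hx) 2
  refine hxM.trans ?_
  have h1 : M ^ 2 / 4 * (c * G⁻¹ ^ K) ≤ I :=
    (mul_le_mul_of_nonneg_left hcap' (by positivity)).trans hI
  have h2 : M ^ 2 = 4 / c * G ^ K * (M ^ 2 / 4 * (c * G⁻¹ ^ K)) := by
    rw [inv_pow]; field_simp
  calc M ^ 2 = 4 / c * G ^ K * (M ^ 2 / 4 * (c * G⁻¹ ^ K)) := h2
    _ ≤ 4 / c * G ^ K * I := by gcongr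
    _ = 4 / c * (2 * (C + 1)) ^ K * (m + 1) ^ (2 * K) * I := by
        rw [hG, mul_pow, ← pow_mul]; ring

end KaSch
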