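import Pool.Agent.Work.MP_d717ad_an.Sph1
import Pool.Agent.Work.MP_d717ad_an.Sph2

open scoped ContDiff Topology Polynomial
open MeasureTheory Set

noncomputable section

namespace KaSch

variable {N : ℕ}

/-- Nikolskii inequality -/
theorem nikolskii (hN : 2 ≤ N) (D : RootData N) : ∃ (C : ℝ) (K : ℕ), 0 ≤ C ∧
    ∀ (m : ℕ) (p : E N → ℂ), p ∈ Hom N m → ∀ x : E N, ‖x‖ = 1 →
      ‖p x‖ ^ 2 ≤ C * (m + 1) ^ K * ∫ w : Metric.sphere (0 : E N) 1, ‖p w‖ ^ 2 ∂(sig D) :=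
  nikolskii_of hN D (hom_lip N)

end KaSch
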