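import Pool.Agent.Work.MP_d717ad_an.Base
import Pool.Agent.Work.MP_d717ad_an.Hom1
import Pool.Agent.Work.MP_d717ad_an.Rel2
import Pool.Agent.Work.MP_d717ad_an.Sph
import Pool.Agent.Work.MP_d717ad_an.RadSup

open scoped ContDiff Topology Polynomial
open MeasureTheory Set

noncomputable section

namespace KaSch

variable {N : ℕ}

/-! ### Module WB: uniform bounds for words applied to the eigenfunctions -/

/-- the `L²` norm of `PF p (qq m l)`, i.e. `√(∫_S |p|² w) √nsq` -/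
def en (D : RootData N) (a : ℝ) (m l : ℕ) (p : E N → ℂ) : ℝ :=
  Real.sqrt (∫ w : Metric.sphere (0 : E N) 1, ‖p w‖ ^ 2 ∂(sig D)) *
    Real.sqrt (nsq a (bb D) m (qq a (bb D) m l))

/-- the rotations of a word applied to `p` -/
def rz : List (Option (Fin N × Fin N)) → (E N → ℂ) → (E N → ℂ)
  | [], p => p
  | none :: z, p => rz z p
  | some (i, j) :: z, p => rot i j (rz z p)

/-- the number of `Θ` in a word -/
def tz : List (Option (Fin N × Fin N)) → ℕ
  | [] => 0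
  | none :: z => tz z + 1
  | some _ :: z => tz z

/-- the number of rotations in a word -/
def cz : List (Option (Fin N × Fin N)) → ℕ
  | [] => 0
  | none :: z => cz z
  | some _ :: z => cz z + 1

theorem rz_hom (z : List (Option (Fin N × Fin N))) {m : ℕ} {p : E N → ℂ} (hp : p ∈ Hom N m) :
    rz z p ∈ Hom N m := by
  induction z with
  | nil => exact hp
  | cons c z ih =>
    match c with
    | none => exact ih
    | some (i, j) => exact hom_rot ih i j

theorem inner_rotvec (i j : Fin N) (x : E N) :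
    (inner ℝ x (x i • ee j - x j • ee i) : ℝ) = 0 := by
  rw [inner_sub_right, inner_smul_right, inner_smul_right]
  unfold ee
  rw [EuclideanSpace.inner_single_right, EuclideanSpace.inner_single_right]
  simp
  ring

theorem rot_PF {a : ℝ} (ha : 0 < a) {m : ℕ} {p : E N → ℂ} (hp : p ∈ Hom N m) (q : ℝ[X])
    (i j : Fin N) {x : E N} (hx : x ≠ 0) : rot i j (PF a p q) x = PF a (rot i j p) q x := by
  have hr : 0 < ‖x‖ := norm_pos_iff.mpr hx
  set v : E N := x i • ee j - x j • ee i with hv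
  have hpd : HasFDerivAt p (fderiv ℝ p x) x :=
    ((hom_contDiff hp).differentiable (by simp) x).hasFDerivAt
  -- the radial factor has zero derivative along `v`
  have hn : HasFDerivAt (fun y : E N => ‖y‖) (fderiv ℝ (fun y : E N => ‖y‖) x) x :=
    ((contDiffAt_norm ℝ hx).differentiableAt (n := 1) (by simp)).hasFDerivAt
  have hnv : fderiv ℝ (fun y : E N => ‖y‖) x v = 0 := by
    have h1 : HasFDerivAt (fun y : E N => ‖y‖ ^ 2) (2 • innerSL ℝ x) x :=
      (hasStrictFDerivAt_norm_sq x).hasFDerivAt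
    have h2 : HasFDerivAt (fun y : E N => ‖y‖ ^ 2)
        ((2 * ‖x‖ ^ (2 - 1)) • fderiv ℝ (fun y : E N => ‖y‖) x) x := by
      simpa using hn.pow 2
    have h3 := h1.unique h2
    have h4 := congrArg (fun L => L v) h3
    simp only [_root_.smul_apply, innerSL_apply_apply, smul_eq_mul] at h4
    rw [hv, inner_rotvec, smul_zero] at h4
    rw [← hv] at h4
    have h5 : (2 * ‖x‖ ^ (2 - 1)) ≠ 0 := by positivity
    rcases mul_eq_zero.mp h4.symm with h | h
    · exact absurd h h5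
    · exact h
  have hchi : DifferentiableAt ℝ (Rel2Aux.phi a q) ‖x‖ :=
    ((Rel2Aux.phi_contDiffOn a q).contDiffAt (isOpen_Ioi.mem_nhds hr)).differentiableAt (by simp)
  have hg : HasFDerivAt (fun y : E N => ((Rel2Aux.phi a q ‖y‖ : ℝ) : ℂ))
      (Complex.ofRealCLM.comp (deriv (Rel2Aux.phi a q) ‖x‖ • fderiv ℝ (fun y : E N => ‖y‖) x)) x :=
    (Complex.ofRealCLM.hasFDerivAt (x := Rel2Aux.phi a q ‖x‖)).comp x (hchi.hasDerivAt.comp_hasFDerivAt x hn)
  have hPF : PF a p q = fun y => p y * ((Rel2Aux.phi a q ‖y‖ : ℝ) : ℂ) := rfl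
  have h6 := hpd.fun_mul hg
  show fderiv ℝ (PF a p q) x v = PF a (rot i j p) q x
  rw [hPF, h6.fderiv]
  simp only [_root_.add_apply, _root_.smul_apply, ContinuousLinearMap.comp_apply, hnv, smul_eq_mul,
    mul_zero, map_zero, zero_add]
  show ((Rel2Aux.phi a q ‖x‖ : ℝ) : ℂ) * fderiv ℝ p x v = rot i j p x * ((Rel2Aux.phi a q ‖x‖ : ℝ) : ℂ)
  rw [mul_comm]
  rfl

theorem theta_PF {a : ℝ} (ha : 0 < a) {m : ℕ} {p : E N → ℂ} (hp : p ∈ Hom N m) (q : ℝ[X])
    {x : E N} (hx : x ≠ 0) : fderiv ℝ (PF a p q) x x = PF a p (Tm a m q) x := by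
  have h1 := congrArg (fun f : V N => f.1 x) (opT_PV a ha hp q)
  simp only [opT_apply] at h1
  rw [PV_apply a hp _ hx] at h1
  rw [← h1]
  have h2 : (PV a hp q).1 =ᶠ[𝓝 x] PF a p q := by
    filter_upwards [isOpen_compl_singleton.mem_nhds (show x ∈ ({0}ᶜ : Set (E N)) from hx)] with y hy
    exact PV_apply a hp q hy
  rw [h2.fderiv_eq]

theorem zw_PF {a : ℝ} (ha : 0 < a) {m : ℕ} {p : E N → ℂ} (hp : p ∈ Hom N m) (q : ℝ[X])
    (z : List (Option (Fin N × Fin N))) :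
    ∀ x : E N, x ≠ 0 → zw z (PV a hp q).1 x = PF a (rz z p) ((Tm a m)^[tz z] q) x := by
  induction z with
  | nil => intro x hx; exact PV_apply a hp q hx
  | cons c z ih =>
    intro x hx
    have hev : zw z (PV a hp q).1 =ᶠ[𝓝 x] PF a (rz z p) ((Tm a m)^[tz z] q) := by
      filter_upwards [isOpen_compl_singleton.mem_nhds (show x ∈ ({0}ᶜ : Set (E N)) from hx)]
        with y hy
      exact ih y hy
    match c with
    | none =>
      show fderiv ℝ (zw z (PV a hp q).1) x x = PF a (rz z p) ((Tm a m)^[tz z + 1] q) x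
      rw [hev.fderiv_eq, theta_PF ha (rz_hom z hp) _ hx, Function.iterate_succ_apply']
    | some (i, j) =>
      show fderiv ℝ (zw z (PV a hp q).1) x (x i • ee j - x j • ee i) =
        PF a (rot i j (rz z p)) ((Tm a m)^[tz z] q) x
      rw [hev.fderiv_eq]
      exact rot_PF ha (rz_hom z hp) _ i j hx

theorem wr_replicate (a b : ℝ) (m : ℕ) (w : List Lt) (q : ℝ[X]) (n : ℕ) :
    wr a b m (List.replicate n Lt.T ++ w) q = (Tm a m)^[n] (wr a b m w q) := by
  induction n with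
  | zero => rfl
  | succ n ih =>
    rw [List.replicate_succ, Function.iterate_succ_apply']
    show Tm a m (wr a b m (List.replicate n Lt.T ++ w) q) = _
    rw [ih]

theorem rz_bound {m : ℕ} {p : E N → ℂ} (hp : p ∈ Hom N m) {M : ℝ}
    (hM : ∀ x : E N, ‖x‖ = 1 → ‖p x‖ ≤ M) (z : List (Option (Fin N × Fin N))) :
    ∀ x : E N, ‖x‖ = 1 → ‖rz z p x‖ ≤ ((m : ℝ) * (m + 1)) ^ cz z * M := by
  induction z with
  | nil => intro x hx; simpa [rz, cz] using hM x hx
  | cons c z ih =>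
    match c with
    | none => exact ih
    | some (i, j) =>
      intro x hx
      have h := rot_bound (rz_hom z hp) ih i j x hx
      show ‖rot i j (rz z p) x‖ ≤ ((m : ℝ) * (m + 1)) ^ (cz z + 1) * M
      calc _ ≤ _ := h
        _ = _ := by ring

/-- words in `Θ` and rotations applied to `p · (word in A, B, Θ applied to qq)`:
`(Θ^i)(rotations)(p q(r^a)e^{-r^a/a}) = (rotations p)(Tm^i q)(r^a)e^{-r^a/a}` on `{0}ᶜ`; then
`wordSup` (word `T^i w`), `rot_bound`, `nikolskii`, homogeneity -/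
theorem wb (hN : 2 ≤ N) (D : RootData N) {a : ℝ} (ha : 0 < a) (w : List Lt)
    (z : List (Option (Fin N × Fin N))) :
    ∃ (C : ℝ) (K : ℕ), 0 ≤ C ∧ ∀ (m l : ℕ) (p : E N → ℂ) (hp : p ∈ Hom N m) (x : E N), x ≠ 0 →
        ‖zw z (PV a hp (wr a (bb D) m w (qq a (bb D) m l))).1 x‖ ≤
          C * (1 + m + l) ^ K * en D a m l p := by
  obtain ⟨C₁, K₁, hC₁, h₁⟩ := wordSup ha (bb_nonneg hN D) (List.replicate (tz z) Lt.T ++ w)
  obtain ⟨C₂, K₂, hC₂, h₂⟩ := nikolskii hN D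
  refine ⟨Real.sqrt C₂ * C₁, 2 * cz z + K₂ + K₁, by positivity, ?_⟩
  intro m l p hp x hx
  have hr : 0 < ‖x‖ := norm_pos_iff.mpr hx
  rw [zw_PF ha hp _ z x hx, ← wr_replicate]
  set Q := wr a (bb D) m (List.replicate (tz z) Lt.T ++ w) (qq a (bb D) m l) with hQ
  set I := ∫ w : Metric.sphere (0 : E N) 1, ‖p w‖ ^ 2 ∂(sig D) with hI
  have hI0 : 0 ≤ I := integral_nonneg fun _ => by positivity
  set M := Real.sqrt (C₂ * (m + 1) ^ K₂ * I) with hMdef
  have hM : ∀ y : E N, ‖y‖ = 1 → ‖p y‖ ≤ M := fun y hy =>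
    Real.le_sqrt_of_sq_le (h₂ m p hp y hy)
  have h3 := rz_bound hp hM z (‖x‖⁻¹ • x) (by rw [norm_smul, norm_inv, norm_norm]; field_simp)
  have h4 : ‖rz z p x‖ ≤ ‖x‖ ^ m * (((m : ℝ) * (m + 1)) ^ cz z * M) := by
    have h5 : x = ‖x‖ • (‖x‖⁻¹ • x) := by rw [smul_smul, mul_inv_cancel₀ hr.ne', one_smul]
    calc ‖rz z p x‖ = ‖rz z p (‖x‖ • (‖x‖⁻¹ • x))‖ := by rw [← h5]
      _ = ‖x‖ ^ m * ‖rz z p (‖x‖⁻¹ • x)‖ := by
        rw [hom_smul (rz_hom z hp), norm_mul, Complex.norm_real, Real.norm_of_nonneg (by positivity)]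
      _ ≤ _ := by gcongr
  have h6 := h₁ m l ‖x‖ hr
  rw [← hQ] at h6
  have hPFn : ‖PF a (rz z p) Q x‖ =
      ‖rz z p x‖ * (|Q.eval (‖x‖ ^ a)| * Real.exp (-(‖x‖ ^ a) / a)) := by
    unfold PF
    rw [norm_mul, Complex.norm_real, norm_mul, Real.norm_eq_abs,
      Real.norm_of_nonneg (Real.exp_pos _).le]
  rw [hPFn]
  have hML : M ≤ Real.sqrt C₂ * (1 + m + l) ^ K₂ * Real.sqrt I := by
    rw [hMdef, Real.sqrt_mul (by positivity), Real.sqrt_mul hC₂]
    have h7 : Real.sqrt (((m : ℝ) + 1) ^ K₂) ≤ (1 + m + l) ^ K₂ := by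
      rw [Real.sqrt_le_left (by positivity)]
      have h8 : (1 : ℝ) ≤ (1 + m + l) ^ K₂ := one_le_pow₀ (by
        have : (0:ℝ) ≤ m := by positivity
        have : (0:ℝ) ≤ l := by positivity
        linarith)
      calc ((m : ℝ) + 1) ^ K₂ ≤ (1 + m + l) ^ K₂ := by
            apply pow_le_pow_left₀ (by positivity)
            have : (0:ℝ) ≤ l := by positivity
            linarith
        _ = (1 + m + l) ^ K₂ * 1 := by ring
        _ ≤ (1 + m + l) ^ K₂ * (1 + m + l) ^ K₂ := by gcongr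
        _ = _ := by ring
    gcongr
  have hrot : ((m : ℝ) * (m + 1)) ^ cz z ≤ (1 + m + l) ^ (2 * cz z) := by
    rw [pow_mul]
    apply pow_le_pow_left₀ (by positivity)
    have h9 : (0:ℝ) ≤ m := by positivity
    have h10 : (0:ℝ) ≤ l := by positivity
    nlinarith [mul_nonneg h9 h10]
  set X : ℝ := 1 + m + l with hX
  have hX0 : 0 ≤ X := by positivity
  have hM0 : 0 ≤ M := Real.sqrt_nonneg _
  calc ‖rz z p x‖ * (|Q.eval (‖x‖ ^ a)| * Real.exp (-(‖x‖ ^ a) / a))
      ≤ (‖x‖ ^ m * (((m : ℝ) * (m + 1)) ^ cz z * M)) *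
          (|Q.eval (‖x‖ ^ a)| * Real.exp (-(‖x‖ ^ a) / a)) := by gcongr
    _ = (((m : ℝ) * (m + 1)) ^ cz z * M) *
          (‖x‖ ^ m * |Q.eval (‖x‖ ^ a)| * Real.exp (-(‖x‖ ^ a) / a)) := by ring
    _ ≤ (X ^ (2 * cz z) * (Real.sqrt C₂ * X ^ K₂ * Real.sqrt I)) *
          (C₁ * X ^ K₁ * Real.sqrt (nsq a (bb D) m (qq a (bb D) m l))) := by
        gcongr
    _ = Real.sqrt C₂ * C₁ * X ^ (2 * cz z + K₂ + K₁) * en D a m l p := by
        unfold en; rw [← hI, pow_add, pow_add]; ring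

end KaSch
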