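import Pool.Agent.Work.MP_d717ad_an.Base
import Pool.Agent.Work.MP_d717ad_an.Old
import Pool.Agent.Work.MP_d717ad_an.Hom1
import Pool.Agent.Work.MP_d717ad_an.Hom2
import Pool.Agent.Work.MP_d717ad_an.Rel1
import Pool.Agent.Work.MP_d717ad_an.Rel2
import Pool.Agent.Work.MP_d717ad_an.Polar1
import Pool.Agent.Work.MP_d717ad_an.Polar2
import Pool.Agent.Work.MP_d717ad_an.Ibp1
import Pool.Agent.Work.MP_d717ad_an.Ibp2
import Pool.Agent.Work.MP_d717ad_an.Sym
import Pool.Agent.Work.MP_d717ad_an.RadAlg1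
import Pool.Agent.Work.MP_d717ad_an.RadAlg2
import Pool.Agent.Work.MP_d717ad_an.Wb
import Pool.Agent.Work.MP_d717ad_an.SumSm1
import Pool.Agent.Work.MP_d717ad_an.SumSm2
import Pool.Agent.Work.MP_d717ad_an.Comp1
import Pool.Agent.Work.MP_d717ad_an.Comp2
import Pool.Agent.Work.MP_d717ad_an.Pbw
import Pool.Agent.Work.MP_d717ad_an.Hsp

open scoped ContDiff Topology Polynomial InnerProductSpace
open MeasureTheory Set

noncomputable section

namespace KaSch

variable {N : ℕ}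

/-! ### harmonics as a submodule -/

theorem T_add_fun (D : RootData N) (ξ : E N) {f g : E N → ℂ} (hf : ContDiff ℝ ∞ f)
    (hg : ContDiff ℝ ∞ g) : T D ξ (f + g) = T D ξ f + T D ξ g := by
  funext x
  exact T_add D ξ (hf.differentiable (by simp) x) (hg.differentiable (by simp) x)

theorem T_smul_fun (D : RootData N) (ξ : E N) {f : E N → ℂ} (hf : ContDiff ℝ ∞ f) (c : ℂ) :
    T D ξ (c • f) = c • T D ξ f := by
  funext x
  exact T_const_mul D ξ (hf.differentiable (by simp) x) c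

theorem Lap_add_fun (D : RootData N) {f g : E N → ℂ} (hf : ContDiff ℝ ∞ f)
    (hg : ContDiff ℝ ∞ g) (x : E N) : Lap D (f + g) x = Lap D f x + Lap D g x := by
  unfold Lap
  rw [← Finset.sum_add_distrib]
  refine Finset.sum_congr rfl fun j _ => ?_
  rw [T_add_fun D _ hf hg, T_add_fun D _ (T_contDiff D _ hf) (T_contDiff D _ hg)]
  rfl

theorem Lap_smul_fun (D : RootData N) {f : E N → ℂ} (hf : ContDiff ℝ ∞ f) (c : ℂ) (x : E N) :
    Lap D (c • f) x = c * Lap D f x := by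
  unfold Lap
  rw [Finset.mul_sum]
  refine Finset.sum_congr rfl fun j _ => ?_
  rw [T_smul_fun D _ hf, T_smul_fun D _ (T_contDiff D _ hf)]
  rfl

/-- the submodule of `k`-harmonics of degree `m` -/
def HarmS (D : RootData N) (m : ℕ) : Submodule ℂ (E N → ℂ) where
  carrier := Harm D m
  add_mem' := by
    rintro f g ⟨hf, hf'⟩ ⟨hg, hg'⟩
    refine ⟨(Hom N m).add_mem hf hg, fun x => ?_⟩
    rw [Lap_add_fun D (hom_contDiff hf) (hom_contDiff hg), hf', hg', add_zero]
  zero_mem' := by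
    refine ⟨(Hom N m).zero_mem, fun x => ?_⟩
    have := Lap_smul_fun D (f := (0 : E N → ℂ)) contDiff_const 0 x
    simpa using this
  smul_mem' := by
    rintro c f ⟨hf, hf'⟩
    refine ⟨(Hom N m).smul_mem c hf, fun x => ?_⟩
    rw [Lap_smul_fun D (hom_contDiff hf), hf', mul_zero]

theorem harmS_le (D : RootData N) (m : ℕ) : HarmS D m ≤ Hom N m := fun _ h => h.1

theorem hH {D : RootData N} {m : ℕ} (p : HarmS D m) : p.1 ∈ Hom N m := (harmS_le D m) p.2

theorem hL {D : RootData N} {m : ℕ} (p : HarmS D m) : ∀ x, Lap D p.1 x = 0 := p.2.2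

theorem hHarm {D : RootData N} {m : ℕ} (p : HarmS D m) : p.1 ∈ Harm D m := p.2

theorem hm1 {D : RootData N} {m : ℕ} {p : E N → ℂ} (hp : p ∈ Harm D m) : p ∈ Hom N m := hp.1

instance harmS_fin (D : RootData N) (m : ℕ) : FiniteDimensional ℂ (HarmS D m) := by
  have := hom_finite N m
  exact FiniteDimensional.of_injective (Submodule.inclusion (harmS_le D m))
    (Submodule.inclusion_injective _)

/-- `PV` as a linear map in `p` -/
theorem PV_add (a : ℝ) {m : ℕ} {p p' : E N → ℂ} (hp : p ∈ Hom N m) (hp' : p' ∈ Hom N m)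
    (q : ℝ[X]) : PV a ((Hom N m).add_mem hp hp') q = PV a hp q + PV a hp' q := by
  apply vext
  intro x hx
  simp [PV, cut_apply _ hx, PF, add_mul]

theorem PV_smul (a : ℝ) {m : ℕ} {p : E N → ℂ} (hp : p ∈ Hom N m) (c : ℂ)
    (q : ℝ[X]) : PV a ((Hom N m).smul_mem c hp) q = c • PV a hp q := by
  apply vext
  intro x hx
  simp [PV, cut_apply _ hx, PF, mul_assoc]

theorem PV_add_q (a : ℝ) {m : ℕ} {p : E N → ℂ} (hp : p ∈ Hom N m)
    (q q' : ℝ[X]) : PV a hp (q + q') = PV a hp q + PV a hp q' := by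
  apply vext
  intro x hx
  simp [PV, cut_apply _ hx, PF, add_mul, mul_add]

theorem PV_smul_q (a : ℝ) {m : ℕ} {p : E N → ℂ} (hp : p ∈ Hom N m) (c : ℝ)
    (q : ℝ[X]) : PV a hp (Polynomial.C c * q) = (c : ℂ) • PV a hp q := by
  apply vext
  intro x hx
  simp [PV, cut_apply _ hx, PF]
  ring

theorem PV_congr (a : ℝ) {m : ℕ} {p p' : E N → ℂ} (hp : p ∈ Hom N m) (hp' : p' ∈ Hom N m)
    (h : p = p') {q q' : ℝ[X]} (hq : q = q') : PV a hp q = PV a hp' q' := by
  subst h; subst hq; rfl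

/-- the conjugate of `PV` -/
theorem PV_conj (a : ℝ) {m : ℕ} {p : E N → ℂ} (hp : p ∈ Hom N m) (q : ℝ[X]) (x : E N) :
    (starRingEnd ℂ) ((PV a hp q).1 x) = (PV a (hom_conj hp) q).1 x := by
  by_cases hx : x = 0
  · subst hx; rw [vzero, vzero, map_zero]
  · simp only [PV, cut_apply _ hx, PF, map_mul, Complex.conj_ofReal]

/-- `L²` class -/
def cls (hN : 2 ≤ N) (D : RootData N) {a : ℝ} (ha : 0 < a) (f : V N) (hf : Decay a f.1) : L2c D a :=
  (decay_memLp hN D ha f hf).toLp f.1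

theorem cls_ae (hN : 2 ≤ N) (D : RootData N) {a : ℝ} (ha : 0 < a) (f : V N) (hf : Decay a f.1) :
    cls hN D ha f hf =ᵐ[mu D a] f.1 := MemLp.coeFn_toLp _

/-- embedding of harmonics -/
def emb (hN : 2 ≤ N) (D : RootData N) {a : ℝ} (ha : 0 < a) (m : ℕ) (q : ℝ[X]) :
    HarmS D m →ₗ[ℂ] L2c D a where
  toFun p := cls hN D ha (PV a (hH p) q) (PV_decay hN ha (hH p) q)
  map_add' p p' := by
    unfold cls
    rw [← MemLp.toLp_add]
    congr 1
    exact congrArg Subtype.val (PV_add a (hH p) (hH p') q)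
  map_smul' c p := by
    unfold cls
    rw [RingHom.id_apply, ← MemLp.toLp_const_smul]
    congr 1
    exact congrArg Subtype.val (PV_smul a (hH p) c q)

theorem emb_ae (hN : 2 ≤ N) (D : RootData N) {a : ℝ} (ha : 0 < a) (m : ℕ) (q : ℝ[X])
    (p : HarmS D m) : emb hN D ha m q p =ᵐ[mu D a] (PV a (hH p) q).1 :=
  cls_ae hN D ha (PV a (hH p) q) (PV_decay hN ha (hH p) q)

theorem inner_cls (hN : 2 ≤ N) (D : RootData N) {a : ℝ} (ha : 0 < a) (m : ℕ) (q : ℝ[X])
    (p : HarmS D m) (g : L2c D a) :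
    ⟪emb hN D ha m q p, g⟫_ℂ = ∫ x, (PV a (hom_conj (hH p)) q).1 x * g x ∂(mu D a) := by
  rw [L2.inner_def]
  refine integral_congr_ae ?_
  filter_upwards [emb_ae hN D ha m q p] with x hx
  rw [hx, ← PV_conj a (hH p)]
  simp [mul_comm]

theorem inner_emb (hN : 2 ≤ N) (D : RootData N) {a : ℝ} (ha : 0 < a) {m m' : ℕ} (q q' : ℝ[X])
    (p : HarmS D m) (p' : HarmS D m') :
    ⟪emb hN D ha m q p, emb hN D ha m' q' p'⟫_ℂ =
      (∫ w : Metric.sphere (0 : E N) 1, (starRingEnd ℂ) (p.1 w) * p'.1 w ∂(sig D)) *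
      ((∫ r in Ioi (0 : ℝ), (r ^ m * (q.eval (r ^ a) * Real.exp (-(r ^ a) / a))) *
        (r ^ m' * (q'.eval (r ^ a) * Real.exp (-(r ^ a) / a))) * r ^ (kap D a - 1) : ℝ) : ℂ) := by
  rw [← inner_PF hN D ha (hH p) (hH p'), inner_cls]
  refine integral_congr_ae ?_
  filter_upwards [emb_ae hN D ha m' q' p'] with x hx
  rw [hx, PV_conj]

theorem norm_emb (hN : 2 ≤ N) (D : RootData N) {a : ℝ} (ha : 0 < a) {m l : ℕ} (p : HarmS D m) :
    ‖emb hN D ha m (qq a (bb D) m l) p‖ = en D a m l p.1 := by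
  have h1 : ‖emb hN D ha m (qq a (bb D) m l) p‖ ^ 2 = (en D a m l p.1) ^ 2 := by
    rw [en, mul_pow, Real.sq_sqrt (integral_nonneg fun _ => by positivity),
      Real.sq_sqrt (nsq_nonneg _ _ _ _), ← normsq_PF hN D ha (hH p)]
    have h2 := L2.inner_def (𝕜 := ℂ) (emb hN D ha m (qq a (bb D) m l) p)
      (emb hN D ha m (qq a (bb D) m l) p)
    rw [inner_self_eq_norm_sq_to_K] at h2
    have h3 : (∫ x, ⟪(emb hN D ha m (qq a (bb D) m l) p) x,
        (emb hN D ha m (qq a (bb D) m l) p) x⟫_ℂ ∂(mu D a)) =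
        ((∫ x, ‖(PV a (hH p) (qq a (bb D) m l)).1 x‖ ^ 2 ∂(mu D a) : ℝ) : ℂ) := by
      rw [← integral_complex_ofReal]
      refine integral_congr_ae ?_
      filter_upwards [emb_ae hN D ha m (qq a (bb D) m l) p] with x hx
      rw [hx, inner_self_eq_norm_sq_to_K]
      simp
    rw [h3] at h2
    apply Complex.ofReal_injective
    rw [← h2]
    push_cast
    rfl
  have h2 : 0 ≤ en D a m l p.1 := by unfold en; positivity
  have := abs_eq_abs.mpr (sq_eq_sq_iff_eq_or_eq_neg.mp h1)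
  rwa [abs_of_nonneg (norm_nonneg _), abs_of_nonneg h2] at this

/-- the eigenspaces -/
def Wsub (hN : 2 ≤ N) (D : RootData N) {a : ℝ} (ha : 0 < a) (i : ℕ × ℕ) : Submodule ℂ (L2c D a) :=
  LinearMap.range (emb hN D ha i.1 (qq a (bb D) i.1 i.2))

instance Wsub_fin (hN : 2 ≤ N) (D : RootData N) {a : ℝ} (ha : 0 < a) (i : ℕ × ℕ) :
    FiniteDimensional ℂ (Wsub hN D ha i) := by
  unfold Wsub; infer_instance

theorem Wsub_orth (hN : 2 ≤ N) (D : RootData N) {a : ℝ} (ha : 0 < a) (i j : ℕ × ℕ) (hij : i ≠ j) :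
    ∀ u ∈ Wsub hN D ha i, ∀ v ∈ Wsub hN D ha j, ⟪u, v⟫_ℂ = 0 := by
  obtain ⟨m, l⟩ := i
  obtain ⟨m', l'⟩ := j
  rintro u ⟨p, rfl⟩ v ⟨p', rfl⟩
  dsimp only at p p' ⊢
  rw [inner_emb]
  by_cases hm : m = m'
  · subst hm
    have hl : l ≠ l' := fun h => hij (by rw [h])
    have := rip_qq ha (bb_nonneg hN D) m hl
    rw [rip, ← kap_eq] at this
    rw [this]; simp
  · rw [harm_orth hN D hm (hHarm p) (hHarm p'), zero_mul]

theorem Wsub_tot (hN : 2 ≤ N) (D : RootData N) {a : ℝ} (ha : 0 < a) (g : L2c D a)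
    (hg : ∀ i, ∀ u ∈ Wsub hN D ha i, ⟪u, g⟫_ℂ = 0) : g = 0 := by
  have key : ∀ (m : ℕ) (p : E N → ℂ) (hp : p ∈ Harm D m) (q : ℝ[X]),
      ∫ x, (PV a (hm1 hp) q).1 x * g x ∂(mu D a) = 0 := by
    intro m p hp q
    have hint : ∀ q : ℝ[X], Integrable (fun x => (PV a (hm1 hp) q).1 x * g x) (mu D a) := fun q =>
      MemLp.integrable_mul (p := 2) (q := 2) (decay_memLp hN D ha _ (PV_decay hN ha (hm1 hp) q))
        (Lp.memLp g)
    have hq := qq_span a (bb D) m q
    induction hq using Submodule.span_induction with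
    | mem q hq =>
      obtain ⟨l, rfl⟩ := hq
      have h1 := hg (m, l) (emb hN D ha m (qq a (bb D) m l) ⟨_, harm_conj D hp⟩) ⟨_, rfl⟩
      rw [inner_cls] at h1
      refine Eq.trans ?_ h1
      have h2 : PV a (hm1 hp) (qq a (bb D) m l) =
          PV a (hom_conj (hH (⟨_, harm_conj D hp⟩ : HarmS D m))) (qq a (bb D) m l) :=
        PV_congr a _ _ (by funext y; simp) rfl
      rw [h2]
    | zero =>
      have : PV a (hm1 hp) (0 : ℝ[X]) = 0 := by
        apply vext; intro x hx; simp [PV, cut_apply _ hx, PF]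
      rw [this]; simp
    | add q q' _ _ h1 h2 =>
      rw [PV_add_q]
      have : (fun x => (PV a (hm1 hp) q + PV a (hm1 hp) q').1 x * g x) =
          fun x => (PV a (hm1 hp) q).1 x * g x + (PV a (hm1 hp) q').1 x * g x := by
        funext x; simp [add_mul]
      rw [this, integral_add (hint q) (hint q'), h1, h2, add_zero]
    | smul c q _ h1 =>
      rw [← Polynomial.C_mul', PV_smul_q]
      have : (fun x => ((c : ℂ) • PV a (hm1 hp) q).1 x * g x) =
          fun x => (c : ℂ) * ((PV a (hm1 hp) q).1 x * g x) := by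
        funext x; simp [mul_assoc]
      rw [this, integral_const_mul, h1, mul_zero]
  have hae : (g : E N → ℂ) =ᵐ[mu D a] 0 := by
    refine complete hN D ha (Lp.memLp g) fun m p hp q => ?_
    rw [← key m p hp q]
    have h0 : ∀ᵐ x ∂(mu D a), x ≠ 0 := by
      refine (mu_ac D a hN).1.ae_le ?_
      have : Nontrivial (E N) := by
        have : Nonempty (Fin N) := ⟨⟨0, by omega⟩⟩
        infer_instance
      exact Measure.ae_ne volume 0
    refine integral_congr_ae ?_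
    filter_upwards [h0] with x hx
    simp [PV, cut_apply _ hx]
  exact (Lp.eq_zero_iff_ae_eq_zero).mpr hae

end KaSch
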