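import Pool.Agent.Work.MP_d717ad_an.Fin1

open scoped ContDiff Topology Polynomial InnerProductSpace
open MeasureTheory Set

noncomputable section

namespace KaSch

variable {N : ℕ}

/-- all words applied to `f` are bounded -/
def WBd (D : RootData N) (a : ℝ) (f : V N) : Prop :=
  ∀ w : List Lt, ∃ C : ℝ, ∀ x : E N, ‖(wv D a w f).1 x‖ ≤ C

theorem wv_append (D : RootData N) (a : ℝ) (w w' : List Lt) (f : V N) :
    wv D a (w ++ w') f = wv D a w (wv D a w' f) := by
  induction w with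
  | nil => rfl
  | cons c w ih =>
    simp only [List.cons_append, wv, LinearMap.comp_apply] at ih ⊢
    rw [ih]

theorem WBd.lv {D : RootData N} {a : ℝ} {f : V N} (h : WBd D a f) (c : Lt) :
    WBd D a (lv D a c f) := by
  intro w
  obtain ⟨C, hC⟩ := h (w ++ [c])
  refine ⟨C, fun x => ?_⟩
  rw [wv_append] at hC
  exact hC x

theorem WBd.wv {D : RootData N} {a : ℝ} {f : V N} (h : WBd D a f) (w : List Lt) :
    WBd D a (wv D a w f) := by
  intro w'
  obtain ⟨C, hC⟩ := h (w' ++ w)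
  refine ⟨C, fun x => ?_⟩
  rw [wv_append] at hC
  exact hC x

theorem WBd.opB {D : RootData N} {a : ℝ} {f : V N} (h : WBd D a f) : WBd D a (KaSch.opB D a f) :=
  h.lv Lt.B

theorem WBd.opA {D : RootData N} {a : ℝ} {f : V N} (h : WBd D a f) : WBd D a (KaSch.opA N a f) :=
  h.lv Lt.A

theorem WBd.sub {D : RootData N} {a : ℝ} {f g : V N} (h : WBd D a f) (h' : WBd D a g) :
    WBd D a (f - g) := by
  intro w
  obtain ⟨C, hC⟩ := h w
  obtain ⟨C', hC'⟩ := h' w
  refine ⟨C + C', fun x => ?_⟩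
  rw [map_sub]
  exact (norm_sub_le _ _).trans (add_le_add (hC x) (hC' x))

theorem wv_replicate (D : RootData N) (a : ℝ) (n : ℕ) (f : V N) (x : E N) :
    (wv D a (List.replicate n Lt.A) f).1 x = (((‖x‖ ^ a) ^ n : ℝ) : ℂ) * f.1 x := by
  induction n with
  | zero => simp [KaSch.wv]
  | succ n ih =>
    have h : (wv D a (List.replicate (n + 1) Lt.A) f).1 x =
        ((‖x‖ ^ a : ℝ) : ℂ) * (wv D a (List.replicate n Lt.A) f).1 x := rfl
    rw [h, ih, pow_succ]
    push_cast
    ring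

theorem WBd.decay {D : RootData N} {a : ℝ} {f : V N} (h : WBd D a f) : Decay a f.1 := by
  intro n
  obtain ⟨C, hC⟩ := h (List.replicate n Lt.A)
  refine ⟨C, fun x _ => ?_⟩
  have h1 := hC x
  rw [wv_replicate, norm_mul, Complex.norm_real, Real.norm_eq_abs] at h1
  rwa [abs_of_nonneg (by positivity)] at h1

theorem WBd.opL {D : RootData N} {a : ℝ} {f : V N} (h : WBd D a f) : WBd D a (opL D a f) :=
  (h.lv Lt.B).sub (h.lv Lt.A)

theorem WBd.opL_iter {D : RootData N} {a : ℝ} {f : V N} (h : WBd D a f) (n : ℕ) :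
    WBd D a ((KaSch.opL D a)^[n] f) := by
  induction n with
  | zero => exact h
  | succ n ih => rw [Function.iterate_succ_apply']; exact ih.opL

theorem coeff (hN : 2 ≤ N) (D : RootData N) {a : ℝ} (ha : 0 < a) {f : V N} (h : WBd D a f)
    (m l : ℕ) (p : HarmS D m) :
    ⟪emb hN D ha m (qq a (bb D) m l) p, cls hN D ha (opL D a f) h.opL.decay⟫_ℂ =
      -(ev a (bb D) m l : ℂ) * ⟪emb hN D ha m (qq a (bb D) m l) p, cls hN D ha f h.decay⟫_ℂ := by
  set q := qq a (bb D) m l with hq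
  have hpc : (fun x => (starRingEnd ℂ) (p.1 x)) ∈ Harm D m := harm_conj D (hHarm p)
  have hint : ∀ (g : V N), WBd D a g → ∀ q : ℝ[X],
      Integrable (fun x => (PV a (hom_conj (hH p)) q).1 x * g.1 x) (mu D a) := fun g hg q =>
    MemLp.integrable_mul (p := 2) (q := 2)
      (decay_memLp hN D ha _ (PV_decay hN ha (hom_conj (hH p)) q)) (decay_memLp hN D ha _ hg.decay)
  rw [inner_cls, inner_cls]
  have h1 : ∫ x, (PV a (hom_conj (hH p)) q).1 x * (cls hN D ha (opL D a f) h.opL.decay) x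
      ∂(mu D a) = ∫ x, (PV a (hom_conj (hH p)) q).1 x * (opL D a f).1 x ∂(mu D a) := by
    refine integral_congr_ae ?_
    filter_upwards [cls_ae hN D ha (opL D a f) h.opL.decay] with x hx
    rw [hx]
  have h2 : ∫ x, (PV a (hom_conj (hH p)) q).1 x * (cls hN D ha f h.decay) x
      ∂(mu D a) = ∫ x, (PV a (hom_conj (hH p)) q).1 x * f.1 x ∂(mu D a) := by
    refine integral_congr_ae ?_
    filter_upwards [cls_ae hN D ha f h.decay] with x hx
    rw [hx]
  rw [h1, h2]
  have h3 : (fun x => (PV a (hom_conj (hH p)) q).1 x * (opL D a f).1 x) =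
      fun x => (PV a (hom_conj (hH p)) q).1 x * (opB D a f).1 x -
        (PV a (hom_conj (hH p)) q).1 x * (opA N a f).1 x := by
    funext x
    rw [← mul_sub]; rfl
  rw [h3, integral_sub (hint _ h.opB q) (hint _ h.opA q)]
  have h4 : ∫ x, (PV a (hom_conj (hH p)) q).1 x * (opB D a f).1 x ∂(mu D a) =
      ∫ x, (PV a (hom_conj (hH p)) (Bm a (bb D) m q)).1 x * f.1 x ∂(mu D a) := by
    have := sym hN D ha f h.decay (h.lv Lt.B).decay (hom_conj (hH p)) hpc.2 q
    simpa only [mul_comm] using this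
  have h5 : ∫ x, (PV a (hom_conj (hH p)) q).1 x * (opA N a f).1 x ∂(mu D a) =
      ∫ x, (PV a (hom_conj (hH p)) (Polynomial.X * q)).1 x * f.1 x ∂(mu D a) := by
    congr 1
    funext x
    rw [← opA_PV, opA_apply, opA_apply]
    ring
  rw [h4, h5, ← integral_sub (hint _ h _) (hint _ h _), ← integral_const_mul]
  congr 1
  funext x
  have h6 : (PV a (hom_conj (hH p)) (Bm a (bb D) m q)).1 x -
      (PV a (hom_conj (hH p)) (Polynomial.X * q)).1 x =
      -(ev a (bb D) m l : ℂ) * (PV a (hom_conj (hH p)) q).1 x := by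
    have h7 : PV a (hom_conj (hH p)) (Bm a (bb D) m q) =
        PV a (hom_conj (hH p)) (Polynomial.X * q) +
          ((-(ev a (bb D) m l) : ℝ) : ℂ) • PV a (hom_conj (hH p)) q := by
      rw [← PV_smul_q, ← PV_add_q]
      congr 1
      have := qq_ev a (bb D) m l
      rw [← hq] at this
      rw [map_neg, neg_mul, ← this]
      ring
    rw [h7]
    simp
  rw [← sub_mul, h6, mul_assoc]

/-- rapid decay of the components -/
theorem comp_decay (hN : 2 ≤ N) (D : RootData N) {a : ℝ} (ha : 0 < a) {f : V N} (h : WBd D a f)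
    (n : ℕ) : ∃ C : ℝ, 0 ≤ C ∧ ∀ i : ℕ × ℕ,
      (1 + (i.1 : ℝ) + i.2) ^ n * ‖(Wsub hN D ha i).starProjection (cls hN D ha f h.decay)‖ ≤ C := by
  have hb := bb_nonneg hN D
  -- eigenvalue lower bound
  obtain ⟨c, hc, hcev⟩ : ∃ c : ℝ, 0 < c ∧ ∀ m l : ℕ, c * (1 + (m : ℝ) + l) ≤ ev a (bb D) m l := by
    refine ⟨min a 2, lt_min ha two_pos, fun m l => ?_⟩
    unfold ev
    have h1 : min a 2 ≤ a := min_le_left _ _
    have h2 : min a 2 ≤ 2 := min_le_right _ _
    have h3 : 0 < min a 2 := lt_min ha two_pos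
    have hm : (0 : ℝ) ≤ m := Nat.cast_nonneg m
    have hl : (0 : ℝ) ≤ l := Nat.cast_nonneg l
    nlinarith [mul_nonneg hm (sub_nonneg.mpr h2), mul_nonneg hl (sub_nonneg.mpr h1)]
  have hstep : ∀ n : ℕ, ∀ i : ℕ × ℕ, (Wsub hN D ha i).starProjection
      (cls hN D ha ((opL D a)^[n] f) (h.opL_iter n).decay) =
      (-(ev a (bb D) i.1 i.2 : ℂ)) ^ n • (Wsub hN D ha i).starProjection
        (cls hN D ha f h.decay) := by
    intro n i
    induction n with
    | zero => simp
    | succ n ih =>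
      have h1 : (Wsub hN D ha i).starProjection
          (cls hN D ha (opL D a ((opL D a)^[n] f)) (h.opL_iter n).opL.decay) =
          -(ev a (bb D) i.1 i.2 : ℂ) • (Wsub hN D ha i).starProjection
            (cls hN D ha ((opL D a)^[n] f) (h.opL_iter n).decay) := by
        refine hsp_proj _ ?_
        rintro u ⟨p, rfl⟩
        exact coeff hN D ha (h.opL_iter n) i.1 i.2 p
      have h2 : cls hN D ha ((opL D a)^[n + 1] f) (h.opL_iter (n + 1)).decay =
          cls hN D ha (opL D a ((opL D a)^[n] f)) (h.opL_iter n).opL.decay := by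
        unfold cls
        congr 1
        rw [Function.iterate_succ_apply']
      rw [h2, h1, ih, smul_smul, pow_succ, mul_comm]
  refine ⟨c⁻¹ ^ n * ‖cls hN D ha ((opL D a)^[n] f) (h.opL_iter n).decay‖, by positivity,
    fun i => ?_⟩
  have h1 := hstep n i
  have h2 : ‖(Wsub hN D ha i).starProjection
      (cls hN D ha ((opL D a)^[n] f) (h.opL_iter n).decay)‖ ≤
      ‖cls hN D ha ((opL D a)^[n] f) (h.opL_iter n).decay‖ :=
    Submodule.norm_starProjection_apply_le _ _
  rw [h1, norm_smul, norm_pow, norm_neg, Complex.norm_real, Real.norm_eq_abs] at h2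
  have h3 := hcev i.1 i.2
  have h4 : 0 < c * (1 + (i.1 : ℝ) + i.2) := by positivity
  rw [abs_of_pos (h4.trans_le h3)] at h2
  have h5 : (c * (1 + (i.1 : ℝ) + i.2)) ^ n ≤ ev a (bb D) i.1 i.2 ^ n :=
    pow_le_pow_left₀ h4.le h3 n
  have h6 : (c * (1 + (i.1 : ℝ) + i.2)) ^ n *
      ‖(Wsub hN D ha i).starProjection (cls hN D ha f h.decay)‖ ≤
      ‖cls hN D ha ((opL D a)^[n] f) (h.opL_iter n).decay‖ :=
    (mul_le_mul_of_nonneg_right h5 (norm_nonneg _)).trans h2
  rw [mul_pow, mul_assoc] at h6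
  rw [inv_pow]
  rw [← div_eq_inv_mul, le_div_iff₀ (by positivity)]
  linarith

end KaSch
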