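import Pool.Agent.Work.MP_d717ad_an.Fin2

open scoped ContDiff Topology Polynomial InnerProductSpace
open MeasureTheory Set

noncomputable section

namespace KaSch

variable {N : ℕ}

/-- families all of whose words are summably bounded -/
def Good (D : RootData N) (a : ℝ) (F : ℕ × ℕ → V N) : Prop :=
  ∀ (w : List Lt) (z : List (Option (Fin N × Fin N))), ∃ c : ℕ × ℕ → ℝ, Summable c ∧
    ∀ i (x : E N), x ≠ 0 → ‖zw z (wv D a w (F i)).1 x‖ ≤ c i

theorem Good.lv {D : RootData N} {a : ℝ} {F : ℕ × ℕ → V N} (h : Good D a F) (c : Lt) :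
    Good D a (fun i => lv D a c (F i)) := by
  intro w z
  obtain ⟨C, hC, hC'⟩ := h (w ++ [c]) z
  refine ⟨C, hC, fun i x hx => ?_⟩
  have := hC' i x hx
  rw [wv_append] at this
  exact this

theorem Good.smooth {D : RootData N} {a : ℝ} {F : ℕ × ℕ → V N} (h : Good D a F) :
    ContDiffOn ℝ ∞ (fun x => ∑' i, (F i).1 x) {0}ᶜ ∧
      ∀ x : E N, x ≠ 0 → fderiv ℝ (fun x => ∑' i, (F i).1 x) x x =
        ∑' i, fderiv ℝ (F i).1 x x :=
  sum_smooth (fun i => vsmooth (F i)) (fun z => h [] z)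

/-- the sum of a good family -/
def SumV {D : RootData N} {a : ℝ} {F : ℕ × ℕ → V N} (h : Good D a F) : V N :=
  ⟨fun x => ∑' i, (F i).1 x, h.smooth.1, by simp [vzero]⟩

theorem SumV_apply {D : RootData N} {a : ℝ} {F : ℕ × ℕ → V N} (h : Good D a F) (x : E N) :
    (SumV h).1 x = ∑' i, (F i).1 x := rfl

theorem lv_SumV (hN : 2 ≤ N) {D : RootData N} {a : ℝ} (ha : 0 < a) {F : ℕ × ℕ → V N}
    (h : Good D a F) (c : Lt) : lv D a c (SumV h) = SumV (h.lv c) := by
  apply vext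
  intro x hx
  cases c with
  | A =>
    change ((‖x‖ ^ a : ℝ) : ℂ) * ∑' i, (F i).1 x = ∑' i, ((‖x‖ ^ a : ℝ) : ℂ) * (F i).1 x
    rw [tsum_mul_left]
  | T =>
    exact h.smooth.2 x hx
  | B =>
    obtain ⟨c0, hc0, hc0'⟩ := h [] []
    obtain ⟨c1, hc1, hc1'⟩ := h [Lt.B] []
    have e1 : ∀ i (x : E N), x ≠ 0 → ‖(F i).1 x‖ ≤ c0 i := hc0'
    have e2 : ∀ i (x : E N), x ≠ 0 → ‖BF D a (F i).1 x‖ ≤ c1 i := fun i x hx => by
      have := hc1' i x hx
      rw [← opB_apply D a (F i) hx]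
      exact this
    have key := sum_B hN D ha (F := fun i => (F i).1) (fun i => vsmooth (F i)) h.smooth.1
      (((h.lv Lt.B).smooth.1.continuousOn).congr fun y hy => by
        refine tsum_congr fun i => ?_
        exact (opB_apply D a (F i) hy).symm)
      (fun i => |c0 i| + |c1 i|) (hc0.abs.add hc1.abs)
      (fun i x hx => (e1 i x hx).trans ((le_abs_self _).trans (le_add_of_nonneg_right (abs_nonneg _))))
      (fun i x hx => (e2 i x hx).trans ((le_abs_self _).trans (le_add_of_nonneg_left (abs_nonneg _))))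
      x hx
    change (opB D a (SumV h)).1 x = ∑' i, (opB D a (F i)).1 x
    rw [opB_apply D a _ hx]
    refine Eq.trans key (tsum_congr fun i => ?_)
    exact (opB_apply D a (F i) hx).symm

theorem Good.wv {D : RootData N} {a : ℝ} {F : ℕ × ℕ → V N} (h : Good D a F) (w : List Lt) :
    Good D a (fun i => wv D a w (F i)) := by
  intro w' z
  obtain ⟨C, hC, hC'⟩ := h (w' ++ w) z
  refine ⟨C, hC, fun i x hx => ?_⟩
  have := hC' i x hx
  rw [wv_append] at this
  exact this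

theorem wv_SumV (hN : 2 ≤ N) {D : RootData N} {a : ℝ} (ha : 0 < a) {F : ℕ × ℕ → V N}
    (h : Good D a F) (w : List Lt) : wv D a w (SumV h) = SumV (h.wv w) := by
  induction w with
  | nil => rfl
  | cons c w ih =>
    have h1 : wv D a (c :: w) (SumV h) = lv D a c (wv D a w (SumV h)) := rfl
    rw [h1, ih, lv_SumV hN ha]
    rfl

theorem SumV_WBd (hN : 2 ≤ N) {D : RootData N} {a : ℝ} (ha : 0 < a) {F : ℕ × ℕ → V N}
    (h : Good D a F) : WBd D a (SumV h) := by
  intro w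
  obtain ⟨c, hc, hc'⟩ := h w []
  refine ⟨|∑' i, c i|, fun x => ?_⟩
  rw [wv_SumV hN ha]
  by_cases hx : x = 0
  · subst hx; rw [vzero]; simp
  · rw [SumV_apply]
    have hs : Summable (fun i => ‖(wv D a w (F i)).1 x‖) :=
      Summable.of_nonneg_of_le (fun _ => norm_nonneg _) (fun i => hc' i x hx) hc
    refine (norm_tsum_le_tsum_norm hs).trans ((hs.tsum_le_tsum (fun i => hc' i x hx) hc).trans ?_)
    exact le_abs_self _

theorem summable_weight : Summable (fun i : ℕ × ℕ => ((1 + (i.1 : ℝ) + i.2) ^ 4)⁻¹) := by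
  have h1 : Summable (fun n : ℕ => ((1 + (n : ℝ)) ^ 2)⁻¹) := by
    have := (summable_nat_add_iff 1).mpr (Real.summable_nat_pow_inv (p := 2) |>.mpr one_lt_two)
    refine this.congr fun n => ?_
    push_cast
    rw [add_comm]
  have h2 := h1.mul_of_nonneg h1 (fun n => by positivity) (fun n => by positivity)
  refine Summable.of_nonneg_of_le (fun i => by positivity) (fun i => ?_) h2
  rw [← mul_inv]
  apply inv_anti₀ (by positivity)
  have ha : (0 : ℝ) ≤ i.1 := Nat.cast_nonneg _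
  have hb : (0 : ℝ) ≤ i.2 := Nat.cast_nonneg _
  have h3 : (1 + (i.1 : ℝ)) ≤ 1 + i.1 + i.2 := by linarith
  have h4 : (1 + (i.2 : ℝ)) ≤ 1 + i.1 + i.2 := by linarith
  calc (1 + (i.1 : ℝ)) ^ 2 * (1 + (i.2 : ℝ)) ^ 2
      ≤ (1 + i.1 + i.2) ^ 2 * (1 + i.1 + i.2) ^ 2 := by gcongr
    _ = (1 + (i.1 : ℝ) + i.2) ^ 4 := by ring

/-- rapidly decreasing families of harmonics give good families -/
theorem good_of_rapid (hN : 2 ≤ N) (D : RootData N) {a : ℝ} (ha : 0 < a)
    (p : ∀ i : ℕ × ℕ, HarmS D i.1)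
    (hp : ∀ n : ℕ, ∃ C : ℝ, ∀ i : ℕ × ℕ, (1 + (i.1 : ℝ) + i.2) ^ n * en D a i.1 i.2 (p i).1 ≤ C) :
    Good D a (fun i => PV a (hH (p i)) (qq a (bb D) i.1 i.2)) := by
  intro w z
  obtain ⟨C, K, hC, hb⟩ := wb hN D ha w z
  obtain ⟨C', hC'⟩ := hp (K + 4)
  refine ⟨fun i => C * C' * ((1 + (i.1 : ℝ) + i.2) ^ 4)⁻¹, summable_weight.mul_left _,
    fun i x hx => ?_⟩
  rw [wv_PV D a ha (hH (p i)) (hL (p i))]
  refine (hb i.1 i.2 _ (hH (p i)) x hx).trans ?_
  have h1 := hC' i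
  have h2 : (0 : ℝ) < (1 + (i.1 : ℝ) + i.2) ^ 4 := by positivity
  change _ ≤ C * C' * ((1 + (i.1 : ℝ) + i.2) ^ 4)⁻¹
  rw [← div_eq_mul_inv, le_div_iff₀ h2]
  calc C * (1 + (i.1 : ℝ) + i.2) ^ K * en D a i.1 i.2 (p i).1 * (1 + (i.1 : ℝ) + i.2) ^ 4
      = C * ((1 + (i.1 : ℝ) + i.2) ^ (K + 4) * en D a i.1 i.2 (p i).1) := by ring
    _ ≤ C * C' := mul_le_mul_of_nonneg_left h1 hC

/-- synthesis: an `L²` element with rapidly decreasing components is the class of an element of `V`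
all of whose words are bounded -/
theorem synth (hN : 2 ≤ N) (D : RootData N) {a : ℝ} (ha : 0 < a) (g : L2c D a)
    (hg : ∀ n : ℕ, ∃ C : ℝ, ∀ i : ℕ × ℕ,
      (1 + (i.1 : ℝ) + i.2) ^ n * ‖(Wsub hN D ha i).starProjection g‖ ≤ C) :
    ∃ (f : V N) (hf : WBd D a f), cls hN D ha f hf.decay = g := by
  have hmem : ∀ i, (Wsub hN D ha i).starProjection g ∈ Wsub hN D ha i := fun i =>
    Submodule.starProjection_apply_mem _ _
  choose p hp using hmem
  have hp' : ∀ i : ℕ × ℕ, ‖(Wsub hN D ha i).starProjection g‖ = en D a i.1 i.2 (p i).1 := by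
    intro i
    rw [← hp i]
    exact norm_emb hN D ha (p i)
  have hgood : Good D a (fun i => PV a (hH (p i)) (qq a (bb D) i.1 i.2)) := by
    refine good_of_rapid hN D ha p fun n => ?_
    obtain ⟨C, hC⟩ := hg n
    exact ⟨C, fun i => by rw [← hp' i]; exact hC i⟩
  refine ⟨SumV hgood, SumV_WBd hN ha hgood, ?_⟩
  rw [← sub_eq_zero]
  refine Wsub_tot hN D ha _ fun i u hu => ?_
  obtain ⟨r, rfl⟩ := hu
  obtain ⟨m, l⟩ := i
  dsimp only at r ⊢
  rw [inner_sub_right, sub_eq_zero]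
  -- inner product with the sum
  obtain ⟨c, hc, hc'⟩ := hgood [] []
  have hc'' : ∀ i (x : E N), ‖(PV a (hH (p i)) (qq a (bb D) i.1 i.2)).1 x‖ ≤ |c i| := by
    intro i x
    by_cases hx : x = 0
    · subst hx; rw [vzero]; simp
    · exact (hc' i x hx).trans (le_abs_self _)
  have hPint : Integrable (fun x => (PV a (hom_conj (hH r)) (qq a (bb D) m l)).1 x) (mu D a) :=
    decay_integrable hN D ha _ (PV_decay hN ha (hom_conj (hH r)) _)
  have hint : ∀ i : ℕ × ℕ, Integrable (fun x => (PV a (hom_conj (hH r)) (qq a (bb D) m l)).1 x *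
      (PV a (hH (p i)) (qq a (bb D) i.1 i.2)).1 x) (mu D a) := fun i =>
    MemLp.integrable_mul (p := 2) (q := 2)
      (decay_memLp hN D ha _ (PV_decay hN ha (hom_conj (hH r)) _))
      (decay_memLp hN D ha _ (PV_decay hN ha (hH (p i)) _))
  have h1 : ⟪emb hN D ha m (qq a (bb D) m l) r,
      cls hN D ha (SumV hgood) (SumV_WBd hN ha hgood).decay⟫_ℂ =
      ∑' i : ℕ × ℕ, ∫ x, (PV a (hom_conj (hH r)) (qq a (bb D) m l)).1 x *
        (PV a (hH (p i)) (qq a (bb D) i.1 i.2)).1 x ∂(mu D a) := by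
    rw [inner_cls]
    have h2 : ∫ x, (PV a (hom_conj (hH r)) (qq a (bb D) m l)).1 x *
        (cls hN D ha (SumV hgood) (SumV_WBd hN ha hgood).decay) x ∂(mu D a) =
        ∫ x, ∑' i : ℕ × ℕ, (PV a (hom_conj (hH r)) (qq a (bb D) m l)).1 x *
          (PV a (hH (p i)) (qq a (bb D) i.1 i.2)).1 x ∂(mu D a) := by
      refine integral_congr_ae ?_
      filter_upwards [cls_ae hN D ha (SumV hgood) (SumV_WBd hN ha hgood).decay] with x hx
      rw [hx, SumV_apply, tsum_mul_left]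
    rw [h2, ← integral_tsum_of_summable_integral_norm hint]
    refine Summable.of_nonneg_of_le (fun i => integral_nonneg fun _ => norm_nonneg _)
      (fun i => ?_) (hc.abs.mul_left
        (∫ x, ‖(PV a (hom_conj (hH r)) (qq a (bb D) m l)).1 x‖ ∂(mu D a)))
    rw [← integral_mul_const]
    refine integral_mono (hint i).norm (hPint.norm.mul_const _) fun x => ?_
    simp only [norm_mul]
    exact mul_le_mul_of_nonneg_left (hc'' i x) (norm_nonneg _)
  have h3 : ∀ i : ℕ × ℕ, ∫ x, (PV a (hom_conj (hH r)) (qq a (bb D) m l)).1 x *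
      (PV a (hH (p i)) (qq a (bb D) i.1 i.2)).1 x ∂(mu D a) =
      ⟪emb hN D ha m (qq a (bb D) m l) r, (Wsub hN D ha i).starProjection g⟫_ℂ := by
    intro i
    rw [inner_cls, ← hp i]
    refine integral_congr_ae ?_
    filter_upwards [emb_ae hN D ha i.1 (qq a (bb D) i.1 i.2) (p i)] with x hx
    rw [hx]
  rw [h1]
  simp_rw [h3]
  rw [tsum_eq_single (m, l)]
  · have hmem : emb hN D ha m (qq a (bb D) m l) r ∈ Wsub hN D ha (m, l) := ⟨r, rfl⟩
    rw [← Submodule.inner_starProjection_left_eq_right,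
      Submodule.starProjection_eq_self_iff.mpr hmem]
  · intro i hi
    exact Wsub_orth hN D ha (m, l) i (Ne.symm hi) _ ⟨r, rfl⟩ _
      (Submodule.starProjection_apply_mem _ _)

end KaSch
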