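import Pool.Agent.Work.MP_d717ad_an.Fin3

open scoped ContDiff Topology Polynomial InnerProductSpace
open MeasureTheory Set

noncomputable section

namespace KaSch

variable {N : ℕ}

theorem ae_ne_zero (hN : 2 ≤ N) (D : RootData N) (a : ℝ) : ∀ᵐ x ∂(mu D a), x ≠ 0 := by
  refine (mu_ac D a hN).1.ae_le ?_
  have : Nontrivial (E N) := by
    have : Nonempty (Fin N) := ⟨⟨0, by omega⟩⟩
    infer_instance
  exact Measure.ae_ne volume 0

theorem cut_ae (hN : 2 ≤ N) (D : RootData N) (a : ℝ) (f : E N → ℂ) : cut f =ᵐ[mu D a] f := by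
  filter_upwards [ae_ne_zero hN D a] with x hx
  exact cut_apply f hx

theorem wbd_of_memS {D : RootData N} {a : ℝ} {f : E N → ℂ} (h : MemS D a f) :
    WBd D a (⟨cut f, cut_mem h.smooth⟩ : V N) :=
  (memS_iff D a _).mp ((memS_cut D a).mp h)

theorem SClassC_iff (hN : 2 ≤ N) (D : RootData N) {a : ℝ} (ha : 0 < a) (g : L2c D a) :
    g ∈ SClassC D a ↔ ∃ (f : V N) (hf : WBd D a f), cls hN D ha f hf.decay = g := by
  constructor
  · rintro ⟨f, hf, hg⟩
    refine ⟨⟨cut f, cut_mem hf.smooth⟩, wbd_of_memS hf, ?_⟩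
    apply Lp.ext
    filter_upwards [hg, cut_ae hN D a f, cls_ae hN D ha _ (wbd_of_memS hf).decay] with x h1 h2 h3
    rw [h1, h3, ← h2]
  · rintro ⟨f, hf, rfl⟩
    exact ⟨f.1, (memS_iff D a f).mpr hf, cls_ae hN D ha f hf.decay⟩

theorem mult_class (hN : 2 ≤ N) (D : RootData N) {a : ℝ} (ha : 0 < a) (S : L2c D a →L[ℂ] L2c D a)
    (c : ℕ × ℕ → ℂ) (hc : ∀ i, ‖c i‖ ≤ 1) (hS : ∀ i, ∀ u ∈ Wsub hN D ha i, S u = c i • u)
    {g : L2c D a} (hg : g ∈ SClassC D a) : S g ∈ SClassC D a := by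
  rw [SClassC_iff hN D ha] at hg ⊢
  obtain ⟨f, hf, rfl⟩ := hg
  apply synth
  intro n
  obtain ⟨C, hC0, hC⟩ := comp_decay hN D ha hf n
  refine ⟨C, fun i => le_trans ?_ (hC i)⟩
  refine mul_le_mul_of_nonneg_left ?_ (by positivity)
  -- the component of `S g`
  set g := cls hN D ha f hf.decay
  have h1 := hsp_expand (Wsub hN D ha) (Wsub_orth hN D ha) (Wsub_tot hN D ha) g
  have h2 : HasSum (fun j => (Wsub hN D ha i).starProjection
      (S ((Wsub hN D ha j).starProjection g))) ((Wsub hN D ha i).starProjection (S g)) :=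
    ((h1.mapL S).mapL ((Wsub hN D ha i).starProjection))
  have h3 : ∀ j, j ≠ i → (Wsub hN D ha i).starProjection
      (S ((Wsub hN D ha j).starProjection g)) = 0 := by
    intro j hj
    rw [hS j _ (Submodule.starProjection_apply_mem _ _), map_smul]
    have : (Wsub hN D ha i).starProjection ((Wsub hN D ha j).starProjection g) = 0 := by
      rw [Submodule.starProjection_apply_eq_zero_iff, Submodule.mem_orthogonal]
      intro u hu
      exact Wsub_orth hN D ha i j (Ne.symm hj) u hu _ (Submodule.starProjection_apply_mem _ _)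
    rw [this, smul_zero]
  have h4 := h2.unique (hasSum_single i h3)
  rw [h4, hS i _ (Submodule.starProjection_apply_mem _ _), map_smul,
    Submodule.starProjection_eq_self_iff.mpr (Submodule.starProjection_apply_mem _ _), norm_smul]
  exact mul_le_of_le_one_left (norm_nonneg _) (hc i)

/-! ### the generator -/

theorem emb_add_q (hN : 2 ≤ N) (D : RootData N) {a : ℝ} (ha : 0 < a) (m : ℕ) (q q' : ℝ[X])
    (p : HarmS D m) : emb hN D ha m (q + q') p = emb hN D ha m q p + emb hN D ha m q' p := by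
  apply Lp.ext
  filter_upwards [emb_ae hN D ha m (q + q') p, emb_ae hN D ha m q p, emb_ae hN D ha m q' p,
    Lp.coeFn_add (emb hN D ha m q p) (emb hN D ha m q' p)] with x h1 h2 h3 h4
  rw [h1, h4, Pi.add_apply, h2, h3, PV_add_q]
  rfl

theorem emb_smul_q (hN : 2 ≤ N) (D : RootData N) {a : ℝ} (ha : 0 < a) (m : ℕ) (c : ℝ) (q : ℝ[X])
    (p : HarmS D m) : emb hN D ha m (Polynomial.C c * q) p = (c : ℂ) • emb hN D ha m q p := by
  apply Lp.ext
  filter_upwards [emb_ae hN D ha m (Polynomial.C c * q) p, emb_ae hN D ha m q p,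
    Lp.coeFn_smul (c : ℂ) (emb hN D ha m q p)] with x h1 h2 h4
  rw [h1, h4, Pi.smul_apply, h2, PV_smul_q]
  rfl

/-- `Bm q - X q` -/
def Dm (a b : ℝ) (m : ℕ) (q : ℝ[X]) : ℝ[X] := Bm a b m q - Polynomial.X * q

theorem Dm_add (a b : ℝ) (m : ℕ) (q q' : ℝ[X]) : Dm a b m (q + q') = Dm a b m q + Dm a b m q' := by
  unfold Dm Bm
  simp only [Polynomial.derivative_add]
  ring

theorem Dm_smul (a b : ℝ) (m : ℕ) (c : ℝ) (q : ℝ[X]) :
    Dm a b m (Polynomial.C c * q) = Polynomial.C c * Dm a b m q := by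
  unfold Dm Bm
  simp only [Polynomial.derivative_C_mul]
  ring

/-- linearity of the generator in the radial polynomial -/
theorem gen_lin (hN : 2 ≤ N) (D : RootData N) {a : ℝ} (ha : 0 < a) {m : ℕ} (p : HarmS D m)
    (U : ℝ → (L2c D a →L[ℂ] L2c D a)) {s : Set ℝ[X]}
    (hs : ∀ q ∈ s, HasDerivAt (fun t => U t (emb hN D ha m q p))
      (Complex.I • emb hN D ha m (Dm a (bb D) m q) p) 0) {q : ℝ[X]}
    (hq : q ∈ Submodule.span ℝ s) :
    HasDerivAt (fun t => U t (emb hN D ha m q p))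
      (Complex.I • emb hN D ha m (Dm a (bb D) m q) p) 0 := by
  induction hq using Submodule.span_induction with
  | mem q hq => exact hs q hq
  | zero =>
    have h1 : emb hN D ha m (0 : ℝ[X]) p = 0 := by
      have := emb_smul_q hN D ha m 0 0 p
      simpa using this
    have h2 : Dm a (bb D) m 0 = 0 := by simp [Dm, Bm]
    rw [h2, h1]
    simpa using hasDerivAt_const (0 : ℝ) (0 : L2c D a)
  | add q q' _ _ h1 h2 =>
    rw [Dm_add, emb_add_q, emb_add_q, smul_add]
    refine (h1.add h2).congr_of_eventuallyEq (Filter.Eventually.of_forall fun t => ?_)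
    simp
  | smul c q _ h1 =>
    rw [← Polynomial.C_mul', Dm_smul, emb_smul_q, emb_smul_q, smul_comm]
    refine (h1.const_smul (c : ℂ)).congr_of_eventuallyEq (Filter.Eventually.of_forall fun t => ?_)
    simp only [map_smul, Pi.smul_apply]

theorem core_eq (a : ℝ) (j : ℕ) (p : E N → ℂ) : core a j p = PF a p (Polynomial.X ^ j) := by
  funext x
  simp only [core, PF, Polynomial.eval_pow, Polynomial.eval_X]
  push_cast
  ring

theorem emb_of_core (hN : 2 ≤ N) (D : RootData N) {a : ℝ} (ha : 0 < a) {m : ℕ} (p : HarmS D m)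
    (j : ℕ) {u : L2c D a} : u =ᵐ[mu D a] core a j p.1 ↔ u = emb hN D ha m (Polynomial.X ^ j) p := by
  constructor
  · intro hu
    apply Lp.ext
    filter_upwards [hu, emb_ae hN D ha m (Polynomial.X ^ j) p, ae_ne_zero hN D a] with x h1 h2 h3
    rw [h1, h2, core_eq]
    exact (cut_apply _ h3).symm
  · rintro rfl
    filter_upwards [emb_ae hN D ha m (Polynomial.X ^ j) p, ae_ne_zero hN D a] with x h2 h3
    rw [h2, core_eq]
    exact cut_apply _ h3

theorem emb_of_Lka (hN : 2 ≤ N) (D : RootData N) {a : ℝ} (ha : 0 < a) {m : ℕ} (p : HarmS D m)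
    (j : ℕ) {v : L2c D a} : v =ᵐ[mu D a] Lka D a (core a j p.1) ↔
      v = emb hN D ha m (Dm a (bb D) m (Polynomial.X ^ j)) p := by
  have key : ∀ x : E N, x ≠ 0 → Lka D a (core a j p.1) x =
      (PV a (hH p) (Dm a (bb D) m (Polynomial.X ^ j))).1 x := by
    intro x hx
    have h0 : EqOn (core a j p.1) (PV a (hH p) (Polynomial.X ^ j)).1 {0}ᶜ := fun y hy => by
      rw [core_eq]; exact (cut_apply _ hy).symm
    have h1 : Lka D a (core a j p.1) x = (opB D a (PV a (hH p) (Polynomial.X ^ j))).1 x -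
        (opA N a (PV a (hH p) (Polynomial.X ^ j))).1 x := by
      rw [opB_apply D a _ hx, opA_apply, ← BF_congr D a h0 hx, ← h0 hx]
      rfl
    rw [h1, opB_PV D a ha (hH p) (hL p), opA_PV]
    have h2 : PV a (hH p) (Bm a (bb D) m (Polynomial.X ^ j)) =
        PV a (hH p) (Dm a (bb D) m (Polynomial.X ^ j)) +
          PV a (hH p) (Polynomial.X * Polynomial.X ^ j) := by
      rw [← PV_add_q]
      congr 1
      unfold Dm
      ring
    rw [h2]
    simp
  constructor
  · intro hv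
    apply Lp.ext
    filter_upwards [hv, emb_ae hN D ha m (Dm a (bb D) m (Polynomial.X ^ j)) p,
      ae_ne_zero hN D a] with x h1 h2 h3
    rw [h1, h2, key x h3]
  · rintro rfl
    filter_upwards [emb_ae hN D ha m (Dm a (bb D) m (Polynomial.X ^ j)) p,
      ae_ne_zero hN D a] with x h2 h3
    rw [h2, key x h3]

/-- the generator condition in terms of `emb` -/
theorem gen_iff (hN : 2 ≤ N) (D : RootData N) {a : ℝ} (ha : 0 < a)
    (U : ℝ → (L2c D a →L[ℂ] L2c D a)) :
    (∀ (m j : ℕ) (p : E N → ℂ), p ∈ Hom N m → (∀ x, Lap D p x = 0) →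
      ∀ u v : L2c D a, u =ᵐ[mu D a] core a j p → v =ᵐ[mu D a] Lka D a (core a j p) →
        HasDerivAt (fun t => U t u) (Complex.I • v) 0) ↔
    ∀ (m : ℕ) (p : HarmS D m) (q : ℝ[X]), HasDerivAt (fun t => U t (emb hN D ha m q p))
      (Complex.I • emb hN D ha m (Dm a (bb D) m q) p) 0 := by
  constructor
  · intro h m p q
    refine gen_lin hN D ha p U (s := Set.range fun j : ℕ => (Polynomial.X ^ j : ℝ[X])) ?_ ?_
    · rintro _ ⟨j, rfl⟩
      exact h m j p.1 (hH p) (hL p) _ _ ((emb_of_core hN D ha p j).mpr rfl)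
        ((emb_of_Lka hN D ha p j).mpr rfl)
    · induction q using Polynomial.induction_on' with
      | add p q hp hq => exact Submodule.add_mem _ hp hq
      | monomial n c =>
        rw [← Polynomial.C_mul_X_pow_eq_monomial, Polynomial.C_mul']
        exact Submodule.smul_mem _ _ (Submodule.subset_span ⟨n, rfl⟩)
  · intro h m j p hp hp' u v hu hv
    have hu' := (emb_of_core hN D ha (⟨p, hp, hp'⟩ : HarmS D m) j).mp hu
    have hv' := (emb_of_Lka hN D ha (⟨p, hp, hp'⟩ : HarmS D m) j).mp hv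
    rw [hu', hv']
    exact h m _ _

theorem Dm_qq (a b : ℝ) (m l : ℕ) :
    Dm a b m (qq a b m l) = Polynomial.C (-(ev a b m l)) * qq a b m l := by
  unfold Dm
  rw [qq_ev]
  simp

theorem prop_eigen (hN : 2 ≤ N) (D : RootData N) {a : ℝ} (ha : 0 < a)
    {U : ℝ → (L2c D a →L[ℂ] L2c D a)} (hU : IsPropC D a U) (t : ℝ) (i : ℕ × ℕ) (u : L2c D a)
    (hu : u ∈ Wsub hN D ha i) :
    U t u = Complex.exp (-(Complex.I * ev a (bb D) i.1 i.2 * t)) • u := by
  obtain ⟨p, rfl⟩ := hu
  refine hsp_eigen hU.map_zero hU.map_add ?_ t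
  have h1 := (gen_iff hN D ha U).mp hU.generator i.1 p (qq a (bb D) i.1 i.2)
  rw [Dm_qq, emb_smul_q, smul_smul] at h1
  have h2 : Complex.I * ((-(ev a (bb D) i.1 i.2) : ℝ) : ℂ) =
      -(Complex.I * (ev a (bb D) i.1 i.2 : ℂ)) := by push_cast; ring
  rw [h2] at h1
  exact h1

theorem prop_unique (hN : 2 ≤ N) (D : RootData N) {a : ℝ} (ha : 0 < a)
    {U U' : ℝ → (L2c D a →L[ℂ] L2c D a)} (hU : IsPropC D a U) (hU' : IsPropC D a U') :
    U' = U := by
  funext t
  refine hsp_ext (Wsub hN D ha) (Wsub_orth hN D ha) (Wsub_tot hN D ha) fun i u hu => ?_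
  rw [prop_eigen hN D ha hU t i u hu, prop_eigen hN D ha hU' t i u hu]

theorem prop_exists (hN : 2 ≤ N) (D : RootData N) {a : ℝ} (ha : 0 < a) :
    ∃ U : ℝ → (L2c D a →L[ℂ] L2c D a), IsPropC D a U := by
  obtain ⟨U, h0, hadd, hiso, hcont, heig⟩ := hsp_exists (Wsub hN D ha) (Wsub_orth hN D ha)
    (Wsub_tot hN D ha) (fun i => ev a (bb D) i.1 i.2)
  refine ⟨U, h0, hadd, hiso, hcont, (gen_iff hN D ha U).mpr fun m p q => ?_⟩
  refine gen_lin hN D ha p U (s := Set.range (qq a (bb D) m)) ?_ (qq_span a (bb D) m q)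
  rintro _ ⟨l, rfl⟩
  have h1 : ∀ t : ℝ, U t (emb hN D ha m (qq a (bb D) m l) p) =
      Complex.exp (-(Complex.I * ev a (bb D) m l * t)) • emb hN D ha m (qq a (bb D) m l) p :=
    fun t => heig t (m, l) _ ⟨p, rfl⟩
  simp_rw [h1]
  rw [Dm_qq, emb_smul_q, smul_smul]
  have h2 : HasDerivAt (fun t : ℝ => -(Complex.I * ev a (bb D) m l * (t : ℂ)))
      (-(Complex.I * ev a (bb D) m l)) (0 : ℝ) := by
    have h5 : HasDerivAt (fun t : ℝ => (t : ℂ)) 1 (0 : ℝ) := Complex.ofRealCLM.hasDerivAt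
    have h6 := h5.const_mul (-(Complex.I * ev a (bb D) m l))
    rw [mul_one] at h6
    refine h6.congr_of_eventuallyEq (Filter.Eventually.of_forall fun t => ?_)
    ring
  have h3 := h2.cexp
  have h4 := h3.smul_const (emb hN D ha m (qq a (bb D) m l) p)
  have h7 : Complex.exp (-(Complex.I * (ev a (bb D) m l : ℂ) * ((0 : ℝ) : ℂ))) *
      -(Complex.I * (ev a (bb D) m l : ℂ)) =
      Complex.I * ((-(ev a (bb D) m l) : ℝ) : ℂ) := by
    push_cast
    rw [mul_zero, neg_zero, Complex.exp_zero]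
    ring
  rw [h7] at h4
  exact h4

theorem main (N : ℕ) (hN : 2 ≤ N) (D : RootData N) (a : ℝ) (ha : 0 < a) :
    (∀ f : E N → ℂ, MemS D a f → MemLp f 2 (mu D a)) ∧
    ∃ U : ℝ → (L2c D a →L[ℂ] L2c D a), IsPropC D a U ∧
      (∀ U' : ℝ → (L2c D a →L[ℂ] L2c D a), IsPropC D a U' → U' = U) ∧
      (transformC D a U) '' (SClassC D a) = SClassC D a := by
  refine ⟨fun f hf => ?_, ?_⟩
  · have h1 := decay_memLp hN D ha _ (wbd_of_memS hf).decay
    exact (memLp_congr_ae (cut_ae hN D a f)).mp h1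
  · obtain ⟨U, hU⟩ := prop_exists hN D ha
    refine ⟨U, hU, fun U' hU' => prop_unique hN D ha hU hU', ?_⟩
    set c0 : ℂ := Complex.exp (Complex.I * (Real.pi / (2 * a) * (2 * kSum D + N + a - 2) : ℝ))
      with hc0
    set s : ℝ := Real.pi / (2 * a) with hs
    have hF : transformC D a U = c0 • U s := rfl
    have hc0n : ‖c0‖ = 1 := by
      rw [hc0, mul_comm]
      exact Complex.norm_exp_ofReal_mul_I _
    have hc0' : c0 ≠ 0 := fun h => by rw [h] at hc0n; simp at hc0n
    have hexp : ∀ (i : ℕ × ℕ) (t : ℝ),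
        ‖Complex.exp (-(Complex.I * ev a (bb D) i.1 i.2 * t))‖ = 1 := by
      intro i t
      have : -(Complex.I * ev a (bb D) i.1 i.2 * t) =
          ((-(ev a (bb D) i.1 i.2 * t) : ℝ) : ℂ) * Complex.I := by push_cast; ring
      rw [this]
      exact Complex.norm_exp_ofReal_mul_I _
    apply Set.Subset.antisymm
    · rintro _ ⟨g, hg, rfl⟩
      refine mult_class hN D ha (transformC D a U)
        (fun i => c0 * Complex.exp (-(Complex.I * ev a (bb D) i.1 i.2 * s))) (fun i => ?_)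
        (fun i u hu => ?_) hg
      · rw [norm_mul, hc0n, hexp, one_mul]
      · rw [hF, smul_apply, prop_eigen hN D ha hU s i u hu, smul_smul]
    · intro g hg
      refine ⟨(c0⁻¹ • U (-s)) g, ?_, ?_⟩
      · refine mult_class hN D ha (c0⁻¹ • U (-s))
          (fun i => c0⁻¹ * Complex.exp (-(Complex.I * ev a (bb D) i.1 i.2 * (-s : ℝ)))) (fun i => ?_)
          (fun i u hu => ?_) hg
        · rw [norm_mul, norm_inv, hc0n, hexp, inv_one, one_mul]
        · rw [smul_apply, prop_eigen hN D ha hU (-s) i u hu, smul_smul]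
      · rw [hF, smul_apply, smul_apply, map_smul,
          smul_smul, mul_inv_cancel₀ hc0', one_smul]
        have := hU.map_add s (-s)
        rw [add_neg_cancel, hU.map_zero] at this
        have h2 := congrArg (fun A : L2c D a →L[ℂ] L2c D a => A g) this
        simpa using h2.symm

end KaSch
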