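import Pool.Agent.Work.MP_d717ad_an.Fin4

open scoped ContDiff Topology Polynomial InnerProductSpace
open MeasureTheory Set

noncomputable section

namespace KaSch

variable {N : ℕ}

/-- from a propagator on `L2` to a family of continuous linear maps on `L2c` -/
def toC {D : RootData N} {a : ℝ} {U : ℝ → L2 D a → L2 D a} (hU : IsPropagator D a U) (t : ℝ) :
    L2c D a →L[ℂ] L2c D a :=
  LinearMap.mkContinuous (σ := RingHom.id ℂ)
    { toFun := fun g => (U t (show L2 D a from g) : L2 D a)
      map_add' := fun g h => by
        have := hU.linear t 1 g h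
        rw [one_smul, one_smul] at this
        exact this
      map_smul' := fun c g => by
        have h0 : U t 0 = 0 := by
          have h1 := hU.isometry t 0
          rw [norm_zero] at h1
          exact norm_eq_zero.mp h1
        have := hU.linear t c g 0
        rw [add_zero, h0, add_zero] at this
        exact this } 1 (fun g => by
        rw [one_mul]
        exact (hU.isometry t g).le)

theorem toC_apply {D : RootData N} {a : ℝ} {U : ℝ → L2 D a → L2 D a} (hU : IsPropagator D a U)
    (t : ℝ) (g : L2 D a) : (toC hU t : L2c D a → L2c D a) g = U t g := rfl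

theorem isPropC_toC {D : RootData N} {a : ℝ} {U : ℝ → L2 D a → L2 D a}
    (hU : IsPropagator D a U) : IsPropC D a (toC hU) where
  map_zero := by
    ext1 g
    exact hU.map_zero g
  map_add s t := by
    ext1 g
    exact hU.map_add s t g
  isometry t g := hU.isometry t g
  continuous g := hU.continuous g
  generator m j p hp hp' u v hu hv := hU.generator m j p hp hp' u v hu hv

theorem isPropagator_of {D : RootData N} {a : ℝ} {U : ℝ → (L2c D a →L[ℂ] L2c D a)}
    (hU : IsPropC D a U) : IsPropagator D a (fun t (g : L2 D a) => (U t g : L2c D a)) where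
  map_zero g := by
    have := congrArg (fun A : L2c D a →L[ℂ] L2c D a => A g) hU.map_zero
    exact this
  map_add s t g := by
    have := congrArg (fun A : L2c D a →L[ℂ] L2c D a => A g) (hU.map_add s t)
    exact this
  linear t c g h := by
    have h1 : ∀ g' h' : L2c D a, (U t) (c • g' + h') = c • U t g' + U t h' := fun g' h' => by
      rw [map_add, map_smul]
    exact h1 g h
  isometry t g := hU.isometry t g
  continuous g := hU.continuous g
  generator m j p hp hp' u v hu hv := hU.generator m j p hp hp' u v hu hv

theorem final (N : ℕ) (hN : 2 ≤ N) (D : RootData N) (a : ℝ) (ha : 0 < a) :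
    (∀ f : E N → ℂ, MemS D a f → ∃ g : L2 D a, Rep D a g f) ∧
    ∃ U : ℝ → L2 D a → L2 D a, IsPropagator D a U ∧
      (∀ U' : ℝ → L2 D a → L2 D a, IsPropagator D a U' → U' = U) ∧
      transform D a U '' SClass D a = SClass D a := by
  obtain ⟨h1, U, hU, huniq, himg⟩ := main N hN D a ha
  refine ⟨fun f hf => ⟨(h1 f hf).toLp f, (h1 f hf).coeFn_toLp⟩,
    fun t (g : L2 D a) => (U t g : L2c D a), isPropagator_of hU, fun U' hU' => ?_, himg⟩
  have h2 := huniq _ (isPropC_toC hU')
  funext t g
  have h3 := congrArg (fun A : ℝ → (L2c D a →L[ℂ] L2c D a) => A t g) h2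
  exact h3

end KaSch
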