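import Pool.Agent.Work.MP_d717ad_an.Defs

open scoped ContDiff Topology
open MeasureTheory Set

noncomputable section

namespace KaSch

variable {N : ℕ}

/-! ### Module QUOT: reflections, difference quotients, smoothness on `{0}ᶜ` -/

theorem inner_self_pos' {α : E N} (h : α ≠ 0) : 0 < (inner ℝ α α : ℝ) := by
  rw [real_inner_self_eq_norm_sq]
  have := norm_pos_iff.mpr h
  positivity

theorem inner_refl_self {α : E N} (h : α ≠ 0) (x : E N) :
    (inner ℝ α (refl α x) : ℝ) = - inner ℝ α x := by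
  have h1 := (inner_self_pos' h).ne'
  unfold refl
  rw [inner_sub_right, inner_smul_right]
  field_simp
  ring

theorem refl_refl {α : E N} (h : α ≠ 0) (x : E N) : refl α (refl α x) = x := by
  have h2 := inner_refl_self h x
  show refl α x - (2 * inner ℝ α (refl α x) / inner ℝ α α) • α = x
  rw [h2]
  unfold refl
  rw [sub_sub, ← add_smul]
  have : (2 * inner ℝ α x / inner ℝ α α + 2 * -inner ℝ α x / inner ℝ α α : ℝ) = 0 := by ring
  rw [this]
  simp

theorem norm_refl {α : E N} (h : α ≠ 0) (x : E N) : ‖refl α x‖ = ‖x‖ := by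
  have h1 := (inner_self_pos' h).ne'
  have h2 : ‖refl α x‖ ^ 2 = ‖x‖ ^ 2 := by
    rw [← real_inner_self_eq_norm_sq, ← real_inner_self_eq_norm_sq]
    unfold refl
    rw [inner_sub_right, inner_sub_left, inner_sub_left, inner_smul_right, inner_smul_left,
      inner_smul_right, inner_smul_left, real_inner_comm α x]
    simp only [conj_trivial]
    field_simp
    ring
  exact (pow_left_inj₀ (norm_nonneg _) (norm_nonneg _) two_ne_zero).mp h2

theorem refl_ne_zero {α : E N} (h : α ≠ 0) {x : E N} (hx : x ≠ 0) : refl α x ≠ 0 := by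
  rw [← norm_pos_iff, norm_refl h, norm_pos_iff]
  exact hx

theorem pos_mem_roots (D : RootData N) {α : E N} (h : α ∈ D.pos) : α ∈ D.roots := by
  obtain ⟨v, -, hv⟩ := D.pos_spec
  exact ((hv α).mp h).1

theorem pos_ne_zero (D : RootData N) {α : E N} (h : α ∈ D.pos) : α ≠ 0 :=
  D.ne_zero α (pos_mem_roots D h)

theorem pos_k_nonneg (D : RootData N) {α : E N} (h : α ∈ D.pos) : 0 ≤ D.k α :=
  D.k_nonneg α (pos_mem_roots D h)

/-! parametric integrals -/

theorem contDiff_param_nat {X : Type} [NormedAddCommGroup X] [NormedSpace ℝ X]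
    [ProperSpace X] (n : ℕ) :
    ∀ {F : Type} [NormedAddCommGroup F] [NormedSpace ℝ F] [CompleteSpace F]
      {G : X × ℝ → F}, ContDiff ℝ n G → ContDiff ℝ n (fun x => ∫ t in (0 : ℝ)..1, G (x, t)) := by
  induction n with
  | zero =>
    intro F _ _ _ G hG
    rw [Nat.cast_zero, contDiff_zero] at *
    exact intervalIntegral.continuous_parametric_intervalIntegral_of_continuous'
      (f := fun x t => G (x, t)) hG 0 1
  | succ n ih =>
    intro F _ _ _ G hG
    have hcast : ((n + 1 : ℕ) : WithTop ℕ∞) = (n : WithTop ℕ∞) + 1 := by push_cast; rfl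
    rw [hcast] at hG ⊢
    have hGd : Differentiable ℝ G := hG.differentiable (by simp)
    have hG' : ContDiff ℝ n (fderiv ℝ G) := hG.fderiv_right le_rfl
    set G' : X × ℝ → (X →L[ℝ] F) := fun p => (fderiv ℝ G p).comp (ContinuousLinearMap.inl ℝ X ℝ)
      with hG'def
    have hG'c : ContDiff ℝ n G' := hG'.clm_comp contDiff_const
    have hG'cont : Continuous G' := hG'c.continuous
    have key : ∀ x₀ : X, HasFDerivAt (fun x => ∫ t in (0 : ℝ)..1, G (x, t))
        (∫ t in (0 : ℝ)..1, G' (x₀, t)) x₀ := by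
      intro x₀
      have hK : IsCompact ((Metric.closedBall x₀ 1) ×ˢ (Icc (0 : ℝ) 1)) :=
        (isCompact_closedBall x₀ 1).prod isCompact_Icc
      obtain ⟨C, hC⟩ := hK.exists_bound_of_continuousOn hG'cont.continuousOn
      refine (intervalIntegral.hasFDerivAt_integral_of_dominated_of_fderiv_le
        (F := fun x t => G (x, t)) (F' := fun x t => G' (x, t)) (bound := fun _ => C)
        (s := Metric.ball x₀ 1) (Metric.ball_mem_nhds x₀ one_pos) ?_ ?_ ?_ ?_ ?_ ?_)
      · filter_upwards with x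
        exact (hG.continuous.comp (by fun_prop : Continuous fun t : ℝ => (x, t))).aestronglyMeasurable
      · exact (hG.continuous.comp (by fun_prop : Continuous fun t : ℝ => (x₀, t))).intervalIntegrable _ _
      · exact (hG'cont.comp (by fun_prop : Continuous fun t : ℝ => (x₀, t))).aestronglyMeasurable
      · filter_upwards with t ht x hx
        rw [uIoc_of_le zero_le_one] at ht
        exact hC (x, t) ⟨Metric.ball_subset_closedBall hx, ht.1.le, ht.2⟩
      · exact intervalIntegrable_const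
      · filter_upwards with t ht x hx
        have h1 : HasFDerivAt G (fderiv ℝ G (x, t)) (x, t) := (hGd (x, t)).hasFDerivAt
        have h2 : HasFDerivAt (fun y : X => (y, t)) (ContinuousLinearMap.inl ℝ X ℝ) x :=
          hasFDerivAt_prodMk_left x t
        exact h1.comp x h2
    rw [contDiff_succ_iff_fderiv]
    refine ⟨fun x => (key x).differentiableAt, by simp, ?_⟩
    have : fderiv ℝ (fun x => ∫ t in (0 : ℝ)..1, G (x, t)) = fun x => ∫ t in (0 : ℝ)..1, G' (x, t) :=
      funext fun x => (key x).fderiv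
    rw [this]
    exact ih hG'c

theorem contDiff_param {X : Type} [NormedAddCommGroup X] [NormedSpace ℝ X]
    [ProperSpace X] {F : Type} [NormedAddCommGroup F] [NormedSpace ℝ F] [CompleteSpace F]
    {G : X × ℝ → F} (hG : ContDiff ℝ ∞ G) : ContDiff ℝ ∞ (fun x => ∫ t in (0 : ℝ)..1, G (x, t)) := by
  rw [contDiff_infty] at *
  exact fun n => contDiff_param_nat n (hG n)

/-! the integral formula for the difference quotient -/

theorem refl_eq_self {α x : E N} (h : (inner ℝ α x : ℝ) = 0) : refl α x = x := by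
  unfold refl; simp [h]

theorem quot_eq_integral {α : E N} (hα : α ≠ 0) {f : E N → ℂ} (hf : ContDiff ℝ ∞ f) (x : E N) :
    quot α f x = ((2 / inner ℝ α α : ℝ) : ℂ) *
      ∫ t in (0 : ℝ)..1, fderiv ℝ f (x - (t * (2 * inner ℝ α x / inner ℝ α α)) • α) α := by
  have hαα := (inner_self_pos' hα).ne'
  unfold quot
  split_ifs with h
  · simp [h]
  · set c : ℝ := 2 * inner ℝ α x / inner ℝ α α with hc
    have hfd : Differentiable ℝ f := hf.differentiable (by simp)
    have hcont : Continuous (fderiv ℝ f) := hf.continuous_fderiv (by simp)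
    have hder : ∀ t ∈ uIcc (0 : ℝ) 1, HasDerivAt (fun t : ℝ => f (x - (t * c) • α))
        (-(c : ℂ) * fderiv ℝ f (x - (t * c) • α) α) t := by
      intro t _
      have h1 : HasDerivAt (fun t : ℝ => x - (t * c) • α) (-(c • α)) t := by
        have h2 : HasDerivAt (fun t : ℝ => t * c) c t := by
          simpa using (hasDerivAt_id t).mul_const c
        have h3 := (h2.smul_const α).const_sub x
        exact h3
      have h4 := (hfd (x - (t * c) • α)).hasFDerivAt.comp_hasDerivAt t h1
      have h5 : (fderiv ℝ f (x - (t * c) • α)) (-(c • α)) =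
          -(c : ℂ) * fderiv ℝ f (x - (t * c) • α) α := by
        rw [map_neg, map_smul, Complex.real_smul]; ring
      rw [h5] at h4
      exact h4
    have hint : IntervalIntegrable (fun t : ℝ => -(c : ℂ) * fderiv ℝ f (x - (t * c) • α) α)
        volume 0 1 := by
      apply Continuous.intervalIntegrable
      exact continuous_const.mul ((hcont.comp (by fun_prop)).clm_apply continuous_const)
    have h6 := intervalIntegral.integral_eq_sub_of_hasDerivAt hder hint
    rw [intervalIntegral.integral_const_mul] at h6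
    have h7 : f (x - ((1 : ℝ) * c) • α) = f (refl α x) := by rw [one_mul]; rfl
    have h8 : f (x - ((0 : ℝ) * c) • α) = f x := by simp
    rw [h7, h8] at h6
    have h9 : f x - f (refl α x) = (c : ℂ) *
        ∫ t in (0 : ℝ)..1, fderiv ℝ f (x - (t * c) • α) α := by
      rw [← neg_sub, ← h6]; ring
    have h10 : ((inner ℝ α x : ℝ) : ℂ) ≠ 0 := by exact_mod_cast h
    have h11 : ((inner ℝ α α : ℝ) : ℂ) ≠ 0 := by exact_mod_cast hαα
    have h12 : (c : ℂ) / ((inner ℝ α x : ℝ) : ℂ) = ((2 / inner ℝ α α : ℝ) : ℂ) := by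
      rw [hc]; push_cast; field_simp
    rw [h9, mul_div_right_comm, h12]

/-- the same on the whole space -/
theorem quot_contDiff {α : E N} (hα : α ≠ 0) {f : E N → ℂ} (hf : ContDiff ℝ ∞ f) :
    ContDiff ℝ ∞ (quot α f) := by
  have h1 : quot α f = fun x => ((2 / inner ℝ α α : ℝ) : ℂ) *
      ∫ t in (0 : ℝ)..1, fderiv ℝ f (x - (t * (2 * inner ℝ α x / inner ℝ α α)) • α) α :=
    funext fun x => quot_eq_integral hα hf x
  rw [h1]
  apply contDiff_const.mul
  apply contDiff_param (G := fun p : E N × ℝ =>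
    fderiv ℝ f (p.1 - (p.2 * (2 * inner ℝ α p.1 / inner ℝ α α)) • α) α)
  have h2 : ContDiff ℝ ∞ (fderiv ℝ f) := hf.fderiv_right (by simp)
  have h3 : ContDiff ℝ ∞ (fun p : E N × ℝ =>
      p.1 - (p.2 * (2 * inner ℝ α p.1 / inner ℝ α α)) • α) := by
    apply contDiff_fst.sub
    apply ContDiff.fun_smul _ contDiff_const
    apply contDiff_snd.mul
    apply ContDiff.div_const
    exact contDiff_const.mul (contDiff_const.inner ℝ contDiff_fst)
  exact (h2.comp h3).clm_apply contDiff_const

theorem refl_contDiff (α : E N) : ContDiff ℝ ∞ (refl α) := by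
  unfold refl
  apply contDiff_id.sub
  apply ContDiff.fun_smul _ contDiff_const
  apply ContDiff.div_const
  exact contDiff_const.mul (contDiff_const.inner ℝ contDiff_id)

theorem quot_eventuallyEq {α : E N} {f g : E N → ℂ} {x : E N}
    (h : f =ᶠ[𝓝 x] g) (h' : f =ᶠ[𝓝 (refl α x)] g) : quot α f =ᶠ[𝓝 x] quot α g := by
  have h1 : ∀ᶠ y in 𝓝 x, f =ᶠ[𝓝 y] g := h.eventually_nhds
  have h2 : ∀ᶠ y in 𝓝 x, f (refl α y) = g (refl α y) :=
    (refl_contDiff α).continuous.continuousAt.eventually h'
  filter_upwards [h1, h2] with y hy1 hy2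
  unfold quot
  rw [hy1.fderiv_eq, hy1.self_of_nhds, hy2]

/-- the difference quotient of a function smooth on `{0}ᶜ` is smooth on `{0}ᶜ`
(near the hyperplane: `quot α f x = (2/|α|²) ∫_0^1 f'(x - 2t⟨α,x⟩/|α|² α) α dt`; away from it: clear) -/
theorem quot_contDiffOn {α : E N} (hα : α ≠ 0) {f : E N → ℂ} (hf : ContDiffOn ℝ ∞ f {0}ᶜ) :
    ContDiffOn ℝ ∞ (quot α f) {0}ᶜ := by
  intro x₀ hx₀
  have hx₀' : x₀ ≠ 0 := hx₀
  apply ContDiffAt.contDiffWithinAt
  have hnf : ∀ y : E N, y ≠ 0 → ContDiffAt ℝ ∞ f y := fun y hy =>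
    hf.contDiffAt (isOpen_compl_singleton.mem_nhds hy)
  by_cases h : (inner ℝ α x₀ : ℝ) = 0
  · -- near the hyperplane: cut off
    have hr : refl α x₀ = x₀ := refl_eq_self h
    obtain ⟨χ, hχ0, hχsupp⟩ : ∃ χ : ContDiffBump x₀, χ.rOut ≤ ‖x₀‖ / 2 ∧ True := by
      have hpos : 0 < ‖x₀‖ := norm_pos_iff.mpr hx₀'
      exact ⟨⟨‖x₀‖ / 4, ‖x₀‖ / 2, by positivity, by linarith⟩, le_rfl, trivial⟩
    set g : E N → ℂ := fun y => (χ y : ℂ) * f y with hg
    have hgs : ContDiff ℝ ∞ g := by
      rw [contDiff_iff_contDiffAt]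
      intro y
      by_cases hy : y = 0
      · -- near zero, g = 0
        have h0 : g =ᶠ[𝓝 y] fun _ => (0 : ℂ) := by
          have : ∀ᶠ z in 𝓝 y, z ∉ Metric.closedBall x₀ χ.rOut := by
            apply (Metric.isClosed_closedBall.isOpen_compl).mem_nhds
            rw [mem_compl_iff, Metric.mem_closedBall, hy, dist_zero_left]
            have hpos : 0 < ‖x₀‖ := norm_pos_iff.mpr hx₀'
            linarith
          filter_upwards [this] with z hz
          have hz' : χ z = 0 := by
            apply χ.zero_of_le_dist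
            rw [Metric.mem_closedBall, not_le] at hz
            exact hz.le
          simp [hg, hz']
        exact contDiffAt_const.congr_of_eventuallyEq h0
      · have h1 : ContDiffAt ℝ ∞ (fun y => (χ y : ℂ)) y :=
          Complex.ofRealCLM.contDiff.contDiffAt.comp y χ.contDiff.contDiffAt
        exact h1.mul (hnf y hy)
    have hgf : f =ᶠ[𝓝 x₀] g := by
      have := χ.eventuallyEq_one
      filter_upwards [this] with z hz
      simp [hg, hz]
    have h2 : quot α f =ᶠ[𝓝 x₀] quot α g := by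
      apply quot_eventuallyEq hgf
      rw [hr]; exact hgf
    exact (quot_contDiff hα hgs).contDiffAt.congr_of_eventuallyEq h2
  · have hopen : ∀ᶠ y in 𝓝 x₀, (inner ℝ α y : ℝ) ≠ 0 := by
      have hc : Continuous fun y : E N => (inner ℝ α y : ℝ) := continuous_const.inner continuous_id
      exact hc.continuousAt.eventually_ne h
    have h1 : quot α f =ᶠ[𝓝 x₀] fun x => (f x - f (refl α x)) / ((inner ℝ α x : ℝ) : ℂ) := by
      filter_upwards [hopen] with y hy
      unfold quot
      rw [if_neg hy]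
    refine ContDiffAt.congr_of_eventuallyEq ?_ h1
    have h2 : ContDiffAt ℝ ∞ (fun x => f x - f (refl α x)) x₀ := by
      apply (hnf x₀ hx₀').sub
      exact (hnf _ (refl_ne_zero hα hx₀')).comp x₀ (refl_contDiff α).contDiffAt
    have h3 : ContDiffAt ℝ ∞ (fun x => ((inner ℝ α x : ℝ) : ℂ)) x₀ := by
      have : ContDiff ℝ ∞ fun y : E N => (inner ℝ α y : ℝ) := contDiff_const.inner ℝ contDiff_id
      exact Complex.ofRealCLM.contDiff.contDiffAt.comp x₀ this.contDiffAt
    have h4 : ((inner ℝ α x₀ : ℝ) : ℂ) ≠ 0 := by exact_mod_cast h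
    simp only [div_eq_mul_inv]
    exact h2.mul (h3.inv h4)

theorem T_contDiffOn (D : RootData N) (ξ : E N) {f : E N → ℂ} (hf : ContDiffOn ℝ ∞ f {0}ᶜ) :
    ContDiffOn ℝ ∞ (T D ξ f) {0}ᶜ := by
  unfold T
  apply ContDiffOn.add
  · exact (hf.fderiv_of_isOpen isOpen_compl_singleton (by simp)).clm_apply contDiffOn_const
  · apply ContDiffOn.sum
    intro α hα
    exact contDiffOn_const.mul (quot_contDiffOn (pos_ne_zero D hα) hf)

theorem T_contDiff (D : RootData N) (ξ : E N) {f : E N → ℂ} (hf : ContDiff ℝ ∞ f) :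
    ContDiff ℝ ∞ (T D ξ f) := by
  unfold T
  apply ContDiff.add
  · exact (hf.fderiv_right (by simp)).clm_apply contDiff_const
  · apply ContDiff.sum
    intro α hα
    exact contDiff_const.mul (quot_contDiff (pos_ne_zero D hα) hf)

theorem Lap_contDiffOn (D : RootData N) {f : E N → ℂ} (hf : ContDiffOn ℝ ∞ f {0}ᶜ) :
    ContDiffOn ℝ ∞ (Lap D f) {0}ᶜ := by
  unfold Lap
  apply ContDiffOn.sum
  intro j _
  exact T_contDiffOn D _ (T_contDiffOn D _ hf)

theorem BF_contDiffOn (D : RootData N) (a : ℝ) {f : E N → ℂ} (hf : ContDiffOn ℝ ∞ f {0}ᶜ) :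
    ContDiffOn ℝ ∞ (BF D a f) {0}ᶜ := by
  unfold BF
  apply ContDiffOn.mul _ (Lap_contDiffOn D hf)
  apply Complex.ofRealCLM.contDiff.comp_contDiffOn
  intro x hx
  have hx' : x ≠ 0 := hx
  exact ((contDiffAt_norm ℝ hx').rpow_const_of_ne (norm_ne_zero_iff.mpr hx')).contDiffWithinAt

theorem quot_congr {α : E N} (hα : α ≠ 0) {f g : E N → ℂ} (h : EqOn f g {0}ᶜ) :
    EqOn (quot α f) (quot α g) {0}ᶜ := by
  intro x hx
  have hx' : x ≠ 0 := hx
  have hev : ∀ y : E N, y ≠ 0 → f =ᶠ[𝓝 y] g := fun y hy =>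
    Filter.eventuallyEq_of_mem (isOpen_compl_singleton.mem_nhds hy) h
  exact (quot_eventuallyEq (hev x hx') (hev _ (refl_ne_zero hα hx'))).self_of_nhds

theorem T_congr (D : RootData N) (ξ : E N) {f g : E N → ℂ} (h : EqOn f g {0}ᶜ) :
    EqOn (T D ξ f) (T D ξ g) {0}ᶜ := by
  intro x hx
  have hx' : x ≠ 0 := hx
  have hev : f =ᶠ[𝓝 x] g := Filter.eventuallyEq_of_mem (isOpen_compl_singleton.mem_nhds hx') h
  unfold T
  rw [hev.fderiv_eq]
  congr 1
  apply Finset.sum_congr rfl
  intro α hα
  rw [quot_congr (pos_ne_zero D hα) h hx]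

theorem Lap_congr (D : RootData N) {f g : E N → ℂ} (h : EqOn f g {0}ᶜ) :
    EqOn (Lap D f) (Lap D g) {0}ᶜ := by
  intro x hx
  unfold Lap
  apply Finset.sum_congr rfl
  intro j _
  exact T_congr D _ (T_congr D _ h) hx

theorem BF_congr (D : RootData N) (a : ℝ) {f g : E N → ℂ} (h : EqOn f g {0}ᶜ) :
    EqOn (BF D a f) (BF D a g) {0}ᶜ := by
  intro x hx
  unfold BF
  rw [Lap_congr D h hx]

/-- linearity on functions differentiable at `x` and `refl α x` is automatic for `quot` up to
differentiability at `x` -/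
theorem quot_add {α : E N} {f g : E N → ℂ} {x : E N} (hf : DifferentiableAt ℝ f x)
    (hg : DifferentiableAt ℝ g x) :
    quot α (fun y => f y + g y) x = quot α f x + quot α g x := by
  unfold quot
  split_ifs with h
  · rw [fderiv_fun_add hf hg, _root_.add_apply]; ring
  · ring

theorem quot_const_mul {α : E N} {f : E N → ℂ} {x : E N} (hf : DifferentiableAt ℝ f x) (c : ℂ) :
    quot α (fun y => c * f y) x = c * quot α f x := by
  unfold quot
  split_ifs with h
  · rw [fderiv_const_mul hf, _root_.smul_apply, smul_eq_mul]; ring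
  · ring

theorem T_add (D : RootData N) (ξ : E N) {f g : E N → ℂ} {x : E N} (hf : DifferentiableAt ℝ f x)
    (hg : DifferentiableAt ℝ g x) :
    T D ξ (fun y => f y + g y) x = T D ξ f x + T D ξ g x := by
  unfold T
  rw [fderiv_fun_add hf hg, _root_.add_apply]
  simp only [quot_add hf hg, mul_add, Finset.sum_add_distrib]
  ring

theorem T_const_mul (D : RootData N) (ξ : E N) {f : E N → ℂ} {x : E N}
    (hf : DifferentiableAt ℝ f x) (c : ℂ) :
    T D ξ (fun y => c * f y) x = c * T D ξ f x := by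
  unfold T
  rw [fderiv_const_mul hf, _root_.smul_apply, smul_eq_mul]
  simp only [quot_const_mul hf, mul_add, Finset.mul_sum]
  congr 1
  apply Finset.sum_congr rfl
  intro α _
  ring

theorem smooth_diffAt {f : E N → ℂ} (hf : ContDiffOn ℝ ∞ f {0}ᶜ) {x : E N} (hx : x ≠ 0) :
    DifferentiableAt ℝ f x :=
  (hf.contDiffAt (isOpen_compl_singleton.mem_nhds hx)).differentiableAt (by simp)

theorem Lap_add (D : RootData N) {f g : E N → ℂ} (hf : ContDiffOn ℝ ∞ f {0}ᶜ)
    (hg : ContDiffOn ℝ ∞ g {0}ᶜ) {x : E N} (hx : x ≠ 0) :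
    Lap D (fun y => f y + g y) x = Lap D f x + Lap D g x := by
  unfold Lap
  rw [← Finset.sum_add_distrib]
  apply Finset.sum_congr rfl
  intro j _
  have h1 : EqOn (T D (ee j) (fun y => f y + g y)) (fun y => T D (ee j) f y + T D (ee j) g y) {0}ᶜ :=
    fun y hy => T_add D _ (smooth_diffAt hf hy) (smooth_diffAt hg hy)
  rw [T_congr D (ee j) h1 hx]
  exact T_add D _ (smooth_diffAt (T_contDiffOn D _ hf) hx) (smooth_diffAt (T_contDiffOn D _ hg) hx)

theorem Lap_const_mul (D : RootData N) {f : E N → ℂ} (hf : ContDiffOn ℝ ∞ f {0}ᶜ)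
    (c : ℂ) {x : E N} (hx : x ≠ 0) :
    Lap D (fun y => c * f y) x = c * Lap D f x := by
  unfold Lap
  rw [Finset.mul_sum]
  apply Finset.sum_congr rfl
  intro j _
  have h1 : EqOn (T D (ee j) (fun y => c * f y)) (fun y => c * T D (ee j) f y) {0}ᶜ :=
    fun y hy => T_const_mul D _ (smooth_diffAt hf hy) c
  rw [T_congr D (ee j) h1 hx]
  exact T_const_mul D _ (smooth_diffAt (T_contDiffOn D _ hf) hx) c

/-- `refl α` as a continuous linear map -/
def reflL (α : E N) : E N →L[ℝ] E N :=
  ContinuousLinearMap.id ℝ (E N) - (2 / inner ℝ α α : ℝ) • (innerSL ℝ α).smulRight α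

theorem reflL_apply (α x : E N) : reflL α x = refl α x := by
  unfold reflL refl
  simp only [_root_.sub_apply, ContinuousLinearMap.id_apply,
    _root_.smul_apply, ContinuousLinearMap.smulRight_apply, innerSL_apply_apply,
    smul_smul]
  congr 2
  ring

theorem hasFDerivAt_refl (α x : E N) : HasFDerivAt (refl α) (reflL α) x := by
  have h : refl α = fun y => reflL α y := funext fun y => (reflL_apply α y).symm
  rw [h]
  exact (reflL α).hasFDerivAt

theorem refl_self {α : E N} (hα : α ≠ 0) : refl α α = -α := by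
  unfold refl
  have := (inner_self_pos' hα).ne'
  have h2 : (2 * inner ℝ α α / inner ℝ α α : ℝ) = 2 := by field_simp
  rw [h2, two_smul]; abel

/-- multiplication by a function invariant under the reflection -/
theorem quot_mul_of_inv {α : E N} (hα : α ≠ 0) {f g : E N → ℂ} {x : E N}
    (hf : DifferentiableAt ℝ f x) (hg : DifferentiableAt ℝ g x)
    (hinv : ∀ y, g (refl α y) = g y) :
    quot α (fun y => g y * f y) x = g x * quot α f x := by
  unfold quot
  split_ifs with h
  · have hr := refl_eq_self h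
    have h1 : HasFDerivAt g (fderiv ℝ g x) (refl α x) := by rw [hr]; exact hg.hasFDerivAt
    have h2 := h1.comp x (hasFDerivAt_refl α x)
    have h3 : g ∘ refl α = g := funext hinv
    rw [h3] at h2
    have h4 := h2.unique hg.hasFDerivAt
    have h5 : fderiv ℝ g x (refl α α) = fderiv ℝ g x α := by
      rw [← reflL_apply]
      exact congrArg (fun L => L α) h4
    rw [refl_self hα, map_neg] at h5
    have h6 : fderiv ℝ g x α = 0 := by
      have : (2 : ℂ) * fderiv ℝ g x α = 0 := by linear_combination -h5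
      simpa using this
    rw [fderiv_fun_mul hg hf]
    simp only [_root_.add_apply, _root_.smul_apply, smul_eq_mul, h6]
    ring
  · beta_reduce
    rw [hinv]; ring

theorem fderiv_coord (j : Fin N) (x v : E N) :
    fderiv ℝ (fun y : E N => ((y j : ℝ) : ℂ)) x v = ((v j : ℝ) : ℂ) := by
  have h : HasFDerivAt (fun y : E N => ((y j : ℝ) : ℂ))
      (Complex.ofRealCLM.comp (EuclideanSpace.proj j : E N →L[ℝ] ℝ)) x := by
    have h1 : (fun y : E N => ((y j : ℝ) : ℂ)) =
        fun y => (Complex.ofRealCLM.comp (EuclideanSpace.proj j : E N →L[ℝ] ℝ)) y := by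
      funext y; simp
    rw [h1]
    exact ContinuousLinearMap.hasFDerivAt _
  rw [h.fderiv]
  simp

theorem coord_diffAt (j : Fin N) (x : E N) :
    DifferentiableAt ℝ (fun y : E N => ((y j : ℝ) : ℂ)) x := by
  have h1 : (fun y : E N => ((y j : ℝ) : ℂ)) =
      fun y => (Complex.ofRealCLM.comp (EuclideanSpace.proj j : E N →L[ℝ] ℝ)) y := by
    funext y; simp
  rw [h1]
  exact (ContinuousLinearMap.differentiable _).differentiableAt

/-- multiplication by a coordinate -/
theorem quot_coord_mul {α : E N} (hα : α ≠ 0) {f : E N → ℂ} {x : E N}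
    (hf : DifferentiableAt ℝ f x) (j : Fin N) :
    quot α (fun y => ((y j : ℝ) : ℂ) * f y) x =
      ((2 * α j / inner ℝ α α : ℝ) : ℂ) * f (refl α x) + ((x j : ℝ) : ℂ) * quot α f x := by
  have hαα := (inner_self_pos' hα).ne'
  have h11 : ((inner ℝ α α : ℝ) : ℂ) ≠ 0 := by exact_mod_cast hαα
  unfold quot
  split_ifs with h
  · rw [refl_eq_self h, fderiv_fun_mul (coord_diffAt j x) hf]
    simp only [_root_.add_apply, _root_.smul_apply, smul_eq_mul,
      fderiv_coord]
    push_cast
    ring
  · have h10 : ((inner ℝ α x : ℝ) : ℂ) ≠ 0 := by exact_mod_cast h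
    have h12 : (refl α x) j = x j - (2 * inner ℝ α x / inner ℝ α α) * α j := by
      unfold refl; simp
    beta_reduce
    rw [h12]
    push_cast
    field_simp
    ring

/-! complex conjugation -/

theorem fderiv_conj (f : E N → ℂ) (x v : E N) :
    fderiv ℝ (fun y => (starRingEnd ℂ) (f y)) x v = (starRingEnd ℂ) (fderiv ℝ f x v) := by
  have h := Complex.conjCLE.comp_fderiv (f := f) (x := x)
  have h2 : (Complex.conjCLE ∘ f) = fun y => (starRingEnd ℂ) (f y) := by
    funext y; simp
  rw [h2] at h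
  rw [h]
  simp

theorem quot_conj (α : E N) (f : E N → ℂ) (x : E N) :
    quot α (fun y => (starRingEnd ℂ) (f y)) x = (starRingEnd ℂ) (quot α f x) := by
  unfold quot
  split_ifs with h
  · rw [fderiv_conj, map_mul, Complex.conj_ofReal]
  · rw [map_div₀, map_sub, Complex.conj_ofReal]

theorem T_conj (D : RootData N) (ξ : E N) (f : E N → ℂ) (x : E N) :
    T D ξ (fun y => (starRingEnd ℂ) (f y)) x = (starRingEnd ℂ) (T D ξ f x) := by
  unfold T
  rw [fderiv_conj, map_add, map_sum]
  congr 1
  apply Finset.sum_congr rfl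
  intro α _
  rw [quot_conj, map_mul, Complex.conj_ofReal]

/-- complex conjugation -/
theorem Lap_conj (D : RootData N) {f : E N → ℂ} (hf : ContDiffOn ℝ ∞ f {0}ᶜ) {x : E N}
    (hx : x ≠ 0) :
    Lap D (fun y => (starRingEnd ℂ) (f y)) x = (starRingEnd ℂ) (Lap D f x) := by
  unfold Lap
  rw [map_sum]
  apply Finset.sum_congr rfl
  intro j _
  have h1 : T D (ee j) (fun y => (starRingEnd ℂ) (f y)) =
      fun y => (starRingEnd ℂ) (T D (ee j) f y) := funext fun y => T_conj D _ f y
  rw [h1, T_conj]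

end KaSch
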