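import Pool.Agent.Work.MP_d717ad_an.Base

open scoped ContDiff Topology Polynomial
open MeasureTheory Set

noncomputable section

namespace KaSch

/-! ### Module RADALG1: the radial inner product -/

/-- one-variable inner product of `r^m q(r^a) e^{-r^a/a}` in `L²(r^{κ-1} dr)` -/
def rip (a b : ℝ) (m : ℕ) (q q' : ℝ[X]) : ℝ :=
  ∫ r in Ioi (0 : ℝ), (r ^ m * (q.eval (r ^ a) * Real.exp (-(r ^ a) / a))) *
    (r ^ m * (q'.eval (r ^ a) * Real.exp (-(r ^ a) / a))) * r ^ (a + b - 1)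

/-- the radial weight -/
def rW (a b : ℝ) (m : ℕ) (r : ℝ) : ℝ :=
  r ^ (2 * (m : ℝ) + a + b - 1) * Real.exp (-(2 / a) * r ^ a)

/-- the radial moment functional -/
def rI (a b : ℝ) (m : ℕ) (P : ℝ[X]) : ℝ := ∫ r in Ioi (0 : ℝ), P.eval (r ^ a) * rW a b m r

theorem rW_nonneg (a b : ℝ) (m : ℕ) {r : ℝ} (hr : 0 ≤ r) : 0 ≤ rW a b m r :=
  mul_nonneg (Real.rpow_nonneg hr _) (Real.exp_nonneg _)

theorem rW_pos (a b : ℝ) (m : ℕ) {r : ℝ} (hr : 0 < r) : 0 < rW a b m r :=
  mul_pos (Real.rpow_pos_of_pos hr _) (Real.exp_pos _)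

theorem mono_int {a s : ℝ} (ha : 0 < a) (hs : -1 < s) :
    IntegrableOn (fun r : ℝ => r ^ s * Real.exp (-(2 / a) * r ^ a)) (Ioi 0) := by
  by_contra h
  have h1 := integral_undef h
  rw [integral_rpow_mul_exp_neg_mul_rpow ha hs (by positivity)] at h1
  have h2 : 0 < Real.Gamma ((s + 1) / a) := Real.Gamma_pos_of_pos (div_pos (by linarith) ha)
  have h3 : 0 < (2 / a) ^ (-(s + 1) / a) * (1 / a) * Real.Gamma ((s + 1) / a) := by positivity
  exact absurd h1 h3.ne'

theorem mono_rW {a b : ℝ} (m n : ℕ) {r : ℝ} (hr : 0 < r) :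
    (r ^ a) ^ n * rW a b m r =
      r ^ (a * n + (2 * (m : ℝ) + a + b - 1)) * Real.exp (-(2 / a) * r ^ a) := by
  unfold rW
  rw [← mul_assoc, ← Real.rpow_natCast (r ^ a) n, ← Real.rpow_mul hr.le, ← Real.rpow_add hr]

theorem expo_gt {a b : ℝ} (ha : 0 < a) (hb : 0 ≤ b) (m n : ℕ) :
    -1 < a * n + (2 * (m : ℝ) + a + b - 1) := by
  have h1 : (0 : ℝ) ≤ a * n := by positivity
  have h2 : (0 : ℝ) ≤ 2 * (m : ℝ) := by positivity
  linarith

theorem rI_int {a b : ℝ} (ha : 0 < a) (hb : 0 ≤ b) (m : ℕ) (P : ℝ[X]) :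
    IntegrableOn (fun r : ℝ => P.eval (r ^ a) * rW a b m r) (Ioi 0) := by
  induction P using Polynomial.induction_on' with
  | add p q hp hq =>
    have := hp.add hq
    refine this.congr (Filter.Eventually.of_forall fun r => ?_)
    simp [Polynomial.eval_add, add_mul]
  | monomial n c =>
    have h : IntegrableOn (fun r : ℝ => c * (r ^ (a * n + (2 * (m : ℝ) + a + b - 1)) *
        Real.exp (-(2 / a) * r ^ a))) (Ioi 0) := (mono_int ha (expo_gt ha hb m n)).const_mul c
    refine h.congr_fun (fun r hr => ?_) measurableSet_Ioi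
    have := mono_rW (a := a) (b := b) m n (mem_Ioi.mp hr)
    simp only [Polynomial.eval_monomial]
    rw [mul_assoc, this]

theorem rip_integrand (a b : ℝ) (m : ℕ) (q q' : ℝ[X]) {r : ℝ} (hr : 0 < r) :
    (r ^ m * (q.eval (r ^ a) * Real.exp (-(r ^ a) / a))) *
      (r ^ m * (q'.eval (r ^ a) * Real.exp (-(r ^ a) / a))) * r ^ (a + b - 1) =
      (q * q').eval (r ^ a) * rW a b m r := by
  unfold rW
  have h1 : r ^ (2 * (m : ℝ) + a + b - 1) = r ^ m * r ^ m * r ^ (a + b - 1) := by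
    rw [show 2 * (m : ℝ) + a + b - 1 = (m : ℝ) + (m : ℝ) + (a + b - 1) by ring,
      Real.rpow_add hr, Real.rpow_add hr, Real.rpow_natCast]
  have h2 : Real.exp (-(2 / a) * r ^ a) =
      Real.exp (-(r ^ a) / a) * Real.exp (-(r ^ a) / a) := by
    rw [← Real.exp_add]; congr 1; ring
  rw [h1, h2, Polynomial.eval_mul]; ring

theorem rip_integrable {a b : ℝ} (ha : 0 < a) (hb : 0 ≤ b) (m : ℕ) (q q' : ℝ[X]) :
    IntegrableOn (fun r : ℝ => (r ^ m * (q.eval (r ^ a) * Real.exp (-(r ^ a) / a))) *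
      (r ^ m * (q'.eval (r ^ a) * Real.exp (-(r ^ a) / a))) * r ^ (a + b - 1)) (Ioi 0) :=
  (rI_int ha hb m (q * q')).congr_fun (fun _ hr => (rip_integrand a b m q q' hr).symm)
    measurableSet_Ioi

theorem rip_eq_rI (a b : ℝ) (m : ℕ) (q q' : ℝ[X]) : rip a b m q q' = rI a b m (q * q') :=
  setIntegral_congr_fun measurableSet_Ioi fun _ hr => rip_integrand a b m q q' hr

theorem nsq_eq_rip (a b : ℝ) (m : ℕ) (q : ℝ[X]) : nsq a b m q = rip a b m q q := by
  unfold nsq rip
  refine setIntegral_congr_fun measurableSet_Ioi fun r _ => ?_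
  rw [sq]

theorem rI_add {a b : ℝ} (ha : 0 < a) (hb : 0 ≤ b) (m : ℕ) (P Q : ℝ[X]) :
    rI a b m (P + Q) = rI a b m P + rI a b m Q := by
  unfold rI
  rw [← integral_add (rI_int ha hb m P) (rI_int ha hb m Q)]
  refine setIntegral_congr_fun measurableSet_Ioi fun r _ => ?_
  simp [Polynomial.eval_add, add_mul]

theorem rI_C_mul (a b : ℝ) (m : ℕ) (c : ℝ) (P : ℝ[X]) :
    rI a b m (Polynomial.C c * P) = c * rI a b m P := by
  unfold rI
  rw [← integral_const_mul]
  refine setIntegral_congr_fun measurableSet_Ioi fun r _ => ?_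
  simp [mul_assoc]

theorem rI_neg (a b : ℝ) (m : ℕ) (P : ℝ[X]) : rI a b m (-P) = - rI a b m P := by
  have := rI_C_mul a b m (-1) P
  simpa using this

theorem rI_sub {a b : ℝ} (ha : 0 < a) (hb : 0 ≤ b) (m : ℕ) (P Q : ℝ[X]) :
    rI a b m (P - Q) = rI a b m P - rI a b m Q := by
  rw [sub_eq_add_neg, rI_add ha hb, rI_neg, sub_eq_add_neg]

/-- the moment recursion -/
theorem rI_mono {a b : ℝ} (ha : 0 < a) (hb : 0 ≤ b) (m n : ℕ) :
    2 * rI a b m (Polynomial.X ^ (n + 1)) =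
      (a * n + 2 * m + (a + b)) * rI a b m (Polynomial.X ^ n) := by
  have key : ∀ n : ℕ, rI a b m (Polynomial.X ^ n) =
      (2 / a) ^ (-(a * n + (2 * (m : ℝ) + a + b - 1) + 1) / a) * (1 / a) *
        Real.Gamma ((a * n + (2 * (m : ℝ) + a + b - 1) + 1) / a) := by
    intro n
    rw [← integral_rpow_mul_exp_neg_mul_rpow ha (expo_gt ha hb m n) (by positivity)]
    unfold rI
    refine setIntegral_congr_fun measurableSet_Ioi fun r hr => ?_
    simp only [Polynomial.eval_pow, Polynomial.eval_X]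
    exact mono_rW m n hr
  rw [key, key]
  set s : ℝ := a * n + (2 * (m : ℝ) + a + b - 1) + 1 with hs
  have hs0 : 0 < s := by have := expo_gt ha hb m n; linarith
  have e1 : a * ((n + 1 : ℕ) : ℝ) + (2 * (m : ℝ) + a + b - 1) + 1 = s + a := by
    push_cast; rw [hs]; ring
  have e2 : (s + a) / a = s / a + 1 := by field_simp
  have e3 : -(s + a) / a = -s / a + (-1) := by field_simp; ring
  have e4 : a * n + 2 * (m : ℝ) + (a + b) = s := by rw [hs]; ring
  rw [e1, e2, e3, e4, Real.Gamma_add_one (div_pos hs0 ha).ne',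
    Real.rpow_add (by positivity : (0 : ℝ) < 2 / a), Real.rpow_neg_one]
  field_simp

theorem rI_key {a b : ℝ} (ha : 0 < a) (hb : 0 ≤ b) (m : ℕ) (P : ℝ[X]) :
    rI a b m (Polynomial.C a * (Polynomial.X * Polynomial.derivative P)
      + Polynomial.C (2 * m + (a + b)) * P - Polynomial.C 2 * (Polynomial.X * P)) = 0 := by
  induction P using Polynomial.induction_on' with
  | add p q hp hq =>
    have e : Polynomial.C a * (Polynomial.X * Polynomial.derivative (p + q))
      + Polynomial.C (2 * (m : ℝ) + (a + b)) * (p + q)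
        - Polynomial.C 2 * (Polynomial.X * (p + q)) =
      (Polynomial.C a * (Polynomial.X * Polynomial.derivative p)
      + Polynomial.C (2 * (m : ℝ) + (a + b)) * p - Polynomial.C 2 * (Polynomial.X * p)) +
      (Polynomial.C a * (Polynomial.X * Polynomial.derivative q)
      + Polynomial.C (2 * (m : ℝ) + (a + b)) * q - Polynomial.C 2 * (Polynomial.X * q)) := by
      rw [Polynomial.derivative_add]; ring
    rw [e, rI_add ha hb, hp, hq, add_zero]
  | monomial n c =>
    have e : Polynomial.C a * (Polynomial.X * Polynomial.derivative (Polynomial.monomial n c))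
      + Polynomial.C (2 * (m : ℝ) + (a + b)) * Polynomial.monomial n c
        - Polynomial.C 2 * (Polynomial.X * Polynomial.monomial n c) =
      Polynomial.C (c * (a * n + 2 * m + (a + b))) * Polynomial.X ^ n +
        Polynomial.C (- (2 * c)) * Polynomial.X ^ (n + 1) := by
      rw [← Polynomial.C_mul_X_pow_eq_monomial, Polynomial.derivative_C_mul_X_pow]
      rcases n with _ | n
      · simp only [Nat.cast_zero, mul_zero, Polynomial.C_0, zero_mul, pow_zero, mul_one, zero_add,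
          pow_one, map_neg, map_mul, map_add]
        ring
      · simp only [Nat.add_sub_cancel, Nat.cast_add, Nat.cast_one, map_mul, map_add, map_neg,
          map_one]
        ring
    rw [e, rI_add ha hb, rI_C_mul, rI_C_mul]
    have := rI_mono ha hb m n
    linear_combination (-c) * this

theorem rip_add_left {a b : ℝ} (ha : 0 < a) (hb : 0 ≤ b) (m : ℕ) (p q r : ℝ[X]) :
    rip a b m (p + q) r = rip a b m p r + rip a b m q r := by
  rw [rip_eq_rI, rip_eq_rI, rip_eq_rI, add_mul, rI_add ha hb]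

theorem rip_smul_left (a b : ℝ) (m : ℕ) (c : ℝ) (q r : ℝ[X]) :
    rip a b m (Polynomial.C c * q) r = c * rip a b m q r := by
  rw [rip_eq_rI, rip_eq_rI, mul_assoc, rI_C_mul]

theorem rip_comm (a b : ℝ) (m : ℕ) (q r : ℝ[X]) : rip a b m q r = rip a b m r q := by
  rw [rip_eq_rI, rip_eq_rI, mul_comm]

theorem rip_X (a b : ℝ) (m : ℕ) (q r : ℝ[X]) :
    rip a b m (Polynomial.X * q) r = rip a b m q (Polynomial.X * r) := by
  rw [rip_eq_rI, rip_eq_rI]; congr 1; ring

/-- symmetry of `Bm` -/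
theorem rip_B {a b : ℝ} (ha : 0 < a) (hb : 0 ≤ b) (m : ℕ) (q r : ℝ[X]) :
    rip a b m (Bm a b m q) r = rip a b m q (Bm a b m r) := by
  rw [rip_eq_rI, rip_eq_rI, ← sub_eq_zero, ← rI_sub ha hb]
  set W : ℝ[X] := Polynomial.derivative q * r - q * Polynomial.derivative r with hW
  have hW' : Polynomial.derivative W = Polynomial.derivative (Polynomial.derivative q) * r
      - q * Polynomial.derivative (Polynomial.derivative r) := by
    rw [hW]; simp only [Polynomial.derivative_sub, Polynomial.derivative_mul]; ring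
  have e : Bm a b m q * r - q * Bm a b m r = Polynomial.C a *
      (Polynomial.C a * (Polynomial.X * Polynomial.derivative W)
      + Polynomial.C (2 * m + (a + b)) * W - Polynomial.C 2 * (Polynomial.X * W)) := by
    rw [hW', hW]
    unfold Bm
    simp only [map_mul, map_add, map_pow]
    ring
  rw [e, rI_C_mul, rI_key ha hb, mul_zero]

/-- antisymmetry of `2 Tm + κ` -/
theorem rip_T {a b : ℝ} (ha : 0 < a) (hb : 0 ≤ b) (m : ℕ) (q r : ℝ[X]) :
    rip a b m (Polynomial.C 2 * Tm a m q + Polynomial.C (a + b) * q) r =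
      - rip a b m q (Polynomial.C 2 * Tm a m r + Polynomial.C (a + b) * r) := by
  rw [rip_eq_rI, rip_eq_rI, eq_neg_iff_add_eq_zero, ← rI_add ha hb]
  have e : (Polynomial.C 2 * Tm a m q + Polynomial.C (a + b) * q) * r +
      q * (Polynomial.C 2 * Tm a m r + Polynomial.C (a + b) * r) = Polynomial.C 2 *
      (Polynomial.C a * (Polynomial.X * Polynomial.derivative (q * r))
      + Polynomial.C (2 * m + (a + b)) * (q * r) - Polynomial.C 2 * (Polynomial.X * (q * r))) := by
    rw [Polynomial.derivative_mul]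
    unfold Tm
    simp only [map_mul, map_add]
    have h2 : (Polynomial.C (2 : ℝ)) = 2 := map_ofNat Polynomial.C 2
    rw [h2]
    ring
  rw [e, rI_C_mul, rI_key ha hb, mul_zero]

theorem nsq_nonneg (a b : ℝ) (m : ℕ) (q : ℝ[X]) : 0 ≤ nsq a b m q :=
  setIntegral_nonneg measurableSet_Ioi fun _ hr =>
    mul_nonneg (sq_nonneg _) (Real.rpow_nonneg (mem_Ioi.mp hr).le _)

theorem nsq_pos {a b : ℝ} (ha : 0 < a) (hb : 0 ≤ b) (m : ℕ) {q : ℝ[X]} (hq : q ≠ 0) :
    0 < nsq a b m q := by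
  refine lt_of_le_of_ne (nsq_nonneg a b m q) fun h => ?_
  rw [nsq_eq_rip, rip_eq_rI, rI] at h
  have hnn : 0 ≤ᵐ[volume.restrict (Ioi (0 : ℝ))]
      fun r : ℝ => (q * q).eval (r ^ a) * rW a b m r := by
    refine (ae_restrict_iff' measurableSet_Ioi).mpr (Filter.Eventually.of_forall fun r hr => ?_)
    simp only [Pi.zero_apply, Polynomial.eval_mul]
    exact mul_nonneg (mul_self_nonneg _) (rW_nonneg a b m (mem_Ioi.mp hr).le)
  have h0 := (setIntegral_eq_zero_iff_of_nonneg_ae hnn (rI_int ha hb m (q * q))).mp h.symm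
  have hfin : {r : ℝ | 0 < r ∧ q.eval (r ^ a) = 0}.Finite := by
    refine Set.Finite.subset (((q.roots.toFinset : Set ℝ)).toFinite.image fun x => x ^ a⁻¹) ?_
    rintro r ⟨hr, hr0⟩
    refine ⟨r ^ a, ?_, ?_⟩
    · simpa [hq] using hr0
    · show (r ^ a) ^ a⁻¹ = r
      rw [← Real.rpow_mul hr.le, mul_inv_cancel₀ ha.ne', Real.rpow_one]
  have h1 : ∀ᵐ r : ℝ ∂(volume.restrict (Ioi (0 : ℝ))), False := by
    have h2 : ∀ᵐ r : ℝ ∂(volume.restrict (Ioi (0 : ℝ))),
        r ∉ {r : ℝ | 0 < r ∧ q.eval (r ^ a) = 0} :=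
      ae_restrict_of_ae (hfin.countable.ae_notMem volume)
    filter_upwards [h0, h2, ae_restrict_mem measurableSet_Ioi] with r hr1 hr2 hr3
    apply hr2
    refine ⟨hr3, ?_⟩
    simp only [Pi.zero_apply, Polynomial.eval_mul, mul_eq_zero, or_self] at hr1
    exact hr1.resolve_right (rW_pos a b m hr3).ne'
  rw [Filter.eventually_false_iff_eq_bot, ae_eq_bot, Measure.restrict_eq_zero] at h1
  simp at h1

theorem nsq_add {a b : ℝ} (ha : 0 < a) (hb : 0 ≤ b) (m : ℕ) (p q : ℝ[X]) :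
    nsq a b m (p + q) = nsq a b m p + 2 * rip a b m p q + nsq a b m q := by
  rw [nsq_eq_rip, nsq_eq_rip, nsq_eq_rip, rip_add_left ha hb, rip_comm a b m p (p + q),
    rip_comm a b m q (p + q), rip_add_left ha hb, rip_add_left ha hb, rip_comm a b m q p]
  ring

theorem nsq_smul (a b : ℝ) (m : ℕ) (c : ℝ) (q : ℝ[X]) :
    nsq a b m (Polynomial.C c * q) = c ^ 2 * nsq a b m q := by
  rw [nsq_eq_rip, nsq_eq_rip, rip_smul_left, rip_comm, rip_smul_left]; ring

/-- Cauchy-Schwarz -/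
theorem rip_cs {a b : ℝ} (ha : 0 < a) (hb : 0 ≤ b) (m : ℕ) (p q : ℝ[X]) :
    |rip a b m p q| ≤ Real.sqrt (nsq a b m p) * Real.sqrt (nsq a b m q) := by
  have h : ∀ t : ℝ, 0 ≤ nsq a b m q * (t * t) + 2 * rip a b m p q * t + nsq a b m p := by
    intro t
    have h1 := nsq_nonneg a b m (p + Polynomial.C t * q)
    rw [nsq_add ha hb, nsq_smul, rip_comm a b m p, rip_smul_left, rip_comm a b m q p] at h1
    linarith
  have h2 := discrim_le_zero h
  unfold discrim at h2
  rw [← Real.sqrt_mul (nsq_nonneg a b m p)]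
  apply Real.le_sqrt_of_sq_le
  rw [sq_abs]
  nlinarith

/-- triangle inequality for `√nsq` -/
theorem sqrt_nsq_add {a b : ℝ} (ha : 0 < a) (hb : 0 ≤ b) (m : ℕ) (p q : ℝ[X]) :
    Real.sqrt (nsq a b m (p + q)) ≤ Real.sqrt (nsq a b m p) + Real.sqrt (nsq a b m q) := by
  rw [Real.sqrt_le_left (add_nonneg (Real.sqrt_nonneg _) (Real.sqrt_nonneg _)), nsq_add ha hb]
  have h1 := (abs_le.mp (rip_cs ha hb m p q)).2
  have h2 := Real.sq_sqrt (nsq_nonneg a b m p)
  have h3 := Real.sq_sqrt (nsq_nonneg a b m q)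
  nlinarith

theorem sqrt_nsq_smul (a b : ℝ) (m : ℕ) (c : ℝ) (q : ℝ[X]) :
    Real.sqrt (nsq a b m (Polynomial.C c * q)) = |c| * Real.sqrt (nsq a b m q) := by
  rw [nsq_smul, Real.sqrt_mul (sq_nonneg c), Real.sqrt_sq_eq_abs]

end KaSch
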