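import Pool.Agent.Work.MP_d717ad_an.Base
import Pool.Agent.Work.MP_d717ad_an.Hom1

open scoped ContDiff Topology Polynomial
open MeasureTheory Set

noncomputable section

namespace KaSch

variable {N : ℕ}

/-! ### Module SPH1: Bernstein inequality for rotations, Lipschitz bound on the ball -/

namespace Sph1Aux

theorem iteratedDeriv_poly (P : ℂ[X]) (k : ℕ) :
    iteratedDeriv k (fun z : ℂ => P.eval z) = fun z => (Polynomial.derivative^[k] P).eval z := by
  induction k with
  | zero => simp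
  | succ k ih =>
    rw [iteratedDeriv_succ, ih]
    funext z
    rw [Function.iterate_succ_apply', Polynomial.deriv]

theorem coeff_bound (P : ℂ[X]) {M : ℝ} (hM : ∀ z : ℂ, ‖z‖ = 1 → ‖P.eval z‖ ≤ M) (k : ℕ) :
    ‖P.coeff k‖ ≤ M := by
  have h1 := Complex.norm_iteratedDeriv_le_of_forall_mem_sphere_norm_le (c := 0) (R := 1) (C := M) k
    zero_lt_one (f := fun z => P.eval z) P.differentiable.diffContOnCl
    (fun z hz => hM z (by simpa using hz))
  rw [iteratedDeriv_poly] at h1
  simp only [one_pow, div_one] at h1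
  rw [← Polynomial.coeff_zero_eq_eval_zero, Polynomial.coeff_iterate_derivative, zero_add,
    Nat.descFactorial_self, nsmul_eq_mul, norm_mul, Complex.norm_natCast] at h1
  have h2 : (0 : ℝ) < k.factorial := by exact_mod_cast k.factorial_pos
  exact le_of_mul_le_mul_left h1 h2

theorem sum_abs_sub (m : ℕ) :
    ∑ k ∈ Finset.range (2 * m + 1), |(k : ℝ) - m| = m * (m + 1) := by
  induction m with
  | zero => simp
  | succ m ih =>
    rw [show 2 * (m + 1) + 1 = (2 * m + 1 + 1) + 1 by ring, Finset.sum_range_succ',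
      Finset.sum_range_succ]
    have h1 : ∀ k : ℕ, |((k + 1 : ℕ) : ℝ) - ((m + 1 : ℕ) : ℝ)| = |(k : ℝ) - m| := fun k => by
      push_cast; congr 1; ring
    simp_rw [h1]
    rw [ih]
    have h2 : |((2 * m + 1 : ℕ) : ℝ) - m| = m + 1 := by
      push_cast
      rw [abs_of_nonneg (by linarith [(Nat.cast_nonneg m : (0:ℝ) ≤ m)])]
      ring
    have h3 : |((0 : ℕ) : ℝ) - ((m + 1 : ℕ) : ℝ)| = m + 1 := by
      push_cast
      rw [zero_sub, abs_neg, abs_of_nonneg (by positivity)]
    rw [h2, h3]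
    push_cast
    ring

/-- trigonometric polynomials of degree at most `m` -/
theorem trig_bound (m : ℕ) (P : ℂ[X]) (hdeg : P.natDegree ≤ 2 * m) {M : ℝ}
    (hM : ∀ z : ℂ, ‖z‖ = 1 → ‖P.eval z‖ ≤ M) {g : ℝ → ℂ} {v : ℂ}
    (hg : ∀ θ : ℝ, Complex.exp (Complex.I * m * θ) * g θ = P.eval (Complex.exp (Complex.I * θ)))
    (hv : HasDerivAt g v 0) : ‖v‖ ≤ m * (m + 1) * M := by
  have hlin : ∀ c : ℂ, HasDerivAt (fun θ : ℝ => c * (θ : ℂ)) c 0 := fun c => by
    have h3 : HasDerivAt (fun t : ℝ => (t : ℂ)) 1 0 := by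
      have := (hasDerivAt_id (0:ℝ)).ofReal_comp
      simpa using this
    simpa using h3.const_mul c
  have h1 : HasDerivAt (fun θ : ℝ => Complex.exp (Complex.I * m * θ) * g θ)
      (Complex.I * m * g 0 + v) 0 := by
    have h2 := (hlin (Complex.I * m)).cexp
    refine (h2.mul hv).congr_deriv ?_
    simp
  have h4 : HasDerivAt (fun θ : ℝ => P.eval (Complex.exp (Complex.I * θ)))
      (P.derivative.eval 1 * Complex.I) 0 := by
    have h2 := (hlin Complex.I).cexp
    refine ((P.hasDerivAt (Complex.exp (Complex.I * ((0:ℝ):ℂ)))).comp (0:ℝ) h2).congr_deriv ?_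
    simp
  have h5 : Complex.I * m * g 0 + v = P.derivative.eval 1 * Complex.I := by
    refine h1.unique (h4.congr_of_eventuallyEq (Filter.Eventually.of_forall fun θ => ?_))
    exact hg θ
  have h6 : g 0 = P.eval 1 := by
    have := hg 0
    simpa using this
  have h7 : P.eval 1 = ∑ k ∈ Finset.range (2 * m + 1), P.coeff k := by
    rw [Polynomial.eval_eq_sum_range' (Nat.lt_succ_of_le hdeg)]
    simp
  have h8 : P.derivative.eval 1 = ∑ k ∈ Finset.range (2 * m + 1), (k : ℂ) * P.coeff k := by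
    rw [Polynomial.derivative_eval, Polynomial.sum_over_range' _ _ (2 * m + 1)
      (Nat.lt_succ_of_le hdeg)]
    · simp [mul_comm]
    · simp
  have h9 : v = ∑ k ∈ Finset.range (2 * m + 1), (Complex.I * ((k : ℂ) - m)) * P.coeff k := by
    have : v = P.derivative.eval 1 * Complex.I - Complex.I * m * g 0 := by
      rw [← h5]; ring
    rw [this, h6, h7, h8, Finset.sum_mul, Finset.mul_sum, ← Finset.sum_sub_distrib]
    refine Finset.sum_congr rfl fun k _ => ?_
    ring
  rw [h9]
  refine (norm_sum_le _ _).trans ?_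
  have h10 : ∀ k ∈ Finset.range (2 * m + 1), ‖(Complex.I * ((k : ℂ) - m)) * P.coeff k‖ ≤
      |(k : ℝ) - m| * M := by
    intro k _
    rw [norm_mul, norm_mul, Complex.norm_I, one_mul]
    have : ‖((k : ℂ) - m)‖ = |(k : ℝ) - m| := by
      rw [← Real.norm_eq_abs, ← Complex.norm_real]
      push_cast
      rfl
    rw [this]
    exact mul_le_mul_of_nonneg_left (coeff_bound P hM k) (abs_nonneg _)
  refine (Finset.sum_le_sum h10).trans ?_
  rw [← Finset.sum_mul, sum_abs_sub]

theorem eval_homog {m : ℕ} {F : MvPolynomial (Fin N) ℂ} (hF : F.IsHomogeneous m) (z : ℂ)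
    (y : Fin N → ℂ) :
    MvPolynomial.eval (fun l => z * y l) F = z ^ m * MvPolynomial.eval y F := by
  rw [MvPolynomial.eval_eq, MvPolynomial.eval_eq, Finset.mul_sum]
  refine Finset.sum_congr rfl fun d hd => ?_
  have h1 := hF.degree_eq_sum_deg_support hd
  simp_rw [mul_pow]
  rw [Finset.prod_mul_distrib, Finset.prod_pow_eq_pow_sum]
  have h2 : ∑ i ∈ d.support, d i = m := h1.symm
  rw [h2]
  ring

/-- rotation in the `(i,j)`-plane -/
def rotn (i j : Fin N) (θ : ℝ) (x : E N) : E N :=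
  x + (Real.cos θ - 1) • (x i • ee i + x j • ee j) + Real.sin θ • (x i • ee j - x j • ee i)

theorem rotn_apply {i j : Fin N} (hij : i ≠ j) (θ : ℝ) (x : E N) (l : Fin N) :
    rotn i j θ x l = if l = i then Real.cos θ * x i - Real.sin θ * x j
      else if l = j then Real.cos θ * x j + Real.sin θ * x i else x l := by
  unfold rotn ee
  simp only [PiLp.add_apply, PiLp.smul_apply, PiLp.sub_apply, PiLp.single_apply,
    smul_eq_mul]
  by_cases h1 : l = i
  · subst h1
    simp only [hij, if_true, if_false]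
    ring
  · by_cases h2 : l = j
    · subst h2
      simp only [h1, if_true, if_false]
      ring
    · simp only [h1, h2, if_false]
      ring

theorem norm_rotn {i j : Fin N} (hij : i ≠ j) (θ : ℝ) (x : E N) : ‖rotn i j θ x‖ = ‖x‖ := by
  rw [EuclideanSpace.norm_eq, EuclideanSpace.norm_eq]
  congr 1
  rw [← sub_eq_zero, ← Finset.sum_sub_distrib]
  rw [Fintype.sum_eq_add i j hij]
  · rw [rotn_apply hij, rotn_apply hij]
    simp only [if_true, hij.symm, if_false, Real.norm_eq_abs, sq_abs]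
    linear_combination (x i ^ 2 + x j ^ 2) * Real.sin_sq_add_cos_sq θ
  · intro l hl
    rw [rotn_apply hij]
    simp [hl.1, hl.2]

theorem rotn_hasDerivAt (i j : Fin N) (x : E N) :
    HasDerivAt (fun θ => rotn i j θ x) (x i • ee j - x j • ee i) 0 := by
  unfold rotn
  have h1 : HasDerivAt (fun θ : ℝ => (Real.cos θ - 1) • (x i • ee i + x j • ee j : E N)) 0 0 := by
    have := ((Real.hasDerivAt_cos 0).sub_const 1).smul_const (x i • ee i + x j • ee j : E N)
    simpa using this
  have h2 : HasDerivAt (fun θ : ℝ => Real.sin θ • (x i • ee j - x j • ee i : E N))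
      (x i • ee j - x j • ee i) 0 := by
    have := (Real.hasDerivAt_sin 0).smul_const (x i • ee j - x j • ee i : E N)
    simpa using this
  have h3 := ((hasDerivAt_const (0:ℝ) x).add h1).add h2
  refine h3.congr_deriv ?_
  simp

end Sph1Aux

open Sph1Aux

/-- `θ ↦ p(R_θ x)` is a trigonometric polynomial of degree at most `m`, bounded by `M`, hence its
derivative is at most `∑_{|k| ≤ m} |k| M = m(m+1) M`. -/
theorem rot_bound {m : ℕ} {p : E N → ℂ} (hp : p ∈ Hom N m) {M : ℝ}
    (hM : ∀ x : E N, ‖x‖ = 1 → ‖p x‖ ≤ M) (i j : Fin N) :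
    ∀ x : E N, ‖x‖ = 1 → ‖rot i j p x‖ ≤ m * (m + 1) * M := by
  intro x hx
  have hM0 : 0 ≤ M := (norm_nonneg _).trans (hM x hx)
  by_cases hij : i = j
  · subst hij
    unfold rot
    rw [sub_self, map_zero, norm_zero]
    positivity
  have hpd : DifferentiableAt ℝ p x := (hom_contDiff hp).differentiable (by simp) x
  have hR0 : rotn i j 0 x = x := by simp [rotn]
  have hv : HasDerivAt (fun θ : ℝ => p (rotn i j θ x)) (rot i j p x) 0 := by
    have h1 : HasFDerivAt p (fderiv ℝ p x) (rotn i j 0 x) := by rw [hR0]; exact hpd.hasFDerivAt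
    exact h1.comp_hasDerivAt (0:ℝ) (rotn_hasDerivAt i j x)
  obtain ⟨F, hF, hFp⟩ := hp
  set L : Fin N → ℂ[X] := fun l =>
    if l = i then Polynomial.C ((x i : ℂ) / 2) * (Polynomial.X ^ 2 + 1)
      - Polynomial.C ((x j : ℂ) / (2 * Complex.I)) * (Polynomial.X ^ 2 - 1)
    else if l = j then Polynomial.C ((x j : ℂ) / 2) * (Polynomial.X ^ 2 + 1)
      + Polynomial.C ((x i : ℂ) / (2 * Complex.I)) * (Polynomial.X ^ 2 - 1)
    else Polynomial.C (x l : ℂ) * Polynomial.X with hL
  have hLdeg : ∀ l, (L l).natDegree ≤ 2 := by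
    intro l
    simp only [hL]
    split_ifs
    · compute_degree
    · compute_degree
    · compute_degree
      norm_num
  set P : ℂ[X] := MvPolynomial.aeval L F with hP
  have hPdeg : P.natDegree ≤ 2 * m := by
    rw [mul_comm]
    exact MvPolynomial.aeval_natDegree_le F hF.totalDegree_le L hLdeg
  have hLe : ∀ (θ : ℝ) (l : Fin N), (L l).eval (Complex.exp (Complex.I * θ)) =
      Complex.exp (Complex.I * θ) * ((rotn i j θ x l : ℝ) : ℂ) := by
    intro θ l
    rw [rotn_apply hij]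
    have hz : Complex.exp (Complex.I * θ) = Complex.cos θ + Complex.sin θ * Complex.I := by
      rw [mul_comm, Complex.exp_mul_I]
    have hcs := Complex.sin_sq_add_cos_sq (θ : ℂ)
    have hI := Complex.I_sq
    have e1 : Complex.exp (Complex.I * θ) ^ 2 + 1 =
        2 * Complex.cos θ * Complex.exp (Complex.I * θ) := by
      rw [hz]
      linear_combination (-1) * hcs + Complex.sin θ ^ 2 * hI
    have e2 : Complex.exp (Complex.I * θ) ^ 2 - 1 =
        2 * Complex.sin θ * Complex.I * Complex.exp (Complex.I * θ) := by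
      rw [hz]
      linear_combination hcs - Complex.sin θ ^ 2 * hI
    have hI0 := Complex.I_ne_zero
    simp only [hL]
    split_ifs
    · simp only [Polynomial.eval_sub, Polynomial.eval_mul, Polynomial.eval_C, Polynomial.eval_add,
        Polynomial.eval_pow, Polynomial.eval_X, Polynomial.eval_one]
      rw [e1, e2]
      push_cast
      field_simp
    · simp only [Polynomial.eval_sub, Polynomial.eval_mul, Polynomial.eval_C, Polynomial.eval_add,
        Polynomial.eval_pow, Polynomial.eval_X, Polynomial.eval_one]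
      rw [e1, e2]
      push_cast
      field_simp
    · simp only [Polynomial.eval_mul, Polynomial.eval_C, Polynomial.eval_X]
      ring
  have hg : ∀ θ : ℝ, Complex.exp (Complex.I * m * θ) * p (rotn i j θ x) =
      P.eval (Complex.exp (Complex.I * θ)) := by
    intro θ
    have h1 : P.eval (Complex.exp (Complex.I * θ)) =
        MvPolynomial.eval (fun l => (L l).eval (Complex.exp (Complex.I * θ))) F := by
      have h2 := MvPolynomial.map_aeval L (Polynomial.evalRingHom (Complex.exp (Complex.I * θ))) F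
      have h3 : (Polynomial.evalRingHom (Complex.exp (Complex.I * θ))).comp
          (algebraMap ℂ ℂ[X]) = RingHom.id ℂ := by
        ext a; simp
      rw [h3] at h2
      exact h2
    rw [h1]
    simp_rw [hLe θ]
    rw [eval_homog hF, hFp]
    congr 1
    rw [← Complex.exp_nat_mul]
    congr 1
    ring
  refine trig_bound m P hPdeg (fun z hz => ?_) hg hv
  have hz' : z = Complex.exp (Complex.I * (Complex.arg z : ℝ)) := by
    have := Complex.norm_mul_exp_arg_mul_I z
    rw [hz, Complex.ofReal_one, one_mul, mul_comm] at this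
    exact this.symm
  rw [hz', ← hg, norm_mul]
  have h1 : ‖Complex.exp (Complex.I * m * (Complex.arg z : ℝ))‖ = 1 := by
    rw [show Complex.I * m * (Complex.arg z : ℝ) = ((m * Complex.arg z : ℝ) : ℂ) * Complex.I by
      push_cast; ring]
    exact Complex.norm_exp_ofReal_mul_I _
  rw [h1, one_mul]
  exact hM _ (by rw [norm_rotn hij, hx])

namespace Sph1Aux

theorem sum_coord (x : E N) : ∑ j : Fin N, (x j) • (ee j : E N) = x := by
  ext l
  simp [ee, Pi.single_apply]

theorem ee_eq {x : E N} (hx : ‖x‖ = 1) (j : Fin N) :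
    (ee j : E N) = ∑ i : Fin N, x i • (x i • ee j - x j • ee i) + x j • x := by
  have h1 : ∑ i : Fin N, x i ^ 2 = 1 := by
    have := EuclideanSpace.norm_sq_eq x
    rw [hx] at this
    simpa using this.symm
  have h2 : ∑ i : Fin N, x i • (x i • ee j - x j • ee i) =
      (∑ i : Fin N, x i ^ 2) • (ee j : E N) - x j • ∑ i : Fin N, x i • (ee i : E N) := by
    rw [Finset.sum_smul, Finset.smul_sum, ← Finset.sum_sub_distrib]
    refine Finset.sum_congr rfl fun i _ => ?_
    rw [smul_sub, smul_smul, smul_smul, smul_smul, sq, mul_comm (x i) (x j)]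
  rw [h2, h1, sum_coord, one_smul, sub_add_cancel]

theorem fderiv_ee_bound {m : ℕ} {p : E N → ℂ} (hp : p ∈ Hom N m) {M : ℝ}
    (hM : ∀ x : E N, ‖x‖ = 1 → ‖p x‖ ≤ M) {x : E N} (hx : ‖x‖ = 1) (j : Fin N) :
    ‖fderiv ℝ p x (ee j)‖ ≤ (N + 1) * (m + 1) ^ 2 * M := by
  have hM0 : 0 ≤ M := (norm_nonneg _).trans (hM x hx)
  have hc : ∀ i : Fin N, ‖x i‖ ≤ 1 := fun i => (PiLp.norm_apply_le x i).trans hx.le
  have h1 : fderiv ℝ p x (ee j) = ∑ i : Fin N, x i • rot i j p x + x j • ((m : ℂ) * p x) := by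
    conv_lhs => rw [ee_eq hx j]
    rw [map_add, map_sum, map_smul, hom_euler hp]
    simp only [map_smul]
    rfl
  rw [h1]
  have h2 : ‖∑ i : Fin N, x i • rot i j p x‖ ≤ N * (m * (m + 1) * M) := by
    refine (norm_sum_le _ _).trans ?_
    calc ∑ i : Fin N, ‖x i • rot i j p x‖ ≤ ∑ _i : Fin N, (m * (m + 1) * M : ℝ) := by
          refine Finset.sum_le_sum fun i _ => ?_
          rw [norm_smul]
          calc ‖x i‖ * ‖rot i j p x‖ ≤ 1 * (m * (m + 1) * M) := by
                exact mul_le_mul (hc i) (rot_bound hp hM i j x hx) (norm_nonneg _) zero_le_one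
            _ = _ := one_mul _
      _ = N * (m * (m + 1) * M) := by simp
  have h3 : ‖x j • ((m : ℂ) * p x)‖ ≤ m * M := by
    rw [norm_smul, norm_mul, Complex.norm_natCast]
    calc ‖x j‖ * (m * ‖p x‖) ≤ 1 * (m * M) := by
          refine mul_le_mul (hc j) ?_ (by positivity) zero_le_one
          exact mul_le_mul_of_nonneg_left (hM x hx) (Nat.cast_nonneg m)
      _ = _ := one_mul _
  refine (norm_add_le _ _).trans ((add_le_add h2 h3).trans ?_)
  have hm : (0 : ℝ) ≤ m := Nat.cast_nonneg m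
  have hN : (0 : ℝ) ≤ N := Nat.cast_nonneg N
  have h4 : (N * (m * (m + 1)) + m : ℝ) ≤ (N + 1) * (m + 1) ^ 2 := by nlinarith [mul_nonneg hN hm]
  calc (N * (m * (m + 1) * M) + m * M : ℝ) = (N * (m * (m + 1)) + m) * M := by ring
    _ ≤ _ := mul_le_mul_of_nonneg_right h4 hM0

theorem fderiv_bound {m : ℕ} {p : E N → ℂ} (hp : p ∈ Hom N m) {M : ℝ}
    (hM : ∀ x : E N, ‖x‖ = 1 → ‖p x‖ ≤ M) {x : E N} (hx : ‖x‖ = 1) :
    ‖fderiv ℝ p x‖ ≤ N * (N + 1) * (m + 1) ^ 2 * M := by
  have hM0 : 0 ≤ M := (norm_nonneg _).trans (hM x hx)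
  refine ContinuousLinearMap.opNorm_le_bound _ (by positivity) fun v => ?_
  conv_lhs => rw [← sum_coord v, map_sum]
  refine (norm_sum_le _ _).trans ?_
  calc ∑ i : Fin N, ‖fderiv ℝ p x (v i • ee i)‖
      ≤ ∑ _i : Fin N, ‖v‖ * ((N + 1) * (m + 1) ^ 2 * M) := by
        refine Finset.sum_le_sum fun i _ => ?_
        rw [map_smul, norm_smul]
        exact mul_le_mul (PiLp.norm_apply_le v i) (fderiv_ee_bound hp hM hx i) (norm_nonneg _)
          (norm_nonneg _)
    _ = N * (N + 1) * (m + 1) ^ 2 * M * ‖v‖ := by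
        simp only [Finset.sum_const, Finset.card_univ, Fintype.card_fin, nsmul_eq_mul]
        ring

theorem fderiv_bound_ball {m : ℕ} {p : E N → ℂ} (hp : p ∈ Hom N (m + 1)) {K : ℝ}
    (hK : ∀ x : E N, ‖x‖ = 1 → ‖fderiv ℝ p x‖ ≤ K) {x : E N} (hx0 : x ≠ 0) (hx : ‖x‖ ≤ 1) :
    ‖fderiv ℝ p x‖ ≤ K := by
  set t : ℝ := ‖x‖ with ht
  have ht0 : 0 < t := norm_pos_iff.mpr hx0
  set u : E N := t⁻¹ • x with hu
  have hu1 : ‖u‖ = 1 := by
    rw [hu, norm_smul, norm_inv, ← ht, Real.norm_of_nonneg ht0.le, inv_mul_cancel₀ ht0.ne']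
  have hx' : x = t • u := by rw [hu, smul_smul, mul_inv_cancel₀ ht0.ne', one_smul]
  have hd : Differentiable ℝ p := (hom_contDiff hp).differentiable (by simp)
  have h1 : HasFDerivAt (fun y : E N => p (t • y))
      ((fderiv ℝ p (t • u)).comp (t • ContinuousLinearMap.id ℝ (E N))) u :=
    (hd (t • u)).hasFDerivAt.comp u ((hasFDerivAt_id u).const_smul t)
  have h2 : HasFDerivAt (fun y : E N => p (t • y)) (((t ^ (m + 1) : ℝ) : ℂ) • fderiv ℝ p u) u := by
    have h3 : (fun y : E N => p (t • y)) = fun y => ((t ^ (m + 1) : ℝ) : ℂ) * p y := by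
      funext y; exact hom_smul hp t y
    rw [h3]
    exact (hd u).hasFDerivAt.const_smul ((t ^ (m + 1) : ℝ) : ℂ)
  have h3 := h1.unique h2
  have h4 : t • fderiv ℝ p (t • u) = ((t ^ (m + 1) : ℝ) : ℂ) • fderiv ℝ p u := by
    rw [← h3]; ext v; simp
  have h5 : t * ‖fderiv ℝ p (t • u)‖ = t ^ (m + 1) * ‖fderiv ℝ p u‖ := by
    have := congrArg norm h4
    rw [norm_smul, norm_smul, Complex.norm_real, Real.norm_of_nonneg ht0.le,
      Real.norm_of_nonneg (by positivity)] at this
    exact this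
  have h6 : ‖fderiv ℝ p (t • u)‖ = t ^ m * ‖fderiv ℝ p u‖ := by
    have : t * ‖fderiv ℝ p (t • u)‖ = t * (t ^ m * ‖fderiv ℝ p u‖) := by rw [h5]; ring
    exact mul_left_cancel₀ ht0.ne' this
  rw [hx', h6]
  calc t ^ m * ‖fderiv ℝ p u‖ ≤ 1 * ‖fderiv ℝ p u‖ :=
        mul_le_mul_of_nonneg_right (pow_le_one₀ ht0.le hx) (norm_nonneg _)
    _ ≤ K := by rw [one_mul]; exact hK u hu1

theorem fderiv_bound_ball' {m : ℕ} {p : E N → ℂ} (hp : p ∈ Hom N (m + 1)) {K : ℝ}
    (hK : ∀ x : E N, ‖x‖ = 1 → ‖fderiv ℝ p x‖ ≤ K) {e : E N} (he : ‖e‖ = 1) {x : E N}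
    (hx : ‖x‖ ≤ 1) : ‖fderiv ℝ p x‖ ≤ K := by
  by_cases hx0 : x = 0
  · subst hx0
    have hc : Continuous (fun t : ℝ => ‖fderiv ℝ p (t • e)‖) :=
      (((hom_contDiff hp).continuous_fderiv (by simp)).comp
        (continuous_id.smul continuous_const)).norm
    have h1 : Filter.Tendsto (fun n : ℕ => ‖fderiv ℝ p ((1 / ((n : ℝ) + 1)) • e)‖) Filter.atTop
        (𝓝 ‖fderiv ℝ p ((0 : ℝ) • e)‖) :=
      (hc.tendsto 0).comp tendsto_one_div_add_atTop_nhds_zero_nat
    rw [zero_smul] at h1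
    refine le_of_tendsto' h1 fun n => ?_
    have hn : (0 : ℝ) < 1 / ((n : ℝ) + 1) := by positivity
    have he0 : e ≠ 0 := by
      rintro rfl
      rw [norm_zero] at he; exact zero_ne_one he
    refine fderiv_bound_ball hp hK (smul_ne_zero hn.ne' he0) ?_
    rw [norm_smul, he, mul_one, Real.norm_of_nonneg hn.le, div_le_one (by positivity)]
    linarith [(Nat.cast_nonneg n : (0:ℝ) ≤ n)]
  · exact fderiv_bound_ball hp hK hx0 hx

end Sph1Aux

/-- Lipschitz bound on the unit ball, from `∂_j p = x_j Θ p + ∑_i x_i (x_i ∂_j - x_j ∂_i) p` on the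
unit sphere and homogeneity -/
theorem hom_lip (N : ℕ) : ∃ C : ℝ, 0 ≤ C ∧ ∀ (m : ℕ) (p : E N → ℂ), p ∈ Hom N m → ∀ M : ℝ,
    (∀ x : E N, ‖x‖ = 1 → ‖p x‖ ≤ M) → ∀ x y : E N, ‖x‖ ≤ 1 → ‖y‖ ≤ 1 →
      ‖p x - p y‖ ≤ C * (m + 1) ^ 2 * M * ‖x - y‖ := by
  refine ⟨N * (N + 1), by positivity, fun m p hp M hM x y hx hy => ?_⟩
  rcases Nat.eq_zero_or_pos N with hN | hN
  · subst hN
    have : x = y := Subsingleton.elim _ _
    simp [this]
  have he : ‖(ee ⟨0, hN⟩ : E N)‖ = 1 := by simp [ee]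
  have hM0 : 0 ≤ M := (norm_nonneg _).trans (hM _ he)
  cases m with
  | zero =>
    have h0 : ∀ z : E N, p z = p 0 := by
      intro z
      have := hom_smul hp 0 z
      simpa using this.symm
    rw [h0 x, h0 y, sub_self, norm_zero]
    positivity
  | succ m =>
    have hd : Differentiable ℝ p := (hom_contDiff hp).differentiable (by simp)
    have hK : ∀ z : E N, ‖z‖ = 1 → ‖fderiv ℝ p z‖ ≤ N * (N + 1) * (((m + 1 : ℕ) : ℝ) + 1) ^ 2 * M :=
      fun z hz => fderiv_bound hp hM hz
    have := (convex_closedBall (0 : E N) 1).norm_image_sub_le_of_norm_fderiv_le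
      (f := p) (𝕜 := ℝ) (fun z _ => hd z)
      (fun z hz => fderiv_bound_ball' hp hK he (mem_closedBall_zero_iff.1 hz))
      (mem_closedBall_zero_iff.2 hy) (mem_closedBall_zero_iff.2 hx)
    exact this

end KaSch
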